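import Mathlib

set_option autoImplicit false

namespace Pool.Agent.H1.ApproxField

open Pointwise

variable {F : Type*} [Field F]

def Cov (X Y : Set F) : Prop := ∃ T : Set F, T.Finite ∧ Y ⊆ T + X

theorem Cov.mono {X Y Z : Set F} (h : Cov X Z) (hy : Y ⊆ Z) : Cov X Y := by
  obtain ⟨T, hT, h⟩ := h
  exact ⟨T, hT, hy.trans h⟩

theorem Cov.add {X Y Z E : Set F} (hE : E.Finite) (hX : X + X ⊆ E + X) (h : Cov X Y)
    (h' : Cov X Z) : Cov X (Y + Z) := by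
  obtain ⟨T, hT, h⟩ := h
  obtain ⟨T', hT', h'⟩ := h'
  refine ⟨T + T' + E, (hT.add hT').add hE, (Set.add_subset_add h h').trans ?_⟩
  rw [add_add_add_comm, add_assoc (T + T')]
  exact Set.add_subset_add_left hX

theorem Cov.smul {X Y : Set F} {c : F} (hc : Cov X (c • X)) (h : Cov X Y) : Cov X (c • Y) := by
  obtain ⟨T, hT, h⟩ := h
  obtain ⟨T', hT', h'⟩ := hc
  refine ⟨c • T + T', hT.smul_set.add hT', ?_⟩
  rintro _ ⟨y, hy, rfl⟩
  obtain ⟨t, ht, x, hx, rfl⟩ := h hy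
  obtain ⟨t', ht', x', hx', e⟩ := h' (Set.smul_mem_smul_set hx)
  refine ⟨c • t + t', Set.add_mem_add (Set.smul_mem_smul_set ht) ht', x', hx', ?_⟩
  simp only [smul_eq_mul] at e ⊢
  linear_combination e

theorem main (X E : Set F) (hneg : ∀ x ∈ X, -x ∈ X) (h0 : (0 : F) ∈ X) (h1 : (1 : F) ∈ X)
    (hinv : ∀ x ∈ X, x⁻¹ ∈ X) (hE : E.Finite) (hm : X * X + X ⊆ E * X) (ha : X * X + X ⊆ E + X)
    (hinf : X.Infinite) : Cov X (Subfield.closure X : Set F) := by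
  have hXX : X + X ⊆ X * X + X :=
    Set.add_subset_add_right fun x hx => ⟨x, hx, 1, h1, mul_one x⟩
  have hXa : X + X ⊆ E + X := hXX.trans ha
  have hMa : X * X ⊆ E + X := fun x hx => ha ⟨x, hx, 0, h0, add_zero x⟩
  let C : Subring F :=
    { carrier := {y | Cov X (y • X)}
      mul_mem' := fun {a b} ha hb => by
        have := Cov.smul ha hb
        rwa [smul_smul] at this
      one_mem' := ⟨{0}, Set.finite_singleton _, by simp⟩
      add_mem' := fun {a b} ha hb => (Cov.add hE hXa ha hb).mono (Set.add_smul_subset _ _ _)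
      zero_mem' := ⟨{0}, Set.finite_singleton _, by
        rintro _ ⟨x, -, rfl⟩; simpa using h0⟩
      neg_mem' := fun {a} ha => Cov.mono ha (by
        rintro _ ⟨x, hx, rfl⟩
        exact ⟨-x, hneg x hx, by simp⟩) }
  have hXC : ∀ x ∈ X, x ∈ C := fun x hx =>
    ⟨E, hE, fun _ ⟨y, hy, e⟩ => hMa ⟨x, hx, y, hy, e⟩⟩
  have hdiff : ∀ a ∈ X, ∀ b ∈ X, ∃ e ∈ E, ∃ x ∈ X, a - b = e * x := by
    intro a ha b hb
    obtain ⟨e, he, x, hx, h⟩ := hm (hXX ⟨a, ha, -b, hneg b hb, rfl⟩)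
    exact ⟨e, he, x, hx, by simp only at h; rw [h]; ring⟩
  have hstruct : ∀ y ∈ C, y ≠ 0 → ∃ e ∈ E, ∃ e' ∈ E, e ∈ C ∧ e' ∈ C ∧ e ≠ 0 ∧ e' ≠ 0 ∧
      ∃ x ∈ X, ∃ x' ∈ X, x ≠ 0 ∧ x' ≠ 0 ∧ y = e / e' * (x * x') := by
    rintro y ⟨T, hT, hy⟩ hy0
    have : ∀ x : X, ∃ t : T, ∃ z ∈ X, t + z = y * x := by
      intro x
      obtain ⟨t, ht, z, hz, e⟩ := hy (Set.smul_mem_smul_set x.2)
      exact ⟨⟨t, ht⟩, z, hz, e⟩
    choose f hf using this
    have := hinf.to_subtype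
    have := hT.to_subtype
    obtain ⟨a, b, hab, hfab⟩ := Finite.exists_ne_map_eq_of_infinite f
    obtain ⟨z, hz, e1⟩ := hf a
    obtain ⟨z', hz', e2⟩ := hf b
    obtain ⟨e, he, x, hx, e3⟩ := hdiff z hz z' hz'
    obtain ⟨e', he', x', hx', e4⟩ := hdiff a a.2 b b.2
    have hab' : (a : F) - b ≠ 0 := sub_ne_zero.2 fun h => hab (Subtype.ext h)
    have e5 : y * (a - b) = e * x := by rw [hfab] at e1; linear_combination e2 - e1 + e3
    have hex : e * x ≠ 0 := e5 ▸ mul_ne_zero hy0 hab'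
    have hex' : e' * x' ≠ 0 := e4 ▸ hab'
    have hx0 := right_ne_zero_of_mul hex
    have hx0' := right_ne_zero_of_mul hex'
    have he0 := left_ne_zero_of_mul hex
    have he0' := left_ne_zero_of_mul hex'
    have habC : (a : F) - b ∈ C := C.sub_mem (hXC _ a.2) (hXC _ b.2)
    refine ⟨e, he, e', he', ?_, ?_, he0, he0', x, hx, x'⁻¹, hinv _ hx', hx0, inv_ne_zero hx0', ?_⟩
    · have : e = y * (a - b) * x⁻¹ := by rw [e5]; field_simp
      rw [this]
      exact C.mul_mem (C.mul_mem ⟨T, hT, hy⟩ habC) (hXC _ (hinv _ hx))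
    · have : e' = (a - b) * x'⁻¹ := by rw [e4]; field_simp
      rw [this]
      exact C.mul_mem habC (hXC _ (hinv _ hx'))
    · rw [e4] at e5
      field_simp
      linear_combination e5
  have hCinv : ∀ y ∈ C, y⁻¹ ∈ C := by
    intro y hy
    by_cases hy0 : y = 0
    · rw [hy0, inv_zero]; exact C.zero_mem
    have : ∀ k : ℕ, ∃ p : E × E, ∃ u, u ≠ 0 ∧ u ∈ C ∧ u⁻¹ ∈ C ∧ y ^ k = p.1 / p.2 * u := by
      intro k
      obtain ⟨e, he, e', he', -, -, -, -, x, hx, x', hx', h1, h2, h3⟩ :=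
        hstruct (y ^ k) (C.pow_mem hy k) (pow_ne_zero k hy0)
      refine ⟨(⟨e, he⟩, ⟨e', he'⟩), x * x', mul_ne_zero h1 h2, C.mul_mem (hXC _ hx) (hXC _ hx'),
        ?_, h3⟩
      rw [mul_inv]
      exact C.mul_mem (hXC _ (hinv _ hx)) (hXC _ (hinv _ hx'))
    choose f hf using this
    have := hE.to_subtype
    have key : ∀ i j : ℕ, i < j → f i = f j → y⁻¹ ∈ C := by
      intro i j hij hfij
      obtain ⟨u, hu0, hu, -, e1⟩ := hf i
      obtain ⟨v, hv0, -, hv, e2⟩ := hf j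
      obtain ⟨d, rfl⟩ := Nat.exists_eq_add_of_lt hij
      rw [← hfij] at e2
      have hc : ((f i).1 : F) / (f i).2 ≠ 0 := by
        intro h; rw [h, zero_mul] at e1; exact pow_ne_zero i hy0 e1
      have e3 : u * y ^ (d + 1) = v := by
        apply mul_left_cancel₀ hc
        rw [← e2, ← mul_assoc, ← e1]; ring
      have : y⁻¹ = u * y ^ d * v⁻¹ := by
        rw [← e3]; field_simp; ring
      rw [this]
      exact C.mul_mem (C.mul_mem hu (C.pow_mem hy d)) hv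
    obtain ⟨i, j, hij, hfij⟩ := Finite.exists_ne_map_eq_of_infinite f
    rcases lt_or_gt_of_ne hij with h | h
    · exact key i j h hfij
    · exact key j i h hfij.symm
  let K : Subfield F := { C with inv_mem' := hCinv }
  have hK : (Subfield.closure X : Set F) ⊆ K := Subfield.closure_le.2 hXC
  refine Cov.mono ?_ hK
  have hfin : ∀ p : E × E, ∃ T : Set F, T.Finite ∧
      ((p.1 : F) ∈ C → (p.2 : F) ∈ C → ((p.1 : F) / p.2) • (X * X) ⊆ T + X) := by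
    intro p
    by_cases h : (p.1 : F) ∈ C ∧ (p.2 : F) ∈ C
    · have hc : (p.1 : F) / p.2 ∈ C := by
        rw [div_eq_mul_inv]; exact C.mul_mem h.1 (hCinv _ h.2)
      obtain ⟨T, hT, h'⟩ := Cov.smul hc ⟨E, hE, hMa⟩
      exact ⟨T, hT, fun _ _ => h'⟩
    · exact ⟨∅, Set.finite_empty, fun a b => absurd ⟨a, b⟩ h⟩
  choose T hT using hfin
  have := hE.to_subtype
  refine ⟨insert 0 (⋃ p, T p), (Set.finite_iUnion fun p => (hT p).1).insert 0, ?_⟩
  intro y hy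
  by_cases hy0 : y = 0
  · exact ⟨0, Set.mem_insert _ _, 0, h0, by simp [hy0]⟩
  obtain ⟨e, he, e', he', h1, h2, -, -, x, hx, x', hx', -, -, h3⟩ := hstruct y hy hy0
  obtain ⟨t, ht, z, hz, h4⟩ := (hT (⟨e, he⟩, ⟨e', he'⟩)).2 h1 h2
    ⟨x * x', Set.mul_mem_mul hx hx', h3.symm⟩
  exact ⟨t, Set.mem_insert_of_mem _ (Set.mem_iUnion.2 ⟨_, ht⟩), z, hz, h4⟩

end Pool.Agent.H1.ApproxField
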