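import Mathlib

namespace Pool.Agent.H1.Bic

open Finset

lemma ub {ι γ J : Type} [Fintype ι] [DecidableEq ι] [Fintype γ] [DecidableEq γ] [Nonempty γ]
    (I : Finset J) (S : J → Finset ι) (P : J → Finset γ)
    (h : ∑ j ∈ I, ((P j).card / Fintype.card γ : ℝ) ^ (S j).card < 1) :
    ∃ f : ι → γ, ∀ j ∈ I, ∃ i ∈ S j, f i ∉ P j := by
  by_contra hc
  push Not at hc
  have c0 : (0 : ℝ) < Fintype.card γ := by exact_mod_cast Fintype.card_pos
  have sub : (univ : Finset (ι → γ)) ⊆
      I.biUnion (fun j => Fintype.piFinset (fun i => if i ∈ S j then P j else univ)) := by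
    intro f _
    obtain ⟨j, hj, a⟩ := hc f
    refine mem_biUnion.2 ⟨j, hj, Fintype.mem_piFinset.2 fun i => ?_⟩
    split_ifs with b
    · exact a i b
    · exact mem_univ _
  have a1 := (card_le_card sub).trans card_biUnion_le
  have a2 : ((Fintype.card γ : ℝ)) ^ Fintype.card ι ≤ ∑ j ∈ I, (Fintype.card γ : ℝ) ^ Fintype.card ι *
      ((P j).card / Fintype.card γ : ℝ) ^ (S j).card := by
    rw [card_univ, Fintype.card_fun] at a1
    refine le_trans (by exact_mod_cast a1) (le_of_eq (sum_congr rfl fun j _ => ?_) :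
      ∑ j ∈ I, ((Fintype.piFinset (fun i => if i ∈ S j then P j else univ)).card : ℝ) ≤ _)
    rw [Fintype.card_piFinset, Nat.cast_prod, ← card_univ (α := ι), ← prod_const, ← prod_const,
      ← univ_inter (S j), ← prod_ite_mem, ← prod_mul_distrib]
    refine prod_congr rfl fun i _ => ?_
    simp only [univ_inter]
    split_ifs
    · field_simp
    · simp
  rw [← mul_sum] at a2
  have := pow_pos c0 (Fintype.card ι)
  nlinarith

lemma disp (m : ℕ) [NeZero (4 * m)] : ∃ α : Fin (2 ^ m) → Fin (2 * m) → ZMod (4 * m),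
    ∀ U : Fin (2 * m) → Finset (ZMod (4 * m)), ∏ x, (U x).card ≤ (2 * m) ^ (2 * m) →
      ∀ A : Finset (Fin (2 ^ m)), (∀ a ∈ A, ∀ x, α a x ∈ U x) → A.card < 8 * m + 2 := by
  have hm : 0 < m := by have := NeZero.pos (4 * m); omega
  have hm' : (0 : ℝ) < m := by exact_mod_cast hm
  obtain ⟨α, h⟩ := ub (ι := Fin (2 ^ m)) (γ := Fin (2 * m) → ZMod (4 * m))
    ((univ.filter fun U : Fin (2 * m) → Finset (ZMod (4 * m)) =>
      ∏ x, (U x).card ≤ (2 * m) ^ (2 * m)) ×ˢ powersetCard (8 * m + 2) univ)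
    (fun j => j.2) (fun j => Fintype.piFinset j.1) (by
      refine lt_of_le_of_lt (sum_le_card_nsmul _ _ (((1 / 2 : ℝ) ^ (2 * m)) ^ (8 * m + 2)) ?_) ?_
      · rintro ⟨U, A⟩ hj
        simp only [mem_product, mem_filter, mem_univ, true_and, mem_powersetCard] at hj
        simp only [hj.2.2, Fintype.card_piFinset, Fintype.card_fun, ZMod.card, Fintype.card_fin]
        refine pow_le_pow_left₀ (by positivity) ?_ _
        rw [div_le_iff₀ (by positivity)]
        refine le_trans (by exact_mod_cast hj.1 : _ ≤ (((2 * m) ^ (2 * m) : ℕ) : ℝ)) (le_of_eq ?_)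
        push_cast
        rw [← mul_pow]; congr 1; ring
      · have a1 : ((univ.filter fun U : Fin (2 * m) → Finset (ZMod (4 * m)) =>
            ∏ x, (U x).card ≤ (2 * m) ^ (2 * m)) ×ˢ
            powersetCard (8 * m + 2) (univ : Finset (Fin (2 ^ m)))).card ≤
            (2 ^ (4 * m)) ^ (2 * m) * (2 ^ m) ^ (8 * m + 2) := by
          rw [card_product, card_powersetCard]
          refine Nat.mul_le_mul ((card_le_univ _).trans (by simp)) ?_
          simpa using Nat.choose_le_pow (2 ^ m) (8 * m + 2)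
        rw [nsmul_eq_mul]
        refine lt_of_le_of_lt (mul_le_mul_of_nonneg_right (Nat.cast_le.2 a1) (by positivity)) ?_
        push_cast
        rw [one_div, inv_pow, inv_pow, ← div_eq_mul_inv, div_lt_one (by positivity),
          ← pow_mul, ← pow_mul, ← pow_mul, ← pow_add]
        exact pow_lt_pow_right₀ (by norm_num) (by nlinarith))
  refine ⟨α, fun U hU A hA => ?_⟩
  by_contra hc
  obtain ⟨B, b1, b2⟩ := exists_subset_card_eq (not_lt.1 hc)
  obtain ⟨i, i1, i2⟩ := h (U, B) (by simp [hU, b2])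
  exact i2 (Fintype.mem_piFinset.2 (hA i (b1 i1)))

lemma colour (m : ℕ) (D : Finset (Fin (2 ^ m) × Fin (2 ^ m))) :
    ∃ R : Fin (2 ^ m) × Fin (2 ^ m) → Bool, ∀ c X Y, (∀ p ∈ D ∩ X ×ˢ Y, R p = c) →
      (D ∩ X ×ˢ Y).card ≤ (m + 2) * (X.card + Y.card) := by
  let t : ℝ := (1 / 2) ^ (m + 2)
  have t0 : 0 < t := by positivity
  have s1 : ∑ X : Finset (Fin (2 ^ m)), t ^ X.card = (1 + t) ^ 2 ^ m := by
    have := prod_one_add (s := (univ : Finset (Fin (2 ^ m)))) (f := fun _ => t)
    simpa using this.symm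
  have s2 : (1 + t) ^ 2 ^ m ≤ 4 / 3 := by
    have a1 : (1 + t) ^ 2 ^ m ≤ Real.exp t ^ 2 ^ m :=
      pow_le_pow_left₀ (by positivity) (by linarith [Real.add_one_le_exp t]) _
    rw [← Real.exp_nat_mul, show ((2 ^ m : ℕ) : ℝ) * t = 1 / 4 by
      simp only [t]; push_cast; rw [pow_add, ← mul_assoc, ← mul_pow]; norm_num] at a1
    have a2 := Real.add_one_le_exp (-(1 / 4))
    have a3 : Real.exp (1 / 4) * Real.exp (-(1 / 4)) = 1 := by rw [← Real.exp_add]; simp
    nlinarith [Real.exp_pos (1 / 4)]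
  obtain ⟨R, h⟩ := ub (ι := Fin (2 ^ m) × Fin (2 ^ m)) (γ := Bool)
    (((univ : Finset Bool) ×ˢ (univ.erase ∅) ×ˢ univ).filter fun j =>
      (m + 2) * (j.2.1.card + j.2.2.card) < (D ∩ j.2.1 ×ˢ j.2.2).card)
    (fun j => D ∩ j.2.1 ×ˢ j.2.2) (fun j => {j.1}) (by
      refine lt_of_le_of_lt ((sum_le_sum (g := fun j => 1 / 2 * (t ^ j.2.1.card * t ^ j.2.2.card))
        ?_).trans (sum_le_sum_of_subset_of_nonneg (filter_subset _ _) fun _ _ _ => by
          positivity)) ?_
      · intro j hj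
        have := (mem_filter.1 hj).2
        simp only [card_singleton, Fintype.card_bool, Nat.cast_one, Nat.cast_ofNat, t]
        rw [← pow_add, ← pow_mul, ← pow_succ']
        exact pow_le_pow_of_le_one (by norm_num) (by norm_num) this
      · rw [sum_product]
        simp only [sum_const, card_univ, Fintype.card_bool, nsmul_eq_mul, ← mul_sum]
        rw [sum_product' (f := fun X Y : Finset (Fin (2 ^ m)) => t ^ X.card * t ^ Y.card),
          ← sum_mul_sum, sum_erase_eq_sub (mem_univ _), s1]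
        have : 0 < (1 + t) ^ 2 ^ m := by positivity
        simp only [card_empty, pow_zero, Nat.cast_ofNat]
        nlinarith)
  refine ⟨R, fun c X Y hc => ?_⟩
  by_contra hh
  have : X ≠ ∅ := by rintro rfl; simp at hh
  obtain ⟨i, i1, i2⟩ := h (c, X, Y) (mem_filter.2 ⟨by simp [this], not_le.1 hh⟩)
  exact i2 (by simpa using hc i i1)

lemma pop {ι κ γ : Type} [DecidableEq ι] [Fintype κ] [Fintype γ] [DecidableEq γ]
    (α : ι → κ → γ) (A : Finset ι) : ∃ B ⊆ A, A.card ≤ 2 * B.card ∧ ∀ a ∈ B, ∀ x,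
      A.card ≤ 2 * (Fintype.card κ * Fintype.card γ) * (A.filter (fun b => α b x = α a x)).card := by
  classical
  let L := 2 * (Fintype.card κ * Fintype.card γ)
  let p := fun a => ∀ x, A.card ≤ L * (A.filter (fun b => α b x = α a x)).card
  refine ⟨A.filter p, filter_subset _ _, ?_, fun a ha => (mem_filter.1 ha).2⟩
  have e := card_filter_add_card_filter_not (s := A) p
  have sub : A.filter (fun a => ¬ p a) ⊆ (univ.filter fun j : κ × γ =>
      L * (A.filter (fun b => α b j.1 = j.2)).card < A.card).biUnion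
      (fun j => A.filter (fun b => α b j.1 = j.2)) := by
    intro a ha
    obtain ⟨h1, h2⟩ := mem_filter.1 ha
    obtain ⟨x, hx⟩ := not_forall.1 h2
    exact mem_biUnion.2 ⟨(x, α a x), mem_filter.2 ⟨mem_univ _, not_le.1 hx⟩, by simp [h1]⟩
  have a1 := Nat.mul_le_mul_left L ((card_le_card sub).trans card_biUnion_le)
  rw [mul_sum] at a1
  have a2 := a1.trans (sum_le_card_nsmul _ _ A.card fun j hj => (mem_filter.1 hj).2.le)
  have a3 := a2.trans (Nat.mul_le_mul_right _ (card_le_univ _))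
  rw [Fintype.card_prod] at a3
  rcases (A.filter (fun a => ¬ p a)).eq_empty_or_nonempty with h | ⟨a, ha⟩
  · rw [h] at e; simp at e; omega
  · obtain ⟨x, -⟩ := not_forall.1 (mem_filter.1 ha).2
    have : 0 < Fintype.card κ * Fintype.card γ :=
      Nat.mul_pos (Fintype.card_pos_iff.2 ⟨x⟩) (Fintype.card_pos_iff.2 ⟨α a x⟩)
    have : 2 * (A.filter (fun a => ¬ p a)).card ≤ A.card :=
      Nat.le_of_mul_le_mul_left (by simp only [L] at a3; nlinarith) this
    omega

lemma shift {ι : Type} [Fintype ι] (k q : ℕ) [NeZero q] (hq : q = 2 * k)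
    (α : ι → Fin k → ZMod q) :
    ∃ s, 2 * (univ.filter fun p : ι × ι => ∃ x, α p.1 x = α p.2 x + s).card ≤
      Fintype.card ι * Fintype.card ι := by
  by_contra hc
  push Not at hc
  have a1 := sum_lt_sum_of_nonempty univ_nonempty fun s _ => hc s
  have a2 : ∑ s, (univ.filter fun p : ι × ι => ∃ x, α p.1 x = α p.2 x + s).card ≤
      Fintype.card ι * Fintype.card ι * k := by
    simp only [card_filter]
    rw [sum_comm, ← Fintype.card_prod]
    refine sum_le_card_nsmul _ _ _ fun p _ => ?_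
    rw [← card_filter]
    refine le_trans (card_le_card (t := univ.image fun x => α p.1 x - α p.2 x) ?_)
      (card_image_le.trans (by simp))
    intro s hs
    obtain ⟨x, hx⟩ := (mem_filter.1 hs).2
    exact mem_image.2 ⟨x, mem_univ _, by rw [hx]; ring⟩
  rw [sum_const, ← mul_sum, card_univ, ZMod.card, smul_eq_mul] at a1
  subst hq
  nlinarith

end Pool.Agent.H1.Bic
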