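import Mathlib

set_option autoImplicit false

namespace Pool.Agent.H1.BoxEx

open Finset Pointwise

/-- Heisenberg group over the field with two elements. -/
structure He where
  x : Bool
  y : Bool
  g : Bool
  deriving DecidableEq

instance : Mul He := ⟨fun p q => ⟨xor p.x q.x, xor (xor p.y q.y) (p.g && q.x), xor p.g q.g⟩⟩
instance : One He := ⟨⟨false, false, false⟩⟩
instance : Inv He := ⟨fun p => ⟨p.x, xor p.y (p.g && p.x), p.g⟩⟩

instance : Group He :=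
  Group.ofLeftAxioms
    (by rintro ⟨_ | _, _ | _, _ | _⟩ ⟨_ | _, _ | _, _ | _⟩ ⟨_ | _, _ | _, _ | _⟩ <;> rfl)
    (by rintro ⟨_ | _, _ | _, _ | _⟩ <;> rfl) (by rintro ⟨_ | _, _ | _, _ | _⟩ <;> rfl)

abbrev G := He × He × He × He

def o : He := ⟨false, false, false⟩
def a : He := ⟨true, false, false⟩
def b : He := ⟨false, false, true⟩
def z : He := ⟨false, true, false⟩

def LA : List G :=
  [(o,o,o,o), (a,a,o,o), (a,o,a,o), (a,o,o,a), (o,a,a,o), (o,a,o,a), (o,o,a,a), (a,a,a,a)]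
def LB : List G := [(b,o,o,o), (o,b,o,o), (o,o,b,o), (o,o,o,b)]
def LC : List G := [(a,o,o,o), (o,a,o,o), (o,o,a,o), (o,o,o,a)]
def LD : List G := [(o,o,o,o), (o,o,o,b), (o,o,b,o), (o,o,b,b), (o,b,o,o), (o,b,o,b), (o,b,b,o),
  (o,b,b,b), (b,o,o,o), (b,o,o,b), (b,o,b,o), (b,o,b,b), (b,b,o,o), (b,b,o,b), (b,b,b,o), (b,b,b,b)]
def LZ : List G := [(o,o,o,o), (z,o,o,o), (o,z,o,o), (o,o,z,o), (o,o,o,z)]
def LR : List G := LA.flatMap fun x => LZ.map fun w => x * (a,o,o,o) * w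

def SA : Finset G := LA.toFinset
def SB : Finset G := LB.toFinset
def SC : Finset G := LC.toFinset
def SD : Finset G := LD.toFinset
def R : Finset G := LR.toFinset

def p1 (u : He) : He := ⟨u.x, u.y, false⟩
def p2 (u : He) : He := ⟨false, false, u.g⟩
def q1 (u : G) : G := (p1 u.1, p1 u.2.1, p1 u.2.2.1, p1 u.2.2.2)
def q2 (u : G) : G := (p2 u.1, p2 u.2.1, p2 u.2.2.1, p2 u.2.2.2)

theorem n1 : LR.Nodup := by decide +kernel
theorem n2 : LD.Nodup := by decide +kernel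
theorem k1 : R.card = 40 := by rw [R, List.toFinset_card_of_nodup n1]; decide +kernel
theorem k2 : SD.card = 16 := by rw [SD, List.toFinset_card_of_nodup n2]; rfl
theorem k0 : SA.card ≤ 8 := List.toFinset_card_le _
theorem k3 : ∀ r ∈ LR, ∀ d ∈ LD, q1 (r * d) = r ∧ q2 (r * d) = d := by decide +kernel
theorem k4 : ∀ r ∈ LR, ∃ x ∈ LA, ∃ y ∈ LB, ∃ w ∈ LC, r = x * y * w * y := by decide +kernel
theorem k5 : ∀ y ∈ LB, ∀ d ∈ LD, y * d ∈ LD := by decide +kernel
theorem k6 : ∀ y ∈ LB, ∃ u ∈ LC, ∃ v ∈ LC, ∀ x ∈ LA, ∀ w ∈ LC,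
    ∃ x' ∈ LA, x' * (y * u) = x * y * w ∨ x' * (y * v) = x * y * w := by decide +kernel
theorem k7 : ∀ w ∈ LC, ∃ u ∈ LB, ∃ v ∈ LB, ∀ y ∈ LB, ∀ d ∈ LD,
    ∃ d' ∈ LD, (u * w) * d' = y * w * d ∨ (v * w) * d' = y * w * d := by decide +kernel

set_option maxRecDepth 10000 in
theorem h1 : 640 ≤ (SA * SB * SC * SD).card := by
  have e : (R * SD).card = 640 := by
    rw [Finset.card_mul_iff.2, k1, k2]
    rintro ⟨r, d⟩ hrd ⟨r', d'⟩ hrd' h
    have a1 := k3 r (List.mem_toFinset.1 hrd.1) d (List.mem_toFinset.1 hrd.2)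
    have a2 := k3 r' (List.mem_toFinset.1 hrd'.1) d' (List.mem_toFinset.1 hrd'.2)
    have h' : r * d = r' * d' := h
    rw [h'] at a1
    exact Prod.ext (a1.1.symm.trans a2.1) (a1.2.symm.trans a2.2)
  rw [← e]
  apply card_le_card
  intro g hg
  obtain ⟨r, hr, d, hd, rfl⟩ := mem_mul.1 hg
  obtain ⟨x, hx, y, hy, w, hw, rfl⟩ := k4 r (List.mem_toFinset.1 hr)
  rw [mul_assoc _ y d]
  exact mul_mem_mul (mul_mem_mul (mul_mem_mul (List.mem_toFinset.2 hx) (List.mem_toFinset.2 hy))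
    (List.mem_toFinset.2 hw)) (List.mem_toFinset.2 (k5 y hy d (List.mem_toFinset.1 hd)))

theorem h2 : ∀ y ∈ SB, (SA * {y} * SC).card ≤ 16 := by
  intro y hy
  obtain ⟨u, -, v, -, h⟩ := k6 y (List.mem_toFinset.1 hy)
  have hsub : SA * {y} * SC ⊆ SA * {y * u} ∪ SA * {y * v} := by
    intro g hg
    obtain ⟨r, hr, w, hw, rfl⟩ := mem_mul.1 hg
    obtain ⟨x, hx, y', hy', rfl⟩ := mem_mul.1 hr
    rw [mem_singleton] at hy'; subst hy'
    obtain ⟨x', hx', e | e⟩ := h x (List.mem_toFinset.1 hx) w (List.mem_toFinset.1 hw)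
    · exact mem_union_left _ (e ▸ mul_mem_mul (List.mem_toFinset.2 hx') (mem_singleton_self _))
    · exact mem_union_right _ (e ▸ mul_mem_mul (List.mem_toFinset.2 hx') (mem_singleton_self _))
  refine (card_le_card hsub).trans ((card_union_le _ _).trans ?_)
  rw [card_mul_singleton, card_mul_singleton]
  have := k0
  omega

theorem h3 : ∀ w ∈ SC, (SB * {w} * SD).card ≤ 32 := by
  intro w hw
  obtain ⟨u, -, v, -, h⟩ := k7 w (List.mem_toFinset.1 hw)
  have hsub : SB * {w} * SD ⊆ {u * w} * SD ∪ {v * w} * SD := by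
    intro g hg
    obtain ⟨r, hr, d, hd, rfl⟩ := mem_mul.1 hg
    obtain ⟨y, hy, w', hw', rfl⟩ := mem_mul.1 hr
    rw [mem_singleton] at hw'; subst hw'
    obtain ⟨d', hd', e | e⟩ := h y (List.mem_toFinset.1 hy) d (List.mem_toFinset.1 hd)
    · exact mem_union_left _ (e ▸ mul_mem_mul (mem_singleton_self _) (List.mem_toFinset.2 hd'))
    · exact mem_union_right _ (e ▸ mul_mem_mul (mem_singleton_self _) (List.mem_toFinset.2 hd'))
  refine (card_le_card hsub).trans ((card_union_le _ _).trans ?_)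
  rw [card_singleton_mul, card_singleton_mul, k2]

theorem hA : SA.Nonempty := ⟨(o,o,o,o), List.mem_toFinset.2 (by decide +kernel)⟩
theorem hB : SB.Nonempty := ⟨(b,o,o,o), List.mem_toFinset.2 (by decide +kernel)⟩
theorem hC : SC.Nonempty := ⟨(a,o,o,o), List.mem_toFinset.2 (by decide +kernel)⟩
theorem hD : SD.Nonempty := ⟨(o,o,o,o), List.mem_toFinset.2 (by decide +kernel)⟩

end Pool.Agent.H1.BoxEx
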