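import Mathlib

namespace Pool.Agent.H1.Bram

open SimpleGraph

variable {ι : Type} {T : SimpleGraph ι}

def W (T : SimpleGraph ι) (S : Set ι) (a b : ι) : Prop := ∃ p : T.Walk a b, ∀ v ∈ p.support, v ∈ S

lemma W.symm {S : Set ι} {a b : ι} : W T S a b → W T S b a
  | ⟨p, h⟩ => ⟨p.reverse, by simpa using h⟩

lemma W.trans {S : Set ι} {a b c : ι} : W T S a b → W T S b c → W T S a c
  | ⟨p, h⟩, ⟨q, k⟩ => ⟨p.append q, fun v e => (p.mem_support_append_iff q |>.1 e).elim (h v) (k v)⟩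

lemma W.of {S S' : Set ι} (h : (T.induce S).Connected) (s : S ⊆ S') {a b : ι} (ha : a ∈ S)
    (hb : b ∈ S) : W T S' a b := by
  obtain ⟨p⟩ := h ⟨a, ha⟩ ⟨b, hb⟩
  refine ⟨p.map (Embedding.induce S).toHom, fun v e => ?_⟩
  obtain ⟨x, -, rfl⟩ := List.mem_map.1 ((congrArg (v ∈ ·) (Walk.support_map _ p)).mp e)
  exact s x.2

lemma helly (hT : T.IsTree) {κ : Type} [Finite κ] [Nonempty κ] (S : κ → Set ι)
    (h : ∀ i, ∀ a ∈ S i, ∀ b ∈ S i, W T (S i) a b) (h' : ∀ i j, ∃ x ∈ S i, x ∈ S j) :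
    ∃ t, ∀ i, t ∈ S i := by
  classical
  obtain ⟨r⟩ := hT.1.nonempty
  have : ∀ i, ∃ m ∈ S i, ∀ x ∈ S i, T.dist r m ≤ T.dist r x := fun i =>
    ⟨Function.argminOn (T.dist r) (S i) ((h' i i).imp fun _ => And.left),
      Function.argminOn_mem _ _ _, fun x e => Function.argminOn_le _ _ e⟩
  choose m m1 m2 using this
  obtain ⟨i, hi⟩ := Finite.exists_max fun i => T.dist r (m i)
  refine ⟨m i, fun j => by_contra fun n => ?_⟩
  have g : ∀ v, ∃ p : T.Walk r v, ∀ y ∈ p.support, y ≠ v → T.dist r y < T.dist r v := fun v => by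
    obtain ⟨p, hp⟩ := hT.1.exists_walk_length_eq_dist r v
    exact ⟨p, fun y e n => (dist_le _).trans_lt (hp ▸ p.length_takeUntil_lt_length e n)⟩
  obtain ⟨x, x1, x2⟩ := h' i j
  obtain ⟨p, hp⟩ := g (m i)
  obtain ⟨p', hp'⟩ := g (m j)
  obtain ⟨q, hq⟩ := h i _ (m1 i) x x1
  obtain ⟨q', hq'⟩ := h j _ (m1 j) x x2
  have e : (p.reverse.append (p'.append q')).bypass = q.bypass :=
    congrArg Subtype.val ((hT.2.subsingleton_path _ _).elim (Walk.toPath _) q.toPath)
  have k1 := (p.reverse.append (p'.append q')).edges_bypass_subset_edges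
  have k2 := q.support_bypass_subset_support
  rw [e] at k1
  generalize q.bypass = w at k1 k2
  generalize hm : m i = z at *
  cases w with
  | nil => exact n x2
  | @cons _ y _ a w =>
    have := k1 (List.mem_cons_self ..)
    rw [Walk.edges_append, Walk.edges_reverse, List.mem_append, List.mem_reverse] at this
    obtain e | e := this
    · exact (hp y (p.snd_mem_support_of_mem_edges e) a.ne').not_ge
        (hm ▸ m2 i y (hq y (k2 (by simp))))
    · obtain e | e := (p'.mem_support_append_iff q').1 (Walk.fst_mem_support_of_mem_edges _ e)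
      · exact (hp' z e fun e => n (e ▸ m1 j)).not_ge (hi j)
      · exact n (hq' z e)

lemma bramble {V : Type} {G : SimpleGraph V} (hT : T.IsTree) {X : ι → Set V}
    (h1 : ∀ v, (T.induce {t | v ∈ X t}).Connected)
    (h2 : ∀ u v, G.Adj u v → ∃ t, u ∈ X t ∧ v ∈ X t) {κ : Type} [Finite κ] [Nonempty κ]
    (B : κ → Set V) (c : κ → V)
    (h : ∀ i, ∀ v ∈ B i, Relation.ReflTransGen (fun x y => G.Adj x y ∧ x ∈ B i) v (c i))
    (hc : ∀ i, c i ∈ B i) (h' : ∀ i j, ∃ x ∈ B i, x ∈ B j) : ∃ t, ∀ i, ∃ v ∈ B i, v ∈ X t := by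
  refine helly hT (fun i => {t | ∃ v ∈ B i, v ∈ X t}) (fun i => ?_) fun i j => ?_
  · obtain ⟨⟨t, ht⟩⟩ := (h1 (c i)).nonempty
    have : ∀ v, Relation.ReflTransGen (fun x y => G.Adj x y ∧ x ∈ B i) v (c i) → ∀ a, v ∈ X a →
        v ∈ B i → W T {t | ∃ v ∈ B i, v ∈ X t} a t := fun v r => by
      induction r using Relation.ReflTransGen.head_induction_on with
      | refl => exact fun a e k => .of (h1 _) (fun _ e => by exact ⟨_, k, e⟩) e ht
      | @head x y e r ih =>
        obtain ⟨s, s1, s2⟩ := h2 _ _ e.1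
        exact fun a e' k => (W.of (h1 x) (fun _ e => by exact ⟨_, k, e⟩) e' s1).trans
          (ih s s2 (by obtain rfl | ⟨_, e, -⟩ := r.cases_head; exacts [hc i, e.2]))
    rintro a ⟨u, u1, u2⟩ b ⟨v, v1, v2⟩
    exact (this u (h i u u1) a u2 u1).trans (this v (h i v v1) b v2 v1).symm
  · obtain ⟨x, a, b⟩ := h' i j
    obtain ⟨⟨t, ht⟩⟩ := (h1 x).nonempty
    exact ⟨t, ⟨x, a, ht⟩, x, b, ht⟩

lemma ind {α : Type} [LinearOrder α] (R : α → α → Prop)
    (h : ∀ a b m, a < b → b < m → R a m → R b m → False) (s : Finset α) :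
    ∃ I ⊆ s, s.card ≤ 2 * I.card ∧ ∀ a ∈ I, ∀ b ∈ I, a < b → ¬ R a b := by
  classical
  induction s using Finset.strongInduction with
  | H s ih =>
    rcases s.eq_empty_or_nonempty with rfl | n
    · exact ⟨∅, by simp⟩
    obtain ⟨m, m1, m2⟩ := s.exists_max_image id n
    obtain ⟨I, i1, i2, i3⟩ := ih (s.filter fun a => a < m ∧ ¬ R a m)
      (Finset.filter_ssubset.2 ⟨m, m1, by simp⟩)
    have k := fun a (e : a ∈ I) => Finset.mem_filter.1 (i1 e)
    refine ⟨insert m I, Finset.insert_subset m1 fun a e => (k a e).1, ?_, fun a ha b hb l => ?_⟩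
    · have : (s.filter fun a => a < m ∧ R a m).card ≤ 1 := Finset.card_le_one.2 fun a ha b hb => by
        rw [Finset.mem_filter] at ha hb
        exact le_antisymm (not_lt.1 fun l => h b a m l ha.2.1 hb.2.2 ha.2.2)
          (not_lt.1 fun l => h a b m l hb.2.1 ha.2.2 hb.2.2)
      have e : s ⊆ insert m ((s.filter fun a => a < m ∧ ¬ R a m) ∪
          s.filter fun a => a < m ∧ R a m) := fun a e => by
        have := (m2 a e).eq_or_lt
        grind
      have := (Finset.card_le_card e).trans ((Finset.card_insert_le _ _).trans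
        (Nat.succ_le_succ (Finset.card_union_le _ _)))
      rw [Finset.card_insert_of_notMem fun e => (k m e).2.1.false]
      omega
    · obtain rfl | ha := Finset.mem_insert.1 ha
      · exact ((m2 b ((Finset.mem_insert.1 hb).elim (· ▸ m1) fun e => (k b e).1)).not_gt l).elim
      · exact (Finset.mem_insert.1 hb).elim (· ▸ (k a ha).2.2) fun hb => i3 a ha b hb l

end Pool.Agent.H1.Bram
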