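import Mathlib

/-! Finite multigraphs given by end maps `s t : E → V`; edge sets, degrees, circuits. -/

namespace Pool.Agent.H1.Cdc

variable {V E : Type} [DecidableEq V]

/-- Number of edges of `S` incident with `v` (the degree of `v` in `S`, for loopless graphs). -/
def deg (s t : E → V) (S : Finset E) (v : V) : ℕ := (S.filter fun e => s e = v ∨ t e = v).card

/-- `C` is the edge set of a circuit: nonempty, every vertex has degree `0` or `2` in `C`, and
`C` is connected (any two of its edges are joined by a chain of edges of `C`, consecutive ones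
sharing an end). -/
def IsCircuit (s t : E → V) (C : Finset E) : Prop :=
  C.Nonempty ∧ (∀ v, deg s t C v = 0 ∨ deg s t C v = 2) ∧
    ∀ e ∈ C, ∀ f ∈ C, Relation.ReflTransGen
      (fun a b => a ∈ C ∧ b ∈ C ∧ ∃ v, (s a = v ∨ t a = v) ∧ (s b = v ∨ t b = v)) e f

end Pool.Agent.H1.Cdc
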