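import Mathlib

/-! A parity lemma from the Chevalley-Warning theorem. -/

namespace Pool.Agent.H1.Par

open Finset MvPolynomial

abbrev F := ZMod 2

def Deg {σ : Type*} (d : ℕ) (φ : (σ → F) → F) : Prop :=
  ∃ P : MvPolynomial σ F, P.totalDegree ≤ d ∧ ∀ x, eval x P = φ x

section
variable {σ : Type*}

lemma Deg.const (d : ℕ) (c : F) : Deg (σ := σ) d fun _ => c :=
  ⟨C c, by simp, fun x => by simp⟩

lemma Deg.var (i : σ) : Deg 1 fun x => x i := ⟨X i, by simp, fun x => by simp⟩

lemma Deg.add {d : ℕ} {φ ψ : (σ → F) → F} (h : Deg d φ) (h' : Deg d ψ) :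
    Deg d fun x => φ x + ψ x := by
  obtain ⟨P, hP, e⟩ := h
  obtain ⟨Q, hQ, e'⟩ := h'
  exact ⟨P + Q, (totalDegree_add P Q).trans (max_le hP hQ), fun x => by simp [e, e']⟩

lemma Deg.mul {d d' : ℕ} {φ ψ : (σ → F) → F} (h : Deg d φ) (h' : Deg d' ψ) :
    Deg (d + d') fun x => φ x * ψ x := by
  obtain ⟨P, hP, e⟩ := h
  obtain ⟨Q, hQ, e'⟩ := h'
  exact ⟨P * Q, (totalDegree_mul P Q).trans (add_le_add hP hQ), fun x => by simp [e, e']⟩

lemma Deg.mono {d d' : ℕ} {φ : (σ → F) → F} (h : Deg d φ) (hd : d ≤ d') : Deg d' φ := by
  obtain ⟨P, hP, e⟩ := h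
  exact ⟨P, hP.trans hd, e⟩

lemma Deg.cmul {d : ℕ} {φ : (σ → F) → F} (c : F) (h : Deg d φ) : Deg d fun x => c * φ x := by
  simpa using (Deg.const 0 c).mul h

lemma Deg.mulc {d : ℕ} {φ : (σ → F) → F} (c : F) (h : Deg d φ) : Deg d fun x => φ x * c := by
  simpa using h.mul (Deg.const 0 c)

lemma Deg.sum {ι : Type*} {d : ℕ} (S : Finset ι) {φ : ι → (σ → F) → F}
    (h : ∀ i ∈ S, Deg d (φ i)) : Deg d fun x => ∑ i ∈ S, φ i x := by
  classical
  induction S using Finset.induction_on with
  | empty => simpa using Deg.const d 0
  | insert a S ha ih =>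
    simp only [Finset.sum_insert ha]
    exact (h a (mem_insert_self _ _)).add (ih fun i hi => h i (mem_insert_of_mem hi))

end

def nrm (a b : F) : F := a + b + a * b

lemma Deg.nrm {σ : Type*} {φ ψ : (σ → F) → F} (h : Deg 1 φ) (h' : Deg 1 ψ) :
    Deg 2 fun x => nrm (φ x) (ψ x) :=
  ((h.mono (by norm_num)).add (h'.mono (by norm_num))).add (h.mul h')

lemma nrm_eq_zero : ∀ a b : F, nrm a b = 0 ↔ a = 0 ∧ b = 0 := by decide

lemma F01 : ∀ a : F, a = 0 ∨ a = 1 := by decide

theorem parity {J : Type} [Fintype J] [DecidableEq J] (φ : J → ((J ⊕ J) → F) → F)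
    (hd : ∀ j, Deg 2 (φ j)) (hs : ∀ x, ∑ j, φ j x = 0)
    (h0 : ∀ j x, x (.inl j) = 0 → x (.inr j) = 0 → φ j x = 0) :
    ∃ x : (J ⊕ J) → F, (∀ j, nrm (x (.inl j)) (x (.inr j)) = 1) ∧ ∀ j, φ j x = 0 := by
  classical
  let n : J → ((J ⊕ J) → F) → F := fun j x => nrm (x (.inl j)) (x (.inr j))
  have hn : ∀ j, Deg 2 (n j) := fun j => (Deg.var _).nrm (Deg.var _)
  have hn0 : ∀ j x, n j x = 0 → φ j x = 0 := fun j x h =>
    h0 j x ((nrm_eq_zero _ _).mp h).1 ((nrm_eq_zero _ _).mp h).2
  let N : Finset J → Finset ((J ⊕ J) → F) := fun U =>
    univ.filter fun x => (∀ j, n j x = if j ∈ U then 1 else 0) ∧ ∀ j, φ j x = 0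
  have key : ∀ U, Odd (N U).card := by
    intro U
    induction U using Finset.induction_on with
    | empty =>
      have : N ∅ = {0} := by
        ext x
        simp only [N, mem_filter, mem_univ, true_and, notMem_empty, if_false, mem_singleton]
        constructor
        · rintro ⟨h, _⟩
          funext i
          rcases i with i | i
          · exact ((nrm_eq_zero _ _).mp (h i)).1
          · exact ((nrm_eq_zero _ _).mp (h i)).2
        · rintro rfl
          exact ⟨fun j => by simp [n, nrm], fun j => h0 j _ rfl rfl⟩
      rw [this]; simp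
    | insert a U ha ih =>
      have hq : ∀ j, Deg 2 fun x => if j ∈ U then n j x + φ j x + 1 else n j x := by
        intro j
        by_cases hj : j ∈ U
        · simpa [hj] using ((hn j).add (hd j)).add (Deg.const 2 1)
        · simpa [hj] using hn j
      choose P hP hPe using hq
      have hcw := char_dvd_card_solutions_of_sum_lt (K := F) (σ := J ⊕ J) 2
        (s := univ.erase a) (f := P) (by
          calc ∑ i ∈ univ.erase a, (P i).totalDegree ≤ ∑ i ∈ univ.erase a, 2 :=
                Finset.sum_le_sum fun i _ => hP i
            _ < Fintype.card (J ⊕ J) := by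
              have : 0 < Fintype.card J := Fintype.card_pos_iff.mpr ⟨a⟩
              simp [Finset.card_erase_of_mem]; omega)
      rw [Fintype.card_subtype] at hcw
      have hsplit : (univ.filter fun x : (J ⊕ J) → F => ∀ i ∈ univ.erase a, eval x (P i) = 0)
          = N (insert a U) ∪ N U := by
        ext x
        simp only [N, mem_filter, mem_univ, true_and, mem_union, mem_erase, and_true, hPe,
          mem_insert]
        constructor
        · intro h
          have h1 : ∀ j, j ≠ a → (n j x = if j ∈ U then 1 else 0) ∧ φ j x = 0 := by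
            intro j hj
            have := h j hj
            by_cases hU : j ∈ U
            · simp only [hU, if_true] at this ⊢
              rcases F01 (n j x) with e | e
              · rw [e, hn0 j x e] at this
                exact absurd this (by decide)
              · rw [e] at this
                refine ⟨e, ?_⟩
                rcases F01 (φ j x) with e' | e'
                · exact e'
                · rw [e'] at this; exact absurd this (by decide)
            · simp only [hU, if_false] at this ⊢
              exact ⟨this, hn0 j x this⟩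
          have h2 : ∀ j, φ j x = 0 := by
            intro j
            by_cases hj : j = a
            · subst hj
              have := hs x
              rwa [Finset.sum_eq_single j (fun b _ hb => (h1 b hb).2) (by simp)] at this
            · exact (h1 j hj).2
          rcases F01 (n a x) with e | e
          · right
            refine ⟨fun j => ?_, h2⟩
            by_cases hj : j = a
            · subst hj; simp [ha, e]
            · exact (h1 j hj).1
          · left
            refine ⟨fun j => ?_, h2⟩
            by_cases hj : j = a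
            · subst hj; simp [e]
            · simpa [hj] using (h1 j hj).1
        · rintro (⟨h1, h2⟩ | ⟨h1, h2⟩) j hj
          · have := h1 j
            by_cases hU : j ∈ U
            · simp only [hU, or_true, if_true] at this ⊢
              rw [this, h2]; decide
            · simpa [hU, hj] using this
          · have := h1 j
            by_cases hU : j ∈ U
            · simp only [hU, if_true] at this ⊢
              rw [this, h2]; decide
            · simpa [hU] using this
      have hdisj : Disjoint (N (insert a U)) (N U) := by
        rw [Finset.disjoint_left]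
        intro x h1 h2
        simp only [N, mem_filter, mem_univ, true_and] at h1 h2
        have e1 := h1.1 a
        have e2 := h2.1 a
        simp only [mem_insert, true_or, if_true] at e1
        simp only [ha, if_false] at e2
        rw [e1] at e2
        exact absurd e2 (by decide)
      rw [hsplit, Finset.card_union_of_disjoint hdisj] at hcw
      rw [Nat.odd_iff] at ih ⊢
      omega
  obtain ⟨x, hx⟩ := Finset.card_pos.mp (key univ).pos
  simp only [N, mem_filter, mem_univ, true_and, if_true] at hx
  exact ⟨x, hx.1, hx.2⟩

end Pool.Agent.H1.Par
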