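import Mathlib
import Pool.Agent.H1.ParityCW
import Pool.Agent.H1.CdcDefs

/-! A circuit `C` such that `G / C` has a nowhere-zero `Z_2 × Z_2` flow lies in a 5-cycle double
cover. -/

namespace Pool.Agent.H1.Cdc

open Finset Pool.Agent.H1.Par

variable {V E : Type} [Fintype V] [DecidableEq V] [Fintype E] [DecidableEq E] (s t : E → V)

def inc (e : E) (v : V) : F := (if s e = v then 1 else 0) + (if t e = v then 1 else 0)

def bd (S : Finset E) (β : E → F) (v : V) : F := ∑ e ∈ S, inc s t e v * β e

omit [Fintype E] [DecidableEq E] in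
lemma sum_mul_bd (S : Finset E) (β : E → F) (σ : V → F) :
    ∑ v, σ v * bd s t S β v = ∑ e ∈ S, (σ (s e) + σ (t e)) * β e := by
  simp only [bd, Finset.mul_sum]
  rw [Finset.sum_comm]
  refine Finset.sum_congr rfl fun e _ => ?_
  simp only [inc, add_mul, mul_add, ite_mul, mul_ite, one_mul, zero_mul, mul_zero,
    Finset.sum_add_distrib, Finset.sum_ite_eq, mem_univ, if_true]

lemma add_self' (a : F) : a + a = 0 := CharTwo.add_self_eq_zero a

omit [Fintype E] [DecidableEq E] in
lemma sum_bd (S : Finset E) (β : E → F) : ∑ v, bd s t S β v = 0 := by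
  have := sum_mul_bd s t S β fun _ => 1
  simpa [add_self'] using this

lemma tjoin (S : Finset E) (ψ : V → F)
    (h : ∀ σ : V → F, (∀ e ∈ S, σ (s e) = σ (t e)) → ∑ v, σ v * ψ v = 0) :
    ∃ β : E → F, ∀ v, bd s t S β v = ψ v := by
  let L : (E → F) →ₗ[F] (V → F) :=
    { toFun := fun β => bd s t S β
      map_add' := fun a b => by
        funext v; simp [bd, mul_add, Finset.sum_add_distrib]
      map_smul' := fun c a => by
        funext v; simp [bd, Finset.mul_sum, mul_left_comm] }
  by_contra hne
  have hmem : ψ ∉ LinearMap.range L := by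
    rintro ⟨β, hβ⟩
    exact hne ⟨β, fun v => congrFun hβ v⟩
  obtain ⟨f, hf, hf0⟩ := Submodule.exists_dual_map_eq_bot_of_notMem hmem inferInstance
  let σ : V → F := fun v => f (Pi.single v 1)
  have hrep : ∀ x : V → F, f x = ∑ v, σ v * x v := by
    intro x
    conv_lhs => rw [show x = ∑ v, x v • (Pi.single v 1 : V → F) from by
      funext w; simp [Finset.sum_apply, Pi.single_apply]]
    simp [σ, mul_comm]
  apply hf
  rw [hrep]
  apply h
  intro e he
  have h1 : f (L (Pi.single e 1)) = 0 := by
    have : f (L (Pi.single e 1)) ∈ (LinearMap.range L).map f :=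
      Submodule.mem_map_of_mem (LinearMap.mem_range_self _ _)
    rw [hf0] at this
    simpa using this
  rw [hrep] at h1
  change ∑ v, σ v * bd s t S (Pi.single e 1) v = 0 at h1
  rw [sum_mul_bd, Finset.sum_eq_single e (fun b _ hb => by simp [hb]) (fun h => absurd he h)] at h1
  simp only [Pi.single_eq_same, mul_one] at h1
  exact (CharTwo.add_eq_zero.mp h1)

omit [Fintype V] [Fintype E] [DecidableEq E] in
lemma inc_ne_zero {e : E} {v : V} (h : inc s t e v ≠ 0) : s e = v ∨ t e = v := by
  by_contra hh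
  push Not at hh
  exact h (by simp [inc, hh.1, hh.2])

theorem thmA (C R : Finset E) (g1 g2 : E → F) (hg : ∀ e ∈ R, nrm (g1 e) (g2 e) = 1)
    (hcons : ∀ v, (∀ e ∈ C, s e ≠ v ∧ t e ≠ v) → bd s t R g1 v = 0 ∧ bd s t R g2 v = 0)
    (hC2 : ∀ v, (∀ e ∈ C, s e ≠ v ∧ t e ≠ v) ∨
      ∃ e e', ∀ β : E → F, bd s t C β v = β e + β e')
    (hconn : ∀ σ : V → F, (∀ e ∈ C, σ (s e) = σ (t e)) → ∃ c, ∀ e ∈ C, σ (s e) = c) :
    ∃ c1 c2 h1 h2 β : E → F, (∀ e ∈ R, nrm (h1 e) (h2 e) = 1) ∧ ∀ a b : F, ∀ v,
      bd s t C (fun e => 1 + nrm (c1 e + a) (c2 e + b)) v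
        + bd s t R (fun e => a * h2 e + b * h1 e + β e) v = 0 := by
  classical
  have hoff : ∀ v, (∀ e ∈ C, s e ≠ v ∧ t e ≠ v) → ∀ β, bd s t C β v = 0 := by
    intro v hv β
    exact Finset.sum_eq_zero fun e he => by simp [inc, (hv e he).1, (hv e he).2]
  let r : Setoid V :=
    ⟨fun u v => ∀ σ : V → F, (∀ e ∈ R, σ (s e) = σ (t e)) → σ u = σ v,
      fun _ _ _ => rfl, fun h σ hσ => (h σ hσ).symm,
      fun h h' σ hσ => (h σ hσ).trans (h' σ hσ)⟩
  let J := Quotient r
  let comp : V → J := Quotient.mk r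
  have hst : ∀ e ∈ R, comp (s e) = comp (t e) := fun e he =>
    Quotient.sound (fun σ hσ => hσ e he)
  have hinc : ∀ e ∈ R, ∀ v, inc s t e v ≠ 0 → comp (s e) = comp v := by
    intro e he v h
    rcases inc_ne_zero s t h with h | h
    · rw [h]
    · rw [hst e he, h]
  have : Fintype J := Fintype.ofFinite J
  -- the partial colour walks
  have hex : ∀ g : E → F, (∀ v, (∀ e ∈ C, s e ≠ v ∧ t e ≠ v) → bd s t R g v = 0) → ∀ j : J,
      ∃ c : E → F, ∀ v, bd s t C c v = (if comp v = j then 1 else 0) * bd s t R g v := by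
    intro g hg0 j
    apply tjoin
    intro σ hσ
    obtain ⟨c, hc⟩ := hconn σ hσ
    have : ∀ v, σ v * ((if comp v = j then 1 else 0) * bd s t R g v)
        = c * ((if comp v = j then 1 else 0) * bd s t R g v) := by
      intro v
      by_cases hv : ∀ e ∈ C, s e ≠ v ∧ t e ≠ v
      · simp [hg0 v hv]
      · push Not at hv
        obtain ⟨e, he, h⟩ := hv
        by_cases h1 : s e = v
        · rw [← h1, hc e he]
        · rw [← h h1, ← hσ e he, hc e he]
    rw [Finset.sum_congr rfl fun v _ => this v, ← Finset.mul_sum, sum_mul_bd]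
    rw [Finset.sum_eq_zero, mul_zero]
    intro e he
    rw [hst e he, add_self', zero_mul]
  choose k1 hk1 using hex g1 fun v hv => (hcons v hv).1
  choose k2 hk2 using hex g2 fun v hv => (hcons v hv).2
  let c1 : ((J ⊕ J) → F) → E → F := fun x e =>
    ∑ j, (x (.inl j) * k1 j e + x (.inr j) * k2 j e)
  let c2 : ((J ⊕ J) → F) → E → F := fun x e =>
    ∑ j, (x (.inl j) * k2 j e + x (.inr j) * (k1 j e + k2 j e))
  have hb1 : ∀ x v, bd s t C (c1 x) v
      = x (.inl (comp v)) * bd s t R g1 v + x (.inr (comp v)) * bd s t R g2 v := by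
    intro x v
    have : bd s t C (c1 x) v
        = ∑ j, (x (.inl j) * bd s t C (k1 j) v + x (.inr j) * bd s t C (k2 j) v) := by
      simp only [bd, c1, Finset.mul_sum, ← Finset.sum_add_distrib]
      rw [Finset.sum_comm]
      exact Finset.sum_congr rfl fun j _ => Finset.sum_congr rfl fun e _ => by ring
    rw [this, Finset.sum_eq_single (comp v)]
    · simp [hk1, hk2]
    · intro j _ hj
      simp [hk1, hk2, hj.symm]
    · simp
  have hb2 : ∀ x v, bd s t C (c2 x) v = x (.inl (comp v)) * bd s t R g2 v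
      + x (.inr (comp v)) * (bd s t R g1 v + bd s t R g2 v) := by
    intro x v
    have : bd s t C (c2 x) v = ∑ j, (x (.inl j) * bd s t C (k2 j) v
        + x (.inr j) * (bd s t C (k1 j) v + bd s t C (k2 j) v)) := by
      simp only [bd, c2, Finset.mul_sum, ← Finset.sum_add_distrib]
      rw [Finset.sum_comm]
      exact Finset.sum_congr rfl fun j _ => Finset.sum_congr rfl fun e _ => by ring
    rw [this, Finset.sum_eq_single (comp v)]
    · simp [hk1, hk2]
    · intro j _ hj
      simp [hk1, hk2, hj.symm]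
    · simp
  let ψ : ((J ⊕ J) → F) → V → F := fun x v => bd s t C (fun e => nrm (c1 x e) (c2 x e)) v
  let φ : J → ((J ⊕ J) → F) → F := fun j x => ∑ v, (if comp v = j then 1 else 0) * ψ x v
  obtain ⟨x, hx, hφ⟩ := parity φ
    (by
      intro j
      refine Deg.sum _ fun v _ => Deg.cmul _ (Deg.sum _ fun e _ => Deg.cmul _ (Deg.nrm ?_ ?_))
      · exact Deg.sum _ fun i _ => ((Deg.var _).mulc _).add ((Deg.var _).mulc _)
      · exact Deg.sum _ fun i _ => ((Deg.var _).mulc _).add ((Deg.var _).mulc _))
    (by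
      intro x
      simp only [φ]
      rw [Finset.sum_comm]
      have : ∀ v, ∑ j, (if comp v = j then (1 : F) else 0) * ψ x v = ψ x v := by
        intro v
        rw [Finset.sum_eq_single (comp v)]
        · simp
        · intro j _ hj
          simp [hj.symm]
        · simp
      rw [Finset.sum_congr rfl fun v _ => this v]
      exact sum_bd s t C _)
    (by
      intro j x h1 h2
      refine Finset.sum_eq_zero fun v _ => ?_
      by_cases hv : comp v = j
      · rcases hC2 v with h | ⟨e, e', h⟩
        · simp only [ψ, hoff v h, mul_zero]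
        · have e1 := hb1 x v
          have e2 := hb2 x v
          rw [hv, h1, h2, h] at e1 e2
          simp only [zero_mul, add_zero] at e1 e2
          simp only [ψ, h, CharTwo.add_eq_zero.mp e1, CharTwo.add_eq_zero.mp e2, add_self',
            mul_zero]
      · simp [hv])
  obtain ⟨β, hβ⟩ := tjoin s t R (ψ x) (by
    intro σ hσ
    let τ : J → F := Quotient.lift σ fun u v h => h σ hσ
    have : ∀ v, σ v * ψ x v = ∑ j, τ j * ((if comp v = j then 1 else 0) * ψ x v) := by
      intro v
      rw [Finset.sum_eq_single (comp v)]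
      · simp [τ, comp]
      · intro j _ hj
        simp [hj.symm]
      · simp
    rw [Finset.sum_congr rfl fun v _ => this v, Finset.sum_comm]
    refine Finset.sum_eq_zero fun j _ => ?_
    rw [← Finset.mul_sum]
    exact mul_eq_zero_of_right _ (hφ j))
  let h1 : E → F := fun e => x (.inl (comp (s e))) * g1 e + x (.inr (comp (s e))) * g2 e
  let h2 : E → F := fun e => x (.inl (comp (s e))) * g2 e + x (.inr (comp (s e))) * (g1 e + g2 e)
  have hh1 : ∀ v, bd s t R h1 v = bd s t C (c1 x) v := by
    intro v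
    rw [hb1]
    simp only [bd, Finset.mul_sum, ← Finset.sum_add_distrib]
    refine Finset.sum_congr rfl fun e he => ?_
    by_cases hi : inc s t e v = 0
    · simp [hi]
    · simp only [h1, hinc e he v hi]; ring
  have hh2 : ∀ v, bd s t R h2 v = bd s t C (c2 x) v := by
    intro v
    rw [hb2]
    simp only [bd, Finset.mul_sum, ← Finset.sum_add_distrib]
    refine Finset.sum_congr rfl fun e he => ?_
    by_cases hi : inc s t e v = 0
    · simp [hi]
    · simp only [h2, hinc e he v hi]; ring
  refine ⟨c1 x, c2 x, h1, h2, β, fun e he => ?_, fun a b v => ?_⟩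
  · have key : ∀ p q y z : F, nrm p q = 1 → nrm y z = 1 →
        nrm (p * y + q * z) (p * z + q * (y + z)) = 1 := by decide
    exact key _ _ _ _ (hx _) (hg e he)
  · have hC1 : bd s t C (fun _ => 1) v = 0 := by
      rcases hC2 v with h | ⟨e, e', h⟩
      · exact hoff v h _
      · rw [h, add_self']
    have key : ∀ p q a b : F, 1 + nrm (p + a) (q + b)
        = (1 + nrm a b) * 1 + nrm p q + a * q + b * p := by decide
    have e1 : bd s t C (fun e => 1 + nrm (c1 x e + a) (c2 x e + b)) v
        = (1 + nrm a b) * bd s t C (fun _ => 1) v + ψ x v + a * bd s t C (c2 x) v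
          + b * bd s t C (c1 x) v := by
      simp only [bd, ψ, Finset.mul_sum, ← Finset.sum_add_distrib]
      refine Finset.sum_congr rfl fun e _ => ?_
      rw [key]; ring
    have e2 : bd s t R (fun e => a * h2 e + b * h1 e + β e) v
        = a * bd s t R h2 v + b * bd s t R h1 v + bd s t R β v := by
      simp only [bd, Finset.mul_sum, ← Finset.sum_add_distrib]
      exact Finset.sum_congr rfl fun e _ => by ring
    rw [e1, e2, hC1, hh1, hh2, hβ]
    have key2 : ∀ p q r u : F, u * 0 + p + q + r + (q + r + p) = 0 := by decide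
    exact key2 _ _ _ _

end Pool.Agent.H1.Cdc
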