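import Mathlib
import Pool.Agent.H1.CdcA

namespace Pool.Agent.H1.Cdc

open Finset Pool.Agent.H1.Par

variable {V E : Type} [Fintype V] [DecidableEq V] [Fintype E] [DecidableEq E] {s t : E → V}

omit [Fintype V] [Fintype E] [DecidableEq E] in
lemma bd_eq (hl : ∀ e, s e ≠ t e) (S : Finset E) (β : E → F) (v : V) :
    bd s t S β v = ∑ e ∈ S.filter (fun e => s e = v ∨ t e = v), β e := by
  rw [bd, Finset.sum_filter]
  refine Finset.sum_congr rfl fun e _ => ?_
  by_cases h1 : s e = v
  · have h2 : t e ≠ v := fun h => hl e (h1.trans h.symm)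
    simp [inc, h1, h2]
  · by_cases h2 : t e = v <;> simp [inc, h1, h2]

omit [Fintype V] [Fintype E] [DecidableEq E] in
lemma bd_one (hl : ∀ e, s e ≠ t e) (S : Finset E) (v : V) :
    bd s t S (fun _ => 1) v = (deg s t S v : F) := by
  rw [bd_eq hl]; simp [deg]

omit [Fintype V] [Fintype E] [DecidableEq E] in
lemma deg_eq_zero {S : Finset E} {v : V} : deg s t S v = 0 ↔ ∀ e ∈ S, s e ≠ v ∧ t e ≠ v := by
  simp [deg, Finset.filter_eq_empty_iff]

omit [Fintype V] [Fintype E] in
lemma circ_two (hl : ∀ e, s e ≠ t e) {C : Finset E} (hC : IsCircuit s t C) (v : V) :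
    (∀ e ∈ C, s e ≠ v ∧ t e ≠ v) ∨ ∃ e e', ∀ β : E → F, bd s t C β v = β e + β e' := by
  rcases hC.2.1 v with h | h
  · exact Or.inl (deg_eq_zero.mp h)
  · obtain ⟨e, e', hne, h⟩ := Finset.card_eq_two.mp h
    exact Or.inr ⟨e, e', fun β => by rw [bd_eq hl, h, Finset.sum_pair hne]⟩

omit [Fintype V] [Fintype E] [DecidableEq E] in
lemma circ_conn {C : Finset E} (hC : IsCircuit s t C) (σ : V → F)
    (hσ : ∀ e ∈ C, σ (s e) = σ (t e)) : ∃ c, ∀ e ∈ C, σ (s e) = c := by
  obtain ⟨e0, he0⟩ := hC.1
  refine ⟨σ (s e0), fun e he => ?_⟩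
  have := hC.2.2 e0 he0 e he
  clear he
  induction this with
  | refl => rfl
  | tail _ h ih =>
    obtain ⟨ha, hb, v, h1, h2⟩ := h
    rw [← ih]
    have e1 := hσ _ ha
    have e2 := hσ _ hb
    rcases h1 with h1 | h1 <;> rcases h2 with h2 | h2
    · rw [h1, h2]
    · rw [h1, e2, h2]
    · rw [e1, h1, h2]
    · rw [e1, e2, h1, h2]

theorem four (hl : ∀ e, s e ≠ t e) {C : Finset E} (hC : IsCircuit s t C) (R : Finset E)
    (hCR : Disjoint C R) (g1 g2 : E → F) (hg : ∀ e ∈ R, g1 e ≠ 0 ∨ g2 e ≠ 0)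
    (hcons : ∀ v, (∀ e ∈ C, s e ≠ v ∧ t e ≠ v) → bd s t R g1 v = 0 ∧ bd s t R g2 v = 0) :
    ∃ D : F × F → Finset E, (∀ γ v, Even (deg s t (D γ) v)) ∧
      ∀ e, (univ.filter fun γ => e ∈ D γ).card = if e ∈ C then 1 else if e ∈ R then 2 else 0 := by
  have hn : ∀ a b : F, a ≠ 0 ∨ b ≠ 0 → nrm a b = 1 := by decide
  obtain ⟨c1, c2, h1, h2, β, hh, hev⟩ := thmA s t C R g1 g2 (fun e he => hn _ _ (hg e he)) hcons
    (circ_two hl hC) (circ_conn hC)
  let d : F × F → E → F := fun γ e =>
    if e ∈ C then 1 + nrm (c1 e + γ.1) (c2 e + γ.2) else γ.1 * h2 e + γ.2 * h1 e + β e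
  refine ⟨fun γ => (C ∪ R).filter fun e => d γ e = 1, fun γ v => ?_, fun e => ?_⟩
  · rw [← ZMod.natCast_eq_zero_iff_even, ← bd_one hl, ← hev γ.1 γ.2 v]
    simp only [bd]
    rw [Finset.sum_filter, Finset.sum_union hCR]
    have k : ∀ a b : F, (if b = 1 then a * 1 else 0) = a * b := by decide
    congr 1
    · refine Finset.sum_congr rfl fun e he => ?_
      rw [k]; simp [d, he]
    · refine Finset.sum_congr rfl fun e he => ?_
      have : e ∉ C := fun h => Finset.disjoint_left.mp hCR h he
      rw [k]; simp [d, this]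
  · by_cases he : e ∈ C
    · have k : ∀ p q : F,
        (univ.filter fun γ : F × F => 1 + nrm (p + γ.1) (q + γ.2) = 1).card = 1 := by decide
      simp only [mem_filter, mem_union, he, true_or, true_and, if_true, d]
      exact k _ _
    · by_cases hR : e ∈ R
      · have k : ∀ p q b : F, nrm p q = 1 →
          (univ.filter fun γ : F × F => γ.1 * q + γ.2 * p + b = 1).card = 2 := by decide
        simp only [mem_filter, mem_union, he, hR, or_true, true_and, if_true, if_false, d]
        exact k _ _ _ (hh e hR)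
      · simp [he, hR]

omit [Fintype V] [Fintype E] in
theorem decomp (S : Finset E) (hS : ∀ v, deg s t S v = 0 ∨ deg s t S v = 2) :
    ∃ M : Multiset (Finset E), (∀ K ∈ M, IsCircuit s t K) ∧
      ∀ e, (M.filter fun K => e ∈ K).card = if e ∈ S then 1 else 0 := by
  classical
  induction S using Finset.strongInduction with
  | H S ih =>
    rcases S.eq_empty_or_nonempty with rfl | ⟨e0, he0⟩
    · exact ⟨0, by simp, by simp⟩
    let r : E → E → Prop := fun a b =>
      a ∈ S ∧ b ∈ S ∧ ∃ v, (s a = v ∨ t a = v) ∧ (s b = v ∨ t b = v)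
    let K := S.filter fun f => Relation.ReflTransGen r e0 f
    have hK0 : e0 ∈ K := mem_filter.mpr ⟨he0, Relation.ReflTransGen.refl⟩
    have hcl : ∀ v, (K.filter fun e => s e = v ∨ t e = v) = ∅ ∨
        (K.filter fun e => s e = v ∨ t e = v) = S.filter fun e => s e = v ∨ t e = v := by
      intro v
      rcases (K.filter fun e => s e = v ∨ t e = v).eq_empty_or_nonempty with h | ⟨a, ha⟩
      · exact Or.inl h
      · right
        ext b
        simp only [K, mem_filter] at ha ⊢
        constructor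
        · rintro ⟨⟨h1, _⟩, h2⟩; exact ⟨h1, h2⟩
        · rintro ⟨h1, h2⟩
          exact ⟨⟨h1, ha.1.2.tail ⟨ha.1.1, h1, v, ha.2, h2⟩⟩, h2⟩
    have hKS : K ⊆ S := filter_subset _ _
    have hKc : IsCircuit s t K := by
      refine ⟨⟨e0, hK0⟩, fun v => ?_, ?_⟩
      · rcases hcl v with h | h
        · left; rw [deg, h]; rfl
        · rw [deg, h]; exact hS v
      · have h1 : ∀ f, Relation.ReflTransGen r e0 f → Relation.ReflTransGen
            (fun a b => a ∈ K ∧ b ∈ K ∧ ∃ v, (s a = v ∨ t a = v) ∧ (s b = v ∨ t b = v)) e0 f := by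
          intro f hf
          induction hf with
          | refl => exact Relation.ReflTransGen.refl
          | tail hp h ih =>
            exact ih.tail ⟨mem_filter.mpr ⟨h.1, hp⟩, mem_filter.mpr ⟨h.2.1, hp.tail h⟩, h.2.2⟩
        have hsym : ∀ a b, Relation.ReflTransGen
            (fun a b => a ∈ K ∧ b ∈ K ∧ ∃ v, (s a = v ∨ t a = v) ∧ (s b = v ∨ t b = v)) a b →
            Relation.ReflTransGen
            (fun a b => a ∈ K ∧ b ∈ K ∧ ∃ v, (s a = v ∨ t a = v) ∧ (s b = v ∨ t b = v)) b a := by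
          intro a b h
          induction h with
          | refl => exact Relation.ReflTransGen.refl
          | tail _ h ih =>
            obtain ⟨h1, h2, v, h3, h4⟩ := h
            exact Relation.ReflTransGen.head ⟨h2, h1, v, h4, h3⟩ ih
        intro e he f hf
        exact (hsym _ _ (h1 e (mem_filter.mp he).2)).trans (h1 f (mem_filter.mp hf).2)
    obtain ⟨M, hM, hc⟩ := ih (S \ K) (Finset.sdiff_ssubset hKS ⟨e0, hK0⟩) (by
      intro v
      have : ((S \ K).filter fun e => s e = v ∨ t e = v)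
          = (S.filter fun e => s e = v ∨ t e = v) \ (K.filter fun e => s e = v ∨ t e = v) := by
        ext b
        simp only [mem_filter, mem_sdiff]
        tauto
      rw [deg, this]
      rcases hcl v with h | h
      · rw [h, sdiff_empty]; exact hS v
      · rw [h]; simp)
    refine ⟨K ::ₘ M, ?_, fun e => ?_⟩
    · intro K' hK'
      rcases Multiset.mem_cons.mp hK' with rfl | h
      · exact hKc
      · exact hM K' h
    · rw [Multiset.filter_cons, Multiset.card_add, hc]
      by_cases h1 : e ∈ K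
      · simp [h1, hKS h1]
      · simp [h1]

omit [Fintype V] [DecidableEq E] in
lemma deg02 (hcubic : ∀ v, deg s t univ v = 3) {S : Finset E} (h : ∀ v, Even (deg s t S v))
    (v : V) : deg s t S v = 0 ∨ deg s t S v = 2 := by
  have h1 : deg s t S v ≤ 3 := by
    rw [← hcubic v]
    exact Finset.card_le_card (Finset.filter_subset_filter _ (subset_univ _))
  obtain ⟨k, hk⟩ := h v
  omega

omit [Fintype V] in
theorem decomp_family (hcubic : ∀ v, deg s t univ v = 3) {ι : Type} [Fintype ι]
    (D : ι → Finset E) (hD : ∀ i v, Even (deg s t (D i) v)) :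
    ∃ M : Multiset (Finset E), (∀ K ∈ M, IsCircuit s t K) ∧
      ∀ e, (M.filter fun K => e ∈ K).card = (univ.filter fun i => e ∈ D i).card := by
  choose M hM hc using fun i => decomp (s := s) (t := t) (D i) (deg02 hcubic (hD i))
  refine ⟨∑ i, M i, fun K hK => ?_, fun e => ?_⟩
  · obtain ⟨i, _, hi⟩ := Multiset.mem_sum.mp hK
    exact hM i K hi
  · have : ∀ T : Finset ι, ((∑ i ∈ T, M i).filter fun K => e ∈ K).card
        = ∑ i ∈ T, ((M i).filter fun K => e ∈ K).card := by
      classical
      intro T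
      induction T using Finset.induction_on with
      | empty => simp
      | insert a T ha ih =>
        rw [Finset.sum_insert ha, Finset.sum_insert ha, Multiset.filter_add, Multiset.card_add, ih]
    rw [this, Finset.card_filter]
    exact Finset.sum_congr rfl fun i _ => hc i e

end Pool.Agent.H1.Cdc
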