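import Mathlib

set_option linter.unusedSectionVars false

namespace Pool.Agent.H1.Cdom
open Finset

lemma greedy {α β : Type*} [DecidableEq α] [DecidableEq β] (𝒜 : Finset α) (h𝒜 : 𝒜.Nonempty)
    (𝒥 : Finset β) (r : α → β → Prop) [∀ a b, Decidable (r a b)] (q : ℝ) (hq1 : q ≤ 1)
    (h : ∀ J ∈ 𝒥, q * 𝒜.card ≤ (𝒜.filter (fun a => r a J)).card) (L : ℕ) :
    ∃ F ⊆ 𝒜, F.card ≤ L ∧ ((𝒥.filter (fun J => ∀ a ∈ F, ¬ r a J)).card : ℝ) ≤ (1 - q) ^ L * 𝒥.card := by
  induction L with
  | zero => exact ⟨∅, by simp, by simp, by simp⟩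
  | succ L ih =>
    obtain ⟨F, hF, hc, hr⟩ := ih
    set R := 𝒥.filter (fun J => ∀ a ∈ F, ¬ r a J) with hR
    have h1 : ∑ _a ∈ 𝒜, q * R.card ≤ ∑ a ∈ 𝒜, ((R.filter (fun J => r a J)).card : ℝ) := by
      have e := Finset.sum_card_bipartiteAbove_eq_sum_card_bipartiteBelow (s := 𝒜) (t := R) r
      simp only [Finset.bipartiteAbove, Finset.bipartiteBelow] at e
      have e' : ∑ a ∈ 𝒜, ((R.filter (fun J => r a J)).card : ℝ) =
          ∑ J ∈ R, ((𝒜.filter (fun a => r a J)).card : ℝ) := by exact_mod_cast e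
      rw [e']
      have := Finset.sum_le_sum (fun J (hJ : J ∈ R) => h J (Finset.mem_filter.1 hJ).1)
      simp only [Finset.sum_const, nsmul_eq_mul] at this ⊢
      linarith
    obtain ⟨a, ha, hq⟩ := Finset.exists_le_of_sum_le h𝒜 h1
    refine ⟨insert a F, Finset.insert_subset ha hF, (Finset.card_insert_le _ _).trans (by omega), ?_⟩
    have e : 𝒥.filter (fun J => ∀ b ∈ insert a F, ¬ r b J) = R.filter (fun J => ¬ r a J) := by
      ext J; simp only [hR, Finset.mem_filter, Finset.forall_mem_insert]; tauto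
    rw [e]
    have e2 : ((R.filter (fun J => r a J)).card : ℝ) + (R.filter (fun J => ¬ r a J)).card = R.card := by
      exact_mod_cast Finset.card_filter_add_card_filter_not (s := R) (fun J => r a J)
    have := mul_le_mul_of_nonneg_left hr (show 0 ≤ 1 - q by linarith)
    rw [pow_succ]
    nlinarith

lemma choose_ratio (q t : ℕ) : ∀ i ≤ t,
    (((q + 4) * t).choose t : ℝ) * (q + 2) ^ i ≤ (((q + 4) * t - i).choose t : ℝ) * (q + 3) ^ i := by
  intro i
  induction i with
  | zero => simp
  | succ i ih =>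
    intro hi
    have h1 := ih (by omega)
    obtain ⟨N, hN⟩ : ∃ N, (q + 4) * t - i = N + 1 := ⟨(q + 4) * t - i - 1, by
      have : i < (q + 4) * t := by nlinarith
      omega⟩
    have hN2 : (q + 4) * t - (i + 1) = N := by omega
    have hN3 : (q + 3) * t ≤ N + 1 := by
      have : (q + 4) * t = (q + 3) * t + t := by ring
      omega
    have hN4 : t ≤ N + 1 := by nlinarith
    rw [hN] at h1
    rw [hN2]
    have e := Nat.choose_mul_succ_eq N t
    have e' : (N.choose t : ℝ) * (N + 1) = ((N + 1).choose t : ℝ) * (N + 1 - t) := by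
      have : ((N + 1 - t : ℕ) : ℝ) = N + 1 - t := by rw [Nat.cast_sub hN4]; push_cast; ring
      rw [← this]; exact_mod_cast e
    have h3 : ((q:ℝ) + 3) * t ≤ N + 1 := by exact_mod_cast hN3
    have h4 : ((N + 1).choose t : ℝ) * (q + 2) ≤ (N.choose t : ℝ) * (q + 3) := by
      have hp : (0:ℝ) < N + 1 := by positivity
      have hc : (0:ℝ) ≤ ((N + 1).choose t : ℝ) := by positivity
      have : ((N + 1).choose t : ℝ) * (q + 2) * (N + 1) ≤ (N.choose t : ℝ) * (q + 3) * (N + 1) := by
        have e3 : (N.choose t : ℝ) * (q + 3) * (N + 1) =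
          ((N + 1).choose t : ℝ) * ((N + 1 - t) * (q + 3)) := by
          rw [mul_right_comm, e']; ring
        rw [e3, mul_assoc]
        apply mul_le_mul_of_nonneg_left _ hc
        nlinarith
      exact le_of_mul_le_mul_right this hp
    have h5 := mul_le_mul_of_nonneg_right h1 (show (0:ℝ) ≤ q + 2 by positivity)
    have h6 := mul_le_mul_of_nonneg_right h4 (show (0:ℝ) ≤ (q + 3) ^ i by positivity)
    rw [pow_succ, pow_succ]
    nlinarith

lemma family (q t : ℕ) (ht : 1 ≤ t) : ∃ F : Finset (Finset (Fin ((q + 4) * t))),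
    (∀ A ∈ F, A.card = t) ∧ (F.card : ℝ) ≤ (q + 4) * t * (((q:ℝ) + 3) / (q + 2)) ^ t + 1 ∧
    ∀ J : Finset (Fin ((q + 4) * t)), J.card ≤ t → ∃ A ∈ F, Disjoint A J := by
  set m := (q + 4) * t with hm
  set p : ℝ := (((q:ℝ) + 2) / (q + 3)) ^ t with hp
  have hp0 : 0 < p := by positivity
  have hp1 : p ≤ 1 := pow_le_one₀ (by positivity) (by rw [div_le_one (by positivity)]; linarith)
  have htm : t ≤ m := by rw [hm]; nlinarith
  obtain ⟨F, hF, hc, hr⟩ := greedy ((Finset.univ : Finset (Fin m)).powersetCard t)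
    (Finset.powersetCard_nonempty.2 (by simpa using htm))
    ((Finset.univ : Finset (Finset (Fin m))).filter (fun J => J.card ≤ t))
    (fun A J => Disjoint A J) p hp1 (by
      intro J hJ
      have hJ' := (Finset.mem_filter.1 hJ).2
      have e : ((Finset.univ : Finset (Fin m)).powersetCard t).filter (fun A => Disjoint A J) =
          Jᶜ.powersetCard t := by
        ext A
        simp only [Finset.mem_filter, Finset.mem_powersetCard, Finset.subset_univ, true_and,
          Finset.subset_compl_iff_disjoint_right]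
        tauto
      rw [e, Finset.card_powersetCard, Finset.card_powersetCard, Finset.card_compl]
      simp only [Finset.card_univ, Fintype.card_fin]
      have h1 := choose_ratio q t t le_rfl
      have h2 : (((m - t).choose t : ℕ) : ℝ) ≤ ((m - J.card).choose t : ℕ) := by
        exact_mod_cast Nat.choose_le_choose t (by omega)
      refine le_trans ?_ h2
      rw [hp, div_pow, div_mul_eq_mul_div, div_le_iff₀ (by positivity)]
      linarith) ⌈(m:ℝ) / p⌉₊
  refine ⟨F, fun A hA => (Finset.mem_powersetCard.1 (hF hA)).2, ?_, ?_⟩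
  · have h1 : (F.card : ℝ) ≤ ⌈(m:ℝ) / p⌉₊ := by exact_mod_cast hc
    have h2 := Nat.ceil_lt_add_one (show (0:ℝ) ≤ m / p by positivity)
    have h3 : (m:ℝ) / p = (q + 4) * t * (((q:ℝ) + 3) / (q + 2)) ^ t := by
      rw [hp, hm, div_eq_mul_inv, ← inv_pow, inv_div]; push_cast; ring
    linarith
  · intro J hJ
    by_contra hcon
    push Not at hcon
    have h2 : ((((Finset.univ : Finset (Finset (Fin m))).filter (fun J => J.card ≤ t))).card : ℝ)
        ≤ 2 ^ m := by
      have := Finset.card_filter_le (Finset.univ : Finset (Finset (Fin m))) (fun J => J.card ≤ t)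
      rw [Finset.card_univ, Fintype.card_finset, Fintype.card_fin] at this
      exact_mod_cast this
    have h3 : (1 - p) ^ ⌈(m:ℝ) / p⌉₊ ≤ Real.exp (-1) ^ m := by
      calc (1 - p) ^ ⌈(m:ℝ) / p⌉₊ ≤ Real.exp (-p) ^ ⌈(m:ℝ) / p⌉₊ :=
            pow_le_pow_left₀ (by linarith) (by linarith [Real.add_one_le_exp (-p)]) _
        _ = Real.exp (⌈(m:ℝ) / p⌉₊ * (-p)) := by rw [Real.exp_nat_mul]
        _ ≤ Real.exp (m * (-1)) := by
            apply Real.exp_le_exp.2
            have := Nat.le_ceil ((m:ℝ) / p)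
            rw [div_le_iff₀ hp0] at this
            linarith
        _ = _ := by rw [Real.exp_nat_mul]
    have h4 : Real.exp (-1) ^ m * 2 ^ m < 1 := by
      rw [← mul_pow]
      apply pow_lt_one₀ (by positivity) _ (by omega)
      have := Real.exp_one_gt_d9
      rw [Real.exp_neg, inv_mul_lt_iff₀ (by positivity)]
      linarith
    have h5 := mul_le_mul h3 h2 (by positivity) (by positivity)
    refine absurd (le_trans ?_ (hr.trans h5)) (not_le.2 h4)
    rw [Nat.one_le_cast]
    refine Finset.card_pos.2 ⟨J, ?_⟩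
    simp only [Finset.mem_filter]
    exact ⟨⟨Finset.mem_univ _, hJ⟩, hcon⟩

section graph
variable {I T1 T2 W P X Y : Type} [Fintype I] [Fintype T1] [Fintype T2] [Fintype W] [Fintype P]
  [Fintype X] [Fintype Y] [DecidableEq I] [DecidableEq T1] [DecidableEq T2] [DecidableEq W]
  [DecidableEq P] [DecidableEq X] [DecidableEq Y]

abbrev VV (I T1 T2 W P X Y : Type) := (I × T1 × T2 × W) ⊕ P ⊕ (I × X) ⊕ (I × X × Y)

def R (A : X → Finset T1) (B : Y → Finset T2) : VV I T1 T2 W P X Y → VV I T1 T2 W P X Y → Prop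
  | .inl _, .inl _ => True
  | .inl _, .inr (.inl _) => True
  | .inl c, .inr (.inr (.inl d)) => c.1 = d.1 ∧ c.2.1 ∈ A d.2
  | .inl c, .inr (.inr (.inr b)) => c.1 = b.1 ∧ c.2.2.1 ∈ B b.2.2
  | .inr (.inr (.inl d)), .inr (.inr (.inr b)) => d.1 = b.1 ∧ d.2 = b.2.1
  | _, _ => False

def GG (A : X → Finset T1) (B : Y → Finset T2) : SimpleGraph (VV I T1 T2 W P X Y) :=
  SimpleGraph.fromRel (R A B)

variable (A : X → Finset T1) (B : Y → Finset T2)

lemma adj_of {u v : VV I T1 T2 W P X Y} (h : u ≠ v) (r : R A B u v) : (GG A B).Adj u v :=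
  (SimpleGraph.fromRel_adj _ _ _).2 ⟨h, Or.inl r⟩

lemma adjKK {c c' : I × T1 × T2 × W} (h : c ≠ c') : (GG (P := P) A B).Adj (.inl c) (.inl c') :=
  adj_of A B (by simpa using h) trivial
lemma adjKP (c : I × T1 × T2 × W) (p : P) : (GG A B).Adj (.inl c) (.inr (.inl p)) :=
  adj_of A B (by simp) trivial
lemma adjKD (g : I) (c : T1 × T2 × W) (x : X) (h : c.1 ∈ A x) :
    (GG (P := P) A B).Adj (.inl (g, c)) (.inr (.inr (.inl (g, x)))) :=
  adj_of A B (by simp) ⟨rfl, h⟩
lemma adjKB (g : I) (c : T1 × T2 × W) (b : X × Y) (h : c.2.1 ∈ B b.2) :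
    (GG (P := P) A B).Adj (.inl (g, c)) (.inr (.inr (.inr (g, b)))) :=
  adj_of A B (by simp) ⟨rfl, h⟩
lemma adjDB (b : I × X × Y) :
    (GG (P := P) (W := W) A B).Adj (.inr (.inr (.inl (b.1, b.2.1)))) (.inr (.inr (.inr b))) :=
  adj_of A B (by simp) ⟨rfl, rfl⟩

lemma conn (c0 : I × T1 × T2 × W) (hA : ∀ x, (A x).Nonempty) :
    (GG (P := P) (I := I) (W := W) A B).Connected := by
  have hK : ∀ c, (GG (P := P) A B).Reachable (.inl c0) (.inl c) := by
    intro c
    by_cases h : c0 = c
    · rw [h]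
    · exact (adjKK A B h).reachable
  have hD : ∀ d : I × X, (GG (P := P) A B).Reachable (.inl c0) (.inr (.inr (.inl d))) := by
    intro d
    obtain ⟨j, hj⟩ := hA d.2
    exact (hK (d.1, j, c0.2.2)).trans (adjKD A B d.1 (j, c0.2.2) d.2 hj).reachable
  rw [SimpleGraph.connected_iff_exists_forall_reachable]
  refine ⟨.inl c0, ?_⟩
  rintro (c | p | d | b)
  · exact hK c
  · exact (adjKP A B c0 p).reachable
  · exact hD d
  · exact (hD (b.1, b.2.1)).trans (adjDB A B b).reachable

lemma deg (k : ℕ) (h1 : k + 1 ≤ Fintype.card (I × T1 × T2 × W))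
    (h2 : ∀ x, k ≤ (A x).card * (Fintype.card T2 * Fintype.card W))
    (h3 : ∀ y, k ≤ Fintype.card T1 * ((B y).card * Fintype.card W)) (v : VV I T1 T2 W P X Y) :
    k ≤ ((GG A B).neighborSet v).ncard := by
  have key : ∀ {α : Type} (s : Finset α) (f : α → VV I T1 T2 W P X Y), Function.Injective f →
      (∀ a ∈ s, (GG A B).Adj v (f a)) → s.card ≤ ((GG A B).neighborSet v).ncard := by
    intro α s f hf h
    rw [← Set.ncard_coe_finset]
    exact Set.ncard_le_ncard_of_injOn f (fun a ha => h a (Finset.mem_coe.1 ha)) hf.injOn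
  classical
  rcases v with c | p | d | b
  · refine le_trans ?_ (key (Finset.univ.erase c) Sum.inl Sum.inl_injective (fun a ha =>
      adjKK A B (Finset.mem_erase.1 ha).1.symm))
    rw [Finset.card_erase_of_mem (Finset.mem_univ _), Finset.card_univ]; omega
  · refine le_trans ?_ (key Finset.univ Sum.inl Sum.inl_injective (fun a _ =>
      (adjKP A B a p).symm))
    rw [Finset.card_univ]; omega
  · refine le_trans ?_ (key ((A d.2) ×ˢ (Finset.univ : Finset (T2 × W))) (fun a => .inl (d.1, a))
      (fun a b h => by simpa using h) (fun a ha =>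
      (adjKD A B d.1 a d.2 (Finset.mem_product.1 ha).1).symm))
    rw [Finset.card_product, Finset.card_univ, Fintype.card_prod]; exact h2 _
  · refine le_trans ?_ (key ((Finset.univ : Finset T1) ×ˢ ((B b.2.2) ×ˢ (Finset.univ : Finset W)))
      (fun a => .inl (b.1, a)) (fun a b h => by simpa using h) (fun a ha =>
      (adjKB A B b.1 a b.2 (Finset.mem_product.1 (Finset.mem_product.1 ha).2).1).symm))
    rw [Finset.card_product, Finset.card_product, Finset.card_univ, Finset.card_univ]; exact h3 _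

lemma dom_small (c0 : I × T1 × T2 × W) : ∃ S : Finset (VV I T1 T2 W P X Y),
    S.card ≤ Fintype.card I * Fintype.card X + 1 ∧ ∀ v, v ∉ S → ∃ u ∈ S, (GG A B).Adj v u := by
  classical
  refine ⟨insert (.inl c0) (Finset.univ.image (fun d : I × X => .inr (.inr (.inl d)))), ?_, ?_⟩
  · refine (Finset.card_insert_le _ _).trans (Nat.succ_le_succ (Finset.card_image_le.trans ?_))
    simp
  · rintro (c | p | d | b) hv
    · exact ⟨.inl c0, by simp, adjKK A B (fun h => hv (by rw [h]; simp))⟩
    · exact ⟨.inl c0, by simp, (adjKP A B c0 p).symm⟩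
    · exact absurd (by simp) hv
    · exact ⟨.inr (.inr (.inl (b.1, b.2.1))), by simp, (adjDB A B b).symm⟩

lemma cdom_large (t s : ℕ) (ht : 2 ≤ t) (hs : Fintype.card X + t ≤ s)
    (hX : ∀ J : Finset T1, J.card ≤ t → t ≤ (Finset.univ.filter (fun x => Disjoint (A x) J)).card)
    (hY : ∀ J : Finset T2, J.card ≤ s → s < (Finset.univ.filter (fun y => Disjoint (B y) J)).card)
    (S : Finset (VV I T1 T2 W P X Y)) (hd : ∀ v, v ∉ S → ∃ u ∈ S, (GG A B).Adj v u)
    (hc : ((GG A B).induce (S : Set (VV I T1 T2 W P X Y))).Connected) :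
    Fintype.card I * (Fintype.card X + t) ≤ S.card := by
  classical
  set SK : I → Finset (T1 × T2 × W) := fun g => Finset.univ.filter (fun c => Sum.inl (g, c) ∈ S) with hSK
  set SD : I → Finset X := fun g => Finset.univ.filter (fun x => Sum.inr (.inr (.inl (g, x))) ∈ S) with hSD
  set SB : I → Finset (X × Y) := fun g =>
    Finset.univ.filter (fun b => Sum.inr (.inr (.inr (g, b))) ∈ S) with hSB
  have h0 : ∑ g, ((SK g).card + (SD g).card + (SB g).card) ≤ S.card := by
    have e : S.card = ∑ v, if v ∈ S then 1 else 0 := by simp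
    rw [e, Fintype.sum_sum_type, Fintype.sum_sum_type, Fintype.sum_sum_type, Fintype.sum_prod_type,
      Fintype.sum_prod_type, Fintype.sum_prod_type, Finset.sum_add_distrib, Finset.sum_add_distrib]
    simp only [hSK, hSD, hSB, Finset.card_filter]
    omega
  refine le_trans ?_ h0
  rw [← smul_eq_mul, ← Finset.card_univ, ← Finset.sum_const]
  apply Finset.sum_le_sum
  intro g _
  by_contra hlt
  push Not at hlt
  have hall : ∀ x, Sum.inr (.inr (.inl (g, x))) ∈ S := by
    intro x
    by_contra hx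
    have h1 := hY ((SK g).image (fun c => c.2.1)) (Finset.card_image_le.trans (by omega))
    have h2 : (Finset.univ.filter (fun y => Disjoint (B y) ((SK g).image (fun c => c.2.1)))).card
        ≤ (SB g).card := by
      apply Finset.card_le_card_of_injOn (fun y => (x, y))
      · intro y hy
        have hy' := (Finset.mem_filter.1 (Finset.mem_coe.1 hy)).2
        refine Finset.mem_coe.2 (Finset.mem_filter.2 ⟨Finset.mem_univ _, ?_⟩)
        by_contra hb
        obtain ⟨u, hu, hadj⟩ := hd _ hb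
        have hr := ((SimpleGraph.fromRel_adj _ _ _).1 hadj).2
        rcases u with c | p | d | b
        · obtain ⟨g', c⟩ := c
          simp only [R, false_or] at hr
          obtain ⟨rfl, h3⟩ := hr
          exact Finset.disjoint_left.1 hy' h3 (Finset.mem_image.2 ⟨c, Finset.mem_filter.2
            ⟨Finset.mem_univ _, hu⟩, rfl⟩)
        · simp [R] at hr
        · obtain ⟨g', x'⟩ := d
          simp only [R, false_or] at hr
          obtain ⟨rfl, rfl⟩ := hr
          exact hx hu
        · simp [R] at hr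
      · intro y _ y' _ h
        exact congrArg Prod.snd h
    omega
  have h3 : (SD g).card = Fintype.card X := by
    rw [← Finset.card_univ]; congr 1
    exact Finset.filter_true_of_mem (fun x _ => hall x)
  have h4 := hX ((SK g).image (fun c => c.1)) (Finset.card_image_le.trans (by omega))
  have h5 : 1 < Fintype.card X := by
    have := hX ∅ (by simp)
    have := Finset.card_filter_le (Finset.univ : Finset X) (fun x => Disjoint (A x) ∅)
    rw [Finset.card_univ] at this
    omega
  have h6 : (Finset.univ.filter (fun x => Disjoint (A x) ((SK g).image (fun c => c.1)))).card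
      ≤ ((SB g).image Prod.fst).card := by
    apply Finset.card_le_card
    intro x hx
    have hx' := (Finset.mem_filter.1 hx).2
    obtain ⟨x', hne⟩ := Fintype.exists_ne_of_one_lt_card h5 x
    obtain ⟨w⟩ := hc.preconnected ⟨_, Finset.mem_coe.2 (hall x)⟩ ⟨_, Finset.mem_coe.2 (hall x')⟩
    obtain ⟨u, hu, hadj⟩ : ∃ u ∈ S, (GG A B).Adj (.inr (.inr (.inl (g, x)))) u := by
      have hnn : ¬ w.Nil := SimpleGraph.Walk.not_nil_of_ne (by simpa using hne.symm)
      have := SimpleGraph.Walk.adj_snd hnn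
      exact ⟨w.snd.1, Finset.mem_coe.1 w.snd.2, this⟩
    have hr := ((SimpleGraph.fromRel_adj _ _ _).1 hadj).2
    rcases u with c | p | d | b
    · obtain ⟨g', c⟩ := c
      simp only [R, false_or] at hr
      obtain ⟨rfl, h33⟩ := hr
      exact (Finset.disjoint_left.1 hx' h33 (Finset.mem_image.2 ⟨c, Finset.mem_filter.2
        ⟨Finset.mem_univ _, hu⟩, rfl⟩)).elim
    · simp [R] at hr
    · simp [R] at hr
    · obtain ⟨g', b⟩ := b
      simp only [R, or_false] at hr
      obtain ⟨rfl, rfl⟩ := hr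
      exact Finset.mem_image.2 ⟨b, Finset.mem_filter.2 ⟨Finset.mem_univ _, hu⟩, rfl⟩
  have h7 : ((SB g).image Prod.fst).card ≤ (SB g).card := Finset.card_image_le
  omega

end graph

end Pool.Agent.H1.Cdom
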