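import Mathlib

set_option autoImplicit false

namespace Pool.Agent.H1.Corner

open Finset

section chi
variable {F : Type*} [Field F] [Fintype F] [DecidableEq F]

theorem chi_corr (hF : ringChar F ≠ 2) {c : F} (hc : c ≠ 0) :
    ∑ x : F, quadraticChar F x * quadraticChar F (x + c) = -1 := by
  have h1 : ∑ x : F, quadraticChar F (1 + c * x⁻¹) = 0 := by
    rw [← quadraticChar_sum_zero hF]
    exact Fintype.sum_equiv ((Equiv.inv F).trans ((Equiv.mulLeft₀ c hc).trans (Equiv.addLeft 1)))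
      _ _ fun x => rfl
  have h2 : ∀ x : F, quadraticChar F x * quadraticChar F (x + c) =
      quadraticChar F (1 + c * x⁻¹) - if x = 0 then 1 else 0 := by
    intro x
    by_cases hx : x = 0
    · simp [hx]
    · rw [if_neg hx, sub_zero, ← map_mul, ← one_mul (quadraticChar F (1 + c * x⁻¹)),
        ← quadraticChar_sq_one' hx, ← map_mul]
      congr 1
      field_simp
  simp only [h2, sum_sub_distrib, h1]
  simp

theorem exists_sign (hF : ringChar F ≠ 2) : ∃ a : F → ℝ, (∀ x, a x = 1 ∨ a x = -1) ∧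
    ∀ c, c ≠ 0 → |∑ x, a x * a (x + c)| ≤ 3 := by
  refine ⟨fun x => (quadraticChar F x : ℝ) + if x = 0 then 1 else 0, fun x => ?_, fun c hc => ?_⟩
  · by_cases hx : x = 0
    · simp [hx]
    · rcases quadraticChar_dichotomy hx with h | h <;> simp only [h, if_neg hx] <;> norm_num
  · have h1 : ∑ x : F, (quadraticChar F x : ℝ) * quadraticChar F (x + c) = -1 := by
      exact_mod_cast chi_corr hF hc
    have h2 : ∀ x : F, ((quadraticChar F x : ℝ) + if x = 0 then 1 else 0) *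
        ((quadraticChar F (x + c) : ℝ) + if x + c = 0 then 1 else 0) =
        (quadraticChar F x : ℝ) * quadraticChar F (x + c) +
          ((if x = 0 then (quadraticChar F c : ℝ) else 0) +
            if x = -c then (quadraticChar F (-c) : ℝ) else 0) := by
      intro x
      by_cases h : x = 0
      · have : (0 : F) ≠ -c := by simpa using hc
        simp [h, hc]
      · by_cases h' : x = -c
        · simp [h', hc]
        · have : x + c ≠ 0 := fun e => h' (eq_neg_of_add_eq_zero_left e)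
          simp [h, h', this]
    simp only [h2, sum_add_distrib, h1, sum_ite_eq', mem_univ, if_true]
    rcases quadraticChar_dichotomy hc with h | h <;>
      rcases quadraticChar_dichotomy (neg_ne_zero.2 hc) with h' | h' <;> rw [h, h'] <;> norm_num

end chi

variable {G : Type*} [AddCommGroup G] [Fintype G] [DecidableEq G]

def Bil (a : G → ℝ) (B : ℝ) : Prop :=
  ∀ f h : G → ℝ, (∀ x, |f x| ≤ 4) → (∀ x, |h x| ≤ 4) → |∑ x, ∑ y, a (x + y) * f x * h y| ≤ B

theorem bil_of_corr {a : G → ℝ} (ha : ∀ x, a x = 1 ∨ a x = -1)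
    (hc : ∀ c, c ≠ 0 → |∑ x, a x * a (x + c)| ≤ 3) {B : ℝ} (hB : 0 ≤ B)
    (hN : 1024 * (Fintype.card G : ℝ) ^ 3 ≤ B ^ 2) : Bil a B := by
  intro f h hf hh
  refine abs_le_of_sq_le_sq' ?_ hB |> abs_le.2
  have e : ∑ x, ∑ y, a (x + y) * f x * h y = ∑ x, f x * ∑ y, a (x + y) * h y := by
    refine sum_congr rfl fun x _ => ?_
    rw [mul_sum]
    exact sum_congr rfl fun y _ => by ring
  rw [e]
  refine (sum_mul_sq_le_sq_mul_sq _ _ _).trans (le_trans ?_ hN)
  have h1 : ∑ x, f x ^ 2 ≤ 16 * (Fintype.card G : ℝ) := by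
    calc _ ≤ ∑ _x : G, (16 : ℝ) := sum_le_sum fun x _ => by
          have := abs_le.1 (hf x); nlinarith
      _ = _ := by simp [mul_comm]
  have h2 : ∑ x, (∑ y, a (x + y) * h y) ^ 2 ≤ 64 * (Fintype.card G : ℝ) ^ 2 := by
    have e2 : ∑ x, (∑ y, a (x + y) * h y) ^ 2 =
        ∑ y, ∑ z, h y * h z * ∑ x, a x * a (x + (z - y)) := by
      simp only [sq, sum_mul_sum]
      rw [sum_comm]
      refine sum_congr rfl fun y _ => ?_
      rw [sum_comm]
      refine sum_congr rfl fun z _ => ?_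
      rw [mul_sum]
      refine Fintype.sum_equiv (Equiv.addRight y) _ _ fun x => ?_
      simp only [Equiv.coe_addRight]
      rw [show x + y + (z - y) = x + z by abel]
      ring
    rw [e2]
    calc _ ≤ ∑ y : G, ∑ z : G, (48 + if z = y then 16 * (Fintype.card G : ℝ) else 0) := by
          refine sum_le_sum fun y _ => sum_le_sum fun z _ => ?_
          refine (le_abs_self _).trans ?_
          rw [abs_mul, abs_mul]
          have h3 : |h y| * |h z| ≤ 16 := by
            have := mul_le_mul (hh y) (hh z) (abs_nonneg _) (by norm_num); linarith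
          by_cases hz : z = y
          · have : ∑ x, a x * a (x + (z - y)) = Fintype.card G := by
              rw [hz, sub_self]
              calc _ = ∑ _x : G, (1 : ℝ) := sum_congr rfl fun x _ => by
                    rw [add_zero]; rcases ha x with h | h <;> rw [h] <;> norm_num
                _ = _ := by simp
            rw [this, if_pos hz, Nat.abs_cast]
            have : (0 : ℝ) ≤ Fintype.card G := by positivity
            nlinarith
          · rw [if_neg hz]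
            have := mul_le_mul h3 (hc _ (sub_ne_zero.2 hz)) (abs_nonneg _) (by norm_num)
            linarith
      _ = _ := by simp [sum_add_distrib]; ring
  calc _ ≤ (16 * (Fintype.card G : ℝ)) * (64 * (Fintype.card G : ℝ) ^ 2) :=
        mul_le_mul h1 h2 (sum_nonneg fun _ _ => sq_nonneg _) (by positivity)
    _ = _ := by ring

omit [DecidableEq G] in
theorem Bil.sub {a : G → ℝ} {B : ℝ} (hb : Bil a B) (f h : G → ℝ) (hf : ∀ x, |f x| ≤ 4)
    (hh : ∀ x, |h x| ≤ 4) : |∑ x, ∑ y, a (y - x) * f x * h y| ≤ B := by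
  have := hb (fun x => f (-x)) h (fun x => hf _) hh
  rw [← Equiv.sum_comp (Equiv.neg G)]
  simpa [add_comm] using this

omit [DecidableEq G] in
theorem Bil.complex {a : G → ℝ} {B : ℝ} (hb : Bil a B) (f h : G → ℂ) (hf : ∀ x, ‖f x‖ ≤ 1)
    (hh : ∀ x, ‖h x‖ ≤ 1) : ‖∑ x, ∑ y, (a (x + y) : ℂ) * f x * h y‖ ≤ 4 * B := by
  have r : ∀ g : G → ℂ, (∀ x, ‖g x‖ ≤ 1) → ∀ x, |(g x).re| ≤ 4 := fun g hg x =>
    ((Complex.abs_re_le_norm _).trans (hg x)).trans (by norm_num)
  have i : ∀ g : G → ℂ, (∀ x, ‖g x‖ ≤ 1) → ∀ x, |(g x).im| ≤ 4 := fun g hg x =>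
    ((Complex.abs_im_le_norm _).trans (hg x)).trans (by norm_num)
  have h1 := abs_le.1 (hb _ _ (r f hf) (r h hh))
  have h2 := abs_le.1 (hb _ _ (r f hf) (i h hh))
  have h3 := abs_le.1 (hb _ _ (i f hf) (r h hh))
  have h4 := abs_le.1 (hb _ _ (i f hf) (i h hh))
  refine (Complex.norm_le_abs_re_add_abs_im _).trans ?_
  have e1 : (∑ x, ∑ y, (a (x + y) : ℂ) * f x * h y).re =
      ∑ x, ∑ y, a (x + y) * (f x).re * (h y).re - ∑ x, ∑ y, a (x + y) * (f x).im * (h y).im := by
    simp [Complex.re_sum, ← sum_sub_distrib]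
  have e2 : (∑ x, ∑ y, (a (x + y) : ℂ) * f x * h y).im =
      ∑ x, ∑ y, a (x + y) * (f x).re * (h y).im + ∑ x, ∑ y, a (x + y) * (f x).im * (h y).re := by
    simp [Complex.im_sum, ← sum_add_distrib]
  rw [e1, e2]
  have := abs_le.2 (⟨by linarith, by linarith⟩ : -(2 * B) ≤ ∑ x, ∑ y, a (x + y) * (f x).re * (h y).re -
    ∑ x, ∑ y, a (x + y) * (f x).im * (h y).im ∧ _ ≤ 2 * B)
  have := abs_le.2 (⟨by linarith, by linarith⟩ : -(2 * B) ≤ ∑ x, ∑ y, a (x + y) * (f x).re * (h y).im +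
    ∑ x, ∑ y, a (x + y) * (f x).im * (h y).re ∧ _ ≤ 2 * B)
  linarith

def P (u v w : ℝ) : ℝ := 3 - u * v - (u + v) * w

open Classical in
noncomputable def A (a : G → ℝ) : Finset (G × G) :=
  univ.filter fun z => ¬(a z.1 = a z.2 ∧ a z.2 = a (z.1 + z.2))

omit [DecidableEq G] in
theorem ind {a : G → ℝ} (ha : ∀ x, a x = 1 ∨ a x = -1) (x y : G) [Decidable ((x, y) ∈ A a)] :
    (if (x, y) ∈ A a then (4 : ℝ) else 0) = P (a x) (a y) (a (x + y)) := by
  simp only [A, mem_filter, mem_univ, true_and, P]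
  rcases ha x with h | h <;> rcases ha y with h' | h' <;> rcases ha (x + y) with h'' | h'' <;>
    rw [h, h', h''] <;> norm_num

theorem corners {a : G → ℝ} (ha : ∀ x, a x = 1 ∨ a x = -1) {B : ℝ} (hb : Bil a B) :
    64 * (((univ : Finset (G × G × G)).filter fun t =>
      (t.1, t.2.1) ∈ A a ∧ (t.1 + t.2.2, t.2.1) ∈ A a ∧ (t.1, t.2.1 + t.2.2) ∈ A a).card : ℝ) ≤
      26 * (Fintype.card G : ℝ) ^ 3 + 6 * Fintype.card G * B := by
  have e : 64 * (((univ : Finset (G × G × G)).filter fun t =>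
      (t.1, t.2.1) ∈ A a ∧ (t.1 + t.2.2, t.2.1) ∈ A a ∧ (t.1, t.2.1 + t.2.2) ∈ A a).card : ℝ) =
      ∑ x, ∑ y, ∑ z, P (a x) (a y) (a (x + y)) * P (a (z - y)) (a y) (a z) *
        P (a x) (a (z - x)) (a z) := by
    rw [card_filter]
    push_cast
    simp only [mul_sum, Fintype.sum_prod_type]
    refine sum_congr rfl fun x _ => sum_congr rfl fun y _ => ?_
    refine Fintype.sum_equiv (Equiv.addLeft (x + y)) _ _ fun d => ?_
    simp only [Equiv.coe_addLeft]
    rw [show x + y + d - y = x + d by abel, show x + y + d - x = y + d by abel, ← ind ha x y]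
    have e1 := ind ha (x + d) y
    have e2 := ind ha x (y + d)
    rw [show x + d + y = x + y + d by abel] at e1
    rw [← add_assoc] at e2
    rw [← e1, ← e2]
    by_cases h1 : (x, y) ∈ A a <;> by_cases h2 : (x + d, y) ∈ A a <;>
      by_cases h3 : (x, y + d) ∈ A a <;> simp [h1, h2, h3]
    norm_num
  rw [e]
  have b1 : ∀ x y z, |P (a x) (a y) (a z)| ≤ 4 := fun x y z => by
    unfold P
    rcases ha x with h | h <;> rcases ha y with h' | h' <;> rcases ha z with h'' | h'' <;>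
      rw [h, h', h''] <;> norm_num
  have b2 : ∀ x y, |3 - a x * a y| ≤ 4 := fun x y => by
    rcases ha x with h | h <;> rcases ha y with h' | h' <;> rw [h, h'] <;> norm_num
  have b3 : ∀ x (t : ℝ), |t| ≤ 4 → |a x * t| ≤ 4 := fun x t ht => by
    rcases ha x with h | h <;> simpa [h] using ht
  have s3 : ∀ T : G → ℝ, (∀ x, |T x| ≤ B) → -(Fintype.card G * B) ≤ ∑ x, T x := fun T hT => by
    calc _ = ∑ _x : G, -B := by simp
      _ ≤ _ := sum_le_sum fun x _ => (abs_le.1 (hT x)).1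
  have t1 := s3 _ fun z => hb (fun x => a x * P (a x) (a (z - x)) (a z))
    (fun y => P (a (z - y)) (a y) (a z)) (fun _ => b3 _ _ (b1 _ _ _)) fun _ => b1 _ _ _
  have t2 := s3 _ fun z => hb (fun x => P (a x) (a (z - x)) (a z))
    (fun y => a y * P (a (z - y)) (a y) (a z)) (fun _ => b1 _ _ _) fun _ => b3 _ _ (b1 _ _ _)
  have t3 := s3 _ fun x => hb.sub (fun y => a y * (3 - a x * a y))
    (fun z => P (a x) (a (z - x)) (a z)) (fun _ => b3 _ _ (b2 _ _)) fun _ => b1 _ _ _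
  have t4 := s3 _ fun x => hb.sub (fun y => 3 - a x * a y)
    (fun z => a z * P (a x) (a (z - x)) (a z)) (fun _ => b2 _ _) fun _ => b3 _ _ (b1 _ _ _)
  have t5 := s3 _ fun y => hb.sub (fun x => a x * (3 - a x * a y))
    (fun z => 3 - a y * a z) (fun _ => b3 _ _ (b2 _ _)) fun _ => b2 _ _
  have t6 := s3 _ fun y => hb.sub (fun x => 3 - a x * a y)
    (fun z => a z * (3 - a y * a z)) (fun _ => b2 _ _) fun _ => b3 _ _ (b2 _ _)
  rw [sum_comm] at t5 t6 t1 t2
  rw [sum_congr rfl fun x _ => sum_comm] at t1 t2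
  have m : ∑ x, ∑ y, ∑ z, (26 - 6 * (a x * a y + a y * a z + a x * a z)) =
      26 * (Fintype.card G : ℝ) ^ 3 - 18 * Fintype.card G * (∑ x, a x) ^ 2 := by
    simp only [sum_sub_distrib, sum_add_distrib, ← mul_sum, ← sum_mul, sum_const, card_univ,
      nsmul_eq_mul]
    ring
  have e2 : ∑ x, ∑ y, ∑ z, P (a x) (a y) (a (x + y)) * P (a (z - y)) (a y) (a z) *
        P (a x) (a (z - x)) (a z) =
      ∑ x, ∑ y, ∑ z, (26 - 6 * (a x * a y + a y * a z + a x * a z)) -
      ∑ x, ∑ y, ∑ z, a (x + y) * (a x * P (a x) (a (z - x)) (a z)) * P (a (z - y)) (a y) (a z) -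
      ∑ x, ∑ y, ∑ z, a (x + y) * P (a x) (a (z - x)) (a z) * (a y * P (a (z - y)) (a y) (a z)) -
      ∑ x, ∑ y, ∑ z, a (z - y) * (a y * (3 - a x * a y)) * P (a x) (a (z - x)) (a z) -
      ∑ x, ∑ y, ∑ z, a (z - y) * (3 - a x * a y) * (a z * P (a x) (a (z - x)) (a z)) -
      ∑ x, ∑ y, ∑ z, a (z - x) * (a x * (3 - a x * a y)) * (3 - a y * a z) -
      ∑ x, ∑ y, ∑ z, a (z - x) * (3 - a x * a y) * (a z * (3 - a y * a z)) := by
    simp only [← sum_sub_distrib]
    refine sum_congr rfl fun x _ => sum_congr rfl fun y _ => sum_congr rfl fun z _ => ?_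
    unfold P
    rcases ha x with h | h <;> rcases ha y with h' | h' <;> rcases ha z with h'' | h'' <;>
      rw [h, h', h''] <;> ring
  rw [e2, m]
  have : 0 ≤ (Fintype.card G : ℝ) * (∑ x, a x) ^ 2 := by positivity
  linarith

theorem fourier {a : G → ℝ} (ha : ∀ x, a x = 1 ∨ a x = -1) {B : ℝ} (hb : Bil a B)
    (ψ φ : AddChar G ℂ) :
    ‖4 * ∑ z ∈ A a, ψ z.1 * φ z.2 - 3 * ((∑ x, ψ x) * ∑ x, φ x)‖ ≤ 12 * B := by
  have e : 4 * ∑ z ∈ A a, ψ z.1 * φ z.2 =
      ∑ x, ∑ y, (P (a x) (a y) (a (x + y)) : ℂ) * (ψ x * φ y) := by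
    rw [← Fintype.sum_prod_type', ← sum_subset (subset_univ (A a)), mul_sum]
    · refine sum_congr rfl fun z hz => ?_
      rw [← ind ha, if_pos hz]; norm_num
    · intro z _ hz
      rw [← ind ha, if_neg hz]; norm_num
  have n1 : ∀ (θ : AddChar G ℂ) x, ‖θ x‖ ≤ 1 := fun θ x => (θ.norm_apply x).le
  have n2 : ∀ (θ : AddChar G ℂ) x, ‖a x * θ x‖ ≤ 1 := fun θ x => by
    rcases ha x with h | h <;> simp [h]
  have t1 := hb.complex _ _ (n2 ψ) (n1 φ)
  have t2 := hb.complex _ _ (n1 ψ) (n2 φ)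
  have t3 := hb.complex _ _ (n1 ψ) (n1 ψ)
  have e3 : ∑ x, ∑ y, (a (x + y) : ℂ) * ψ x * ψ y = Fintype.card G * ∑ x, a x * ψ x := by
    calc _ = ∑ _x : G, ∑ y, (a y : ℂ) * ψ y := by
          refine sum_congr rfl fun x _ => Fintype.sum_equiv (Equiv.addLeft x) _ _ fun y => ?_
          simp only [Equiv.coe_addLeft]
          rw [ψ.map_add_eq_mul, mul_assoc]
      _ = _ := by simp
  have t4 : ‖(∑ x, a x * ψ x) * ∑ x, a x * φ x‖ ≤ 4 * B := by
    refine le_trans ?_ t3
    rw [e3, norm_mul, norm_mul, mul_comm]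
    gcongr
    refine (norm_sum_le _ _).trans ((sum_le_sum fun x _ => n2 φ x).trans ?_)
    simp
  have e4 : ∑ x, ∑ y, (P (a x) (a y) (a (x + y)) : ℂ) * (ψ x * φ y) - 3 * ((∑ x, ψ x) * ∑ x, φ x) =
      -((∑ x, a x * ψ x) * ∑ x, a x * φ x + ∑ x, ∑ y, (a (x + y) : ℂ) * (a x * ψ x) * φ y +
        ∑ x, ∑ y, (a (x + y) : ℂ) * ψ x * (a y * φ y)) := by
    rw [sum_mul_sum, sum_mul_sum]
    simp only [mul_sum, ← sum_sub_distrib, ← sum_add_distrib, ← sum_neg_distrib]
    refine sum_congr rfl fun x _ => sum_congr rfl fun y _ => ?_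
    unfold P
    push_cast
    ring
  rw [e, e4, norm_neg]
  refine norm_add₃_le.trans ?_
  linarith

end Pool.Agent.H1.Corner
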