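import Mathlib

namespace Pool.Agent.H1.Cpet

open List

def ok : ℕ → List ℕ → Prop
  | _, [] => True
  | a, p :: l => 0 < p ∧ (a = 31 ∨ a = 32 ∨ a = 46 ∨ a = 48 → p ≤ 1) ∧ (a = 47 → p ≤ 2) ∧
      ok (a + p) l

instance dec : ∀ a l, Decidable (ok a l)
  | _, [] => isTrue trivial
  | a, p :: l => by
    have := dec (a + p) l
    exact inferInstanceAs (Decidable (_ ∧ _))

lemma ok_app (l m : List ℕ) : ∀ a, ok a (l ++ m) ↔ ok a l ∧ ok (a + l.sum) m := by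
  induction l with
  | nil => simp [ok]
  | cons p l ih => intro a; simp [ok, ih, and_assoc, add_assoc]

lemma free (l : List ℕ) : ∀ a, (∀ x ∈ l, 0 < x) →
    (a + l.sum ≤ 31 ∨ (33 ≤ a ∧ a + l.sum ≤ 46) ∨ 49 ≤ a) → ok a l := by
  induction l with
  | nil => simp [ok]
  | cons p l ih =>
    intro a h1 h2
    have := h1 p (by simp)
    simp only [sum_cons] at h2
    exact ⟨this, by omega, by omega, ih _ (fun x hx => h1 x (by simp [hx])) (by omega)⟩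

def Good (P : List ℕ) : Prop := ∃ l, l ~ P ∧ ok 0 l

lemma Good.perm {P Q : List ℕ} (h : Good P) (e : P ~ Q) : Good Q :=
  let ⟨l, a, b⟩ := h; ⟨l, a.trans e, b⟩

lemma arrange (L M R : List ℕ) (s t : ℕ) (h : ∀ x ∈ L ++ s :: (M ++ t :: R), 0 < x)
    (e : L.sum + s + M.sum + t + R.sum = 61) (h1 : L.sum ≤ 30) (h2 : 33 ≤ L.sum + s)
    (h3 : R.sum ≤ 12) (h4 : 16 ≤ R.sum + t) : ok 0 (L ++ s :: (M ++ t :: R)) := by
  simp only [forall_mem_append, forall_mem_cons] at h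
  simp only [ok_app, ok]
  exact ⟨free _ _ h.1 (by omega), h.2.1, by omega, by omega, free _ _ h.2.2.1 (by omega),
    h.2.2.2.1, by omega, by omega, free _ _ h.2.2.2.2 (by omega)⟩

lemma fill (m : ℕ) (Q : List ℕ) : ∀ y, (∀ x ∈ Q, x ≤ m) → y ≤ Q.sum →
    ∃ A B, Q = A ++ B ∧ y ≤ A.sum ∧ (A.sum = 0 ∨ (0 < y ∧ A.sum + 1 ≤ y + m)) := by
  induction Q with
  | nil => intro y _ h; exact ⟨[], [], rfl, h, Or.inl rfl⟩
  | cons p Q ih =>
    intro y h1 h2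
    rcases Nat.eq_zero_or_pos y with rfl | hy
    · exact ⟨[], _, rfl, le_rfl, Or.inl rfl⟩
    have := h1 p (by simp)
    simp only [sum_cons] at h2
    obtain ⟨A, B, rfl, a, b⟩ := ih (y - p) (fun x hx => h1 x (by simp [hx])) (by omega)
    exact ⟨p :: A, B, rfl, by simp only [sum_cons]; omega, by simp only [sum_cons]; omega⟩

def Re (T : List ℕ) (l r : ℕ) : Prop := ∃ L M R : List ℕ, T ~ L ++ (M ++ R) ∧ L.sum = l ∧ R.sum = r

def cond (s t R m l r : ℕ) : Bool :=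
  decide (l ≤ 30 ∧ (33 ≤ l + s ∨ m + 2 ≤ s) ∧ (16 ≤ r + t ∨ m + 3 ≤ t) ∧
    (33 - l - s) + (16 - r - t) + (if 33 ≤ l + s ∨ 16 ≤ r + t then 0 else m - 1) ≤ R)

lemma cond_good {T Q : List ℕ} {s t m l r : ℕ} (h : Re T l r) (hr : r ≤ 12)
    (c : cond s t Q.sum m l r = true) (hp : ∀ x ∈ s :: t :: (T ++ Q), 0 < x)
    (hQ : ∀ x ∈ Q, x ≤ m) (e : s + t + T.sum + Q.sum = 61) : Good (s :: t :: (T ++ Q)) := by
  obtain ⟨L, M, R, p, rfl, rfl⟩ := h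
  simp only [cond, decide_eq_true_eq] at c
  obtain ⟨c1, c2, c3, c4⟩ := c
  obtain ⟨A, B, rfl, a1, a2⟩ := fill m Q (33 - L.sum - s) hQ (by omega)
  simp only [sum_append] at c4 e
  obtain ⟨C, D, rfl, b1, b2⟩ := fill m B (16 - R.sum - t)
    (fun x hx => hQ x (by simp [hx])) (by split_ifs at c4 <;> omega)
  have q : (L ++ A) ++ s :: ((M ++ D) ++ t :: (R ++ C)) ~ s :: t :: (T ++ (A ++ (C ++ D))) := by
    rw [perm_iff_count] at p ⊢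
    intro x
    have := p x
    simp only [count_append, count_cons] at this ⊢
    omega
  have e' := p.sum_eq
  simp only [sum_append] at e e'
  refine ⟨_, q, arrange _ _ _ _ _ (fun x hx => hp x (q.subset hx)) ?_ ?_ ?_ ?_ ?_⟩ <;>
    simp only [sum_append] <;> omega

def Inv (T : List ℕ) (k : ℕ) : Prop := ∀ i, k.testBit i → ∃ l r, i = 64 * r + l ∧ Re T l r

lemma Inv.step {T : List ℕ} {k : ℕ} (h : Inv T k) (p : ℕ) :
    Inv (p :: T) (k ||| k <<< p ||| k <<< (64 * p)) := by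
  intro i hi
  simp only [Nat.testBit_or, Nat.testBit_shiftLeft, Bool.or_eq_true, Bool.and_eq_true,
    decide_eq_true_eq] at hi
  rcases hi with (hi | ⟨a, hi⟩) | ⟨a, hi⟩ <;> obtain ⟨l, r, e, L, M, R, q, rfl, rfl⟩ := h _ hi
  · exact ⟨_, _, e, L, p :: M, R, (q.cons p).trans perm_middle.symm, rfl, rfl⟩
  · exact ⟨p + L.sum, _, by omega, p :: L, M, R, q.cons p, rfl, rfl⟩
  · refine ⟨_, p + R.sum, by omega, L, M, p :: R, ?_, rfl, rfl⟩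
    rw [← append_assoc] at q ⊢
    exact (q.cons p).trans perm_middle.symm

def good (s t k R m : ℕ) : Bool := (range 13).any fun r =>
  k.testBit (64 * r + ((k >>> (64 * r)) % 2 ^ 31).log2) &&
    cond s t R m ((k >>> (64 * r)) % 2 ^ 31).log2 r

lemma good_good {T Q : List ℕ} {s t m k : ℕ} (h : Inv T k)
    (c : good s t k Q.sum m = true) (hp : ∀ x ∈ s :: t :: (T ++ Q), 0 < x)
    (hQ : ∀ x ∈ Q, x ≤ m) (e : s + t + T.sum + Q.sum = 61) : Good (s :: t :: (T ++ Q)) := by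
  simp only [good, any_eq_true, mem_range, Bool.and_eq_true] at c
  obtain ⟨r, hr, c1, c2⟩ := c
  generalize ((k >>> (64 * r)) % 2 ^ 31).log2 = l at c1 c2
  obtain ⟨l', r', e', L, M, R, q, rfl, rfl⟩ := h _ c1
  have := q.sum_eq
  have : l ≤ 30 := by simp only [cond, decide_eq_true_eq] at c2; exact c2.1
  simp only [sum_append] at *
  obtain rfl : r = R.sum := by omega
  obtain rfl : l = L.sum := by omega
  exact cond_good ⟨L, M, R, q, rfl, rfl⟩ (by omega) c2 hp hQ e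

def E : List (List ℕ) := [[2, 2, 2, 2, 2, 2, 2, 2, 2, 2, 2, 2, 2, 2, 2, 3, 2, 2, 2, 2, 2, 2, 2, 2, 2, 2, 2, 2, 2, 2],
  [3, 3, 3, 3, 3, 3, 3, 3, 3, 3, 3, 2, 3, 3, 3, 3, 2, 3, 3, 3, 3],
  [2, 2, 2, 3, 3, 3, 3, 3, 3, 3, 3, 3, 2, 3, 3, 3, 3, 2, 3, 3, 3, 3],
  [2, 2, 2, 2, 2, 2, 3, 3, 3, 3, 3, 3, 3, 2, 3, 3, 3, 3, 2, 3, 3, 3, 3],
  [2, 2, 2, 2, 2, 2, 2, 2, 2, 3, 3, 3, 3, 3, 2, 3, 3, 3, 3, 2, 3, 3, 3, 3],
  [2, 2, 2, 2, 2, 2, 2, 2, 2, 2, 2, 2, 3, 3, 3, 2, 3, 3, 3, 3, 2, 3, 3, 3, 3],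
  [2, 2, 2, 2, 2, 2, 2, 2, 2, 2, 2, 2, 2, 2, 2, 3, 2, 3, 3, 3, 3, 2, 3, 3, 3, 3],
  [2, 2, 2, 2, 2, 2, 2, 2, 2, 2, 2, 2, 2, 2, 2, 3, 2, 2, 2, 2, 3, 3, 2, 3, 3, 3, 3],
  [2, 2, 2, 2, 2, 2, 2, 2, 2, 2, 2, 2, 2, 2, 2, 3, 2, 2, 2, 2, 2, 2, 2, 2, 3, 3, 3, 3],
  [2, 2, 2, 2, 2, 2, 2, 2, 2, 2, 2, 2, 2, 2, 2, 3, 2, 2, 2, 2, 2, 2, 2, 2, 2, 2, 2, 3, 3],
  [2, 2, 2, 2, 2, 2, 2, 2, 2, 2, 2, 2, 2, 2, 2, 5, 2, 2, 2, 2, 2, 2, 2, 2, 2, 2, 2, 2, 2],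
  [2, 2, 2, 2, 2, 2, 2, 2, 2, 2, 2, 2, 2, 2, 2, 7, 2, 2, 2, 2, 2, 2, 2, 2, 2, 2, 2, 2],
  [2, 2, 2, 2, 2, 2, 2, 2, 2, 2, 2, 2, 2, 2, 2, 9, 2, 2, 2, 2, 2, 2, 2, 2, 2, 2, 2],
  [2, 2, 2, 2, 2, 2, 2, 2, 2, 2, 2, 2, 2, 2, 2, 11, 2, 2, 2, 2, 2, 2, 2, 2, 2, 2],
  [2, 2, 2, 2, 2, 2, 2, 2, 2, 2, 2, 2, 2, 2, 2, 13, 2, 2, 2, 2, 2, 2, 2, 2, 2],
  [2, 2, 2, 2, 2, 2, 2, 2, 2, 2, 2, 2, 2, 2, 2, 15, 2, 2, 2, 2, 2, 2, 2, 2],
  [2, 2, 2, 2, 2, 2, 2, 2, 2, 2, 2, 2, 2, 2, 2, 17, 2, 2, 2, 2, 2, 2, 2],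
  [2, 2, 2, 2, 2, 2, 2, 2, 2, 2, 2, 2, 2, 2, 2, 19, 2, 2, 2, 2, 2, 2],
  [2, 2, 2, 2, 2, 2, 2, 2, 2, 2, 2, 2, 2, 2, 2, 21, 2, 2, 2, 2, 2],
  [2, 2, 2, 2, 2, 2, 2, 2, 2, 2, 2, 2, 2, 2, 2, 23, 2, 2, 2, 2],
  [2, 2, 2, 2, 2, 2, 2, 2, 2, 2, 2, 2, 2, 2, 2, 25, 2, 2, 2],
  [2, 2, 2, 2, 2, 2, 2, 2, 2, 2, 2, 2, 2, 2, 2, 27, 2, 2],
  [2, 2, 3, 3, 3, 3, 3, 3, 3, 3, 27, 3, 3],
  [2, 2, 2, 2, 2, 3, 3, 3, 3, 3, 3, 27, 3, 3],
  [2, 2, 2, 2, 2, 2, 2, 2, 3, 3, 3, 3, 27, 3, 3],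
  [2, 2, 2, 2, 2, 2, 2, 2, 2, 2, 2, 3, 3, 27, 3, 3],
  [2, 2, 2, 2, 2, 2, 2, 2, 2, 2, 2, 2, 2, 2, 27, 3, 3],
  [2, 2, 2, 2, 2, 2, 2, 2, 2, 2, 2, 2, 2, 2, 2, 29, 2],
  [2, 3, 3, 3, 3, 3, 3, 3, 3, 3, 29, 3],
  [2, 2, 2, 2, 3, 3, 3, 3, 3, 3, 3, 29, 3],
  [2, 2, 2, 2, 2, 2, 2, 3, 3, 3, 3, 3, 29, 3],
  [2, 2, 2, 2, 2, 2, 2, 2, 2, 2, 3, 3, 3, 29, 3],
  [2, 2, 2, 2, 2, 2, 2, 2, 2, 2, 2, 2, 2, 3, 29, 3],
  [29, 29, 3],
  [2, 2, 3, 3, 3, 3, 3, 3, 3, 3, 30, 3],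
  [2, 2, 2, 2, 2, 3, 3, 3, 3, 3, 3, 30, 3],
  [2, 2, 2, 2, 2, 2, 2, 2, 3, 3, 3, 3, 30, 3],
  [2, 2, 2, 2, 2, 2, 2, 2, 2, 2, 2, 3, 3, 30, 3],
  [2, 2, 2, 2, 2, 2, 2, 2, 2, 2, 2, 2, 2, 2, 30, 3],
  [29, 30, 2]]

lemma E_ok : ∀ l ∈ E, ok 0 l := by decide +kernel

def chk (a b : ℕ) : ℕ → List ℕ → ℕ → ℕ → ℕ → Bool
  | 0, _, _, _, _ => false
  | f + 1, T, k, R, p => good a b k R p || good b a k R p ||
    if R = 0 then E.any (fun l => l.isPerm (a :: b :: T)) else if p < 2 then true else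
      chk a b f (p :: T) (k ||| k <<< p ||| k <<< (64 * p)) (R - p) (min p (R - p)) &&
        chk a b f T k R (p - 1)

lemma chk_good (a b : ℕ) : ∀ f T k Q p, chk a b f T k Q.sum p = true → Inv T k →
    (∀ x ∈ a :: b :: T, 0 < x) → (∀ x ∈ Q, 2 ≤ x ∧ x ≤ p) → a + b + T.sum + Q.sum = 61 →
    Good (a :: b :: (T ++ Q)) := by
  intro f
  induction f with
  | zero => simp [chk]
  | succ f ih =>
    intro T k Q p c hI hp hQ e
    have hp' : ∀ x ∈ a :: b :: (T ++ Q), 0 < x := by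
      simp only [forall_mem_cons, forall_mem_append] at hp ⊢
      exact ⟨hp.1, hp.2.1, hp.2.2, fun x hx => by have := hQ x hx; omega⟩
    simp only [chk, Bool.or_eq_true] at c
    rcases c with (c | c) | c
    · exact good_good hI c hp' (fun x hx => (hQ x hx).2) e
    · exact (good_good hI c (fun x hx => hp' x ((Perm.swap ..).subset hx))
        (fun x hx => (hQ x hx).2) (by omega)).perm (Perm.swap ..)
    rcases Q with _ | ⟨q, Q⟩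
    · simp only [sum_nil, if_true, any_eq_true] at c
      obtain ⟨l, h1, h2⟩ := c
      exact ⟨l, by simpa using isPerm_iff.1 h2, E_ok l h1⟩
    have := hQ q (by simp)
    rw [if_neg (by simp only [sum_cons]; omega), if_neg (by omega), Bool.and_eq_true] at c
    generalize q :: Q = Q' at *
    by_cases m : p ∈ Q'
    · have q1 := perm_cons_erase m
      have q2 := q1.sum_eq
      rw [sum_cons] at q2
      rw [show Q'.sum - p = (Q'.erase p).sum by omega] at c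
      refine (ih _ _ _ _ c.1 (hI.step p) ?_ ?_ (by rw [sum_cons]; omega)).perm ?_
      · simp only [forall_mem_cons] at hp ⊢
        exact ⟨hp.1, hp.2.1, by omega, hp.2.2⟩
      · intro x hx
        have := hQ x (mem_of_mem_erase hx)
        have := single_le_sum (l := Q'.erase p) (by simp) x hx
        omega
      · exact ((perm_middle.symm.trans (q1.symm.append_left T)).cons _).cons _
    · refine ih _ _ _ _ c.2 hI hp (fun x hx => ?_) e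
      have := hQ x hx
      have : x ≠ p := fun e => m (e ▸ hx)
      omega

lemma all_chk : ∀ a ≤ 30, ∀ b ≤ a, 2 ≤ b → chk a b 100 [] 1 (61 - a - b) (min b (61 - a - b)) = true := by
  decide +kernel

lemma ex_max (l : List ℕ) (h : l ≠ []) : ∃ a, l ~ a :: l.erase a ∧ ∀ x ∈ l, x ≤ a := by
  obtain ⟨a, h1, h2⟩ := l.toFinset.exists_max_image id (by simpa using h)
  exact ⟨a, perm_cons_erase (by simpa using h1), by simpa using h2⟩

lemma good2 (P : List ℕ) (h : ∀ x ∈ P, 2 ≤ x) (e : P.sum = 61) : Good P := by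
  obtain ⟨a, q, ha⟩ := ex_max P (by rintro rfl; simp at e)
  have e1 := q.sum_eq
  have h1 : ∀ x ∈ P.erase a, 2 ≤ x ∧ x ≤ a := fun x hx =>
    ⟨h x (mem_of_mem_erase hx), ha x (mem_of_mem_erase hx)⟩
  have h0 := h a (q.symm.subset (by simp))
  generalize P.erase a = P1 at *
  rw [sum_cons] at e1
  refine Good.perm ?_ q.symm
  by_cases c : 31 ≤ a
  · refine ⟨P1 ++ [a], perm_append_comm, (ok_app ..).2 ⟨free _ _ (fun x hx => ?_) (by omega), ?_⟩⟩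
    · have := h1 x hx; omega
    · exact ⟨by omega, by omega, by omega, trivial⟩
  obtain ⟨b, q', hb⟩ := ex_max P1 (by rintro rfl; simp at e1; omega)
  have e2 := q'.sum_eq
  have h2 : ∀ x ∈ P1.erase b, 2 ≤ x ∧ x ≤ b := fun x hx =>
    ⟨(h1 x (mem_of_mem_erase hx)).1, hb x (mem_of_mem_erase hx)⟩
  have h3 := h1 b (q'.symm.subset (by simp))
  generalize P1.erase b = P2 at *
  rw [sum_cons] at e2
  have c' := all_chk a (by omega) b h3.2 h3.1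
  rw [show 61 - a - b = P2.sum by omega] at c'
  refine (chk_good a b _ _ _ _ _ c' ?_ (by simp; omega) ?_ (by simp; omega)).perm
    (q'.symm.cons a)
  · intro i hi
    rw [Nat.testBit_one_eq_true_iff_self_eq_zero] at hi
    exact ⟨0, 0, hi, [], [], [], Perm.refl _, rfl, rfl⟩
  · intro x hx
    have := h2 x hx
    have := single_le_sum (l := P2) (by simp) x hx
    omega

theorem good_all (n : ℕ) : ∀ P : List ℕ, P.length = n → (∀ x ∈ P, 0 < x) → P.sum = 61 → Good P := by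
  induction n using Nat.strong_induction_on with
  | _ n ih =>
  intro P hn h e
  by_cases m : 1 ∈ P
  · have q := perm_cons_erase m
    have e1 := q.sum_eq
    have e2 := q.length_eq
    have h1 : ∀ x ∈ P.erase 1, 0 < x := fun x hx => h x (mem_of_mem_erase hx)
    generalize P.erase 1 = P1 at *
    rcases P1 with _ | ⟨s, P1⟩
    · simp at e1; omega
    simp only [sum_cons, length_cons, forall_mem_cons] at e1 e2 h1
    obtain ⟨l, a, b⟩ := ih _ (by simp only [length_cons]; omega) ((s + 1) :: P1) rfl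
      (by simp only [forall_mem_cons]; exact ⟨by omega, h1.2⟩) (by rw [sum_cons]; omega)
    obtain ⟨A, B, rfl⟩ := append_of_mem (a.symm.subset (mem_cons_self))
    refine ⟨A ++ s :: 1 :: B, ?_, ?_⟩
    · have := (perm_middle.symm.trans a).cons_inv
      rw [perm_iff_count] at this q ⊢
      intro x
      have := this x
      have := q x
      simp only [count_append, count_cons] at *
      omega
    · simp only [ok_app, ok] at b ⊢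
      refine ⟨b.1, h1.1, by omega, by omega, by omega, by omega, by omega, ?_⟩
      rw [add_assoc _ s]; exact b.2.2.2.2
  · refine good2 P (fun x hx => ?_) e
    have := h x hx
    have : x ≠ 1 := fun e => m (e ▸ hx)
    omega

end Pool.Agent.H1.Cpet
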