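import Mathlib

namespace Pool.Agent.H1.Cvx

def W0 : List (List (List ℕ)) := [[],[[0,1]],[[0,1,2]],[[0,1,2,3]],[[0,1,2,3,4]],[[0,1,2,3,4,5]],[[0,1,2,3,4,5,6]],
  [[0,1,2,3,4,6]],[[0,1,2,3,5]],[[0,1,2,3,5,6]],[[0,1,2,3,6]],[[0,1,2,4]],[[0,1,2,4,5]],
  [[0,1,2,4,5,6]],[[0,1,2,4,6]],[[0,1,2,5]],[[0,1,2,5,6]],[[0,1,2,6]],[[0,1,3]],[[0,1,3,4]],
  [[0,1,3,4,5]],[[0,1,3,4,5,6]],[[0,1,3,4,6]],[[0,1,3,5]],[[0,1,3,5,6]],[[0,1,3,6]],[[0,1,4]],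
  [[0,1,4,5]],[[0,1,4,5,6]],[[0,1,4,6]],[[0,1,5]],[[0,1,5,6]],[[0,1,6]],[[0,2]],[[0,2,3]],
  [[0,2,3,4]],[[0,2,3,4,5]],[[0,2,3,4,5,6]],[[0,2,3,4,6]],[[0,2,3,5]],[[0,2,3,5,6]],[[0,2,3,6]],
  [[0,2,4]],[[0,2,4,5]],[[0,2,4,5,6]],[[0,2,4,6]],[[0,2,5]],[[0,2,5,6]],[[0,2,6]],[[0,3]],
  [[0,3,4]],[[0,3,4,5]],[[0,3,4,5,6]],[[0,3,4,6]],[[0,3,5]],[[0,3,5,6]],[[0,3,6]],[[0,4]],
  [[0,4,5]],[[0,4,5,6]],[[0,4,6]],[[0,5]],[[0,5,6]],[[0,6]],[[1,2]],[[1,2,3]],[[1,2,3,4]],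
  [[1,2,3,4,5]],[[1,2,3,4,5,6]],[[1,2,3,4,6]],[[1,2,3,5]],[[1,2,3,5,6]],[[1,2,3,6]],[[1,2,4]],
  [[1,2,4,5]],[[1,2,4,5,6]],[[1,2,4,6]],[[1,2,5]],[[1,2,5,6]],[[1,2,6]],[[1,3]],[[1,3,4]],
  [[1,3,4,5]],[[1,3,4,5,6]],[[1,3,4,6]],[[1,3,5]],[[1,3,5,6]],[[1,3,6]],[[1,4]],[[1,4,5]],
  [[1,4,5,6]],[[1,4,6]],[[1,5]],[[1,5,6]],[[1,6]],[[2,3]],[[2,3,4]],[[2,3,4,5]],[[2,3,4,5,6]],
  [[2,3,4,6]],[[2,3,5]],[[2,3,5,6]],[[2,3,6]],[[2,4]],[[2,4,5]],[[2,4,5,6]],[[2,4,6]],[[2,5]],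
  [[2,5,6]],[[2,6]],[[3,4]],[[3,4,5]],[[3,4,5,6]],[[3,4,6]],[[3,5]],[[3,5,6]],[[3,6]],[[4,5]],
  [[4,5,6]],[[4,6]],[[5,6]]]

def W1 : List (List (List ℕ)) := [[[0,1],[2,3]],[[0,1],[2,4]],[[0,1],[2,5]],[[0,1],[2,6]],[[0,1],[3,4]],[[0,1],[3,5]],
  [[0,1],[3,6]],[[0,1],[4,5]],[[0,1],[4,6]],[[0,1],[5,6]],[[0,2],[3,4]],[[0,2],[3,5]],
  [[0,2],[3,6]],[[0,2],[4,5]],[[0,2],[4,6]],[[0,2],[5,6]],[[0,3],[4,5]],[[0,3],[4,6]],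
  [[0,3],[5,6]],[[0,4],[5,6]],[[1,2],[3,4]],[[1,2],[3,5]],[[1,2],[3,6]],[[1,2],[4,5]],
  [[1,2],[4,6]],[[1,2],[5,6]],[[1,3],[4,5]],[[1,3],[4,6]],[[1,3],[5,6]],[[1,4],[5,6]],
  [[2,3],[4,5]],[[2,3],[4,6]],[[2,3],[5,6]],[[2,4],[5,6]],[[3,4],[5,6]],[[0,1],[2,3,4]],
  [[0,1],[2,3,5]],[[0,1],[2,3,6]],[[0,1],[2,4,5]],[[0,1],[2,4,6]],[[0,1],[2,5,6]],
  [[0,1],[3,4,5]],[[0,1],[3,4,6]],[[0,1],[3,5,6]],[[0,1],[4,5,6]],[[0,1,2],[3,4]],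
  [[0,1,2],[3,5]],[[0,1,2],[3,6]],[[0,1,2],[4,5]],[[0,1,2],[4,6]],[[0,1,2],[5,6]],
  [[0,1,3],[4,5]],[[0,1,3],[4,6]],[[0,1,3],[5,6]],[[0,1,4],[5,6]],[[0,2],[3,4,5]],
  [[0,2],[3,4,6]],[[0,2],[3,5,6]],[[0,2],[4,5,6]],[[0,2,3],[4,5]],[[0,2,3],[4,6]],
  [[0,2,3],[5,6]],[[0,2,4],[5,6]],[[0,3],[4,5,6]],[[0,3,4],[5,6]],[[1,2],[3,4,5]],
  [[1,2],[3,4,6]],[[1,2],[3,5,6]],[[1,2],[4,5,6]],[[1,2,3],[4,5]],[[1,2,3],[4,6]],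
  [[1,2,3],[5,6]],[[1,2,4],[5,6]],[[1,3],[4,5,6]],[[1,3,4],[5,6]],[[2,3],[4,5,6]],
  [[2,3,4],[5,6]],[[0,1],[2,3,4,5]],[[0,1],[2,3,4,6]],[[0,1],[2,3,5,6]],[[0,1],[2,4,5,6]],
  [[0,1],[3,4,5,6]],[[0,1,2,3],[4,5]],[[0,1,2,3],[4,6]],[[0,1,2,3],[5,6]],[[0,1,2,4],[5,6]],
  [[0,1,3,4],[5,6]],[[0,2],[3,4,5,6]],[[0,2,3,4],[5,6]],[[1,2],[3,4,5,6]],[[1,2,3,4],[5,6]],
  [[0,1,2],[3,4,5]],[[0,1,2],[3,4,6]],[[0,1,2],[3,5,6]],[[0,1,2],[4,5,6]],[[0,1,3],[4,5,6]],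
  [[0,2,3],[4,5,6]],[[1,2,3],[4,5,6]],[[0,1],[2,3,4,5,6]],[[0,1,2,3,4],[5,6]],
  [[0,1],[2,3],[4,5]],[[0,1],[2,3],[4,6]],[[0,1],[2,3],[5,6]],[[0,1],[2,4],[5,6]],
  [[0,1],[3,4],[5,6]],[[0,2],[3,4],[5,6]],[[1,2],[3,4],[5,6]],[[0,1,2],[3,4,5,6]],
  [[0,1,2,3],[4,5,6]],[[0,1],[2,3],[4,5,6]],[[0,1],[2,3,4],[5,6]],[[0,1,2],[3,4],[5,6]]]

def lab (cl : List (List ℕ)) (a : ℕ) : List ℕ := (cl.find? (·.contains a)).getD [a]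

def sep (q : ℕ → ℕ) (A B : List ℕ) : Bool :=
  A.all fun a => A.all fun b => B.all fun c => !(Nat.ble (q a) (q c) && Nat.ble (q c) (q b))

def chk (q : ℕ → ℕ) : List (List ℕ) → Bool
  | [] => true
  | A :: cl => (cl.all fun B => sep q A B && sep q B A) && chk q cl

lemma chk_sep (q : ℕ → ℕ) : ∀ cl, chk q cl → ∀ A ∈ cl, ∀ B ∈ cl, A = B ∨ sep q A B
  | [], _ => by simp
  | C :: cl, h => by
    simp only [chk, Bool.and_eq_true, List.all_eq_true] at h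
    simp only [List.forall_mem_cons, true_or, true_and]
    exact ⟨fun B hB => .inr (h.1 B hB).1, fun A hA => ⟨.inr (h.1 A hA).2, chk_sep q cl h.2 A hA⟩⟩

def qf (a b c d e i : ℕ) : ℕ :=
  bif i.beq a || i.beq b then 0 else bif i.beq c then 1 else bif i.beq d then 2 else
    bif i.beq e then 3 else 4

def cnt (p : List (List ℕ) → Bool) : List (List (List ℕ)) → ℕ → Bool
  | _, 0 => true
  | [], _ => false
  | x :: l, k + 1 => bif p x then cnt p l k else cnt p l (k + 1)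

lemma cnt_le (p : List (List ℕ) → Bool) : ∀ l k, cnt p l k → k ≤ l.countP p
  | _, 0, _ => Nat.zero_le _
  | [], _ + 1, h => by simp [cnt] at h
  | x :: l, k + 1, h => by
    cases e : p x <;> simp only [cnt, e, cond] at h <;> have := cnt_le p l _ h <;>
      simp [e] <;> omega

def tst (a : ℕ) : Bool := (List.range 7).all fun b => Nat.ble b a || (List.range 7).all fun c =>
  c.beq a || c.beq b || (List.range 7).all fun d => d.beq a || d.beq b || d.beq c ||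
    (List.range 7).all fun e => e.beq a || e.beq b || e.beq c || e.beq d ||
      cnt (chk (qf a b c d e)) W1 5

lemma t0 : tst 0 := by decide +kernel
lemma t1 : tst 1 := by decide +kernel
lemma t2 : tst 2 ∧ tst 3 ∧ tst 4 ∧ tst 5 ∧ tst 6 := by decide +kernel

lemma main (a b c d e : Fin 7) (h : a < b) (n : [a, b, c, d, e].Nodup) :
    5 ≤ W1.countP (chk (qf a b c d e)) := by
  have : tst a := by fin_cases a <;> simp [t0, t1, t2]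
  simp only [tst, List.all_eq_true, List.mem_range, Bool.or_eq_true, Nat.ble_eq, Nat.beq_eq,
    or_assoc] at this
  simp only [List.nodup_cons, List.mem_cons, Fin.ext_iff, not_or, Fin.lt_def] at n h
  refine cnt_le _ _ _ ?_
  obtain h | this := this b b.2; · omega
  obtain h | h | this := this c c.2; any_goals omega
  obtain h | h | h | this := this d d.2; any_goals omega
  obtain h | h | h | h | this := this e e.2; all_goals omega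

lemma w0 : W1.all (chk (qf 0 1 2 3 4)) ∧ W0.length = 121 ∧
    (∀ cl ∈ W0, cl.length ≤ 1) := by decide +kernel

def code (cl : List (List ℕ)) : ℕ :=
  ∑ a : Fin 7, ∑ b : Fin 7, if lab cl a = lab cl b then 2 ^ (7 * a.val + b.val) else 0

lemma pw : ((W0 ++ W1).map code).Nodup := by decide +kernel

def allF : List (List ℕ) := (List.range 2).flatMap fun a => (List.range 3).flatMap fun b =>
  (List.range 4).flatMap fun c => (List.range 5).flatMap fun d => (List.range 6).flatMap fun e =>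
    (List.range 7).map fun f => [0, a, b, c, d, e, f]

def KK : List (List ℕ) := [[0, 1, 11, 11, 11, 11, 11, 7, 11, 11, 11, 11],
  [7, 7, 2, 11, 11, 11, 11, 7, 8, 11, 11, 11], [8, 8, 8, 3, 11, 11, 11, 8, 8, 9, 11, 11],
  [9, 9, 9, 9, 4, 11, 11, 9, 9, 9, 10, 11], [10, 10, 10, 10, 10, 5, 6, 10, 10, 10, 10, 11],
  [11, 8, 9, 11, 8, 9, 11, 7, 8, 9, 11, 11], [11, 1, 11, 11, 4, 11, 11, 11, 8, 11, 11, 11],
  [11, 11, 2, 11, 11, 5, 11, 11, 11, 9, 11, 11], [11, 9, 9, 3, 9, 9, 11, 9, 9, 9, 10, 11],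
  [0, 10, 10, 10, 10, 10, 6, 10, 10, 10, 10, 11]]

def good (l : List ℕ) : Bool := ((List.range 7).all fun a =>
  (l.getD (l.getD a 0) 0).beq (l.getD a 0)) && KK.all fun k => (List.range 7).all fun a =>
    (k.getD a 0).beq (k.getD (l.getD a 0) 0) || (List.range 7).all fun c =>
      (k.getD c 0).beq (k.getD (l.getD c 0) 0) || (l.getD a 0).beq (l.getD c 0)

lemma up : (allF.filter good).length = 125 := by decide +kernel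

end Pool.Agent.H1.Cvx
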