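import Mathlib

namespace Pool.Agent.H1.CycA

open Finset

structure V (s : Finset ℕ) (f : ℕ → ℕ) : Prop where
  out : ∀ x, x ∉ s → f x = x
  mem : ∀ x ∈ s, f x ∈ s
  cyc : ∀ x, f (f x) = x ∨ f (f (f x)) = x
  av : ∀ x ∈ s, ∀ y ∈ s, ∀ z ∈ s, x < y → y < z → f z < f x → f x < f y → False

variable {s : Finset ℕ} {f : ℕ → ℕ}

lemma V.inj (h : V s f) {x y : ℕ} (e : f x = f y) : x = y := by
  have := h.cyc x
  have := h.cyc y
  grind

lemma V.surj (h : V s f) {y : ℕ} (hy : y ∈ s) : ∃ x ∈ s, f x = y := by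
  rcases h.cyc y with e | e
  · exact ⟨_, h.mem _ hy, e⟩
  · exact ⟨_, h.mem _ (h.mem _ hy), e⟩

def res (t : Finset ℕ) (f : ℕ → ℕ) : ℕ → ℕ := fun x => if x ∈ t then f x else x

lemma V.res (h : V s f) {t : Finset ℕ} (ht : t ⊆ s) (hm : ∀ x ∈ t, f x ∈ t) :
    V t (res t f) := by
  refine ⟨fun x hx => by simp [CycA.res, hx], fun x hx => by simp [CycA.res, hx, hm x hx], ?_, ?_⟩
  · intro x
    by_cases hx : x ∈ t
    · have := h.cyc x
      simpa [CycA.res, hx, hm x hx, hm _ (hm x hx)] using this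
    · simp [CycA.res, hx]
  · intro x hx y hy z hz
    simp only [CycA.res, hx, hy, hz, if_true]
    exact h.av x (ht hx) y (ht hy) z (ht hz)

lemma V.split (h : V s f) {p : ℕ} (hp : p ∈ s) (hM : ∀ y ∈ s, y ≤ f p) :
    (∀ x ∈ s, x < p → f x < p) ∧ (∀ x ∈ s, p ≤ x → p ≤ f x) := by
  have h1 : ∀ x ∈ s, x < p → f x < p := by
    intro x hx hxp
    by_contra hc
    have key : ∀ y ∈ s, p ≤ y → f x < f y := by
      intro y hy hpy
      have a1 : f x ≠ f p := fun e => by have := h.inj e; omega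
      have a2 : f x ≠ f y := fun e => by have := h.inj e; omega
      have a3 := hM _ (h.mem x hx)
      have a4 := h.av x hx p hp y hy hxp
      rcases eq_or_lt_of_le hpy with e | l
      · subst e; omega
      · have := a4 l; grind
    have b1 := key _ (h.mem x hx) (by omega)
    have b2 := key _ (h.mem _ (h.mem x hx)) (by omega)
    have := h.cyc x
    omega
  refine ⟨h1, fun x hx hpx => ?_⟩
  by_contra hc
  have b1 := h1 _ (h.mem x hx) (by omega)
  have b2 := h1 _ (h.mem _ (h.mem x hx)) b1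
  have := h.cyc x
  omega

lemma anti_unique {t : Finset ℕ} {f g : ℕ → ℕ}
    (f1 : ∀ x ∈ t, f x ∈ t) (g1 : ∀ x ∈ t, g x ∈ t)
    (f2 : ∀ y ∈ t, ∃ x ∈ t, f x = y) (g2 : ∀ y ∈ t, ∃ x ∈ t, g x = y)
    (f3 : ∀ x ∈ t, ∀ y ∈ t, x < y → f y < f x) (g3 : ∀ x ∈ t, ∀ y ∈ t, x < y → g y < g x) :
    ∀ x ∈ t, f x = g x := by
  intro x
  induction x using Nat.strong_induction_on with
  | _ x ih =>
    intro hx
    obtain ⟨y, hy, e⟩ := f2 _ (g1 x hx)
    obtain ⟨z, hz, e'⟩ := g2 _ (f1 x hx)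
    have a1 := f3 x hx y hy
    have a2 := g3 y hy x hx
    have a3 := g3 x hx z hz
    have a4 := f3 z hz x hx
    have a5 := fun h => ih y h hy
    have a6 := fun h => ih z h hz
    rcases lt_trichotomy x y with h | h | h <;> rcases lt_trichotomy x z with h' | h' | h' <;>
      grind

def A1 (s : Finset ℕ) : Set (ℕ → ℕ) := {f | V s f ∧ ∀ x ∈ s, ∀ y ∈ s, x < y → f y < f x}

lemma A1_le (s : Finset ℕ) : (A1 s).encard ≤ 1 := by
  rw [Set.encard_le_one_iff]
  rintro f g ⟨f1, f2⟩ ⟨g1, g2⟩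
  funext x
  by_cases hx : x ∈ s
  · exact anti_unique f1.mem g1.mem (fun y => f1.surj) (fun y => g1.surj) f2 g2 x hx
  · rw [f1.out x hx, g1.out x hx]

def Dset (s : Finset ℕ) (c : ℕ) : Set (ℕ → ℕ) :=
  {f | V s f ∧ (∀ x ∈ s, ∀ y ∈ s, x < y → y < c → f y < f x) ∧
    (∀ x ∈ s, ∀ y ∈ s, x < y → c < f x → c < f y → f y < f x)}

def A2 (s : Finset ℕ) (c : ℕ) : Set (ℕ → ℕ) :=
  {f | f ∈ Dset s c ∧ (∀ x ∈ s, x < c → f x < c) ∧ (∀ x ∈ s, c < x → c < f x) ∧
    (∃ x ∈ s, x < c) ∧ ∃ x ∈ s, c < x}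

lemma A2_le (s : Finset ℕ) {c : ℕ} (hc : c ∉ s) : (A2 s c).encard ≤ 1 := by
  rw [Set.encard_le_one_iff]
  have key : ∀ f ∈ A2 s c, ∀ t : Finset ℕ, (t = s.filter (· < c) ∨ t = s.filter (c < ·)) →
      (∀ x ∈ t, f x ∈ t) ∧ (∀ y ∈ t, ∃ x ∈ t, f x = y) ∧
        (∀ x ∈ t, ∀ y ∈ t, x < y → f y < f x) := by
    rintro f ⟨⟨f1, f2, f3⟩, f4, f5, -⟩ t ht
    have m : ∀ x ∈ t, f x ∈ t := by
      have := f1.mem
      rcases ht with rfl | rfl <;> simp only [mem_filter] <;> grind
    refine ⟨m, fun y hy => ?_, ?_⟩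
    · rcases f1.cyc y with e | e
      · exact ⟨_, m _ hy, e⟩
      · exact ⟨_, m _ (m _ hy), e⟩
    · rcases ht with rfl | rfl <;> simp only [mem_filter] <;> grind
  intro f g hf hg
  funext x
  by_cases hx : x ∈ s
  · have : x < c ∨ c < x := by
      rcases lt_trichotomy x c with h | h | h
      exacts [Or.inl h, absurd (h ▸ hx) hc, Or.inr h]
    rcases this with h | h
    · obtain ⟨a1, a2, a3⟩ := key f hf _ (Or.inl rfl)
      obtain ⟨b1, b2, b3⟩ := key g hg _ (Or.inl rfl)
      exact anti_unique a1 b1 a2 b2 a3 b3 x (mem_filter.2 ⟨hx, h⟩)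
    · obtain ⟨a1, a2, a3⟩ := key f hf _ (Or.inr rfl)
      obtain ⟨b1, b2, b3⟩ := key g hg _ (Or.inr rfl)
      exact anti_unique a1 b1 a2 b2 a3 b3 x (mem_filter.2 ⟨hx, h⟩)
  · rw [hf.1.1.out x hx, hg.1.1.out x hx]

def Wj (s : Finset ℕ) (a b j : ℕ) : Set (ℕ → ℕ) := {f | V s f ∧ f a = b ∧ f b = j ∧ f j = a}

lemma W_step {a b : ℕ} (ha : a ∈ s) (hb : b ∈ s) (hmin : ∀ y ∈ s, a ≤ y) (hmax : ∀ y ∈ s, y ≤ b)
    (h : V s f) (e : f a = b) : f ∈ A1 s ∨ (a < f b ∧ f b < b ∧ f ∈ Wj s a b (f b)) := by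
  by_cases hb' : f b = a
  · refine Or.inl ⟨h, fun x hx y hy hxy => ?_⟩
    have a1 := hmin _ (h.mem x hx)
    have a2 := hmax y hy
    have a3 := @V.inj _ _ h x b
    have a4 := @V.inj _ _ h x y
    have a5 := h.av x hx y hy b hb hxy
    grind
  · have a1 := hmin _ (h.mem b hb)
    have a2 := hmax _ (h.mem b hb)
    have a3 := @V.inj _ _ h a b
    have a4 := h.cyc a
    refine Or.inr ⟨by omega, by grind, h, e, rfl, by grind⟩

def rk (s : Finset ℕ) (c : ℕ) : ℕ := (s.filter (· < c)).card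

lemma rk_le (s : Finset ℕ) (c : ℕ) : rk s c ≤ s.card := card_filter_le _ _

lemma Wj_le {a b j : ℕ} (ha : a ∈ s) (hb : b ∈ s) (hj : j ∈ s) (hmin : ∀ y ∈ s, a ≤ y)
    (hmax : ∀ y ∈ s, y ≤ b) (h1 : a < j) (h2 : j < b) :
    ∃ s' : Finset ℕ, j ∉ s' ∧ s'.card + 3 = s.card ∧ rk s' j + 1 = rk s j ∧
      (Wj s a b j).encard ≤ (Dset s' j).encard := by
  have hm : ∀ x, x ∈ ((s.erase a).erase b).erase j ↔ x ∈ s ∧ x ≠ a ∧ x ≠ b ∧ x ≠ j := by
    intro x; simp only [mem_erase]; tauto
  refine ⟨((s.erase a).erase b).erase j, by simp, ?_, ?_, ?_⟩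
  · have e1 := card_erase_add_one ha
    have e2 := card_erase_add_one (s := s.erase a) (a := b) (by simp [hb]; omega)
    have e3 := card_erase_add_one (s := (s.erase a).erase b) (a := j) (by simp [hj]; omega)
    omega
  · unfold rk
    rw [← card_erase_add_one (s := s.filter (· < j)) (a := a) (by simp [ha, h1])]
    congr 2
    ext x
    simp only [mem_filter, mem_erase]
    grind
  · refine Set.encard_le_encard_of_injOn (f := res (((s.erase a).erase b).erase j)) ?_ ?_
    · rintro f ⟨h, e1, e2, e3⟩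
      have m : ∀ x ∈ ((s.erase a).erase b).erase j, f x ∈ ((s.erase a).erase b).erase j := by
        intro x hx
        rw [hm] at hx ⊢
        have := h.mem x hx.1
        have := @V.inj _ _ h x a
        have := @V.inj _ _ h x b
        have := @V.inj _ _ h x j
        grind
      refine ⟨h.res (fun x hx => ((hm x).1 hx).1) m, ?_, ?_⟩
      · intro x hx y hy hxy hyj
        simp only [res, hx, hy, if_true]
        have a0 := (hm _).1 (m x hx)
        rw [hm] at hx hy
        have a1 := h.av x hx.1 y hy.1 j hj hxy hyj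
        have a2 := @V.inj _ _ h x y
        have a3 := hmin _ a0.1
        grind
      · intro x hx y hy hxy
        simp only [res, hx, hy, if_true]
        rw [hm] at hx hy
        have a1 := h.av x hx.1 y hy.1 b hb hxy
        have a2 := @V.inj _ _ h x y
        have a3 := hmax _ hy.1
        grind
    · rintro f ⟨h, e1, e2, e3⟩ g ⟨h', g1, g2, g3⟩ e
      funext x
      have := congrFun e x
      simp only [res, hm] at this
      have := h.out x
      have := h'.out x
      grind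

def d : ℕ → ℕ → ℕ
  | m + 3, t => 1 + (if 0 < t ∧ t < m + 3 then 1 else 0)
      + (if 1 ≤ t ∧ t ≤ m + 1 then d m (t - 1) else 0)
      + (if 2 ≤ t ∧ t ≤ m + 2 then d m (t - 2) else 0)
  | m, t => 1 + (if 0 < t ∧ t < m then 1 else 0)

lemma d_eq (m t : ℕ) : d m t = 1 + (if 0 < t ∧ t < m then 1 else 0)
      + (if 1 ≤ t ∧ t + 2 ≤ m then d (m - 3) (t - 1) else 0)
      + (if 2 ≤ t ∧ t + 1 ≤ m then d (m - 3) (t - 2) else 0) := by
  match m with
  | 0 => simp [d]
  | 1 => simp [d]; omega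
  | 2 => simp [d]; grind
  | m + 3 => simp [d]

lemma uniq_le {P : ℕ → Prop} {F : ℕ → Set (ℕ → ℕ)} {K : ℕ∞} (hu : ∀ i j, P i → P j → i = j)
    (hK : ∀ j, P j → (F j).encard ≤ K) : {f | ∃ j, P j ∧ f ∈ F j}.encard ≤ K := by
  by_cases h : ∃ j, P j
  · obtain ⟨j, hj⟩ := h
    refine le_trans (Set.encard_le_encard ?_) (hK j hj)
    rintro f ⟨i, hi, hf⟩
    exact hu i j hi hj ▸ hf
  · have : {f | ∃ j, P j ∧ f ∈ F j} = ∅ := by
      ext f; simp only [Set.mem_empty_iff_false, iff_false]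
      rintro ⟨j, hj, -⟩; exact h ⟨j, hj⟩
    simp [this]

lemma D_le (m : ℕ) : ∀ (s : Finset ℕ) (c : ℕ), c ∉ s → s.card = m →
    (Dset s c).encard ≤ d m (rk s c) := by
  induction m using Nat.strong_induction_on with
  | _ m ih =>
  intro s c hc hm
  rcases s.eq_empty_or_nonempty with rfl | hne
  · have : Dset ∅ c ⊆ A1 ∅ := fun f hf => ⟨hf.1, by simp⟩
    refine (Set.encard_le_encard this).trans ((A1_le _).trans ?_)
    rw [d_eq]; exact_mod_cast (by omega)
  have ha := min'_mem s hne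
  have hb := max'_mem s hne
  have hmin := min'_le s
  have hmax := le_max' s
  set a := s.min' hne
  set b := s.max' hne
  have cover : Dset s c ⊆ ((A1 s ∪ A2 s c) ∪
      {f | ∃ j, (j ∈ s ∧ a < j ∧ j < b ∧ c < j ∧ ∀ y ∈ s, y < j → y < c) ∧ f ∈ Wj s a b j}) ∪
      {f | ∃ j, (j ∈ s ∧ a < j ∧ j < b ∧ j < c ∧ ∀ y ∈ s, j < y → c < y) ∧ f ∈ Wj s a b j} := by
    intro f hf
    obtain ⟨h, f2, f3⟩ := id hf
    obtain ⟨p, hp, e⟩ := h.surj hb
    have ne : ∀ y ∈ s, y ≠ c := fun y hy e => hc (e ▸ hy)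
    by_cases hpa : p = a
    · subst hpa
      rcases W_step ha hb hmin hmax h e with h1 | ⟨h1, h2, h3⟩
      · exact Or.inl (Or.inl (Or.inl h1))
      · have hj := h.mem b hb
        have k1 : ∀ y ∈ s, f b < y → c < y := by
          intro y hy l
          have a1 := f2 _ hj y hy l
          have a2 := hmin _ (h.mem y hy)
          have a3 := h3.2.2.2
          have := ne y hy
          omega
        have k2 : ∀ y ∈ s, y < f b → y < c := by
          intro y hy l
          obtain ⟨x, hx, rfl⟩ := h.surj hy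
          have a1 := f3 x hx b hb
          have a2 := hmax x hx
          have := ne _ hy
          grind
        rcases lt_or_gt_of_ne (ne _ hj) with l | l
        · exact Or.inr ⟨_, ⟨hj, h1, h2, l, k1⟩, h3⟩
        · exact Or.inl (Or.inr ⟨_, ⟨hj, h1, h2, l, k2⟩, h3⟩)
    · have hap : a < p := lt_of_le_of_ne (hmin p hp) (Ne.symm hpa)
      obtain ⟨s1, s2⟩ := h.split hp (e ▸ hmax)
      have pb := hmax p hp
      have cp : c < p := by
        have a1 := f2 a ha p hp hap
        have a2 := s1 a ha hap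
        have := ne p hp
        omega
      have k : ∀ x ∈ s, x < p → x < c := by
        intro y hy l
        obtain ⟨x, hx, rfl⟩ := h.surj hy
        have a1 := f3 x hx p hp
        have a2 := s2 x hx
        have := ne _ hy
        omega
      refine Or.inl (Or.inl (Or.inr ⟨hf, ?_, ?_, ⟨a, ha, k a ha hap⟩, p, hp, cp⟩))
      · intro x hx l
        exact k _ (h.mem x hx) (s1 x hx (by omega))
      · intro x hx l
        have := k x hx
        have := s2 x hx
        omega
  have b2 : (A2 s c).encard ≤ ((if 0 < rk s c ∧ rk s c < m then 1 else 0 : ℕ) : ℕ∞) := by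
    rcases (A2 s c).eq_empty_or_nonempty with e | ⟨f, -, -, -, ⟨x, hx, l⟩, y, hy, l'⟩
    · simp [e]
    · have a1 : 0 < rk s c := card_pos.2 ⟨x, mem_filter.2 ⟨hx, l⟩⟩
      have a2 : rk s c < m := hm ▸ card_lt_card (filter_ssubset.2 ⟨y, hy, by omega⟩)
      simpa [a1, a2] using A2_le s hc
  have b3 := uniq_le (P := fun j => j ∈ s ∧ a < j ∧ j < b ∧ c < j ∧ ∀ y ∈ s, y < j → y < c)
    (F := fun j => Wj s a b j)
    (K := ((if 1 ≤ rk s c ∧ rk s c + 2 ≤ m then d (m - 3) (rk s c - 1) else 0 : ℕ) : ℕ∞))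
    (by grind) (by
      rintro j ⟨hj, h1, h2, h3, h4⟩
      obtain ⟨s', a1, a2, a3, a4⟩ := Wj_le ha hb hj hmin hmax h1 h2
      have e : rk s j = rk s c := by
        unfold rk; congr 1; ext x; simp only [mem_filter]; grind
      have a5 := rk_le s' j
      rw [if_pos (by omega), show rk s c - 1 = rk s' j by omega]
      exact a4.trans (ih _ (by omega) s' j a1 (by omega)))
  have b4 := uniq_le (P := fun j => j ∈ s ∧ a < j ∧ j < b ∧ j < c ∧ ∀ y ∈ s, j < y → c < y)
    (F := fun j => Wj s a b j)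
    (K := ((if 2 ≤ rk s c ∧ rk s c + 1 ≤ m then d (m - 3) (rk s c - 2) else 0 : ℕ) : ℕ∞))
    (by grind) (by
      rintro j ⟨hj, h1, h2, h3, h4⟩
      obtain ⟨s', a1, a2, a3, a4⟩ := Wj_le ha hb hj hmin hmax h1 h2
      have e : rk s j + 1 = rk s c := by
        unfold rk
        rw [← card_insert_of_notMem (a := j) (by simp)]
        congr 1; ext x; simp only [mem_filter, mem_insert]; grind
      have a5 := rk_le s' j
      rw [if_pos (by omega), show rk s c - 2 = rk s' j by omega]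
      exact a4.trans (ih _ (by omega) s' j a1 (by omega)))
  rw [d_eq]
  refine (Set.encard_le_encard cover).trans ?_
  refine (Set.encard_union_le _ _).trans ?_
  rw [Nat.cast_add, Nat.cast_add, Nat.cast_add]
  refine add_le_add ((Set.encard_union_le _ _).trans (add_le_add ((Set.encard_union_le _ _).trans
    (add_le_add (by simpa using A1_le s) b2)) b3)) b4

lemma biUnion_le (t : Finset ℕ) (F : ℕ → Set (ℕ → ℕ)) (K : ℕ → ℕ)
    (h : ∀ j ∈ t, (F j).encard ≤ K j) :
    {f | ∃ j ∈ t, f ∈ F j}.encard ≤ ((∑ j ∈ t, K j : ℕ) : ℕ∞) := by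
  induction t using Finset.induction_on with
  | empty => simp
  | insert a t ha ih =>
    have : {f | ∃ j ∈ insert a t, f ∈ F j} = F a ∪ {f | ∃ j ∈ t, f ∈ F j} := by
      ext f; simp
    rw [this, sum_insert ha, Nat.cast_add]
    exact (Set.encard_union_le _ _).trans (add_le_add (h a (by simp))
      (ih (fun j hj => h j (by simp [hj]))))

lemma sum_rk (s : Finset ℕ) (F : ℕ → ℕ) : ∑ p ∈ s, F (rk s p) ≤ ∑ t ∈ range s.card, F t := by
  have lt : ∀ x ∈ s, ∀ y, x < y → rk s x < rk s y := by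
    intro x hx y l
    refine card_lt_card ⟨fun z hz => ?_, fun h => ?_⟩
    · simp only [mem_filter] at hz ⊢; exact ⟨hz.1, by omega⟩
    · have := h (mem_filter.2 ⟨hx, l⟩)
      simp at this
  rw [← sum_image (g := rk s) (f := F)]
  · refine sum_le_sum_of_subset ?_
    intro t ht
    obtain ⟨p, hp, rfl⟩ := mem_image.1 ht
    exact mem_range.2 (card_lt_card (filter_ssubset.2 ⟨p, hp, by simp⟩))
  · intro x hx y hy e
    have := lt x hx y
    have := lt y hy x
    omega

def Jb (n : ℕ) : ℕ := 1 + ∑ r ∈ range n, if 1 ≤ r ∧ r + 2 ≤ n then d (n - 3) (r - 1) else 0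

lemma W_le {a b : ℕ} (ha : a ∈ s) (hb : b ∈ s) (hmin : ∀ y ∈ s, a ≤ y) (hmax : ∀ y ∈ s, y ≤ b) :
    {f | V s f ∧ f a = b}.encard ≤ Jb s.card := by
  have cover : {f | V s f ∧ f a = b} ⊆
      A1 s ∪ {f | ∃ j ∈ s, f ∈ {f | a < j ∧ j < b ∧ f ∈ Wj s a b j}} := by
    rintro f ⟨h, e⟩
    rcases W_step ha hb hmin hmax h e with h1 | h1
    · exact Or.inl h1
    · exact Or.inr ⟨_, h.mem b hb, h1⟩
  have b1 := biUnion_le s (fun j => {f | a < j ∧ j < b ∧ f ∈ Wj s a b j})
    (fun j => (fun r => if 1 ≤ r ∧ r + 2 ≤ s.card then d (s.card - 3) (r - 1) else 0) (rk s j)) (by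
      intro j hj
      by_cases h : a < j ∧ j < b
      · obtain ⟨s', a1, a2, a3, a4⟩ := Wj_le ha hb hj hmin hmax h.1 h.2
        have a5 := rk_le s' j
        simp only [h, true_and]
        rw [if_pos (by omega), show rk s j - 1 = rk s' j by omega]
        exact a4.trans (D_le _ s' j a1 (by omega))
      · have : {f | a < j ∧ j < b ∧ f ∈ Wj s a b j} = ∅ := by
          ext f; simp only [Set.mem_empty_iff_false, iff_false]; exact fun hh => h ⟨hh.1, hh.2.1⟩
        simp [this])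
  refine (Set.encard_le_encard cover).trans ((Set.encard_union_le _ _).trans ?_)
  rw [Jb, Nat.cast_add]
  exact add_le_add (by simpa using A1_le s) (b1.trans (Nat.cast_le.2 (sum_rk s
    (fun r => if 1 ≤ r ∧ r + 2 ≤ s.card then d (s.card - 3) (r - 1) else 0))))

theorem V_le (u J : ℕ → ℕ) (N : ℕ) (h0 : 1 ≤ u 0) (hJ : ∀ n ≤ N, Jb n ≤ J n)
    (hu : ∀ n ≤ N, ∑ t ∈ range n, u t * J (n - t) ≤ u n) :
    ∀ n ≤ N, ∀ s : Finset ℕ, s.card = n → {f | V s f}.encard ≤ u n := by
  intro n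
  induction n using Nat.strong_induction_on with
  | _ n ih =>
  intro hn s hs
  rcases s.eq_empty_or_nonempty with rfl | hne
  · have : {f | V ∅ f} ⊆ A1 ∅ := fun f hf => ⟨hf, by simp⟩
    refine (Set.encard_le_encard this).trans ((A1_le _).trans ?_)
    rw [← hs]; exact_mod_cast h0
  have hb := max'_mem s hne
  have hmax := le_max' s
  set b := s.max' hne
  have cover : {f | V s f} ⊆ {f | ∃ p ∈ s, f ∈ {f | V s f ∧ f p = b}} := by
    intro f h
    obtain ⟨p, hp, e⟩ := V.surj h hb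
    exact ⟨p, hp, h, e⟩
  have b1 := biUnion_le s (fun p => {f | V s f ∧ f p = b})
    (fun p => (fun t => u t * J (n - t)) (rk s p)) (by
      intro p hp
      have c1 : rk s p + (s.filter (fun x => ¬ x < p)).card = n := by
        rw [← hs]; exact card_filter_add_card_filter_not _
      have m1 : p ∈ s.filter (fun x => ¬ x < p) := by simp [hp]
      have c2 := card_pos.2 ⟨p, m1⟩
      have i1 := ih (rk s p) (by omega) (by omega) (s.filter (· < p)) rfl
      have i2 := W_le (s := s.filter (fun x => ¬ x < p)) (a := p) (b := b) m1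
        (mem_filter.2 ⟨hb, not_lt.2 (hmax p hp)⟩) (by simp) (fun y hy => hmax y (mem_filter.1 hy).1)
      have i3 : (Jb (s.filter (fun x => ¬ x < p)).card : ℕ∞) ≤ J (n - rk s p) := by
        rw [show n - rk s p = (s.filter (fun x => ¬ x < p)).card by omega]
        exact_mod_cast hJ _ (by omega)
      have i4 : {f | V s f ∧ f p = b}.encard ≤ ({f | V (s.filter (· < p)) f} ×ˢ
          {f | V (s.filter (fun x => ¬ x < p)) f ∧ f p = b}).encard := by
        refine Set.encard_le_encard_of_injOn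
          (f := fun f => (res (s.filter (· < p)) f, res (s.filter (fun x => ¬ x < p)) f)) ?_ ?_
        · rintro f ⟨h, e⟩
          obtain ⟨s1, s2⟩ := h.split hp (e ▸ hmax)
          have := h.mem
          refine ⟨h.res (filter_subset _ _) (by simp only [mem_filter]; grind),
            h.res (filter_subset _ _) (by simp only [mem_filter]; grind), ?_⟩
          simp [res, hp, e]
        · rintro f ⟨h, -⟩ g ⟨h', -⟩ e
          funext x
          have a1 := congrFun (Prod.ext_iff.1 e).1 x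
          have a2 := congrFun (Prod.ext_iff.1 e).2 x
          simp only [res, mem_filter] at a1 a2
          have := h.out x
          have := h'.out x
          grind
      rw [Set.encard_prod] at i4
      simp only [Nat.cast_mul]
      exact i4.trans (mul_le_mul' i1 (i2.trans i3)))
  refine (Set.encard_le_encard cover).trans (b1.trans ?_)
  have := sum_rk s (fun t => u t * J (n - t))
  rw [hs] at this
  exact_mod_cast this.trans (hu n hn)

end Pool.Agent.H1.CycA
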