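import Mathlib

namespace Pool.Agent.H1.CycB

structure Rec where
  r : ℕ
  b : Bool
  i : ℕ
  v : ℕ

abbrev St := List (ℕ × Bool)

def abs (Z : List Rec) : St := Z.map (fun z => (z.r, z.b))

def cC (T : St → ℕ) : St → ℕ
  | (0, _) :: A => T (A.map (fun p => (p.1 - 1, p.2)))
  | _ => 0

def cD (T : St → ℕ) : St → ℕ
  | (r, true) :: A => T (A ++ [(r, false)])
  | _ => 0

def step (H : ℕ) (T : St → ℕ) (A : St) : ℕ :=
  (if A = [] then T [] else 0) + (if A.length < H then T (A ++ [(A.length, true)]) else 0)
    + cC T A + (if (0, true) ∈ A then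
      T (A.map (fun p => if p.1 = 0 then (A.length - 1, false) else (p.1 - 1, p.2))) else 0)
    + cD T A

structure Good (N : ℕ) (f : ℕ → ℕ) : Prop where
  out : ∀ x, N ≤ x → f x = x
  mem : ∀ x, x < N → f x < N
  cyc : ∀ x, f (f x) = x ∨ f (f (f x)) = x
  e : ∀ x y, x < y → y < N → x < f x → y < f y → f x < f y
  d : ∀ x y, x < y → y < N → f x ≤ x → f y ≤ y → f x < f y

def As (Z : List Rec) (k x : ℕ) : Prop := x < k ∧ ∀ z ∈ Z, z.i ≠ x

def Ext (N : ℕ) (g : ℕ → ℕ) (Z : List Rec) (k : ℕ) : Set (ℕ → ℕ) :=
  {f | Good N f ∧ (∀ x, As Z k x → f x = g x) ∧ ∀ z ∈ Z, k ≤ f z.i}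

structure Inv (g : ℕ → ℕ) (Z : List Rec) (k : ℕ) : Prop where
  out : ∀ x, k ≤ x → g x = x
  bd : ∀ z ∈ Z, z.i < k ∧ z.v < k ∧ z.r < Z.length
  ord : ∀ p ∈ Z, ∀ q ∈ Z, (p.r < q.r ↔ p.i < q.i)
  uq : ∀ p ∈ Z, ∀ q ∈ Z, p.i = q.i → p = q
  pw : Z.Pairwise (fun p q => p.v < q.v)
  fl : ∀ z ∈ Z, z.b = true → z.i = z.v
  fl' : ∀ z ∈ Z, z.i = z.v ∨ (As Z k z.v ∧ g z.v = z.i)
  lt : ∀ x, As Z k x → g x < k
  e1 : ∀ x y, As Z k x → As Z k y → x < y → x < g x → y < g y → g x < g y
  e2 : ∀ x, As Z k x → x < g x → ∀ z ∈ Z, x < z.i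
  d1 : ∀ x y, As Z k x → As Z k y → x < y → g x ≤ x → g y ≤ y → g x < g y
  d2 : ∀ x, As Z k x → g x ≤ x → ∀ z ∈ Z, g x < z.v
  cy : ∀ x, As Z k x → (As Z k (g x) ∧ As Z k (g (g x)) ∧ (g (g x) = x ∨ g (g (g x)) = x)) ∨
    ∃ z ∈ Z, z.i = g x ∧ z.v = x

variable {g : ℕ → ℕ} {Z : List Rec} {k : ℕ}

lemma invF (h : Inv g [] k) : Inv g [] (k + 1) := by
  obtain ⟨h1, -, -, -, -, -, -, h8, h9, -, h11, -, h13⟩ := h
  have hk := h1 k le_rfl
  simp only [As] at *
  constructor <;> (try simp only [As]) <;> grind

lemma invO (h : Inv g Z k) : Inv g (Z ++ [⟨Z.length, true, k, k⟩]) (k + 1) := by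
  have as : ∀ x, As (Z ++ [⟨Z.length, true, k, k⟩]) (k + 1) x ↔ As Z k x := by
    intro x; simp only [As, List.forall_mem_append, List.forall_mem_singleton]; grind
  obtain ⟨h1, h2, h3, h4, h5, h6, h7, h8, h9, h10, h11, h12, h13⟩ := h
  constructor <;> try
    simp only [as, List.forall_mem_append, List.forall_mem_singleton, List.pairwise_append,
      List.length_append, List.length_singleton, List.mem_append, List.mem_singleton,
      or_and_right, exists_or, exists_eq_left, or_imp, forall_and, forall_eq]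
  all_goals first | grind | (simp only [As] at *; grind)

lemma invD {p : Rec} (h : Inv g (p :: Z) k) (hb : p.b = true) :
    Inv (fun x => if x = k then p.v else g x) (Z ++ [⟨p.r, false, p.i, k⟩]) (k + 1) := by
  have as : ∀ x, As (Z ++ [⟨p.r, false, p.i, k⟩]) (k + 1) x ↔ (As (p :: Z) k x ∨ x = k) := by
    intro x
    have := h.bd
    simp only [As, List.forall_mem_append, List.forall_mem_singleton, List.forall_mem_cons] at *
    grind
  have as' : ∀ x, As (p :: Z) k x → x < k ∧ x ≠ p.i := fun x hx => ⟨hx.1, (hx.2 p (by simp)).symm⟩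
  have hp : p ∈ p :: Z := by simp
  have hz : ∀ z ∈ Z, z ∈ p :: Z := fun z hz => by simp [hz]
  have mm : ∀ z ∈ Z ++ [(⟨p.r, false, p.i, k⟩ : Rec)], z ∈ Z ∨ z = ⟨p.r, false, p.i, k⟩ := by
    intro z hz; simpa using hz
  have pv := h.fl p hp hb
  have pb := h.bd p hp
  have pw := List.pairwise_cons.1 h.pw
  refine ⟨?_, ?_, ?_, ?_, ?_, ?_, ?_, ?_, ?_, ?_, ?_, ?_, ?_⟩
  · intro x hx; have := h.out x; clear h as as' mm; grind
  · intro z hz'
    rcases mm z hz' with a | rfl
    · have := h.bd z (hz z a); simp at *; omega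
    · simp at *; omega
  · intro a ha b hb'
    rcases mm a ha with a1 | rfl <;> rcases mm b hb' with b1 | rfl
    · exact h.ord a (hz a a1) b (hz b b1)
    · exact h.ord a (hz a a1) p hp
    · exact h.ord p hp b (hz b b1)
    · simp
  · intro a ha b hb' e
    rcases mm a ha with a1 | rfl <;> rcases mm b hb' with b1 | rfl
    · exact h.uq a (hz a a1) b (hz b b1) e
    · have := h.uq a (hz a a1) p hp e; have := pw.1 a a1; subst_vars; omega
    · have := h.uq p hp b (hz b b1) e; have := pw.1 b b1; subst_vars; omega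
    · rfl
  · rw [List.pairwise_append]
    refine ⟨pw.2, by simp, fun a a1 b b1 => ?_⟩
    have := h.bd a (hz a a1); simp at b1; subst b1; exact this.2.1
  · intro z hz' e
    rcases mm z hz' with a | rfl
    · exact h.fl z (hz z a) e
    · simp at e
  · intro z hz'
    rw [as]
    rcases mm z hz' with a | rfl
    · have := h.fl' z (hz z a); have := h.bd z (hz z a); clear h as as' mm; grind
    · simp [pv]
  · intro x hx; rw [as] at hx; have := h.lt x; clear h as as' mm; grind
  · intro x y hx hy; rw [as] at hx hy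
    have := h.e1 x y; have := as' x; have := as' y; clear h as as' mm; grind
  · intro x hx e z hz'; rw [as] at hx
    have := as' x
    rcases mm z hz' with a | rfl
    · have := fun a b => h.e2 x a b z (hz z ‹_›); clear h as as' mm; grind
    · have := fun a b => h.e2 x a b p hp; clear h as as' mm; grind
  · intro x y hx hy; rw [as] at hx hy
    have := fun a b => h.d2 x a b p hp
    have := h.d1 x y; have := as' x; have := as' y; clear h as as' mm; grind
  · intro x hx e z hz'; rw [as] at hx
    have := as' x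
    rcases mm z hz' with a | rfl
    · have := pw.1 z a
      have := fun a b => h.d2 x a b z (hz z ‹_›); clear h as as' mm; grind
    · have := h.lt x; clear h as as' mm; grind
  · intro x hx; rw [as] at hx; rw [as, as]
    rcases hx with hx | rfl
    · have := as' x hx
      rcases h.cy x hx with c | ⟨z, z1, z2, z3⟩
      · left
        have := as' _ c.1; have := as' _ c.2.1; clear h as as' mm; grind
      · right
        refine ⟨z, ?_, ?_, z3⟩
        · rcases List.mem_cons.1 z1 with rfl | a
          · omega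
          · simp [a]
        · rw [if_neg (by omega)]; exact z2
    · right; exact ⟨⟨p.r, false, p.i, x⟩, by simp, by simp [pv], rfl⟩

lemma invC {p : Rec} (h : Inv g (p :: Z) k) (hr : p.r = 0) :
    Inv (fun x => if x = k then p.v else if x = p.i then k else g x)
      (Z.map (fun z => ⟨z.r - 1, z.b, z.i, z.v⟩)) (k + 1) := by
  have hp : p ∈ p :: Z := by simp
  have hz : ∀ z ∈ Z, z ∈ p :: Z := fun z hz => by simp [hz]
  have pw := List.pairwise_cons.1 h.pw
  have ne : ∀ z ∈ Z, p.i < z.i ∧ 0 < z.r := by
    intro z a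
    have a1 := h.uq p hp z (hz z a)
    have a2 := h.ord p hp z (hz z a)
    have a3 := h.ord z (hz z a) p hp
    have a4 := pw.1 z a
    clear h; grind
  have as : ∀ x, As (Z.map (fun z => (⟨z.r - 1, z.b, z.i, z.v⟩ : Rec))) (k + 1) x ↔
      (As (p :: Z) k x ∨ x = k ∨ x = p.i) := by
    intro x
    have := h.bd
    simp only [As, List.forall_mem_cons, List.forall_mem_map] at *; grind
  have as' : ∀ x, As (p :: Z) k x → x < k ∧ x ≠ p.i := fun x hx => ⟨hx.1, (hx.2 p hp).symm⟩
  have pb := h.bd p hp
  have pf := h.fl' p hp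
  have pv := as' p.v
  refine ⟨?_, ?_, ?_, ?_, ?_, ?_, ?_, ?_, ?_, ?_, ?_, ?_, ?_⟩
  · intro x hx; have := h.out x; clear h as as' ne; grind
  · simp only [List.forall_mem_map]; intro z a
    have := h.bd z (hz z a); have := ne z a; simp at *; omega
  · simp only [List.forall_mem_map]; intro a a1 b b1
    have := h.ord a (hz a a1) b (hz b b1); have := ne a a1; have := ne b b1; omega
  · simp only [List.forall_mem_map]; intro a a1 b b1 e
    rw [h.uq a (hz a a1) b (hz b b1) e]
  · rw [List.pairwise_map]; exact pw.2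
  · simp only [List.forall_mem_map]; intro z a; exact h.fl z (hz z a)
  · simp only [List.forall_mem_map, as]; intro z a
    have := h.fl' z (hz z a); have := as' z.v; clear h as as' ne; grind
  · intro x hx; rw [as] at hx; have := h.lt x; clear h as as' ne; grind
  · intro x y hx hy; rw [as] at hx hy
    have := fun a b => h.e2 y a b p hp
    have := h.lt x
    have := h.e1 x y; have := as' x; have := as' y; clear h as as' ne; grind
  · simp only [List.forall_mem_map, as]; intro x hx e z a
    have := fun a b => h.e2 x a b z (hz z ‹_›)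
    have := ne z a; have := as' x; clear h as as' ne; grind
  · intro x y hx hy; rw [as] at hx hy
    have := fun a b => h.d2 x a b p hp
    have := h.d1 x y; have := as' x; have := as' y; clear h as as' ne; grind
  · simp only [List.forall_mem_map, as]; intro x hx e z a
    have := fun a b => h.d2 x a b z (hz z ‹_›)
    have := pw.1 z a; have := as' x; clear h as as' ne; grind
  · intro x hx; rw [as] at hx; rw [as, as]
    rcases hx with hx | hx | hx
    · have := as' x hx
      rcases h.cy x hx with c | ⟨z, z1, z2, z3⟩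
      · left
        have := as' _ c.1; have := as' _ c.2.1; clear h as as' ne; grind
      · rcases List.mem_cons.1 z1 with rfl | a
        · left; clear h as as' ne; grind
        · right
          refine ⟨_, List.mem_map_of_mem a, ?_, z3⟩
          rw [if_neg (by omega), if_neg (by omega)]; exact z2
    · left; clear h as as' ne; grind
    · left; clear h as as' ne; grind

lemma invU {p : Rec} (h : Inv g Z k) (hp : p ∈ Z) (hr : p.r = 0) (hb : p.b = true) :
    Inv (fun x => if x = p.i then k else g x)
      (Z.map (fun z => if z.r = 0 then ⟨Z.length - 1, false, k, z.v⟩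
        else ⟨z.r - 1, z.b, z.i, z.v⟩)) (k + 1) := by
  have ne : ∀ z ∈ Z, (z.r = 0 → z = p) ∧ (z.r ≠ 0 → p.i < z.i) := by
    intro z hz
    have a1 := h.uq p hp z hz
    have a2 := h.ord p hp z hz
    have a3 := h.ord z hz p hp
    clear h; grind
  have as : ∀ x, As (Z.map (fun z => if z.r = 0 then (⟨Z.length - 1, false, k, z.v⟩ : Rec)
        else ⟨z.r - 1, z.b, z.i, z.v⟩)) (k + 1) x ↔ (As Z k x ∨ x = p.i) := by
    intro x
    have := h.bd
    simp only [As, List.forall_mem_map] at *; grind
  have as' : ∀ x, As Z k x → x < k ∧ x ≠ p.i := fun x hx => ⟨hx.1, (hx.2 p hp).symm⟩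
  have pb := h.bd p hp
  have pv := h.fl p hp hb
  refine ⟨?_, ?_, ?_, ?_, ?_, ?_, ?_, ?_, ?_, ?_, ?_, ?_, ?_⟩
  · intro x hx; have := h.out x; clear h as as' ne; grind
  · simp only [List.forall_mem_map, List.length_map]; intro z a
    have := h.bd z a; clear h as as' ne; grind
  · simp only [List.forall_mem_map]; intro a a1 b b1
    have := h.ord a a1 b b1; have := h.bd a a1; have := h.bd b b1; clear h as as' ne; grind
  · simp only [List.forall_mem_map]; intro a a1 b b1 e
    have := h.uq a a1 b b1; have := h.bd a a1; have := h.bd b b1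
    have := ne a a1; have := ne b b1; clear h as as' ne; grind
  · rw [List.pairwise_map]; refine h.pw.imp ?_; intro a b; clear h as as' ne; grind
  · simp only [List.forall_mem_map]; intro z a; have := h.fl z a; clear h as as' ne; grind
  · simp only [List.forall_mem_map, as]; intro z a
    have := h.fl' z a; have := as' z.v; have := ne z a; clear h as as' ne; grind
  · intro x hx; rw [as] at hx; have := h.lt x; clear h as as' ne; grind
  · intro x y hx hy; rw [as] at hx hy
    have := fun a b => h.e2 y a b p hp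
    have := h.lt x
    have := h.e1 x y; have := as' x; have := as' y; clear h as as' ne; grind
  · simp only [List.forall_mem_map, as]; intro x hx e z a
    have := fun a b => h.e2 x a b z ‹_›
    have := ne z a; have := as' x; clear h as as' ne; grind
  · intro x y hx hy; rw [as] at hx hy
    have := h.d1 x y; have := as' x; have := as' y; clear h as as' ne; grind
  · simp only [List.forall_mem_map, as]; intro x hx e z a
    have := fun a b => h.d2 x a b z ‹_›
    have := as' x; clear h as as' ne; grind
  · intro x hx; rw [as] at hx; rw [as, as]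
    rcases hx with hx | hx
    · have := as' x hx
      rcases h.cy x hx with c | ⟨z, z1, z2, z3⟩
      · left
        have := as' _ c.1; have := as' _ c.2.1; clear h as as' ne; grind
      · right
        refine ⟨_, List.mem_map_of_mem z1, ?_⟩
        have := ne z z1; clear h as as' ne; grind
    · right
      refine ⟨_, List.mem_map_of_mem hp, ?_⟩
      clear h as as' ne; grind

lemma sp {α : Type} (E : Set α) (P : α → Prop) :
    {x ∈ E | P x}.encard + {x ∈ E | ¬ P x}.encard = E.encard := by
  rw [← Set.encard_union_eq]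
  · congr 1; ext x; simp only [Set.mem_union, Set.mem_setOf_eq]; tauto
  · rw [Set.disjoint_left]; intro x a b; exact b.2 a.2

def Pr (k : ℕ) (f : ℕ → ℕ) : Prop := ∃ x, x < k ∧ f x = k

variable {N : ℕ}

lemma subF (h : Inv g [] k) : Ext N g [] (k + 1) ⊆ {f ∈ Ext N g [] k | f k = k} := by
  rintro f ⟨a, b, -⟩
  refine ⟨⟨a, fun x hx => b x ⟨by have := hx.1; omega, hx.2⟩, by simp⟩, ?_⟩
  rw [b k ⟨by omega, by simp⟩, h.out k le_rfl]

lemma subO (h : Inv g Z k) : Ext N g (Z ++ [⟨Z.length, true, k, k⟩]) (k + 1) ⊆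
    {f ∈ {f ∈ {f ∈ Ext N g Z k | ¬ f k = k} | k < f k} | ¬ Pr k f} := by
  rintro f ⟨a, b, c⟩
  have := h.lt
  simp only [As, List.forall_mem_append, List.forall_mem_singleton, Ext, Pr, Set.mem_setOf_eq]
    at *
  clear h; grind

lemma subD {p : Rec} (h : Inv g (p :: Z) k) :
    Ext N (fun x => if x = k then p.v else g x) (Z ++ [⟨p.r, false, p.i, k⟩]) (k + 1) ⊆
    {f ∈ {f ∈ {f ∈ Ext N g (p :: Z) k | ¬ f k = k} | ¬ k < f k} | ¬ Pr k f} := by
  rintro f ⟨a, b, c⟩
  have := h.lt
  have := h.bd
  have := b k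
  have : ∀ x, As (p :: Z) k x → f x = g x := by
    intro x hx
    rw [b x ⟨by have := hx.1; omega, by simpa [or_imp, forall_and, and_comm] using hx.2⟩]
    exact if_neg hx.1.ne
  simp only [As, List.forall_mem_append, List.forall_mem_singleton, Ext, Pr, Set.mem_setOf_eq,
    List.forall_mem_cons] at *
  clear h; grind

lemma subC {p : Rec} (h : Inv g (p :: Z) k) (hr : p.r = 0) :
    Ext N (fun x => if x = k then p.v else if x = p.i then k else g x)
      (Z.map (fun z => ⟨z.r - 1, z.b, z.i, z.v⟩)) (k + 1) ⊆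
    {f ∈ {f ∈ {f ∈ Ext N g (p :: Z) k | ¬ f k = k} | ¬ k < f k} | Pr k f} := by
  rintro f ⟨a, b, c⟩
  have hp : p ∈ p :: Z := by simp
  have hz : ∀ z ∈ Z, z ∈ p :: Z := fun z hz => by simp [hz]
  have pw := List.pairwise_cons.1 h.pw
  have ne : ∀ z ∈ Z, z.i ≠ p.i := by
    intro z a
    have a1 := h.uq p hp z (hz z a)
    have a4 := pw.1 z a
    clear h; grind
  have := h.bd
  have := b k
  have := b p.i
  have : ∀ x, As (p :: Z) k x → f x = g x := by
    intro x hx
    rw [b x ⟨by have := hx.1; omega, by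
      simp only [List.forall_mem_map]; exact fun z a => hx.2 z (hz z a)⟩]
    exact (if_neg hx.1.ne).trans (if_neg (hx.2 p hp).symm)
  simp only [As, List.forall_mem_map, Ext, Pr, Set.mem_setOf_eq, List.forall_mem_cons] at *
  clear h; grind

lemma subU {p : Rec} (h : Inv g Z k) (hp : p ∈ Z) (hr : p.r = 0) :
    Ext N (fun x => if x = p.i then k else g x)
      (Z.map (fun z => if z.r = 0 then ⟨Z.length - 1, false, k, z.v⟩
        else ⟨z.r - 1, z.b, z.i, z.v⟩)) (k + 1) ⊆
    {f ∈ {f ∈ {f ∈ Ext N g Z k | ¬ f k = k} | k < f k} | Pr k f} := by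
  rintro f ⟨a, b, c⟩
  have ne : ∀ z ∈ Z, (z.r = 0 → z = p) ∧ (z.r ≠ 0 → p.i < z.i) := by
    intro z hz
    have a1 := h.uq p hp z hz
    have a2 := h.ord p hp z hz
    have a3 := h.ord z hz p hp
    clear h; grind
  have := h.bd
  have := b p.i
  simp only [As, List.forall_mem_map, Ext, Pr, Set.mem_setOf_eq] at *
  have := c p hp
  clear h; grind

theorem main (H : ℕ) (t : ℕ → St → ℕ) (h0 : ∀ A, t 0 A ≤ if A = [] then 1 else 0)
    (hs : ∀ n < N, ∀ A, t (n + 1) A ≤ step H (t n) A) :
    ∀ n g Z k, Inv g Z k → k + n = N → (t n (abs Z) : ℕ∞) ≤ (Ext N g Z k).encard := by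
  intro n
  induction n with
  | zero =>
    intro g Z k h e
    have := h0 (abs Z)
    rcases Z with _ | ⟨p, Z⟩
    · have e' : k = N := by omega
      subst e'
      refine le_trans (by exact_mod_cast this) (Set.one_le_encard_iff_nonempty.2 ⟨g, ?_, ?_, ?_⟩)
      · have as : ∀ x, x < k → As [] k x := fun x hx => ⟨hx, by simp⟩
        refine ⟨h.out, fun x hx => h.lt x (as x hx), fun x => ?_,
          fun x y a b => h.e1 x y (as x (by omega)) (as y b) a,
          fun x y a b => h.d1 x y (as x (by omega)) (as y b) a⟩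
        by_cases hx : x < k
        · rcases h.cy x (as x hx) with c | c
          · exact c.2.2
          · simp at c
        · left; rw [h.out x (by omega), h.out x (by omega)]
      · simp
      · simp
    · simp [abs] at this ⊢; simp [this]
  | succ n ih =>
    intro g Z k h e
    have e' : k + 1 + n = N := by omega
    refine le_trans (by exact_mod_cast hs n (by omega) (abs Z) :
      _ ≤ ((step H (t n) (abs Z) : ℕ) : ℕ∞)) ?_
    rw [← sp _ (fun f => f k = k), ← sp {f ∈ Ext N g Z k | ¬ f k = k} (fun f => k < f k),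
      ← sp {f ∈ {f ∈ Ext N g Z k | ¬ f k = k} | k < f k} (Pr k),
      ← sp {f ∈ {f ∈ Ext N g Z k | ¬ f k = k} | ¬ k < f k} (Pr k)]
    have key : ∀ a b c d e a' b' c' d' e' : ℕ∞, a ≤ a' → b ≤ b' → c ≤ c' → d ≤ d' → e ≤ e' →
        a + b + c + d + e ≤ a' + (d' + b' + (c' + e')) := by
      intro a b c d e a' b' c' d' e' h1 h2 h3 h4 h5
      calc a + b + c + d + e ≤ a' + b' + c' + d' + e' := by gcongr
        _ = _ := by ring
    simp only [step, Nat.cast_add]
    apply key
    · split_ifs with a
      · have : Z = [] := by simpa [abs] using a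
        subst this
        exact (ih _ _ _ (invF h) e').trans (Set.encard_le_encard (subF h))
      · simp
    · split_ifs with a
      · refine le_trans ?_ ((ih _ _ _ (invO h) e').trans (Set.encard_le_encard (subO h)))
        simp [abs]
      · simp
    · rcases Z with _ | ⟨⟨_ | r, b, i, v⟩, Z⟩
      · simp [abs, cC]
      · refine le_trans ?_ ((ih _ _ _ (invC h rfl) e').trans (Set.encard_le_encard (subC h rfl)))
        simp [abs, cC, Function.comp_def]
      · simp [abs, cC]
    · split_ifs with a
      · obtain ⟨p, hp, pe⟩ := List.mem_map.1 a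
        have hr : p.r = 0 := congrArg Prod.fst pe
        have hb : p.b = true := congrArg Prod.snd pe
        refine le_trans ?_ ((ih _ _ _ (invU h hp hr hb) e').trans
          (Set.encard_le_encard (subU h hp hr)))
        simp only [abs, List.map_map, List.length_map]
        apply le_of_eq; congr 2
        apply List.map_congr_left; intro z _; simp only [Function.comp]; split_ifs <;> rfl
      · simp
    · rcases Z with _ | ⟨⟨r, _ | _, i, v⟩, Z⟩
      · simp [abs, cD]
      · simp [abs, cD]
      · refine le_trans ?_ ((ih _ _ _ (invD h rfl) e').trans (Set.encard_le_encard (subD h)))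
        simp [abs, cD]

theorem lower (H : ℕ) (t : ℕ → St → ℕ) (h0 : ∀ A, t 0 A ≤ if A = [] then 1 else 0)
    (hs : ∀ n < N, ∀ A, t (n + 1) A ≤ step H (t n) A) :
    (t N [] : ℕ∞) ≤ {f | Good N f}.encard := by
  have := main H t h0 hs N id [] 0 (by constructor <;> simp [As]) (by simp)
  exact this.trans (Set.encard_le_encard fun f hf => hf.1)

end Pool.Agent.H1.CycB
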