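import Mathlib

/-! The Davenport constant of `C_2^4 ⊕ C_3` is at most 9 (kernel search after a linear change of
coordinates). -/

namespace Pool.Agent.H1.Dav48

abbrev H := (Fin 4 → ZMod 2) × ZMod 3

def dec (x : ℕ) : H := (fun j => ((x / 2 ^ j.val : ℕ) : ZMod 2), ((x / 16 : ℕ) : ZMod 3))

def Snd (M : ℕ) (P : H → Prop) : Prop := ∀ x, M.testBit x = true → P (dec x)

def swp (A k M : ℕ) : ℕ := ((M &&& A) <<< k) ||| ((M >>> k) &&& A)

def rot (M : ℕ) : ℕ := (M >>> 16) ||| ((M <<< 32) % 281474976710656)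

def A1 : ℕ := 93824992236885
def A2 : ℕ := 56294995342131
def A4 : ℕ := 16557351571215
def A8 : ℕ := 1095233372415

def cs (A k g M : ℕ) : ℕ := cond (Nat.beq (g / k % 2) 1) (swp A k M) M

def rt (c M : ℕ) : ℕ := cond (Nat.beq c 0) M (cond (Nat.beq c 1) (rot M) (rot (rot M)))

def tr (M g : ℕ) : ℕ := rt (g / 16) (cs A8 8 g (cs A4 4 g (cs A2 2 g (cs A1 1 g M))))

def ad (M g : ℕ) : ℕ := M ||| tr M g

def chk : ℕ → ℕ → ℕ → Bool
  | 0, M, hi => Nat.beq (M % 2 ^ hi + 1) (2 ^ hi)
  | k + 1, M, hi =>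
    Nat.rec (motive := fun _ => Bool) true
      (fun g ih => (M.testBit g || chk k (ad M g) (g + 1)) && ih) hi

lemma lt48 {A y : ℕ} (hA : A < 2 ^ 48) (h : A.testBit y = true) : y < 48 := by
  by_contra hy
  have : A < 2 ^ y := lt_of_lt_of_le hA (Nat.pow_le_pow_right (by norm_num) (by omega))
  rw [Nat.testBit_lt_two_pow this] at h
  exact absurd h (by simp)

lemma snd_swp {A k M : ℕ} {P : H → Prop} (hA : A < 2 ^ 48)
    (h1 : ∀ y < 48, A.testBit y = true → dec (y + k) + dec k = dec y ∧ dec y + dec k = dec (y + k))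
    (h : Snd M P) : Snd (swp A k M) (fun z => P (z + dec k)) := by
  intro x hx
  simp only [swp, Nat.testBit_or, Nat.testBit_and, Nat.testBit_shiftLeft, Nat.testBit_shiftRight,
    Bool.or_eq_true, Bool.and_eq_true, decide_eq_true_eq] at hx
  rcases hx with ⟨hk, hM, hAy⟩ | ⟨hM, hAy⟩
  · have := (h1 _ (lt48 hA hAy) hAy).1
    have e : x - k + k = x := by omega
    rw [e] at this
    show P (dec x + dec k)
    rw [this]; exact h _ hM
  · have := (h1 _ (lt48 hA hAy) hAy).2
    show P (dec x + dec k)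
    rw [this, add_comm x k]; exact h _ hM

lemma dec_add16 (x : ℕ) : dec x + dec 16 = dec (16 + x) := by
  refine Prod.ext ?_ ?_
  · funext j
    show ((x / 2 ^ j.val : ℕ) : ZMod 2) + ((16 / 2 ^ j.val : ℕ) : ZMod 2)
      = (((16 + x) / 2 ^ j.val : ℕ) : ZMod 2)
    rw [← Nat.cast_add, ZMod.natCast_eq_natCast_iff']
    fin_cases j <;> simp <;> omega
  · show ((x / 16 : ℕ) : ZMod 3) + ((16 / 16 : ℕ) : ZMod 3) = (((16 + x) / 16 : ℕ) : ZMod 3)
    rw [← Nat.cast_add, ZMod.natCast_eq_natCast_iff']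
    omega

lemma dec_sub32 (x : ℕ) (hx : 32 ≤ x) : dec x + dec 16 = dec (x - 32) := by
  refine Prod.ext ?_ ?_
  · funext j
    show ((x / 2 ^ j.val : ℕ) : ZMod 2) + ((16 / 2 ^ j.val : ℕ) : ZMod 2)
      = (((x - 32) / 2 ^ j.val : ℕ) : ZMod 2)
    rw [← Nat.cast_add, ZMod.natCast_eq_natCast_iff']
    fin_cases j <;> simp <;> omega
  · show ((x / 16 : ℕ) : ZMod 3) + ((16 / 16 : ℕ) : ZMod 3) = (((x - 32) / 16 : ℕ) : ZMod 3)
    rw [← Nat.cast_add, ZMod.natCast_eq_natCast_iff']
    omega

lemma snd_rot {M : ℕ} {P : H → Prop} (h : Snd M P) : Snd (rot M) (fun z => P (z + dec 16)) := by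
  intro x hx
  have e : (281474976710656 : ℕ) = 2 ^ 48 := by norm_num
  simp only [rot, e, Nat.testBit_or, Nat.testBit_mod_two_pow, Nat.testBit_shiftLeft,
    Nat.testBit_shiftRight, Bool.or_eq_true, Bool.and_eq_true, decide_eq_true_eq] at hx
  rcases hx with hM | ⟨_, hk, hM⟩
  · show P (dec x + dec 16)
    rw [dec_add16]; exact h _ hM
  · show P (dec x + dec 16)
    rw [dec_sub32 x hk]; exact h _ hM

def w (k g : ℕ) : H := if g / k % 2 = 1 then dec k else 0

lemma snd_cs {A k g M : ℕ} {P : H → Prop} (hA : A < 2 ^ 48)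
    (h1 : ∀ y < 48, A.testBit y = true → dec (y + k) + dec k = dec y ∧ dec y + dec k = dec (y + k))
    (h : Snd M P) : Snd (cs A k g M) (fun z => P (z + w k g)) := by
  unfold cs w
  by_cases hg : g / k % 2 = 1
  · have : Nat.beq (g / k % 2) 1 = true := Nat.beq_eq ▸ hg
    rw [this, if_pos hg]
    exact snd_swp hA h1 h
  · have : Nat.beq (g / k % 2) 1 = false := by
      cases hb : Nat.beq (g / k % 2) 1
      · rfl
      · exact absurd (Nat.eq_of_beq_eq_true hb) hg
    rw [this, if_neg hg]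
    simpa using h

def wr (c : ℕ) : H := if c = 0 then 0 else if c = 1 then dec 16 else dec 16 + dec 16

lemma snd_rt {c M : ℕ} {P : H → Prop} (h : Snd M P) : Snd (rt c M) (fun z => P (z + wr c)) := by
  unfold rt wr
  rcases c with _ | _ | c
  · simpa using h
  · exact snd_rot h
  · have := snd_rot (snd_rot h)
    have e1 : Nat.beq (c + 1 + 1) 0 = false := rfl
    have e2 : Nat.beq (c + 1 + 1) 1 = false := rfl
    rw [e1, e2, if_neg (by omega), if_neg (by omega)]
    simpa [add_assoc] using this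

lemma snd_tr {M g : ℕ} (hg : g < 48) {P : H → Prop} (h : Snd M P) :
    Snd (tr M g) (fun z => P (z + dec g)) := by
  have h1 := snd_cs (A := A1) (k := 1) (g := g) (by decide) (by decide +kernel) h
  have h2 := snd_cs (A := A2) (k := 2) (g := g) (by decide) (by decide +kernel) h1
  have h4 := snd_cs (A := A4) (k := 4) (g := g) (by decide) (by decide +kernel) h2
  have h8 := snd_cs (A := A8) (k := 8) (g := g) (by decide) (by decide +kernel) h4
  have h16 := snd_rt (c := g / 16) h8
  have e : ∀ g < 48, wr (g / 16) + w 8 g + w 4 g + w 2 g + w 1 g = dec g := by decide +kernel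
  intro x hx
  have := h16 x hx
  simp only at this
  rw [← e g hg]
  simpa [add_assoc] using this

def N (S : Multiset H) (z : H) : Prop := ∃ U ≤ S, U.sum + z = 0

def ZS {G : Type*} [AddCommMonoid G] (S : Multiset G) : Prop := ∃ U ≤ S, U ≠ 0 ∧ U.sum = 0

lemma snd_ad {M g : ℕ} (hg : g < 48) {S : Multiset H} (h : Snd M (N S)) :
    Snd (ad M g) (N (dec g ::ₘ S)) := by
  intro x hx
  simp only [ad, Nat.testBit_or, Bool.or_eq_true] at hx
  rcases hx with hx | hx
  · obtain ⟨U, hU, e⟩ := h x hx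
    exact ⟨U, hU.trans (Multiset.le_cons_self _ _), e⟩
  · obtain ⟨U, hU, e⟩ := snd_tr hg h x hx
    refine ⟨dec g ::ₘ U, Multiset.cons_le_cons _ hU, ?_⟩
    rw [Multiset.sum_cons, ← e]; abel

lemma zs_hit {M g : ℕ} {S R : Multiset H} (h : Snd M (N S)) (hg : M.testBit g = true) :
    ZS (dec g ::ₘ S + R) := by
  obtain ⟨U, hU, e⟩ := h g hg
  refine ⟨dec g ::ₘ U, (Multiset.cons_le_cons _ hU).trans (Multiset.le_add_right _ _),
    Multiset.cons_ne_zero, ?_⟩
  rw [Multiset.sum_cons, add_comm, e]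

lemma chk_succ {k M hi : ℕ} (h : chk (k + 1) M hi = true) :
    ∀ g < hi, M.testBit g = true ∨ chk k (ad M g) (g + 1) = true := by
  induction hi with
  | zero => intro g hg; omega
  | succ n ih =>
    have h' : ((M.testBit n || chk k (ad M n) (n + 1)) && chk (k + 1) M n) = true := h
    simp only [Bool.and_eq_true, Bool.or_eq_true] at h'
    intro g hg
    rcases Nat.lt_succ_iff_lt_or_eq.mp hg with hg | rfl
    · exact ih h'.2 g hg
    · exact h'.1

lemma chk_zero {M hi : ℕ} (h : chk 0 M hi = true) : ∀ g < hi, M.testBit g = true := by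
  intro g hg
  have h' : M % 2 ^ hi + 1 = 2 ^ hi := Nat.eq_of_beq_eq_true h
  have h2 : M % 2 ^ hi = 2 ^ hi - 1 := by omega
  have := congrArg (fun z => Nat.testBit z g) h2
  simp only [Nat.testBit_mod_two_pow, Nat.testBit_two_pow_sub_one, hg, decide_true,
    Bool.true_and] at this
  exact this

lemma exists_max (T : Multiset ℕ) (hT : T ≠ 0) : ∃ g T', T = g ::ₘ T' ∧ ∀ a ∈ T', a ≤ g := by
  have hne : T.toFinset.Nonempty := by
    obtain ⟨a, ha⟩ := Multiset.exists_mem_of_ne_zero hT
    exact ⟨a, Multiset.mem_toFinset.mpr ha⟩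
  have hm := Multiset.mem_toFinset.mp (T.toFinset.max'_mem hne)
  obtain ⟨T', hT'⟩ := Multiset.exists_cons_of_mem hm
  refine ⟨_, T', hT', fun a ha => T.toFinset.le_max' a (Multiset.mem_toFinset.mpr ?_)⟩
  rw [hT']; exact Multiset.mem_cons_of_mem ha

lemma chk_sound (k : ℕ) : ∀ (M hi : ℕ) (S : Multiset H) (T : Multiset ℕ), hi ≤ 48 →
    chk k M hi = true → Snd M (N S) → T.card = k + 1 → (∀ a ∈ T, a < hi) →
    ZS (S + T.map dec) := by
  induction k with
  | zero =>
    intro M hi S T _ hc hS hT hlt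
    obtain ⟨g, T', rfl, _⟩ := exists_max T (by rintro rfl; simp at hT)
    have := zs_hit (R := T'.map dec) hS (chk_zero hc g (hlt g (Multiset.mem_cons_self _ _)))
    simpa using this
  | succ k ih =>
    intro M hi S T hhi hc hS hT hlt
    obtain ⟨g, T', rfl, hmax⟩ := exists_max T (by rintro rfl; simp at hT)
    have hg := hlt g (Multiset.mem_cons_self _ _)
    rcases chk_succ hc g hg with h | h
    · have := zs_hit (R := T'.map dec) hS h
      simpa using this
    · have := ih (ad M g) (g + 1) (dec g ::ₘ S) T' (by omega) h (snd_ad (by omega) hS)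
        (by simpa using hT) (fun a ha => Nat.lt_succ_of_le (hmax a ha))
      simpa using this

def base (a b c d : ℕ) : ℕ := ad (ad (ad (ad 1 (8 + 16 * d)) (4 + 16 * c)) (2 + 16 * b)) (1 + 16 * a)

theorem run : ∀ d < 3, ∀ c ≤ d, ∀ b ≤ c, ∀ a ≤ b, chk 4 (base a b c d) 48 = true := by
  decide +kernel

lemma snd_one : Snd 1 (N 0) := by
  intro x hx
  have : x = 0 := by
    by_contra h
    have : (1 : ℕ) < 2 ^ x := Nat.one_lt_two_pow h
    rw [Nat.testBit_lt_two_pow this] at hx
    exact absurd hx (by simp)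
  subst this
  exact ⟨0, le_rfl, by decide⟩

lemma zs_map {G G' : Type*} [AddCommMonoid G] [AddCommMonoid G'] (f : G →+ G') {S : Multiset G}
    (h : ZS S) : ZS (S.map f) := by
  obtain ⟨U, hU, h0, hs⟩ := h
  refine ⟨U.map f, Multiset.map_le_map hU, by simpa using h0, ?_⟩
  rw [← map_multiset_sum, hs, map_zero]

lemma zs_base (c : Fin 4 → ZMod 3) (hc : Monotone fun j => (c j).val) (R : Multiset H)
    (hR : R.card = 5) :
    ZS (Multiset.map (fun j => ((Pi.single j 1, c j) : H)) Finset.univ.val + R) := by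
  have hsurj : ∀ h : H, ∃ x, x < 48 ∧ dec x = h := by decide +kernel
  choose enc henc using hsurj
  have hR' : R = (R.map enc).map dec := by
    rw [Multiset.map_map]
    conv_lhs => rw [← Multiset.map_id R]
    exact Multiset.map_congr rfl fun h _ => (henc h).2.symm
  have h3 : (c 3).val < 3 := ZMod.val_lt _
  have h2 : (c 2).val ≤ (c 3).val := hc (by decide)
  have h1 : (c 1).val ≤ (c 2).val := hc (by decide)
  have h0 : (c 0).val ≤ (c 1).val := hc (by decide)
  have hs := snd_ad (g := 1 + 16 * (c 0).val) (by omega) (snd_ad (g := 2 + 16 * (c 1).val)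
    (by omega) (snd_ad (g := 4 + 16 * (c 2).val) (by omega)
    (snd_ad (g := 8 + 16 * (c 3).val) (by omega) snd_one)))
  have := chk_sound 4 _ 48 _ (R.map enc) le_rfl (run _ h3 _ h2 _ h1 _ h0) hs (by simpa using hR)
    (by
      intro a ha
      obtain ⟨h, _, rfl⟩ := Multiset.mem_map.mp ha
      exact (henc h).1)
  rw [← hR'] at this
  have e0 : ∀ z : ZMod 3, dec (1 + 16 * z.val) = (Pi.single 0 1, z) := by decide +kernel
  have e1 : ∀ z : ZMod 3, dec (2 + 16 * z.val) = (Pi.single 1 1, z) := by decide +kernel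
  have e2 : ∀ z : ZMod 3, dec (4 + 16 * z.val) = (Pi.single 2 1, z) := by decide +kernel
  have e3 : ∀ z : ZMod 3, dec (8 + 16 * z.val) = (Pi.single 3 1, z) := by decide +kernel
  rw [e0, e1, e2, e3] at this
  have hu : (Finset.univ : Finset (Fin 4)).val = 0 ::ₘ 1 ::ₘ 2 ::ₘ 3 ::ₘ 0 := by decide
  rw [hu]
  simpa using this

lemma exists_span (v : Fin 9 → (Fin 4 → ZMod 2)) :
    ∃ J : Finset (Fin 9), J.card = 4 ∧ ∀ i, v i ∈ Submodule.span (ZMod 2) (v '' J) := by
  classical
  obtain ⟨κ, a, ha, hsp, hli⟩ := exists_linearIndependent' (ZMod 2) v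
  have : Finite κ := Finite.of_injective a ha
  have := Fintype.ofFinite κ
  have hc : Fintype.card κ ≤ 4 := by
    have := hli.fintype_card_le_finrank
    simpa using this
  obtain ⟨J, hJ, hJc⟩ := Finset.exists_superset_card_eq (s := Finset.univ.image a) (n := 4)
    (Finset.card_image_le.trans (by simpa using hc)) (by simp)
  refine ⟨J, hJc, fun i => ?_⟩
  have h1 : v i ∈ Submodule.span (ZMod 2) (Set.range (v ∘ a)) := by
    rw [hsp]; exact Submodule.subset_span ⟨i, rfl⟩
  refine Submodule.span_mono ?_ h1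
  rintro _ ⟨k, rfl⟩
  exact ⟨a k, hJ (Finset.mem_image_of_mem _ (Finset.mem_univ k)), rfl⟩

theorem zs_fun (f : Fin 9 → H) : ZS (Multiset.map f Finset.univ.val) := by
  classical
  obtain ⟨J, hJ, hsp⟩ := exists_span fun i => (f i).1
  let σ0 : Fin 4 → Fin 9 := J.orderEmbOfFin hJ
  let τ := Tuple.sort fun j => ((f (σ0 j)).2).val
  let σ : Fin 4 → Fin 9 := σ0 ∘ τ
  have hmono : Monotone fun j => ((f (σ j)).2).val :=
    Tuple.monotone_sort fun j => ((f (σ0 j)).2).val
  have hinj : Function.Injective σ := (J.orderEmbOfFin hJ).injective.comp τ.injective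
  have hrange : Set.range σ = J := by
    rw [show σ = σ0 ∘ τ from rfl, Set.range_comp, τ.range_eq_univ, Set.image_univ]
    exact Finset.range_orderEmbOfFin J hJ
  have hJv : J.val = Multiset.map σ Finset.univ.val := by
    have : J = Finset.univ.map ⟨σ, hinj⟩ := by
      ext i
      simp only [Finset.mem_map, Finset.mem_univ, true_and, Function.Embedding.coeFn_mk]
      rw [← Finset.mem_coe, ← hrange]; rfl
    rw [this]; rfl
  have hu : ∀ i, ∃ u : Fin 4 → ZMod 2, ∑ j, u j • (f (σ j)).1 = (f i).1 := by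
    intro i
    have := hsp i
    rw [← hrange, ← Set.range_comp] at this
    exact (Submodule.mem_span_range_iff_exists_fun _).mp this
  choose u hu using hu
  let ψ : H →+ H := AddMonoidHom.prodMap
    (Fintype.linearCombination (ZMod 2) fun j => (f (σ j)).1).toAddMonoidHom (AddMonoidHom.id _)
  have key := zs_map ψ (zs_base (fun j => (f (σ j)).2) hmono
    (Multiset.map (fun i => ((u i, (f i).2) : H)) (Jᶜ).val) (by
      rw [Multiset.card_map, Finset.card_val, Finset.card_compl, hJ]; rfl))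
  have hsplit : (Finset.univ : Finset (Fin 9)).val = J.val + (Jᶜ).val := by
    rw [← Finset.disjUnion_val _ _ disjoint_compl_right]
    congr 1
    simp
  rw [hsplit, Multiset.map_add, hJv, Multiset.map_map]
  rw [Multiset.map_add, Multiset.map_map, Multiset.map_map] at key
  convert key using 2
  · refine Multiset.map_congr rfl fun j _ => ?_
    refine Prod.ext ?_ rfl
    simp [ψ, Fintype.linearCombination_apply_single]
  · refine Multiset.map_congr rfl fun i _ => ?_
    refine Prod.ext ?_ rfl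
    simp [ψ, Fintype.linearCombination_apply, hu]

theorem zs_nine (S : Multiset H) (hS : 9 ≤ S.card) : ZS S := by
  induction S using Quotient.inductionOn with
  | h L =>
    have hL : 9 ≤ L.length := by simpa using hS
    set l := L.take 9 with hl0
    have hl : l.length = 9 := by simp [hl0, hL]
    have := zs_fun fun i => l.get (i.cast hl.symm)
    have e : Multiset.map (fun i : Fin 9 => l.get (i.cast hl.symm)) Finset.univ.val
        = (l : Multiset H) := by
      rw [Fin.univ_val_map]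
      congr 1
      apply List.ext_get (by simp [hl])
      intro n h1 h2
      simp only [List.get_eq_getElem, List.getElem_ofFn, Fin.val_cast]
    rw [e] at this
    obtain ⟨U, hU, h⟩ := this
    exact ⟨U, hU.trans (Multiset.coe_le.mpr (List.take_sublist 9 L).subperm), h⟩

end Pool.Agent.H1.Dav48
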