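import Mathlib

set_option autoImplicit false

namespace Pool.Agent.H1.Day

theorem even_aux (h x y : ℤ) (hh : 2 ≤ h) (he : h % 2 = 0) (e : x + y * h + (h ^ 2 + h + 1) = 0)
    (hn : |x| + |y| + 1 ≤ 2 * h) (hp : (x + y + 1) % 2 = 0) : False := by
  obtain ⟨t, rfl⟩ : ∃ t, y = t - (h + 1) := ⟨y + h + 1, by ring⟩
  have hx : x = -1 - t * h := by linarith
  have a1 := le_abs_self x
  have a2 := neg_abs_le x
  have a3 := neg_abs_le (t - (h + 1))
  rcases lt_trichotomy t 0 with ht | rfl | ht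
  · nlinarith
  · simp at hx; omega
  · nlinarith

theorem even_key (h x y z : ℤ) (hh : 2 ≤ h) (he : h % 2 = 0)
    (e : x + y * h + z * (h ^ 2 + h + 1) = 0)
    (hn : |x| + |y| + |z| ≤ 2 * h) (hp : (x + y + z) % 2 = 0) : x = 0 ∧ y = 0 ∧ z = 0 := by
  have hz : |z| ≤ 1 := by
    by_contra hc
    push Not at hc
    have b1 : |z * (h ^ 2 + h + 1)| = |x + y * h| := by
      rw [show z * (h ^ 2 + h + 1) = -(x + y * h) by linarith, abs_neg]
    have b2 : |x + y * h| ≤ |x| + |y| * h := by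
      refine (abs_add_le _ _).trans ?_
      rw [abs_mul, abs_of_nonneg (show 0 ≤ h by omega)]
    rw [abs_mul, abs_of_nonneg (show 0 ≤ h ^ 2 + h + 1 by positivity)] at b1
    nlinarith [abs_nonneg x, abs_nonneg y]
  obtain rfl | rfl | rfl : z = -1 ∨ z = 0 ∨ z = 1 := by have := abs_le.1 hz; omega
  · exact (even_aux h (-x) (-y) hh he (by linarith) (by simpa using hn) (by omega)).elim
  · have hx : x = -(y * h) := by linarith
    have b : |x| = |y| * h := by rw [hx, abs_neg, abs_mul, abs_of_nonneg (show 0 ≤ h by omega)]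
    have hy : |y| ≤ 1 := by
      by_contra hc
      push Not at hc
      simp at hn
      nlinarith
    obtain rfl | rfl | rfl : y = -1 ∨ y = 0 ∨ y = 1 := by have := abs_le.1 hy; omega
    all_goals omega
  · exact (even_aux h x y hh he (by linarith) (by simpa using hn) hp).elim

theorem odd_aux (h x y : ℤ) (hh : 1 ≤ h) (he : h % 2 = 1)
    (e : x * 2 + y * h + (h ^ 2 + h + 4) = 0)
    (hn : |x| + |y| + 1 ≤ 2 * h) (hp : (x + y + 1) % 2 = 0) : False := by
  obtain ⟨s, rfl⟩ : ∃ s, y = s - (h + 1) := ⟨y + h + 1, by ring⟩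
  have h2 : x * 2 + s * h + 4 = 0 := by linarith
  obtain ⟨t, rfl⟩ : ∃ t, s = 2 * t := by
    obtain ⟨k, rfl⟩ : ∃ k, h = 2 * k + 1 := ⟨h / 2, by omega⟩
    exact ⟨-x - 2 - s * k, by linarith⟩
  have hx : x = -2 - t * h := by linarith
  have a1 := le_abs_self x
  have a2 := neg_abs_le x
  have a3 := neg_abs_le (2 * t - (h + 1))
  have a4 := le_abs_self (2 * t - (h + 1))
  rcases lt_trichotomy t 0 with ht | rfl | ht
  · nlinarith
  · simp at hx; omega
  · rcases hh.eq_or_lt with rfl | h1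
    · have := abs_nonneg (2 * t - (1 + 1)); omega
    · nlinarith

theorem odd_key (h x y z : ℤ) (hh : 1 ≤ h) (he : h % 2 = 1)
    (e : x * 2 + y * h + z * (h ^ 2 + h + 4) = 0)
    (hn : |x| + |y| + |z| ≤ 2 * h) (hp : (x + y + z) % 2 = 0) : x = 0 ∧ y = 0 ∧ z = 0 := by
  have hz : |z| ≤ 1 := by
    by_contra hc
    push Not at hc
    have b1 : |z * (h ^ 2 + h + 4)| = |x * 2 + y * h| := by
      rw [show z * (h ^ 2 + h + 4) = -(x * 2 + y * h) by linarith, abs_neg]
    have b2 : |x * 2 + y * h| ≤ |x| * 2 + |y| * h := by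
      refine (abs_add_le _ _).trans ?_
      rw [abs_mul, abs_mul, abs_of_nonneg (show 0 ≤ h by omega)]; simp
    rw [abs_mul, abs_of_nonneg (show 0 ≤ h ^ 2 + h + 4 by positivity)] at b1
    nlinarith [abs_nonneg x, abs_nonneg y]
  obtain rfl | rfl | rfl : z = -1 ∨ z = 0 ∨ z = 1 := by have := abs_le.1 hz; omega
  · exact (odd_aux h (-x) (-y) hh he (by linarith) (by simpa using hn) (by omega)).elim
  · obtain ⟨t, rfl⟩ : ∃ t, y = 2 * t := by
      obtain ⟨k, rfl⟩ : ∃ k, h = 2 * k + 1 := ⟨h / 2, by omega⟩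
      exact ⟨-x - y * k, by linarith⟩
    have hx : x = -(t * h) := by linarith
    have b : |x| = |t| * h := by rw [hx, abs_neg, abs_mul, abs_of_nonneg (show 0 ≤ h by omega)]
    have hy : |t| ≤ 1 := by
      by_contra hc
      push Not at hc
      simp [abs_mul] at hn
      nlinarith
    obtain rfl | rfl | rfl : t = -1 ∨ t = 0 ∨ t = 1 := by have := abs_le.1 hy; omega
    all_goals omega
  · exact (odd_aux h x y hh he (by linarith) (by simpa using hn) hp).elim

theorem transfer (h n : ℕ) (a : Fin 3 → ℤ) (A : ℤ) (ha : ∀ i, 0 ≤ a i ∧ a i ≤ A)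
    (hn : 2 * h * A < n)
    (key : ∀ x y z : ℤ, x * a 0 + y * a 1 + z * a 2 = 0 → |x| + |y| + |z| ≤ 2 * h →
      (x + y + z) % 2 = 0 → x = 0 ∧ y = 0 ∧ z = 0) :
    Set.InjOn (fun l : Fin 3 → ℤ => ∑ i, l i • ((a i : ℤ) : ZMod n))
      {l | ∑ i, |l i| = (h : ℤ)} := by
  intro l hl m hm e
  simp only [Set.mem_ofPred_eq, Fin.sum_univ_three] at hl hm e
  have e2 : (((l 0 - m 0) * a 0 + (l 1 - m 1) * a 1 + (l 2 - m 2) * a 2 : ℤ) : ZMod n) = 0 := by
    simp only [zsmul_eq_mul] at e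
    push_cast
    linear_combination e
  rw [ZMod.intCast_zmod_eq_zero_iff_dvd] at e2
  have c0 := abs_sub (l 0) (m 0)
  have c1 := abs_sub (l 1) (m 1)
  have c2 := abs_sub (l 2) (m 2)
  have hs : |l 0 - m 0| + |l 1 - m 1| + |l 2 - m 2| ≤ 2 * h := by linarith
  have e3 : (l 0 - m 0) * a 0 + (l 1 - m 1) * a 1 + (l 2 - m 2) * a 2 = 0 := by
    apply Int.eq_zero_of_abs_lt_dvd e2
    refine lt_of_le_of_lt ?_ hn
    refine (abs_add_three _ _ _).trans ?_
    rw [abs_mul, abs_mul, abs_mul, abs_of_nonneg (ha 0).1, abs_of_nonneg (ha 1).1,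
      abs_of_nonneg (ha 2).1]
    have d0 := mul_le_mul_of_nonneg_left (ha 0).2 (abs_nonneg (l 0 - m 0))
    have d1 := mul_le_mul_of_nonneg_left (ha 1).2 (abs_nonneg (l 1 - m 1))
    have d2 := mul_le_mul_of_nonneg_left (ha 2).2 (abs_nonneg (l 2 - m 2))
    have d3 := mul_le_mul_of_nonneg_right hs ((ha 0).1.trans (ha 0).2)
    linarith
  have par : ∀ x : ℤ, |x| % 2 = x % 2 := by
    intro x; rcases abs_cases x with h | h <;> omega
  obtain ⟨f0, f1, f2⟩ := key _ _ _ e3 hs (by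
    have := par (l 0); have := par (l 1); have := par (l 2)
    have := par (m 0); have := par (m 1); have := par (m 2)
    omega)
  funext i
  fin_cases i
  · exact sub_eq_zero.1 f0
  · exact sub_eq_zero.1 f1
  · exact sub_eq_zero.1 f2

theorem inj_of_injOn (h n : ℕ) (hh : 1 ≤ h) (a : Fin 3 → ZMod n)
    (H : Set.InjOn (fun l : Fin 3 → ℤ => ∑ i, l i • a i) {l | ∑ i, |l i| = (h : ℤ)}) :
    Function.Injective a := by
  intro i j hij
  by_contra hne
  have mem : ∀ k : Fin 3, (Pi.single k (h : ℤ) : Fin 3 → ℤ) ∈ {l : Fin 3 → ℤ | ∑ i, |l i| = (h : ℤ)} := by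
    intro k
    fin_cases k <;> simp [Fin.sum_univ_three]
  have val : ∀ k : Fin 3, ∑ i, (Pi.single k (h : ℤ) : Fin 3 → ℤ) i • a i = (h : ℤ) • a k := by
    intro k
    fin_cases k <;> simp [Fin.sum_univ_three]
  have := H (mem i) (mem j) (by simp only [val, hij])
  have := congrFun this i
  rw [Pi.single_eq_same, Pi.single_eq_of_ne hne] at this
  omega

theorem main (h n : ℕ) (hh : 1 ≤ h) (hn : 2 * h ^ 3 + 2 * h ^ 2 + 8 * h + 1 ≤ n) :
    ∃ a : Fin 3 → ZMod n, Function.Injective a ∧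
      Set.InjOn (fun l : Fin 3 → ℤ => ∑ i, l i • a i) {l | ∑ i, |l i| = (h : ℤ)} := by
  have hn' : 2 * (h : ℤ) ^ 3 + 2 * h ^ 2 + 8 * h + 1 ≤ n := by exact_mod_cast hn
  have hh' : (1 : ℤ) ≤ h := by exact_mod_cast hh
  rcases Int.emod_two_eq_zero_or_one h with he | he
  · have H := transfer h n ![1, h, h ^ 2 + h + 1] (h ^ 2 + h + 1)
      (by intro i; fin_cases i <;> simp <;> first | positivity | nlinarith) (by nlinarith)
      (fun x y z e h1 h2 => even_key h x y z (by omega) he (by simpa using e) h1 h2)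
    exact ⟨_, inj_of_injOn h n hh _ H, H⟩
  · have H := transfer h n ![2, h, h ^ 2 + h + 4] (h ^ 2 + h + 4)
      (by intro i; fin_cases i <;> simp <;> first | positivity | nlinarith) (by nlinarith)
      (fun x y z e h1 h2 => odd_key h x y z hh' he (by simpa using e) h1 h2)
    exact ⟨_, inj_of_injOn h n hh _ H, H⟩

end Pool.Agent.H1.Day
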