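import Mathlib

namespace Pool.Agent.H1.DiA

open Finset

lemma pairs (g : ℕ → ℝ) (L : ℕ) : ∑ q ∈ range L, ∑ p ∈ range q, g p * g q =
    ((∑ p ∈ range L, g p) ^ 2 - ∑ p ∈ range L, g p ^ 2) / 2 := by
  induction L with
  | zero => simp
  | succ L ih => rw [sum_range_succ, ih, sum_range_succ, sum_range_succ, ← sum_mul]; ring

variable {G : Type} [CommRing G] [Fintype G]

lemma sh (F : G → ℝ) (c : G) : ∑ s, F (s + c) = ∑ s, F s := Equiv.sum_comp (Equiv.addRight c) F

omit [Fintype G] in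
lemma lip {φ : G → ℝ} (h : ∀ t, |φ (t + 1) - φ t| ≤ 1) (t : G) (d : ℕ) : |φ (t + d) - φ t| ≤ d := by
  induction d with
  | zero => simp
  | succ d ih =>
    have := h (t + d)
    push_cast
    rw [← add_assoc]
    rw [abs_le] at *
    constructor <;> linarith

lemma key (L : ℕ) (φ f x : G → ℝ) (h : ∀ t, |φ (t + 1) - φ t| ≤ 1)
    (hf : ∀ i, f i = ∑ r ∈ range L, φ (i - r)) (hx : ∀ i, x i = 0 ∨ x i = 1) :
    ∑ s, ∑ q ∈ range L, ∑ p ∈ range q, f (s + p) * f (s + q) * (x (s + p) * (1 - x (s + q))) ≤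
    (∑ s, ∑ q ∈ range L, ∑ p ∈ range q, f (s + p) * f (s + q)) / 4 +
      ∑ s : G, ((L : ℝ) ^ 6 / 2 + (∑ p ∈ range L, f (s + p) ^ 2) / 8) := by
  let z := fun i => f i * (x i - 1 / 2)
  let S := fun s : G => ∑ r ∈ range L, z (s + r)
  let ψ := fun (p q : ℕ) (s : G) => φ (s + q - p) - φ (s - q + p)
  let β := fun s : G => (∑ q ∈ range L, ∑ p ∈ range q, ψ p q s) / 2
  have lin : ∀ p q : ℕ, ∑ s, (z (s + p) * f (s + q) - f (s + p) * z (s + q)) = ∑ s, ψ p q s * S s := by
    intro p q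
    simp only [S, mul_sum, hf, sum_mul, ← sum_sub_distrib]
    rw [sum_comm, sum_comm (s := univ)]
    refine sum_congr rfl fun r _ => ?_
    simp only [ψ, sub_mul, sum_sub_distrib]
    congr 1
    · rw [← sh _ ((r : G) - p)]
      exact sum_congr rfl fun s _ => by rw [mul_comm]; congr 2 <;> ring
    · rw [← sh _ ((r : G) - q)]
      exact sum_congr rfl fun s _ => by congr 2 <;> ring
  have hβ : ∀ s, β s ^ 2 ≤ (L : ℝ) ^ 6 := by
    intro s
    have : |β s| ≤ (L : ℝ) ^ 3 := by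
      simp only [β, abs_div, abs_two]
      rw [div_le_iff₀ two_pos]
      refine (abs_sum_le_sum_abs _ _).trans ((sum_le_card_nsmul _ _ (L * (2 * L) : ℝ)
        fun q hq => ?_).trans (by simp; ring_nf; rfl))
      have hq' : (q : ℝ) ≤ L := by exact_mod_cast (mem_range.1 hq).le
      refine (abs_sum_le_sum_abs _ _).trans ((sum_le_card_nsmul _ _ (2 * L : ℝ)
        fun p hp => ?_).trans (by simp; gcongr))
      obtain ⟨d, rfl⟩ := Nat.exists_eq_add_of_le (mem_range.1 hp).le
      have := lip h (s - (p + d : ℕ) + p) (2 * d)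
      push_cast at this hq'
      simp only [ψ]
      push_cast
      rw [show s + ((p : G) + d) - p = s - (p + d) + p + 2 * d by ring]
      linarith [(Nat.cast_nonneg p : (0 : ℝ) ≤ p)]
    rw [← sq_abs, show (L : ℝ) ^ 6 = (L ^ 3) ^ 2 by ring]
    gcongr
  have e1 : ∑ s, ∑ q ∈ range L, ∑ p ∈ range q,
      (z (s + p) * f (s + q) - f (s + p) * z (s + q)) / 2 = ∑ s, β s * S s := by
    simp only [β, div_mul_eq_mul_div, sum_mul, ← sum_div]
    congr 1
    rw [sum_comm, sum_comm (s := univ)]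
    refine sum_congr rfl fun q _ => ?_
    rw [sum_comm, sum_comm (s := univ)]
    exact sum_congr rfl fun p _ => lin p q
  have e2 : ∀ a b, f a * f b * (x a * (1 - x b)) =
      f a * f b / 4 - z a * z b + (z a * f b - f a * z b) / 2 := by
    intro a b; simp only [z]; ring
  have e3 : ∑ s, (β s * S s - ∑ q ∈ range L, ∑ p ∈ range q, z (s + p) * z (s + q)) ≤
      ∑ s : G, ((L : ℝ) ^ 6 / 2 + (∑ p ∈ range L, f (s + p) ^ 2) / 8) := by
    gcongr with s
    rw [pairs (fun p => z (s + p))]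
    have : ∑ p ∈ range L, z (s + p) ^ 2 = (∑ p ∈ range L, f (s + p) ^ 2) / 4 := by
      rw [sum_div]
      refine sum_congr rfl fun p _ => ?_
      rcases hx (s + p) with e | e <;> simp only [z, e] <;> ring
    rw [this]
    nlinarith [hβ s, sq_nonneg (β s - S s)]
  rw [sum_sub_distrib, ← e1] at e3
  simp only [e2]
  simp only [sum_add_distrib, sum_sub_distrib, ← sum_div] at e3 ⊢
  linarith

end Pool.Agent.H1.DiA
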