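import Pool.Agent.H1.DiA

namespace Pool.Agent.H1.DiB

open Finset DiA

lemma cut_eq {V : Type} [Fintype V] [DecidableEq V] (w : V → V → ℝ) (X : Finset V) :
    ∑ u ∈ X, ∑ v ∈ Xᶜ, w u v = ∑ u, ∑ v, w u v *
      ((if u ∈ X then 1 else 0) * (1 - if v ∈ X then 1 else 0)) := by
  rw [← univ_inter X, ← sum_ite_mem]
  refine sum_congr rfl fun u _ => ?_
  simp only [univ_inter]
  split_ifs
  · rw [← univ_inter Xᶜ, ← sum_ite_mem]
    refine sum_congr rfl fun v _ => ?_
    by_cases h : v ∈ X <;> simp [h]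
  · simp

lemma base (N k L : ℕ) [NeZero N] (h2 : 2 ≤ L) (hL : L ≤ k) (hk : 8 * k ≤ N) :
    ∃ w : ZMod N → ZMod N → ℝ, (∀ u v, 0 ≤ w u v) ∧ (∀ u v, w u v ≠ 0 → u.val < v.val) ∧
      (k * (L ^ 2 / 4 * (L * k) ^ 2) : ℝ) ≤ ∑ u, ∑ v, w u v ∧ ∀ X : Finset (ZMod N),
      ∑ u ∈ X, ∑ v ∈ Xᶜ, w u v ≤ (∑ u, ∑ v, w u v) / 4 + N * (L ^ 6 / 2 + L * (L * N) ^ 2 / 8) := by
  let φ : ZMod N → ℝ := fun t => (min t.val (N - 2 * L - t.val) : ℕ)
  let f := fun i => ∑ r ∈ range L, φ (i - r)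
  have : Fact (1 < N) := ⟨by omega⟩
  have f0 : ∀ i, 0 ≤ f i := fun i => sum_nonneg fun _ _ => Nat.cast_nonneg _
  have f1 : ∀ i, f i ≤ L * N := fun i => (sum_le_card_nsmul _ _ (N : ℝ) fun r _ =>
    Nat.cast_le.2 ((min_le_left _ _).trans (ZMod.val_lt _).le)).trans (by simp)
  have vs : ∀ a r : ℕ, r ≤ a → a < N → ((a : ZMod N) - r).val = a - r := by
    intro a r h1 h2
    rw [← Nat.cast_sub h1, ZMod.val_cast_of_lt (by omega)]
  have fz : ∀ i : ZMod N, N - L ≤ i.val → f i = 0 := by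
    intro i hi
    refine sum_eq_zero fun r hr => ?_
    have := mem_range.1 hr
    have e := vs i.val r (by omega) (ZMod.val_lt i)
    rw [ZMod.natCast_zmod_val] at e
    simp only [φ, e, Nat.cast_eq_zero]
    omega
  let w := fun u v : ZMod N => ∑ q ∈ range L, ∑ p ∈ range q, if v = u - p + q then f u * f v else 0
  have cnv : ∀ F : ZMod N → ZMod N → ℝ, ∑ u, ∑ v, w u v * F u v =
      ∑ s, ∑ q ∈ range L, ∑ p ∈ range q, f (s + p) * f (s + q) * F (s + p) (s + q) := by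
    intro F
    simp only [w, sum_mul, ite_mul, zero_mul]
    rw [sum_congr rfl fun u _ => sum_comm, sum_comm, sum_comm (s := univ)]
    refine sum_congr rfl fun q _ => ?_
    rw [sum_congr rfl fun u _ => sum_comm, sum_comm, sum_comm (s := univ)]
    refine sum_congr rfl fun p _ => ?_
    simp only [sum_ite_eq', mem_univ, if_true]
    rw [← sh _ (p : ZMod N)]
    simp
  have tot := cnv fun _ _ => 1
  simp only [mul_one] at tot
  refine ⟨w, fun u v => sum_nonneg fun _ _ => sum_nonneg fun _ _ => ?_, fun u v h => ?_, ?_,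
    fun X => ?_⟩
  · split_ifs
    · exact mul_nonneg (f0 _) (f0 _)
    · rfl
  · obtain ⟨q, hq, h⟩ := exists_ne_zero_of_sum_ne_zero h
    obtain ⟨p, hp, h⟩ := exists_ne_zero_of_sum_ne_zero h
    obtain ⟨e, h⟩ := ite_ne_right_iff.1 h
    have a1 : u.val < N - L := lt_of_not_ge fun c => h (by rw [fz u c, zero_mul])
    rw [mem_range] at hp hq
    rw [e, show u - p + q = ((u.val + q : ℕ) : ZMod N) - p by simp; ring, vs _ _ (by omega) (by omega)]
    omega
  · rw [tot]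
    have nn : ∀ s, 0 ≤ ∑ q ∈ range L, ∑ p ∈ range q, f (s + p) * f (s + q) := fun s =>
      sum_nonneg fun _ _ => sum_nonneg fun _ _ => mul_nonneg (f0 _) (f0 _)
    refine le_trans ?_ (sum_le_sum_of_subset_of_nonneg (subset_univ ((range k).image
      fun t => ((2 * k + t : ℕ) : ZMod N))) fun s _ _ => nn s)
    rw [sum_image fun a ha b hb e => by
      have := congrArg ZMod.val e
      simp only [coe_range, Set.mem_Iio] at ha hb
      rw [ZMod.val_cast_of_lt (by omega), ZMod.val_cast_of_lt (by omega)] at this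
      omega]
    refine le_trans (by simp) (card_nsmul_le_sum _ _ (L ^ 2 / 4 * (L * k) ^ 2 : ℝ) fun t ht => ?_)
    have lo : ∀ p < L, (L * k : ℝ) ≤ f ((2 * k + t : ℕ) + p) := by
      intro p hp
      refine le_trans (by simp) (card_nsmul_le_sum _ _ (k : ℝ) fun r hr => ?_)
      rw [mem_range] at ht hr
      simp only [φ]
      rw [← Nat.cast_add, vs _ _ (by omega) (by omega), Nat.cast_le]
      omega
    refine le_trans ?_ (sum_le_sum fun q hq => sum_le_sum (f := fun _ => (L * k : ℝ) * (L * k))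
      fun p hp => mul_le_mul (lo p (by rw [mem_range] at *; omega)) (lo q (mem_range.1 hq))
        (by positivity) (f0 _))
    rw [pairs fun _ => (L * k : ℝ)]
    simp only [sum_const, card_range, nsmul_eq_mul]
    have : (2 : ℝ) ≤ L := by exact_mod_cast h2
    have : 0 ≤ ((L : ℝ) * k) ^ 2 * (L * (L - 2)) := by
      have : (0 : ℝ) ≤ L - 2 := by linarith
      positivity
    nlinarith
  · rw [cut_eq, cnv, tot]
    refine (key L φ f (fun u => if u ∈ X then 1 else 0) (fun t => ?_) (fun _ => rfl)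
      fun i => by split_ifs <;> simp).trans ?_
    · have := ZMod.val_lt t
      simp only [φ, ZMod.val_add, ZMod.val_one]
      rw [abs_le]
      rcases (show t.val + 1 < N ∨ t.val + 1 = N by omega) with c | c
      · rw [Nat.mod_eq_of_lt c]
        constructor
        · rw [le_sub_iff_add_le, neg_add_le_iff_le_add]; norm_cast; omega
        · rw [sub_le_iff_le_add]; norm_cast; omega
      · rw [c, Nat.mod_self, show min t.val (N - 2 * L - t.val) = 0 by omega]
        simp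
    · gcongr
      refine (sum_le_card_nsmul _ _ _ fun s _ => ?_).trans (by rw [card_univ, ZMod.card, nsmul_eq_mul])
      gcongr
      refine (sum_le_card_nsmul _ _ ((L * N : ℝ) ^ 2) fun p _ => ?_).trans (by simp)
      exact pow_le_pow_left₀ (f0 _) (f1 _) 2

theorem upper (N : ℕ) (t : ℝ) (ht : 16 ≤ t) (h3 : t ^ 3 = N) :
    ∃ w : Fin N → Fin N → ℝ, (∀ u v, 0 ≤ w u v) ∧ (∀ u v, 0 < w u v ↔ u < v) ∧
      ∀ X : Finset (Fin N),
        ∑ u ∈ X, ∑ v ∈ Xᶜ, w u v ≤ (1 / 4 + 70000 / t ^ 2) * ∑ u, ∑ v, w u v := by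
  have t0 : 0 < t := by linarith
  have t2 : 256 ≤ t ^ 2 := by nlinarith
  have t3 : 16 * t ^ 2 ≤ t ^ 3 := by nlinarith
  obtain ⟨n, rfl⟩ : ∃ n, N = n + 1 := Nat.exists_eq_succ_of_ne_zero (by
    rintro rfl; simp at h3; linarith)
  have l1 := Nat.le_ceil (t ^ 2)
  have l2 := Nat.ceil_lt_add_one (sq_nonneg t)
  have k1 : ((n + 1 : ℕ) : ℝ) < 8 * ((n + 1) / 8 : ℕ) + 8 := by norm_cast; omega
  obtain ⟨w, w0, w1, w2, w3⟩ := base (n + 1) ((n + 1) / 8) ⌈t ^ 2⌉₊
    (by rw [← Nat.cast_le (α := ℝ)]; push_cast; linarith)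
    (by rw [← Nat.cast_le (α := ℝ)]; linarith) (by omega)
  generalize (⌈t ^ 2⌉₊ : ℝ) = L at *
  generalize (((n + 1) / 8 : ℕ) : ℝ) = k at *
  rw [← h3] at w3 k1
  set E := t ^ 3 * (L ^ 6 / 2 + L * (L * t ^ 3) ^ 2 / 8) with hE
  have L0 : 0 < L := by linarith
  have E0 : 0 < E := by positivity
  have k0 : 0 < k := by linarith
  have hw : 2 * E ≤ 70000 / t ^ 2 * ∑ u, ∑ v, w u v := by
    refine le_trans ?_ (mul_le_mul_of_nonneg_left w2 (by positivity))
    have a1 : t ^ 3 / 16 ≤ k := by linarith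
    have a2 : L ^ 2 ≤ (2 * t ^ 2) ^ 2 := by gcongr; linarith
    calc 2 * E = L ^ 4 * t ^ 3 * L ^ 2 + L ^ 3 * t ^ 7 * t ^ 2 / 4 := by ring
      _ ≤ L ^ 4 * t ^ 3 * (2 * t ^ 2) ^ 2 + L ^ 3 * t ^ 7 * L / 4 := by gcongr
      _ = 69632 / t ^ 2 * (t ^ 3 / 16 * (L ^ 2 / 4 * (L * (t ^ 3 / 16)) ^ 2)) := by
        field_simp; ring
      _ ≤ _ := by gcongr; norm_num
  let η := E / (t ^ 3 * t ^ 3)
  have η0 : 0 < η := by positivity
  have i0 : ∀ u v : Fin (n + 1), 0 ≤ if u < v then η else 0 := by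
    intro u v; split_ifs <;> positivity
  refine ⟨fun u v => w u v + if u < v then η else 0, fun u v => add_nonneg (w0 u v) (i0 u v),
    fun u v => ⟨fun h => ?_, fun h => by have := w0 u v; simp only [h, if_true]; linarith⟩,
    fun X => ?_⟩
  · by_contra c
    simp only [c, if_false, add_zero] at h
    exact c (w1 u v h.ne')
  · simp only [sum_add_distrib]
    have b1 : ∑ u ∈ X, ∑ v ∈ Xᶜ, (if u < v then η else 0) ≤ E := by
      refine le_trans (sum_le_sum_of_subset_of_nonneg (subset_univ _) fun _ _ _ =>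
        sum_nonneg fun _ _ => i0 _ _) ((sum_le_card_nsmul _ _ (t ^ 3 * η) fun u _ => ?_).trans ?_)
      · refine le_trans (sum_le_sum_of_subset_of_nonneg (subset_univ _) fun _ _ _ => i0 _ _)
          ((sum_le_card_nsmul _ _ η fun u _ => by split_ifs <;> linarith).trans (by simp [h3]))
      · rw [card_fin, nsmul_eq_mul, ← h3]; simp only [η]; field_simp; rfl
    have b2 : 0 ≤ ∑ u : Fin (n + 1), ∑ v : Fin (n + 1), (if u < v then η else 0) :=
      sum_nonneg fun _ _ => sum_nonneg fun _ _ => i0 _ _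
    have b3 : ∑ u ∈ X, ∑ v ∈ Xᶜ, w u v ≤ (∑ u, ∑ v, w u v) / 4 + E := w3 X
    have b4 := mul_nonneg (by positivity : (0 : ℝ) ≤ 1 / 4 + 70000 / t ^ 2) b2
    change 2 * E ≤ 70000 / t ^ 2 * ∑ u : Fin (n + 1), ∑ v : Fin (n + 1), w u v at hw
    change _ ≤ (∑ u : Fin (n + 1), ∑ v : Fin (n + 1), w u v) / 4 + E at b3
    linarith

end Pool.Agent.H1.DiB
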