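import Pool.Agent.H1.DiB

namespace Pool.Agent.H1.DiC

open Finset

variable {V : Type} [Fintype V] [DecidableEq V]

lemma round (w : V → V → ℝ) (hw : ∀ u, w u u = 0) (π : V → ℝ) (h : ∀ u, 0 ≤ π u ∧ π u ≤ 1) :
    ∃ X : Finset V, ∑ u, ∑ v, w u v * (π u * (1 - π v)) ≤ ∑ u ∈ X, ∑ v ∈ Xᶜ, w u v := by
  let F := fun π : V → ℝ => ∑ u, ∑ v, w u v * (π u * (1 - π v))
  have key : ∀ S : Finset V, ∃ ρ : V → ℝ, (∀ u, 0 ≤ ρ u ∧ ρ u ≤ 1) ∧
      (∀ u ∈ S, ρ u = 0 ∨ ρ u = 1) ∧ F π ≤ F ρ := by
    intro S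
    induction S using Finset.induction_on with
    | empty => exact ⟨π, h, by simp, le_rfl⟩
    | insert a S _ ih =>
      obtain ⟨ρ, h1, h2, h3⟩ := ih
      have e : F ρ = ρ a * F (Function.update ρ a 1) + (1 - ρ a) * F (Function.update ρ a 0) := by
        simp only [F, mul_sum, ← sum_add_distrib]
        refine sum_congr rfl fun u _ => sum_congr rfl fun v _ => ?_
        by_cases hu : u = a <;> by_cases hv : v = a <;> simp [hu, hv, hw] <;> ring
      have p : ∀ c : ℝ, c = 0 ∨ c = 1 → F ρ ≤ F (Function.update ρ a c) → ∃ ρ : V → ℝ,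
          (∀ u, 0 ≤ ρ u ∧ ρ u ≤ 1) ∧ (∀ u ∈ insert a S, ρ u = 0 ∨ ρ u = 1) ∧ F π ≤ F ρ := by
        intro c hc l
        refine ⟨_, fun u => ?_, fun u hu => ?_, h3.trans l⟩ <;> by_cases b : u = a
        · rcases hc with rfl | rfl <;> simp [b]
        · simpa [b] using h1 u
        · simpa [b] using hc
        · simpa [b] using h2 u (by simpa [b] using hu)
      have := h1 a
      rcases le_total (F (Function.update ρ a 1)) (F (Function.update ρ a 0)) with l | l
      · exact p 0 (Or.inl rfl) (by nlinarith)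
      · exact p 1 (Or.inr rfl) (by nlinarith)
  obtain ⟨ρ, -, h2, h3⟩ := key univ
  refine ⟨univ.filter (ρ · = 1), h3.trans (le_of_eq ?_)⟩
  rw [DiB.cut_eq]
  have : ∀ u, (if u ∈ univ.filter (ρ · = 1) then 1 else 0) = ρ u := by
    intro u
    rcases h2 u (mem_univ _) with e | e <;> simp [e]
  simp only [this, F]

def sg (ε : V → Bool) (a : V) : ℝ := if ε a then 1 else -1

lemma flip0 (a : V) (F : (V → Bool) → ℝ) (h : ∀ ε, F (Function.update ε a (!ε a)) = -F ε) :
    ∑ ε, F ε = 0 := by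
  have i : Function.Involutive (fun ε : V → Bool => Function.update ε a (!ε a)) := by
    intro ε; simp
  have := Equiv.sum_comp i.toPerm F
  simp only [Function.Involutive.coe_toPerm, h, sum_neg_distrib] at this
  linarith

lemma avg (α β : ℝ) (m n : V → ℝ) :
    ∑ ε, (α + ∑ a, m a * sg ε a) * (β - ∑ a, n a * sg ε a) =
      ∑ _ : V → Bool, (α * β - ∑ a, m a * n a) := by
  have s1 : ∀ a : V, ∑ ε, sg ε a = 0 := fun a => flip0 a _ fun ε => by
    cases h : ε a <;> simp [sg, h]
  have s2 : ∀ a b : V, ∑ ε, sg ε a * sg ε b = ∑ _ : V → Bool, if a = b then (1 : ℝ) else 0 := by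
    intro a b
    split_ifs with h
    · subst h
      exact sum_congr rfl fun ε _ => by cases h : ε a <;> simp [sg, h]
    · rw [sum_const_zero]
      exact flip0 a _ fun ε => by
        cases h' : ε a <;> cases h'' : ε b <;> simp [sg, h', h'', Ne.symm h]
  have s3 : ∀ m : V → ℝ, ∑ ε, ∑ a, m a * sg ε a = 0 := by
    intro m; rw [sum_comm]; simp [← mul_sum, s1]
  have s4 : ∑ ε, (∑ a, m a * sg ε a) * (∑ a, n a * sg ε a) = ∑ _ : V → Bool, ∑ a, m a * n a := by
    simp only [sum_mul_sum]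
    rw [sum_comm, sum_comm (s := univ) (t := univ) (f := fun _ a => m a * n a)]
    refine sum_congr rfl fun a _ => ?_
    rw [sum_comm]
    simp only [mul_mul_mul_comm (m a), ← mul_sum, s2]
    simp [mul_comm, mul_assoc, mul_left_comm]
  simp only [add_mul, mul_sub, sum_add_distrib, sum_sub_distrib, ← mul_sum, ← sum_mul, s3, s4]
  ring

theorem lower (N : ℕ) (t : ℝ) (ht : 1 ≤ t) (h3 : t ^ 3 = N) (w : V → V → ℝ) (hw : ∀ u v, 0 ≤ w u v)
    (h : V → ℕ) (h1 : ∀ u v, 0 < w u v → h v < h u) (h2 : ∀ v, h v < N) :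
    ∃ X : Finset V, (1 / 4 + 1 / 256 / t ^ 2) * ∑ u, ∑ v, w u v ≤ ∑ u ∈ X, ∑ v ∈ Xᶜ, w u v := by
  have t0 : 0 < t := by linarith
  have t2 : 1 ≤ t ^ 2 := by nlinarith
  have l1 := Nat.le_ceil (t ^ 2)
  have l2 := Nat.ceil_lt_add_one (sq_nonneg t)
  generalize ⌈t ^ 2⌉₊ = L at *
  have L0 : (0 : ℝ) < L := by linarith
  let c : ℝ := 1 / (2 * L)
  have c0 : 0 < c := by positivity
  let I := fun i => (univ : Finset (Fin N)).filter fun a => i < a.1 ∧ a.1 ≤ i + L
  have cI : ∀ i, ((I i).card : ℝ) * c ≤ 1 / 2 := by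
    intro i
    have : (I i).card ≤ L := by
      refine (card_le_card_of_injOn Fin.val (t := Ioc i (i + L)) (fun a ha => by simpa [I] using ha)
        Fin.val_injective.injOn).trans (by simp)
    calc _ ≤ L * c := by gcongr
      _ = _ := by simp only [c]; field_simp
  let M := fun (i : ℕ) (a : Fin N) => ((if a.1 = i then 1 else 0) - if a ∈ I i then c else 0) / 4
  let A := fun v => ((h v : ℝ) - t ^ 3 / 2) / (8 * t ^ 4)
  have hA : ∀ v, |A v| ≤ 1 / (16 * t) := by
    intro v
    have a1 : (h v : ℝ) ≤ t ^ 3 := by rw [h3]; exact_mod_cast (h2 v).le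
    have a2 : (0 : ℝ) ≤ h v := Nat.cast_nonneg _
    simp only [A]
    rw [abs_div, abs_of_pos (by positivity : 0 < 8 * t ^ 4), div_le_iff₀ (by positivity),
      show 1 / (16 * t) * (8 * t ^ 4) = t ^ 3 / 2 by field_simp; ring, abs_le]
    constructor <;> linarith
  have d1 : ∀ (v) (g : Fin N → ℝ), ∑ a : Fin N, (if a.1 = h v then 1 else 0) * g a = g ⟨_, h2 v⟩ := by
    intro v g
    rw [sum_eq_single ⟨_, h2 v⟩ (fun b _ hb => by simp [Fin.ext_iff.not.1 hb]) (by simp)]
    simp
  have d2 : ∀ (i) (g : Fin N → ℝ), (∀ a, |g a| ≤ 1) →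
      |∑ a, (if a ∈ I i then c else 0) * g a| ≤ 1 / 2 := by
    intro i g hg
    simp only [ite_mul, zero_mul, sum_ite_mem, univ_inter]
    refine (abs_sum_le_sum_abs _ _).trans ((sum_le_card_nsmul _ _ c fun a _ => ?_).trans
      (by simpa using cI i))
    rw [abs_mul, abs_of_pos c0]
    exact mul_le_of_le_one_right c0.le (hg a)
  have dM : ∀ v (g : Fin N → ℝ), ∑ a, M (h v) a * g a =
      (g ⟨_, h2 v⟩ - ∑ a, (if a ∈ I (h v) then c else 0) * g a) / 4 := by
    intro v g
    simp only [M, div_mul_eq_mul_div, sub_mul, ← sum_div, sum_sub_distrib, d1]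
  let π := fun (ε : Fin N → Bool) v => 1 / 2 + A v + ∑ a, M (h v) a * sg ε a
  have hπ : ∀ ε v, 0 ≤ π ε v ∧ π ε v ≤ 1 := by
    intro ε v
    have s : ∀ a, |sg ε a| ≤ 1 := fun a => by simp only [sg]; split_ifs <;> simp
    have a1 := abs_le.1 (d2 (h v) _ s)
    have a2 := abs_le.1 (s ⟨_, h2 v⟩)
    have a3 := abs_le.1 ((hA v).trans (by rw [div_le_iff₀ (by positivity)]; linarith :
      1 / (16 * t) ≤ 1 / 16))
    simp only [π, dM]
    constructor <;> linarith
  have gain : ∀ u v, h v < h u → 1 / 4 + 1 / 256 / t ^ 2 ≤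
      (1 / 2 + A u) * (1 / 2 - A v) - ∑ a, M (h u) a * M (h v) a := by
    intro u v l
    have a1 : A u * A v ≤ 1 / 256 / t ^ 2 := by
      refine (le_abs_self _).trans ?_
      rw [abs_mul]
      refine (mul_le_mul (hA u) (hA v) (abs_nonneg _) (by positivity)).trans (le_of_eq ?_)
      field_simp; ring
    have a2 : A u - A v = ((h u : ℝ) - h v) / (8 * t ^ 4) := by simp only [A]; ring
    have a3 : ∑ a, (if a ∈ I (h u) then c else 0) * M (h v) a =
        -(∑ a, (if a ∈ I (h u) then c else 0) * (if a ∈ I (h v) then 1 else 0)) * c / 4 := by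
      rw [neg_mul, neg_div, sum_mul, sum_div, ← sum_neg_distrib]
      refine sum_congr rfl fun a _ => ?_
      by_cases b : a ∈ I (h u)
      · have : a.1 ≠ h v := by have := (mem_filter.1 b).2; omega
        simp only [M, this, if_false]
        split_ifs <;> ring
      · simp [b]
    rw [dM, a3]
    by_cases b : h u ≤ h v + L
    · have a4 := abs_le.1 (d2 (h u) (fun a => if a ∈ I (h v) then 1 else 0)
        fun a => by split_ifs <;> simp)
      have a5 : M (h v) ⟨_, h2 u⟩ = -c / 4 := by simp [M, I, l, b, l.ne']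
      have a6 : 0 ≤ A u - A v := by
        rw [a2]; exact div_nonneg (sub_nonneg.2 (Nat.cast_le.2 l.le)) (by positivity)
      have a7 : 1 / 256 / t ^ 2 ≤ c / 64 := by
        simp only [c]
        rw [div_div, div_div, one_div_le_one_div (by positivity) (by positivity)]
        linarith
      rw [a5]
      nlinarith
    · have a4 : ∑ a, (if a ∈ I (h u) then c else 0) * (if a ∈ I (h v) then (1 : ℝ) else 0) = 0 := by
        refine sum_eq_zero fun a _ => ?_
        by_cases b1 : a ∈ I (h u)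
        · have : a ∉ I (h v) := fun b2 => by
            have := (mem_filter.1 b1).2; have := (mem_filter.1 b2).2; omega
          simp [this]
        · simp [b1]
      have a5 : M (h v) ⟨_, h2 u⟩ = 0 := by simp [M, I, b, l.ne']
      have a6 : 1 / 256 / t ^ 2 * 32 ≤ A u - A v := by
        have : (h v : ℝ) + L ≤ h u := by exact_mod_cast (not_le.1 b).le
        rw [a2, le_div_iff₀ (by positivity),
          show 1 / 256 / t ^ 2 * 32 * (8 * t ^ 4) = t ^ 2 by field_simp; ring]
        linarith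
      have : 0 ≤ 1 / 256 / t ^ 2 := by positivity
      rw [a4, a5]
      nlinarith
  obtain ⟨ε, -, hε⟩ := exists_le_of_sum_le (s := (univ : Finset (Fin N → Bool))) univ_nonempty
    (f := fun _ => (1 / 4 + 1 / 256 / t ^ 2) * ∑ u, ∑ v, w u v)
    (g := fun ε => ∑ u, ∑ v, w u v * (π ε u * (1 - π ε v))) (by
      simp only [mul_sum]
      rw [sum_comm, sum_comm (s := univ) (t := univ) (f := fun ε u => ∑ v, w u v * _)]
      refine sum_le_sum fun u _ => ?_
      rw [sum_comm, sum_comm (s := univ) (t := univ) (f := fun ε v => w u v * _)]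
      refine sum_le_sum fun v _ => ?_
      rcases (hw u v).eq_or_lt with e | e
      · simp [← e]
      · have e1 : ∀ ε, 1 - π ε v = (1 / 2 - A v) - ∑ a, M (h v) a * sg ε a := by
          intro ε; simp only [π]; ring
        simp only [e1]
        simp only [π]
        rw [← mul_sum _ _ (w u v), avg, mul_sum]
        exact sum_le_sum fun _ _ => by rw [mul_comm]; gcongr; exact gain u v (h1 u v e))
  obtain ⟨X, hX⟩ := round w (fun u => by
    by_contra c
    exact (h1 u u ((hw u u).lt_of_ne' c)).false) (π ε) (hπ ε)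
  exact ⟨X, hε.trans hX⟩

end Pool.Agent.H1.DiC
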