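import Mathlib

namespace Pool.Agent.H1.Diag
open Finset

variable {V : Type*} [DecidableEq V]

lemma degen_colour (R : V → V → Prop) [DecidableRel R] (hs : ∀ u v, R u v → R v u)
    (hi : ∀ u, ¬ R u u) (k : ℕ) (hk : 0 < k)
    (h : ∀ U : Finset V, U.Nonempty → ∃ u ∈ U, (U.filter (R u)).card < k) (U : Finset V) :
    ∃ c : V → Fin k, ∀ u ∈ U, ∀ v ∈ U, R u v → c u ≠ c v := by
  induction U using Finset.strongInduction with
  | H U ih =>
    rcases U.eq_empty_or_nonempty with rfl | hne
    · exact ⟨fun _ => ⟨0, hk⟩, by simp⟩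
    obtain ⟨u, hu, hd⟩ := h U hne
    obtain ⟨c, hc⟩ := ih (U.erase u) (Finset.erase_ssubset hu)
    have : ((U.filter (R u)).image c).card < (Finset.univ : Finset (Fin k)).card := by
      rw [Finset.card_univ, Fintype.card_fin]
      exact lt_of_le_of_lt Finset.card_image_le hd
    obtain ⟨a, -, ha⟩ := Finset.exists_mem_notMem_of_card_lt_card this
    have ha' : ∀ v ∈ U, R u v → a ≠ c v := fun v hv hr e =>
      ha (Finset.mem_image.2 ⟨v, Finset.mem_filter.2 ⟨hv, hr⟩, e.symm⟩)
    refine ⟨Function.update c u a, fun x hx y hy hr => ?_⟩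
    by_cases h1 : x = u
    · subst h1
      have h2 : y ≠ x := fun e => hi x (e ▸ hr)
      rw [Function.update_self, Function.update_of_ne h2]
      exact ha' y hy hr
    · by_cases h2 : y = u
      · subst h2
        rw [Function.update_self, Function.update_of_ne h1]
        exact (ha' x hx (hs _ _ hr)).symm
      · rw [Function.update_of_ne h1, Function.update_of_ne h2]
        exact hc x (Finset.mem_erase.2 ⟨h1, hx⟩) y (Finset.mem_erase.2 ⟨h2, hy⟩) hr

lemma card_image_le_of_factor {α β γ : Type*} [DecidableEq β] [DecidableEq γ] (W : Finset α)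
    (f : α → β) (g : α → γ) (h : ∀ a b, f a = f b → g a = g b) :
    (W.image g).card ≤ (W.image f).card := by
  classical
  rcases W.eq_empty_or_nonempty with rfl | ⟨d, -⟩
  · simp
  apply Finset.card_le_card_of_surjOn (fun k => if hk : ∃ a, f a = k then g hk.choose else g d)
  intro y hy
  obtain ⟨a, ha, rfl⟩ := Finset.mem_image.1 (Finset.mem_coe.1 hy)
  refine ⟨f a, Finset.mem_coe.2 (Finset.mem_image_of_mem _ ha), ?_⟩
  have hk : ∃ b, f b = f a := ⟨a, rfl⟩
  simp only [dif_pos hk]
  exact h _ _ hk.choose_spec

def Gr (E : Finset (Finset V)) : SimpleGraph V := SimpleGraph.fromRel (fun x y => ({x, y} : Finset V) ∈ E)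

lemma Gr_adj (E : Finset (Finset V)) (x y : V) : (Gr E).Adj x y ↔ x ≠ y ∧ ({x, y} : Finset V) ∈ E := by
  unfold Gr
  rw [SimpleGraph.fromRel_adj, Finset.pair_comm y x, or_self]

open Classical in
noncomputable def cc (W : Finset V) (E : Finset (Finset V)) : ℕ :=
  (W.image (Gr E).connectedComponentMk).card

lemma forest (W : Finset V) (E : Finset (Finset V)) : W.card ≤ E.card + cc W E := by
  classical
  set G := Gr E with hG
  set r : V → V := fun y => (G.connectedComponentMk y).out with hr
  have hre : ∀ y, G.Reachable y (r y) := fun y =>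
    SimpleGraph.ConnectedComponent.exact (Quot.out_eq (G.connectedComponentMk y)).symm
  have hrr : ∀ y z, G.Adj y z → r y = r z := fun y z h => by
    simp only [hr]; rw [SimpleGraph.ConnectedComponent.sound h.reachable]
  have hpar : ∀ y, y ≠ r y → ∃ z, G.Adj y z ∧ G.dist z (r y) < G.dist y (r y) := by
    intro y hy
    obtain ⟨p, hp⟩ := (hre y).exists_walk_length_eq_dist
    generalize r y = w at *
    cases p with
    | nil => exact absurd rfl hy
    | cons h q =>
      refine ⟨_, h, ?_⟩
      have := SimpleGraph.dist_le q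
      rw [← hp, SimpleGraph.Walk.length_cons]
      omega
  choose! par hp1 hp2 using hpar
  have h1 : (W.filter (fun y => y = r y)).card ≤ cc W E := by
    unfold cc
    apply Finset.card_le_card_of_injOn G.connectedComponentMk
    · intro y hy
      exact Finset.mem_coe.2 (Finset.mem_image_of_mem _ (Finset.mem_filter.1 (Finset.mem_coe.1 hy)).1)
    · intro y hy z hz e
      have a1 := (Finset.mem_filter.1 (Finset.mem_coe.1 hy)).2
      have a2 := (Finset.mem_filter.1 (Finset.mem_coe.1 hz)).2
      rw [a1, a2]; simp only [hr]; rw [e]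
  have h2 : (W.filter (fun y => ¬ y = r y)).card ≤ E.card := by
    apply Finset.card_le_card_of_injOn (fun y => ({y, par y} : Finset V))
    · intro y hy
      exact ((Gr_adj E _ _).1 (hp1 y (Finset.mem_filter.1 (Finset.mem_coe.1 hy)).2)).2
    · intro y hy z hz e
      have a1 := (Finset.mem_filter.1 (Finset.mem_coe.1 hy)).2
      have a2 := (Finset.mem_filter.1 (Finset.mem_coe.1 hz)).2
      by_contra hne
      have e' : ({y, par y} : Finset V) = {z, par z} := e
      have b1 : y ∈ ({z, par z} : Finset V) := e' ▸ Finset.mem_insert_self _ _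
      have b2 : z ∈ ({y, par y} : Finset V) := e'.symm ▸ Finset.mem_insert_self _ _
      simp only [Finset.mem_insert, Finset.mem_singleton] at b1 b2
      have c1 : y = par z := b1.resolve_left hne
      have c2 : z = par y := b2.resolve_left (Ne.symm hne)
      have d1 := hp2 y a1
      have d2 := hp2 z a2
      have d3 := hrr y _ (hp1 y a1)
      rw [← c2] at d1 d3
      rw [← c1, ← d3] at d2
      omega
  have := Finset.card_filter_add_card_filter_not (s := W) (fun y => y = r y)
  omega

lemma collapse (W : Finset V) (S : Finset (Finset V)) : ∀ E : Finset (Finset V),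
    (∀ t ∈ S, t.card = 3) → (∀ t ∈ S, ∀ e ⊆ t, e.card = 2 → e ∈ E) →
    (∀ S' ⊆ S, S'.Nonempty → ∃ t ∈ S', ∃ e ⊆ t, e.card = 2 ∧ ∀ s ∈ S', e ⊆ s → s = t) →
    W.card + S.card ≤ E.card + cc W E := by
  classical
  induction S using Finset.strongInduction with
  | H S ih =>
    intro E h3 hE hfree
    rcases S.eq_empty_or_nonempty with rfl | hne
    · simpa using forest W E
    obtain ⟨t, ht, e, het, he2, hu⟩ := hfree S (Finset.Subset.refl _) hne
    have heE := hE t ht e het he2
    have h1 := ih (S.erase t) (Finset.erase_ssubset ht) (E.erase e)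
      (fun s hs => h3 s (Finset.mem_of_mem_erase hs))
      (fun s hs f hf hf2 => Finset.mem_erase.2 ⟨fun h => (Finset.mem_erase.1 hs).1
        (hu s (Finset.mem_of_mem_erase hs) (h ▸ hf)), hE s (Finset.mem_of_mem_erase hs) f hf hf2⟩)
      (fun S' hS' => hfree S' (hS'.trans (Finset.erase_subset _ _)))
    have h2 : cc W (E.erase e) ≤ cc W E := by
      unfold cc
      apply card_image_le_of_factor
      intro a b hab
      apply SimpleGraph.ConnectedComponent.sound
      have hr := SimpleGraph.ConnectedComponent.exact hab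
      have key : ∀ x y, (Gr E).Adj x y → (Gr (E.erase e)).Reachable x y := by
        intro x y hxy
        obtain ⟨hne, hm⟩ := (Gr_adj E x y).1 hxy
        by_cases hxe : ({x, y} : Finset V) = e
        · have hlt : e.card < t.card := by rw [he2, h3 t ht]; norm_num
          obtain ⟨z, hz, hze⟩ := Finset.exists_mem_notMem_of_card_lt_card hlt
          have hx : x ∈ e := hxe ▸ Finset.mem_insert_self _ _
          have hy : y ∈ e := hxe ▸ Finset.mem_insert_of_mem (Finset.mem_singleton_self _)
          have aux : ∀ w ∈ e, (Gr (E.erase e)).Adj w z := by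
            intro w hw
            have hwz : w ≠ z := fun h => hze (h ▸ hw)
            refine (Gr_adj _ _ _).2 ⟨hwz, Finset.mem_erase.2 ⟨fun h => hze (h ▸
              Finset.mem_insert_of_mem (Finset.mem_singleton_self _)), hE t ht _ ?_
              (Finset.card_pair hwz)⟩⟩
            exact Finset.insert_subset (het hw) (Finset.singleton_subset_iff.2 hz)
          exact (aux x hx).reachable.trans (aux y hy).reachable.symm
        · exact ((Gr_adj _ _ _).2 ⟨hne, Finset.mem_erase.2 ⟨hxe, hm⟩⟩).reachable
      obtain ⟨p⟩ := hr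
      clear hab
      induction p with
      | nil => exact SimpleGraph.Reachable.refl _
      | cons h q ihq => exact (key _ _ h).trans ihq
    rw [Finset.card_erase_of_mem ht, Finset.card_erase_of_mem heE] at h1
    have := Finset.card_pos.2 ⟨t, ht⟩
    have := Finset.card_pos.2 ⟨e, heE⟩
    omega

lemma reach_closed (G : SimpleGraph V) (P : V → Prop) (h : ∀ x y, G.Adj x y → P x → P y)
    {a b : V} (hr : G.Reachable a b) (ha : P a) : P b := by
  obtain ⟨p⟩ := hr
  induction p with
  | nil => exact ha
  | cons hadj q ih => exact ih (h _ _ hadj ha)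

end Pool.Agent.H1.Diag
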