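import Mathlib
import Pool.Agent.H1.DiagA

set_option linter.unusedSectionVars false

namespace Pool.Agent.H1.Diag
open Finset

variable {V : Type*} [DecidableEq V] [Fintype V]

structure Tri (T : Finset (Finset V)) : Prop where
  c3 : ∀ t ∈ T, t.card = 3
  cov : ∀ v : V, ∃ t ∈ T, v ∈ t
  two : ∀ t ∈ T, ∀ e ⊆ t, e.card = 2 → (T.filter (fun s => e ⊆ s)).card = 2
  link : ∀ v a b : V, (∃ t ∈ T, v ∈ t ∧ a ∈ t ∧ v ≠ a) → (∃ t ∈ T, v ∈ t ∧ b ∈ t ∧ v ≠ b) →
    (SimpleGraph.fromRel (fun x y : V => ({v, x, y} : Finset V) ∈ T)).Reachable a b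
  conn : ∀ a b : V, (SimpleGraph.fromRel (fun x y : V => ∃ t ∈ T, x ∈ t ∧ y ∈ t)).Reachable a b

def F (T : Finset (Finset V)) (x y z : V) : Prop := ({x, y, z} : Finset V) ∈ T
def Ed (T : Finset (Finset V)) (x y : V) : Prop := ∃ z, F T z x y
def EE (T : Finset (Finset V)) : Finset (Finset V) := T.biUnion (fun t => t.powersetCard 2)
def ap (T : Finset (Finset V)) (e : Finset V) : Finset V := Finset.univ.filter (fun v => insert v e ∈ T)

variable {T : Finset (Finset V)}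

lemma F.s12 {x y z : V} (h : F T x y z) : F T y x z := by
  unfold F at *; rwa [Finset.insert_comm]
lemma F.s23 {x y z : V} (h : F T x y z) : F T x z y := by
  unfold F at *; rwa [Finset.pair_comm z y]
lemma F.s13 {x y z : V} (h : F T x y z) : F T z y x := h.s12.s23.s12
lemma Ed.symm {x y : V} (h : Ed T x y) : Ed T y x := by
  obtain ⟨z, hz⟩ := h; exact ⟨z, hz.s23⟩
lemma F.ed23 {x y z : V} (h : F T x y z) : Ed T y z := ⟨x, h⟩
lemma F.ed12 {x y z : V} (h : F T x y z) : Ed T x y := ⟨z, h.s13.s23⟩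
lemma F.ed13 {x y z : V} (h : F T x y z) : Ed T x z := ⟨y, h.s12⟩

lemma mem_ap {e : Finset V} {v : V} : v ∈ ap T e ↔ insert v e ∈ T := by simp [ap]
lemma mem_ap_pair {x y v : V} : v ∈ ap T {x, y} ↔ F T v x y := mem_ap
lemma mem_EE {e : Finset V} : e ∈ EE T ↔ e.card = 2 ∧ ∃ t ∈ T, e ⊆ t := by
  simp only [EE, Finset.mem_biUnion, Finset.mem_powersetCard]
  constructor
  · rintro ⟨t, ht, h1, h2⟩; exact ⟨h2, t, ht, h1⟩
  · rintro ⟨h2, t, ht, h1⟩; exact ⟨t, ht, h1, h2⟩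

lemma Tri.ne (hT : Tri T) {x y z : V} (h : F T x y z) : x ≠ y ∧ x ≠ z ∧ y ≠ z := by
  have := hT.c3 _ h
  refine ⟨?_, ?_, ?_⟩ <;> rintro rfl
  · simp only [Finset.mem_insert, true_or, Finset.insert_eq_of_mem] at this
    have := Finset.card_le_two (a := x) (b := z); omega
  · simp only [Finset.mem_insert, Finset.mem_singleton, or_true, Finset.insert_eq_of_mem] at this
    have := Finset.card_le_two (a := y) (b := x); omega
  · simp only [Finset.mem_singleton, Finset.insert_eq_of_mem] at this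
    have := Finset.card_le_two (a := x) (b := y); omega

lemma Tri.ed_ne (hT : Tri T) {x y : V} (h : Ed T x y) : x ≠ y := by
  obtain ⟨z, hz⟩ := h; exact (hT.ne hz).2.2

lemma Tri.eq_insert (hT : Tri T) {t e : Finset V} (ht : t ∈ T) (he : e ⊆ t) (h2 : e.card = 2) :
    ∃ z, z ∉ e ∧ t = insert z e := by
  have hlt : e.card < t.card := by rw [h2, hT.c3 t ht]; norm_num
  obtain ⟨z, hz, hze⟩ := Finset.exists_mem_notMem_of_card_lt_card hlt
  refine ⟨z, hze, (Finset.eq_of_subset_of_card_le (Finset.insert_subset hz he) ?_).symm⟩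
  rw [Finset.card_insert_of_notMem hze, h2, hT.c3 t ht]

lemma Tri.ed_of_mem (hT : Tri T) {t : Finset V} (ht : t ∈ T) {x y : V} (hx : x ∈ t) (hy : y ∈ t)
    (hne : x ≠ y) : Ed T x y := by
  obtain ⟨z, -, hz⟩ := hT.eq_insert ht (e := {x, y})
    (Finset.insert_subset hx (Finset.singleton_subset_iff.2 hy)) (Finset.card_pair hne)
  exact ⟨z, by unfold F; rw [← hz]; exact ht⟩

lemma Tri.ed_EE (hT : Tri T) {x y : V} (h : Ed T x y) : ({x, y} : Finset V) ∈ EE T := by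
  have hne := hT.ed_ne h
  obtain ⟨z, hz⟩ := h
  exact mem_EE.2 ⟨Finset.card_pair hne, _, hz, Finset.subset_insert _ _⟩

lemma Tri.EE_ed (hT : Tri T) {x y : V} (h : ({x, y} : Finset V) ∈ EE T) : Ed T x y := by
  obtain ⟨h2, t, ht, hs⟩ := mem_EE.1 h
  refine hT.ed_of_mem ht (hs (by simp)) (hs (by simp)) ?_
  rintro rfl; simp at h2

lemma Tri.EE_pair (hT : Tri T) {e : Finset V} (h : e ∈ EE T) : ∃ x y, e = {x, y} ∧ Ed T x y := by
  obtain ⟨x, y, -, rfl⟩ := Finset.card_eq_two.1 (mem_EE.1 h).1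
  exact ⟨x, y, rfl, hT.EE_ed h⟩

lemma Tri.not_mem_of_ap (hT : Tri T) {e : Finset V} (h : e.card = 2) {v : V} (hv : v ∈ ap T e) :
    v ∉ e := by
  intro hve
  have := hT.c3 _ (mem_ap.1 hv)
  rw [Finset.insert_eq_of_mem hve] at this; omega

lemma Tri.card_ap (hT : Tri T) {e : Finset V} (h : e ∈ EE T) : (ap T e).card = 2 := by
  obtain ⟨h2, t, ht, hs⟩ := mem_EE.1 h
  rw [← hT.two t ht e hs h2]
  apply Finset.card_bij (fun v _ => insert v e)
  · intro v hv
    exact Finset.mem_filter.2 ⟨mem_ap.1 hv, Finset.subset_insert _ _⟩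
  · intro v hv w hw hvw
    have : v ∈ insert w e := hvw ▸ Finset.mem_insert_self _ _
    exact (Finset.mem_insert.1 this).resolve_right (hT.not_mem_of_ap h2 hv)
  · intro s hs
    obtain ⟨h1, h3⟩ := Finset.mem_filter.1 hs
    obtain ⟨z, -, rfl⟩ := hT.eq_insert h1 h3 h2
    exact ⟨z, mem_ap.2 h1, rfl⟩

lemma pair_of_card_two {s : Finset V} (h : s.card = 2) {u : V} (hu : u ∈ s) :
    ∃ v, v ≠ u ∧ s = {u, v} := by
  obtain ⟨a, b, hab, rfl⟩ := Finset.card_eq_two.1 h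
  rcases Finset.mem_insert.1 hu with rfl | hu
  · exact ⟨b, hab.symm, rfl⟩
  · rw [Finset.mem_singleton.1 hu]; exact ⟨a, hab, Finset.pair_comm _ _⟩

lemma eq_pair_of_card_two {s : Finset V} (h : s.card = 2) {u v : V} (hu : u ∈ s) (hv : v ∈ s)
    (hne : u ≠ v) : s = {u, v} :=
  (Finset.eq_of_subset_of_card_le (Finset.insert_subset hu (Finset.singleton_subset_iff.2 hv))
    (by rw [h, Finset.card_pair hne])).symm

lemma Tri.link_closed (hT : Tri T) (v : V) (P : V → Prop) (h : ∀ x y, F T v x y → P x → P y)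
    {a b : V} (ha : Ed T v a) (hb : Ed T v b) (hP : P a) : P b := by
  have aux : ∀ a, Ed T v a → ∃ t ∈ T, v ∈ t ∧ a ∈ t ∧ v ≠ a := by
    intro a ha
    have hne := hT.ed_ne ha
    obtain ⟨z, hz⟩ := ha
    exact ⟨_, hz, by simp, by simp, hne⟩
  refine reach_closed _ P ?_ (hT.link v a b (aux a ha) (aux b hb)) hP
  intro x y hxy
  rw [SimpleGraph.fromRel_adj] at hxy
  rcases hxy.2 with h1 | h1
  · exact h x y h1
  · exact h x y (F.s23 h1)

lemma Tri.conn_closed (hT : Tri T) (P : V → Prop) (h : ∀ x y, Ed T x y → P x → P y)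
    {a : V} (hP : P a) (b : V) : P b := by
  refine reach_closed _ P ?_ (hT.conn a b) hP
  intro x y hxy
  rw [SimpleGraph.fromRel_adj] at hxy
  rcases hxy.2 with ⟨t, ht, h1, h2⟩ | ⟨t, ht, h1, h2⟩
  · exact h x y (hT.ed_of_mem ht h1 h2 hxy.1)
  · exact h x y (hT.ed_of_mem ht h2 h1 hxy.1)

lemma Tri.free (hT : Tri T) (u : V) (S : Finset (Finset V)) (hS : S ⊆ T) (hu : ∀ t ∈ S, u ∉ t)
    (hne : S.Nonempty) : ∃ t ∈ S, ∃ e ⊆ t, e.card = 2 ∧ ∀ s ∈ S, e ⊆ s → s = t := by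
  by_contra hcon
  push Not at hcon
  have h1 : ∀ x y z w, ({z, x, y} : Finset V) ∈ S → F T w x y → ({w, x, y} : Finset V) ∈ S := by
    intro x y z w hz hw
    have hF : F T z x y := hS hz
    have hxy := (hT.ne hF).2.2
    obtain ⟨s, hs, hes, hst⟩ := hcon _ hz {x, y} (Finset.subset_insert _ _) (Finset.card_pair hxy)
    obtain ⟨z', -, rfl⟩ := hT.eq_insert (hS hs) hes (Finset.card_pair hxy)
    have hzz : z ≠ z' := fun h => hst (by rw [h])
    have := eq_pair_of_card_two (hT.card_ap (hT.ed_EE hF.ed23)) (mem_ap_pair.2 hF)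
      (mem_ap.2 (hS hs)) hzz
    have hw' := mem_ap_pair.2 hw
    rw [this] at hw'
    rcases Finset.mem_insert.1 hw' with rfl | hw'
    · exact hz
    · rw [Finset.mem_singleton.1 hw']; exact hs
  obtain ⟨t, ht⟩ := hne
  obtain ⟨a, ha⟩ : t.Nonempty := Finset.card_pos.1 (by rw [hT.c3 t (hS ht)]; norm_num)
  have := hT.conn_closed (fun v => ∃ t ∈ S, v ∈ t) ?_ ⟨t, ht, ha⟩ u
  · obtain ⟨s, hs, hus⟩ := this
    exact hu s hs hus
  · rintro v y hvy ⟨s, hs, hvs⟩
    obtain ⟨b, hb, hbv⟩ : ∃ b ∈ s, b ≠ v :=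
      Finset.exists_mem_ne (by rw [hT.c3 s (hS hs)]; norm_num) v
    have hvb := hT.ed_of_mem (hS hs) hvs hb hbv.symm
    have := hT.link_closed v (fun x => ∃ z, ({z, v, x} : Finset V) ∈ S) ?_ hvb hvy ?_
    · obtain ⟨z, hz⟩ := this
      exact ⟨_, hz, by simp⟩
    · rintro x x' hF ⟨z, hz⟩
      have := h1 v x z x' hz hF.s13.s23
      refine ⟨x, ?_⟩
      have e : ({x, v, x'} : Finset V) = {x', v, x} := by
        ext w; simp only [Finset.mem_insert, Finset.mem_singleton]; tauto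
      rw [e]; exact this
    · obtain ⟨z, -, hz⟩ := hT.eq_insert (hS hs) (e := {v, b})
        (Finset.insert_subset hvs (Finset.singleton_subset_iff.2 hb)) (Finset.card_pair hbv.symm)
      exact ⟨z, hz ▸ hs⟩

lemma Tri.dcount (hT : Tri T) (A : Finset (Finset V)) (hA : A ⊆ EE T) :
    2 * A.card = ∑ t ∈ T, (A.filter (fun e => e ⊆ t)).card := by
  have h := Finset.sum_card_bipartiteAbove_eq_sum_card_bipartiteBelow (s := T) (t := A)
    (fun t e => e ⊆ t)
  simp only [Finset.bipartiteAbove, Finset.bipartiteBelow] at h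
  rw [h, mul_comm, ← smul_eq_mul, ← Finset.sum_const]
  apply Finset.sum_congr rfl
  intro e he
  obtain ⟨h2, t, ht, hs⟩ := mem_EE.1 (hA he)
  exact (hT.two t ht e hs h2).symm

lemma even_card_of_swap (s : Finset (V × V)) (h : ∀ q ∈ s, q.swap ∈ s) (h2 : ∀ q ∈ s, q.1 ≠ q.2) :
    Even s.card := by
  rw [← ZMod.natCast_eq_zero_iff_even, Finset.card_eq_sum_ones]
  push_cast
  apply Finset.sum_involution (fun q _ => q.swap)
  · intro q _; decide
  · intro q hq _ e
    exact h2 q hq (congrArg Prod.snd e)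
  · intro q _; rfl
  · exact h

end Pool.Agent.H1.Diag
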