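import Mathlib
import Pool.Agent.H1.DiagB

set_option linter.unusedSectionVars false

namespace Pool.Agent.H1.Diag
open Finset Classical

variable {V : Type*} [DecidableEq V] [Fintype V]

def D (T : Finset (Finset V)) (u v : V) : Prop :=
  u ≠ v ∧ (({u, v} : Finset V) ∈ EE T ∨ ∃ e ∈ EE T, u ∈ ap T e ∧ v ∈ ap T e)

noncomputable def P0 (T : Finset (Finset V)) (U : Finset V) : Finset (Finset V) :=
  (U.powersetCard 2).filter (fun p => p ∉ EE T ∧ ∃ e ∈ EE T, Disjoint e U ∧ ap T e = p)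

structure IsM (T : Finset (Finset V)) (U : Finset V) (M : Finset (Finset V)) : Prop where
  mem : ∀ e ∈ M, e ∈ EE T ∧ Disjoint e U ∧ ap T e ∈ P0 T U
  surj : ∀ p ∈ P0 T U, ∃ e ∈ M, ap T e = p
  inj : ∀ e ∈ M, ∀ e' ∈ M, ap T e = ap T e' → e = e'

def Tr (T : Finset (Finset V)) (U : Finset V) (M : Finset (Finset V)) (K : V → Prop) (u y x : V) :
    Prop := u ∈ U ∧ K y ∧ F T u x y ∧ (x ∈ U ∨ ({x, y} : Finset V) ∈ M)

noncomputable def OK (T : Finset (Finset V)) (U : Finset V) (M : Finset (Finset V)) (K : V → Prop) :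
    Finset (V × V × V) := Finset.univ.filter (fun q => Tr T U M K q.1 q.2.1 q.2.2)

noncomputable def P1 (T : Finset (Finset V)) (U : Finset V) (K : V → Prop) : Finset (Finset V) :=
  (U.powersetCard 2).filter (fun p => p ∉ EE T ∧ p ∉ P0 T U ∧
    ∃ x ∈ U, ∃ y, K y ∧ Ed T x y ∧ ap T {x, y} = p)

variable {T : Finset (Finset V)} {U : Finset V} {M : Finset (Finset V)} {K : V → Prop}

lemma exists_M (T : Finset (Finset V)) (U : Finset V) : ∃ M, IsM T U M := by
  have h : ∀ p ∈ P0 T U, ∃ e ∈ EE T, Disjoint e U ∧ ap T e = p :=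
    fun p hp => (Finset.mem_filter.1 hp).2.2
  choose! μ h1 h2 h3 using h
  refine ⟨(P0 T U).image μ, ?_, ?_, ?_⟩
  · intro e he
    obtain ⟨p, hp, rfl⟩ := Finset.mem_image.1 he
    exact ⟨h1 p hp, h2 p hp, (h3 p hp).symm ▸ hp⟩
  · intro p hp
    exact ⟨μ p, Finset.mem_image_of_mem _ hp, h3 p hp⟩
  · intro e he e' he' h
    obtain ⟨p, hp, rfl⟩ := Finset.mem_image.1 he
    obtain ⟨p', hp', rfl⟩ := Finset.mem_image.1 he'
    rw [h3 p hp, h3 p' hp'] at h
    rw [h]

lemma P0_sub {p : Finset V} (hp : p ∈ P0 T U) : p ⊆ U ∧ p.card = 2 ∧ p ∉ EE T := by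
  have := Finset.mem_filter.1 hp
  exact ⟨(Finset.mem_powersetCard.1 this.1).1, (Finset.mem_powersetCard.1 this.1).2, this.2.1⟩

lemma two_tr (hT : Tri T) (hM : IsM T U M)
    (hK2 : ∀ x y, K y → x ∉ U → Ed T x y → ({x, y} : Finset V) ∉ M → K x)
    (hK1 : ∀ y, K y → y ∉ U) {u y x : V} (h : Tr T U M K u y x) :
    ∃ y' x', Tr T U M K u y' x' ∧ (y', x') ≠ (y, x) := by
  set Q : Finset (V × V) := Finset.univ.filter (fun q => K q.1 ∧ F T u q.2 q.1) with hQ
  have hQe : Even Q.card := by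
    rw [Finset.card_eq_sum_card_fiberwise (f := Prod.fst) (t := Finset.univ)
      (fun _ _ => Finset.mem_coe.2 (Finset.mem_univ _))]
    apply Finset.even_sum
    intro a _
    by_cases ha : K a ∧ Ed T u a
    · have : (Q.filter (fun q => q.1 = a)).card = (ap T {u, a}).card := by
        apply Finset.card_bij (fun q _ => q.2)
        · intro q hq
          obtain ⟨h1, rfl⟩ := Finset.mem_filter.1 hq
          exact mem_ap_pair.2 (Finset.mem_filter.1 h1).2.2.s12
        · intro q hq q' hq' e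
          exact Prod.ext ((Finset.mem_filter.1 hq).2.trans (Finset.mem_filter.1 hq').2.symm) e
        · intro z hz
          exact ⟨(a, z), Finset.mem_filter.2 ⟨Finset.mem_filter.2 ⟨Finset.mem_univ _, ha.1,
            (mem_ap_pair.1 hz).s12⟩, rfl⟩, rfl⟩
      rw [this, hT.card_ap (hT.ed_EE ha.2)]; norm_num
    · have : Q.filter (fun q => q.1 = a) = ∅ := by
        apply Finset.filter_eq_empty_iff.2
        rintro q hq rfl
        have := (Finset.mem_filter.1 hq).2
        exact ha ⟨this.1, this.2.ed13⟩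
      rw [this]; simp
  have hIe : Even (Q.filter (fun q => ¬ (q.2 ∈ U ∨ ({q.2, q.1} : Finset V) ∈ M))).card := by
    apply even_card_of_swap
    · intro q hq
      obtain ⟨h1, h2⟩ := Finset.mem_filter.1 hq
      obtain ⟨h3, h4⟩ := (Finset.mem_filter.1 h1).2
      push Not at h2
      refine Finset.mem_filter.2 ⟨Finset.mem_filter.2 ⟨Finset.mem_univ _,
        hK2 _ _ h3 h2.1 h4.ed23 h2.2, h4.s23⟩, ?_⟩
      rintro (h5 | h5)
      · exact hK1 _ h3 h5
      · exact h2.2 (by rw [Finset.pair_comm]; exact h5)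
    · intro q hq
      exact (hT.ne (Finset.mem_filter.1 (Finset.mem_filter.1 hq).1).2.2).2.2.symm
  have hs := Finset.card_filter_add_card_filter_not (s := Q)
    (fun q => q.2 ∈ U ∨ ({q.2, q.1} : Finset V) ∈ M)
  have hmem : (y, x) ∈ Q.filter (fun q => q.2 ∈ U ∨ ({q.2, q.1} : Finset V) ∈ M) :=
    Finset.mem_filter.2 ⟨Finset.mem_filter.2 ⟨Finset.mem_univ _, h.2.1, h.2.2.1⟩, h.2.2.2⟩
  have hpos := Finset.card_pos.2 ⟨_, hmem⟩
  have h1 : 1 < (Q.filter (fun q => q.2 ∈ U ∨ ({q.2, q.1} : Finset V) ∈ M)).card := by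
    obtain ⟨a, ha⟩ := hQe
    obtain ⟨b, hb⟩ := hIe
    omega
  obtain ⟨q, hq, hne⟩ := Finset.exists_mem_ne h1 (y, x)
  obtain ⟨h2, h3⟩ := Finset.mem_filter.1 hq
  exact ⟨q.1, q.2, ⟨h.1, (Finset.mem_filter.1 h2).2.1, (Finset.mem_filter.1 h2).2.2, h3⟩, hne⟩

lemma partner (hT : Tri T) (hM : IsM T U M) {u y x : V} (h : Tr T U M K u y x) :
    ∃ v, v ≠ u ∧ (∃ y' x', Tr T U M K v y' x') ∧
      ((v = x ∧ x ∈ U) ∨ (({x, y} : Finset V) ∈ M ∧ ap T {x, y} = {u, v})) := by
  by_cases hx : x ∈ U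
  · exact ⟨x, (hT.ne h.2.2.1).1.symm, ⟨y, u, hx, h.2.1, h.2.2.1.s12, Or.inl h.1⟩, Or.inl ⟨rfl, hx⟩⟩
  · have hm := h.2.2.2.resolve_left hx
    have hp := P0_sub (hM.mem _ hm).2.2
    obtain ⟨v, hv, he⟩ := pair_of_card_two hp.2.1 (mem_ap_pair.2 h.2.2.1)
    have hv2 : v ∈ ap T {x, y} := by rw [he]; simp
    exact ⟨v, hv, ⟨y, x, hp.1 hv2, h.2.1, mem_ap_pair.1 hv2, Or.inr hm⟩, Or.inr ⟨hm, he⟩⟩

lemma partner' (hT : Tri T) (hM : IsM T U M) {u y x : V} (h : Tr T U M K u y x) :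
    ∃ v, v ≠ u ∧ (∃ y' x', Tr T U M K v y' x') ∧
      (({u, v} : Finset V) ∈ EE T ∨ ({u, v} : Finset V) ∈ P0 T U) := by
  obtain ⟨v, h1, h2, h3⟩ := partner hT hM h
  refine ⟨v, h1, h2, ?_⟩
  rcases h3 with ⟨rfl, -⟩ | ⟨h4, h5⟩
  · exact Or.inl (hT.ed_EE h.2.2.1.ed12)
  · exact Or.inr (h5 ▸ (hM.mem _ h4).2.2)

/-- diagonal neighbours of a vertex whose link lies in `K` and the boundary -/
lemma nbr_bd (hT : Tri T) (hM : IsM T U M) (hK1 : ∀ y, K y → y ∉ U) {u : V} (hu : u ∈ U)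
    (B : V → Prop) (hB : ∀ w, B w ↔ ∃ y x, Tr T U M K w y x)
    (hl : ∀ x, Ed T u x → K x ∨ B x) (h3 : ∀ x y, F T u x y → B x → B y → False)
    {v : V} (hv : v ∈ U) (hD : D T u v) : B v := by
  by_cases he : ({u, v} : Finset V) ∈ EE T
  · exact (hl v (hT.EE_ed he)).resolve_left (fun h => hK1 v h hv)
  obtain ⟨e, heE, h1, h2⟩ := hD.2.resolve_left he
  obtain ⟨x, y, rfl, hxy⟩ := hT.EE_pair heE
  have f1 := mem_ap_pair.1 h1
  have f2 := mem_ap_pair.1 h2
  have hBU : ∀ w, B w → w ∈ U := fun w hw => by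
    obtain ⟨_, _, h⟩ := (hB w).1 hw; exact h.1
  rcases hl x f1.ed12 with hx | hx <;> rcases hl y f1.ed13 with hy | hy
  · have hp : ({u, v} : Finset V) ∈ P0 T U := by
      refine Finset.mem_filter.2 ⟨Finset.mem_powersetCard.2 ⟨Finset.insert_subset hu
        (Finset.singleton_subset_iff.2 hv), Finset.card_pair hD.1⟩, he, {x, y}, heE, ?_,
        eq_pair_of_card_two (hT.card_ap heE) h1 h2 hD.1⟩
      rw [Finset.disjoint_insert_left, Finset.disjoint_singleton_left]
      exact ⟨hK1 x hx, hK1 y hy⟩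
    obtain ⟨e', he', hap⟩ := hM.surj _ hp
    obtain ⟨x', y', rfl, -⟩ := hT.EE_pair (hM.mem _ he').1
    have g1 : F T u x' y' := mem_ap_pair.1 (by rw [hap]; simp)
    have g2 : F T v x' y' := mem_ap_pair.1 (by rw [hap]; simp)
    have hy' : y' ∉ U := Finset.disjoint_left.1 (hM.mem _ he').2.1 (by simp)
    have hK : K y' := (hl y' g1.ed13).resolve_right (fun h => hy' (hBU _ h))
    exact (hB v).2 ⟨y', x', hv, hK, g2, Or.inr he'⟩
  · exact (hB v).2 ⟨x, y, hv, hx, f2.s23, Or.inl (hBU _ hy)⟩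
  · exact (hB v).2 ⟨y, x, hv, hy, f2, Or.inl (hBU _ hx)⟩
  · exact (h3 x y f1 hx hy).elim

lemma b3 (hT : Tri T) (hM : IsM T U M) (hK1 : ∀ y, K y → y ∉ U)
    (hK2 : ∀ x y, K y → x ∉ U → Ed T x y → ({x, y} : Finset V) ∉ M → K x)
    (hK3 : ∃ y, K y) (hU : U.Nonempty) (hdeg : ∀ u ∈ U, 3 ≤ (U.filter (D T u)).card) :
    3 ≤ ((OK T U M K).image Prod.fst).card := by
  set Bs := (OK T U M K).image Prod.fst with hBs
  have hB : ∀ w, w ∈ Bs ↔ ∃ y x, Tr T U M K w y x := by
    intro w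
    simp only [hBs, OK, Finset.mem_image, Finset.mem_filter, Finset.mem_univ, true_and]
    constructor
    · rintro ⟨q, hq, rfl⟩; exact ⟨_, _, hq⟩
    · rintro ⟨y, x, h⟩; exact ⟨(w, y, x), h, rfl⟩
  by_contra hcon
  push Not at hcon
  have h3 : ∀ a b c, a ∈ Bs → b ∈ Bs → c ∈ Bs → a ≠ b → a ≠ c → b = c := by
    intro a b c ha hb hc hab hac
    by_contra hbc
    have : ({a, b, c} : Finset V) ⊆ Bs := by
      intro w hw
      simp only [Finset.mem_insert, Finset.mem_singleton] at hw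
      rcases hw with rfl | rfl | rfl <;> assumption
    have := Finset.card_le_card this
    rw [Finset.card_eq_three.2 ⟨a, b, c, hab, hac, hbc, rfl⟩] at this
    omega
  obtain ⟨u, hu, y0, hy0, huy⟩ : ∃ u ∈ U, ∃ y, K y ∧ Ed T u y := by
    by_contra hc
    push Not at hc
    obtain ⟨y, hy⟩ := hK3
    obtain ⟨u, hu⟩ := hU
    refine hK1 u (hT.conn_closed K ?_ hy u) hu
    intro a b hab ha
    have hb : b ∉ U := fun hb => hc b hb a ha hab.symm
    refine hK2 b a ha hb hab.symm (fun hm => ?_)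
    have hp := P0_sub (hM.mem _ hm).2.2
    obtain ⟨z, hz⟩ := hab.symm
    exact hc z (hp.1 (mem_ap_pair.2 hz)) a ha hz.ed13
  have huB : u ∈ Bs := by
    by_contra hn
    have hl : ∀ x, Ed T u x → K x := by
      intro x hx
      refine hT.link_closed u K ?_ huy hx hy0
      intro a b hF ha
      by_contra hb
      apply hn
      refine (hB u).2 ⟨a, b, hu, ha, hF.s23, ?_⟩
      by_contra hc
      push Not at hc
      exact hb (hK2 b a ha hc.1 hF.ed23.symm hc.2)
    have : U.filter (D T u) ⊆ Bs := by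
      intro v hv
      obtain ⟨hv1, hv2⟩ := Finset.mem_filter.1 hv
      refine nbr_bd hT hM hK1 hu (· ∈ Bs) hB (fun x hx => Or.inl (hl x hx)) ?_ hv1 hv2
      intro x y hF hx _
      obtain ⟨_, _, h⟩ := (hB x).1 hx
      exact hK1 x (hl x hF.ed12) h.1
    have := Finset.card_le_card this
    have := hdeg u hu
    omega
  have hl : ∀ x, Ed T u x → K x ∨ x ∈ Bs := by
    intro x hx
    refine hT.link_closed u (fun x => K x ∨ x ∈ Bs) ?_ huy hx (Or.inl hy0)
    intro a b hF ha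
    rcases ha with ha | ha
    · by_cases hb : b ∈ U
      · exact Or.inr ((hB b).2 ⟨a, u, hb, ha, hF.s13.s23, Or.inl hu⟩)
      · left
        by_contra hKb
        have hm : ({b, a} : Finset V) ∈ M := by
          by_contra hm; exact hKb (hK2 b a ha hb hF.ed23.symm hm)
        have t1 : Tr T U M K u a b := ⟨hu, ha, hF.s23, Or.inr hm⟩
        obtain ⟨y', x', t2, hne⟩ := two_tr hT hM hK2 hK1 t1
        obtain ⟨v, v1, v2, v3⟩ := partner hT hM t1
        obtain ⟨w, w1, w2, w3⟩ := partner hT hM t2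
        have hvw : v = w := h3 u v w huB ((hB v).2 v2) ((hB w).2 w2) v1.symm w1.symm
        subst hvw
        have v4 := (v3.resolve_left (fun h => hb h.2)).2
        rcases w3 with ⟨rfl, -⟩ | ⟨w4, w5⟩
        · exact (P0_sub (v4 ▸ (hM.mem _ hm).2.2)).2.2 (hT.ed_EE t2.2.2.1.ed12)
        · have e := hM.inj _ hm _ w4 (v4.trans w5.symm)
          have e1 : y' ∈ ({b, a} : Finset V) := by rw [e]; simp
          have e2 : x' ∈ ({b, a} : Finset V) := by rw [e]; simp
          have e3 := (hT.ne t2.2.2.1).2.2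
          simp only [Finset.mem_insert, Finset.mem_singleton] at e1 e2
          rcases e1 with rfl | rfl
          · exact hKb t2.2.1
          · rcases e2 with rfl | rfl
            · exact hne rfl
            · exact e3 rfl
    · left
      have hua := (hT.ne hF).1
      have key : ∀ y x, Tr T U M K u y x → x = a := by
        intro y x t
        obtain ⟨v, v1, v2, v3⟩ := partner hT hM t
        have hva : v = a := h3 u v a huB ((hB v).2 v2) ha v1.symm hua
        subst hva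
        rcases v3 with ⟨rfl, -⟩ | ⟨v4, v5⟩
        · rfl
        · exact ((P0_sub (v5 ▸ (hM.mem _ v4).2.2)).2.2 (hT.ed_EE hF.ed12)).elim
      obtain ⟨y1, x1, t1⟩ := (hB u).1 huB
      obtain ⟨y2, x2, t2, hne⟩ := two_tr hT hM hK2 hK1 t1
      have e1 := key _ _ t1
      have e2 := key _ _ t2
      subst e1
      subst e2
      have hyy : y1 ≠ y2 := fun h => hne (by rw [h])
      have := eq_pair_of_card_two (hT.card_ap (hT.ed_EE hF.ed12))
        (mem_ap_pair.2 t1.2.2.1.s13.s23) (mem_ap_pair.2 t2.2.2.1.s13.s23) hyy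
      have hb : b ∈ ap T {u, x2} := mem_ap_pair.2 hF.s13.s23
      rw [this] at hb
      rcases Finset.mem_insert.1 hb with rfl | hb
      · exact t1.2.1
      · rw [Finset.mem_singleton.1 hb]; exact t2.2.1
  have : U.filter (D T u) ⊆ Bs := by
    intro v hv
    obtain ⟨hv1, hv2⟩ := Finset.mem_filter.1 hv
    refine nbr_bd hT hM hK1 hu (· ∈ Bs) hB hl ?_ hv1 hv2
    intro x y hF hx hy
    have := hT.ne hF
    exact this.2.2 (h3 u x y huB hx hy this.1 this.2.1)
  have := Finset.card_le_card this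
  have := hdeg u hu
  omega

lemma comp_bound (hT : Tri T) (hM : IsM T U M) (hK1 : ∀ y, K y → y ∉ U)
    (hK2 : ∀ x y, K y → x ∉ U → Ed T x y → ({x, y} : Finset V) ∉ M → K x)
    (hK3 : ∃ y, K y) (hU : U.Nonempty) (hdeg : ∀ u ∈ U, 3 ≤ (U.filter (D T u)).card) :
    4 * (P1 T U K).card + 26 ≤ 5 * (OK T U M K).card := by
  have hb := b3 hT hM hK1 hK2 hK3 hU hdeg
  set Bs := (OK T U M K).image Prod.fst with hBs
  have hB : ∀ w, w ∈ Bs ↔ ∃ y x, Tr T U M K w y x := by
    intro w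
    simp only [hBs, OK, Finset.mem_image, Finset.mem_filter, Finset.mem_univ, true_and]
    constructor
    · rintro ⟨q, hq, rfl⟩; exact ⟨_, _, hq⟩
    · rintro ⟨y, x, h⟩; exact ⟨(w, y, x), h, rfl⟩
  have hmem : ∀ u y x, (u, y, x) ∈ OK T U M K ↔ Tr T U M K u y x := by
    intro u y x; simp [OK]
  have h1 : 2 * Bs.card ≤ (OK T U M K).card := by
    apply Finset.mul_card_image_le_card
    intro w hw
    obtain ⟨y, x, t⟩ := (hB w).1 hw
    obtain ⟨y', x', t', hne⟩ := two_tr hT hM hK2 hK1 t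
    apply Finset.one_lt_card.2
    refine ⟨(w, y', x'), Finset.mem_filter.2 ⟨(hmem _ _ _).2 t', rfl⟩, (w, y, x),
      Finset.mem_filter.2 ⟨(hmem _ _ _).2 t, rfl⟩, fun h => hne (congrArg Prod.snd h)⟩
  have hP : ∀ p ∈ P1 T U K, p ∉ EE T ∧ p ∉ P0 T U ∧ ∃ u v x y, u ≠ v ∧ p = {u, v} ∧
      ap T {x, y} = p ∧ x ∈ U ∧ Tr T U M K u y x ∧ Tr T U M K v y x := by
    intro p hp
    obtain ⟨a1, a2, a3, x, hx, y, hy, hxy, hap⟩ := Finset.mem_filter.1 hp
    obtain ⟨a4, a5⟩ := Finset.mem_powersetCard.1 a1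
    obtain ⟨u, v, huv, rfl⟩ := Finset.card_eq_two.1 a5
    refine ⟨a2, a3, u, v, x, y, huv, rfl, hap, hx,
      ⟨a4 (by simp), hy, mem_ap_pair.1 (by rw [hap]; simp), Or.inl hx⟩,
      ⟨a4 (by simp), hy, mem_ap_pair.1 (by rw [hap]; simp), Or.inl hx⟩⟩
  have h2 : (P1 T U K).card * 2 ≤ (OK T U M K).card * 1 := by
    apply Finset.card_mul_le_card_mul (fun p (q : V × V × V) => ap T {q.2.2, q.2.1} = p)
    · intro p hp
      obtain ⟨-, -, u, v, x, y, huv, -, hap, -, t1, t2⟩ := hP p hp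
      apply Finset.one_lt_card.2
      refine ⟨(u, y, x), Finset.mem_filter.2 ⟨(hmem _ _ _).2 t1, hap⟩, (v, y, x),
        Finset.mem_filter.2 ⟨(hmem _ _ _).2 t2, hap⟩, fun h => huv (congrArg Prod.fst h)⟩
    · intro q _
      apply Finset.card_le_one.2
      intro a ha b hb
      exact (Finset.mem_filter.1 ha).2.symm.trans (Finset.mem_filter.1 hb).2
  by_cases h9 : 9 ≤ (OK T U M K).card
  · omega
  rcases (P1 T U K).eq_empty_or_nonempty with h0 | ⟨p, hp⟩
  · rw [h0]; simp; omega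
  obtain ⟨-, -, u, v, x, y, huv, -, -, hx, t1, t2⟩ := hP p hp
  have hux := (hT.ne t1.2.2.1).1
  have hvx := (hT.ne t2.2.2.1).1
  have huB := (hB u).2 ⟨_, _, t1⟩
  have hvB := (hB v).2 ⟨_, _, t2⟩
  have hxB := (hB x).2 ⟨y, u, hx, t1.2.1, t1.2.2.1.s12, Or.inl t1.1⟩
  have hgen : ∀ Q ⊆ Bs.powersetCard 2, (∀ p ∈ Q, p ∈ EE T ∨ p ∈ P0 T U) →
      (P1 T U K).card + Q.card ≤ Bs.card.choose 2 := by
    intro Q hQ hQ2
    rw [← Finset.card_powersetCard, ← Finset.card_union_of_disjoint]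
    · apply Finset.card_le_card
      apply Finset.union_subset _ hQ
      intro p hp
      obtain ⟨-, -, u, v, x, y, huv, rfl, -, -, t1, t2⟩ := hP p hp
      exact Finset.mem_powersetCard.2 ⟨Finset.insert_subset ((hB u).2 ⟨_, _, t1⟩)
        (Finset.singleton_subset_iff.2 ((hB v).2 ⟨_, _, t2⟩)), Finset.card_pair huv⟩
    · rw [Finset.disjoint_left]
      intro p hp hq
      obtain ⟨a, b, -⟩ := hP p hp
      exact (hQ2 p hq).elim a b
  have pm : ∀ a b, a ∈ Bs → b ∈ Bs → a ≠ b → ({a, b} : Finset V) ∈ Bs.powersetCard 2 :=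
    fun a b ha hb hab => Finset.mem_powersetCard.2 ⟨Finset.insert_subset ha
      (Finset.singleton_subset_iff.2 hb), Finset.card_pair hab⟩
  have hne1 : ({u, x} : Finset V) ≠ {v, x} := by
    intro e
    have : u ∈ ({v, x} : Finset V) := by rw [← e]; simp
    simp only [Finset.mem_insert, Finset.mem_singleton] at this
    tauto
  by_cases hb3 : Bs.card = 3
  · have := hgen {{u, x}, {v, x}} (by
      intro p hp
      simp only [Finset.mem_insert, Finset.mem_singleton] at hp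
      rcases hp with rfl | rfl
      · exact pm _ _ huB hxB hux
      · exact pm _ _ hvB hxB hvx) (by
      intro p hp
      simp only [Finset.mem_insert, Finset.mem_singleton] at hp
      rcases hp with rfl | rfl
      · exact Or.inl (hT.ed_EE t1.2.2.1.ed12)
      · exact Or.inl (hT.ed_EE t2.2.2.1.ed12))
    rw [Finset.card_pair hne1, hb3] at this
    norm_num at this
    omega
  · have hb4 : Bs.card = 4 := by omega
    have hlt : ({u, v, x} : Finset V).card < Bs.card := by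
      have := Finset.card_le_three (a := u) (b := v) (c := x); omega
    obtain ⟨z, hz, hzn⟩ := Finset.exists_mem_notMem_of_card_lt_card hlt
    obtain ⟨y', x', t3⟩ := (hB z).1 hz
    obtain ⟨w, w1, w2, w3⟩ := partner' hT hM t3
    simp only [Finset.mem_insert, Finset.mem_singleton, not_or] at hzn
    have hne2 : ({z, w} : Finset V) ≠ {u, x} := by
      intro e
      have : z ∈ ({u, x} : Finset V) := by rw [← e]; simp
      simp only [Finset.mem_insert, Finset.mem_singleton] at this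
      tauto
    have hne3 : ({z, w} : Finset V) ≠ {v, x} := by
      intro e
      have : z ∈ ({v, x} : Finset V) := by rw [← e]; simp
      simp only [Finset.mem_insert, Finset.mem_singleton] at this
      tauto
    have := hgen {{z, w}, {u, x}, {v, x}} (by
      intro p hp
      simp only [Finset.mem_insert, Finset.mem_singleton] at hp
      rcases hp with rfl | rfl | rfl
      · exact pm _ _ hz ((hB w).2 w2) w1.symm
      · exact pm _ _ huB hxB hux
      · exact pm _ _ hvB hxB hvx) (by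
      intro p hp
      simp only [Finset.mem_insert, Finset.mem_singleton] at hp
      rcases hp with rfl | rfl | rfl
      · exact w3
      · exact Or.inl (hT.ed_EE t1.2.2.1.ed12)
      · exact Or.inl (hT.ed_EE t2.2.2.1.ed12))
    rw [Finset.card_eq_three.2 ⟨_, _, _, hne2, hne3, hne1, rfl⟩, hb4] at this
    have e : Nat.choose 4 2 = 6 := by decide
    omega

end Pool.Agent.H1.Diag
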