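import Mathlib
import Pool.Agent.H1.DiagC

set_option linter.unusedSectionVars false

namespace Pool.Agent.H1.Diag
open Finset Classical

variable {V : Type*} [DecidableEq V] [Fintype V] {T : Finset (Finset V)}

def aa (T : Finset (Finset V)) (U : Finset V) (i : ℕ) : ℕ := (T.filter (fun t => (t ∩ U).card = i)).card

lemma sum_j (hT : Tri T) (U : Finset V) (g : ℕ → ℕ) :
    ∑ t ∈ T, g (t ∩ U).card = g 0 * aa T U 0 + g 1 * aa T U 1 + g 2 * aa T U 2 + g 3 * aa T U 3 := by
  rw [← Finset.sum_fiberwise_of_maps_to (g := fun t => (t ∩ U).card) (t := Finset.range 4)]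
  · have : ∀ i, ∑ t ∈ T.filter (fun t => (t ∩ U).card = i), g (t ∩ U).card = g i * aa T U i := by
      intro i
      rw [Finset.sum_congr rfl (fun t ht => by rw [(Finset.mem_filter.1 ht).2])]
      simp [aa, mul_comm]
    simp only [this, Finset.sum_range_succ, Finset.sum_range_zero, zero_add]
  · intro t ht
    have := Finset.card_le_card (Finset.inter_subset_left (s₁ := t) (s₂ := U))
    rw [hT.c3 t ht] at this
    exact Finset.mem_range.2 (by omega)

lemma mem_P1 {U : Finset V} {K : V → Prop} {p : Finset V} : p ∈ P1 T U K ↔ p ∈ U.powersetCard 2 ∧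
    p ∉ EE T ∧ p ∉ P0 T U ∧ ∃ x ∈ U, ∃ y, K y ∧ Ed T x y ∧ ap T {x, y} = p := by
  unfold P1; rw [Finset.mem_filter]

lemma mem_OK {U : Finset V} {M : Finset (Finset V)} {K : V → Prop} {q : V × V × V} :
    q ∈ OK T U M K ↔ Tr T U M K q.1 q.2.1 q.2.2 := by
  unfold OK; rw [Finset.mem_filter]; simp

lemma proper_bound (hT : Tri T) (U : Finset V) (hU : U.Nonempty) (hU2 : U ≠ Finset.univ)
    (hdeg : ∀ u ∈ U, 3 ≤ (U.filter (D T u)).card) :
    ∑ u ∈ U, (U.filter (D T u)).card + 1 + 12 * Fintype.card V ≤ 12 * U.card + 6 * T.card := by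
  obtain ⟨M, hM⟩ := exists_M T U
  set EU := (EE T).filter (fun e => e ⊆ U) with hEU
  set E0 := (EE T).filter (fun e => e ⊆ U ∧ ap T e ⊆ U) with hE0
  set EW := (EE T).filter (fun e => Disjoint e U) with hEW
  set E' := EW \ M with hE'
  set comp := (Gr E').connectedComponentMk with hcomp
  set Cs := Uᶜ.image comp with hCs
  set PD := (U.powersetCard 2).filter (fun p => p ∈ EE T ∨ ∃ e ∈ EE T, ap T e = p) with hPD
  have s1 : ∑ u ∈ U, (U.filter (D T u)).card ≤ 2 * PD.card := by
    have a1 : ∀ u ∈ U, (U.filter (D T u)).card ≤ (PD.filter (fun p => u ∈ p)).card := by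
      intro u hu
      apply Finset.card_le_card_of_injOn (fun v => ({u, v} : Finset V))
      · intro v hv
        obtain ⟨hv1, hne, hv2⟩ := Finset.mem_filter.1 (Finset.mem_coe.1 hv)
        refine Finset.mem_coe.2 (Finset.mem_filter.2 ⟨Finset.mem_filter.2
          ⟨Finset.mem_powersetCard.2 ⟨Finset.insert_subset hu (Finset.singleton_subset_iff.2 hv1),
            Finset.card_pair hne⟩, ?_⟩, Finset.mem_insert_self _ _⟩)
        rcases hv2 with h | ⟨e, he, h1, h2⟩
        · exact Or.inl h
        · exact Or.inr ⟨e, he, eq_pair_of_card_two (hT.card_ap he) h1 h2 hne⟩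
      · intro v hv w _ e
        have hne := (Finset.mem_filter.1 (Finset.mem_coe.1 hv)).2.1
        have e' : ({u, v} : Finset V) = {u, w} := e
        have : v ∈ ({u, w} : Finset V) := by rw [← e']; simp
        simp only [Finset.mem_insert, Finset.mem_singleton] at this
        exact this.resolve_left hne.symm
    refine (Finset.sum_le_sum a1).trans ?_
    have h := Finset.sum_card_bipartiteAbove_eq_sum_card_bipartiteBelow (s := U) (t := PD)
      (fun u p => u ∈ p)
    simp only [Finset.bipartiteAbove, Finset.bipartiteBelow] at h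
    rw [h, mul_comm, ← smul_eq_mul, ← Finset.sum_const]
    apply Finset.sum_le_sum
    intro p hp
    rw [← (Finset.mem_powersetCard.1 (Finset.mem_filter.1 hp).1).2]
    exact Finset.card_le_card (fun a ha => (Finset.mem_filter.1 ha).2)
  have s2 : PD.card ≤ EU.card + E0.card + (P0 T U).card +
      ∑ k ∈ Cs, (P1 T U (fun y => y ∉ U ∧ comp y = k)).card := by
    have : PD ⊆ EU ∪ E0.image (ap T) ∪ P0 T U ∪
        Cs.biUnion (fun k => P1 T U (fun y => y ∉ U ∧ comp y = k)) := by
      intro p hp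
      obtain ⟨h1, h2⟩ := Finset.mem_filter.1 hp
      have h3 := (Finset.mem_powersetCard.1 h1).1
      simp only [Finset.mem_union]
      by_cases he : p ∈ EE T
      · exact Or.inl (Or.inl (Or.inl (Finset.mem_filter.2 ⟨he, h3⟩)))
      by_cases hp0 : p ∈ P0 T U
      · exact Or.inl (Or.inr hp0)
      obtain ⟨e, heE, rfl⟩ := h2.resolve_left he
      obtain ⟨x, y, rfl, hxy⟩ := hT.EE_pair heE
      by_cases hx : x ∈ U <;> by_cases hy : y ∈ U
      · exact Or.inl (Or.inl (Or.inr (Finset.mem_image_of_mem _ (Finset.mem_filter.2 ⟨heE,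
          Finset.insert_subset hx (Finset.singleton_subset_iff.2 hy), h3⟩))))
      · refine Or.inr (Finset.mem_biUnion.2 ⟨comp y, Finset.mem_image_of_mem comp
          (Finset.mem_compl.2 hy), ?_⟩)
        rw [mem_P1]
        exact ⟨h1, he, hp0, x, hx, y, ⟨hy, rfl⟩, hxy, rfl⟩
      · refine Or.inr (Finset.mem_biUnion.2 ⟨comp x, Finset.mem_image_of_mem comp
          (Finset.mem_compl.2 hx), ?_⟩)
        rw [mem_P1]
        exact ⟨h1, he, hp0, y, hy, x, ⟨hx, rfl⟩, hxy.symm, by rw [Finset.pair_comm]⟩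
      · refine (hp0 (Finset.mem_filter.2 ⟨h1, he, _, heE, ?_, rfl⟩)).elim
        rw [Finset.disjoint_insert_left, Finset.disjoint_singleton_left]
        exact ⟨hx, hy⟩
    have b1 := Finset.card_le_card this
    have b2 := Finset.card_union_le (EU ∪ E0.image (ap T) ∪ P0 T U)
      (Cs.biUnion (fun k => P1 T U (fun y => y ∉ U ∧ comp y = k)))
    have b3 := Finset.card_union_le (EU ∪ E0.image (ap T)) (P0 T U)
    have b4 := Finset.card_union_le EU (E0.image (ap T))
    have b5 : (E0.image (ap T)).card ≤ E0.card := Finset.card_image_le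
    have b6 := Finset.card_biUnion_le (s := Cs) (t := fun k => P1 T U (fun y => y ∉ U ∧ comp y = k))
    omega
  have s3 : 4 * ∑ k ∈ Cs, (P1 T U (fun y => y ∉ U ∧ comp y = k)).card + 26 * Cs.card ≤
      5 * (OK T U M (fun y => y ∉ U)).card := by
    have c1 : (OK T U M (fun y => y ∉ U)).card =
        ∑ k ∈ Cs, (OK T U M (fun y => y ∉ U ∧ comp y = k)).card := by
      rw [Finset.card_eq_sum_card_fiberwise (f := fun q : V × V × V => comp q.2.1) (t := Cs)]
      · apply Finset.sum_congr rfl
        intro k _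
        congr 1
        ext q
        rw [Finset.mem_filter, mem_OK, mem_OK]
        unfold Tr
        tauto
      · intro q hq
        exact Finset.mem_coe.2 (Finset.mem_image_of_mem _
          (Finset.mem_compl.2 (Finset.mem_filter.1 (Finset.mem_coe.1 hq)).2.2.1))
    rw [c1, Finset.mul_sum, Finset.mul_sum, mul_comm 26, ← smul_eq_mul, ← Finset.sum_const,
      ← Finset.sum_add_distrib]
    apply Finset.sum_le_sum
    intro k hk
    obtain ⟨y0, hy0, rfl⟩ := Finset.mem_image.1 hk
    refine comp_bound hT hM (fun y h => h.1) ?_ ⟨y0, Finset.mem_compl.1 hy0, rfl⟩ hU hdeg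
    rintro x y ⟨hy, hc⟩ hx hxy hm
    refine ⟨hx, Eq.trans ?_ hc⟩
    apply SimpleGraph.ConnectedComponent.sound
    apply SimpleGraph.Adj.reachable
    refine (Gr_adj _ _ _).2 ⟨hT.ed_ne hxy, Finset.mem_sdiff.2 ⟨Finset.mem_filter.2
      ⟨hT.ed_EE hxy, ?_⟩, hm⟩⟩
    rw [Finset.disjoint_insert_left, Finset.disjoint_singleton_left]
    exact ⟨hx, hy⟩
  have s4 : (OK T U M (fun y => y ∉ U)).card ≤ 2 * aa T U 2 + 4 * M.card := by
    set O := OK T U M (fun y => y ∉ U) with hO
    have d0 := Finset.card_filter_add_card_filter_not (s := O) (fun q => q.2.2 ∈ U)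
    have hm : ∀ q ∈ O, Tr T U M (fun y => y ∉ U) q.1 q.2.1 q.2.2 :=
      fun q hq => (Finset.mem_filter.1 hq).2
    have int2 : ∀ u y x, u ∈ U → y ∉ U → x ∈ U → ({u, x, y} : Finset V) ∩ U = {u, x} := by
      intro u y x hu hy hx
      ext a
      simp only [Finset.mem_inter, Finset.mem_insert, Finset.mem_singleton]
      constructor
      · rintro ⟨rfl | rfl | rfl, h⟩
        · exact Or.inl rfl
        · exact Or.inr rfl
        · exact absurd h hy
      · rintro (rfl | rfl)
        · exact ⟨Or.inl rfl, hu⟩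
        · exact ⟨Or.inr (Or.inl rfl), hx⟩
    have d1 : (O.filter (fun q => q.2.2 ∈ U)).card ≤ 2 * aa T U 2 := by
      apply Finset.card_le_mul_card_image_of_maps_to
        (f := fun q : V × V × V => ({q.1, q.2.2, q.2.1} : Finset V))
      · intro q hq
        obtain ⟨h1, h2⟩ := Finset.mem_filter.1 hq
        have t := hm q h1
        refine Finset.mem_filter.2 ⟨t.2.2.1, ?_⟩
        rw [int2 _ _ _ t.1 t.2.1 h2, Finset.card_pair (hT.ne t.2.2.1).1]
      · intro t ht
        rw [← (Finset.mem_filter.1 ht).2]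
        apply Finset.card_le_card_of_injOn (fun q => q.1)
        · intro q hq
          obtain ⟨h1, rfl⟩ := Finset.mem_filter.1 (Finset.mem_coe.1 hq)
          exact Finset.mem_coe.2 (Finset.mem_inter.2 ⟨by simp, (hm q (Finset.mem_filter.1 h1).1).1⟩)
        · rintro ⟨u, y, x⟩ hq ⟨u', y', x'⟩ hq' e
          obtain ⟨h1, h2⟩ := Finset.mem_filter.1 (Finset.mem_coe.1 hq)
          obtain ⟨h3, h4⟩ := Finset.mem_filter.1 (Finset.mem_coe.1 hq')
          obtain ⟨h5, h6⟩ := Finset.mem_filter.1 h1
          obtain ⟨h7, h8⟩ := Finset.mem_filter.1 h3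
          have t1 := hm _ h5
          have t2 := hm _ h7
          simp only at e h2 h4 h6 h8 t1 t2
          subst e
          have e1 : x ∈ ({u, x', y'} : Finset V) := by rw [h4, ← h2]; simp
          have e2 : y ∈ ({u, x', y'} : Finset V) := by rw [h4, ← h2]; simp
          simp only [Finset.mem_insert, Finset.mem_singleton] at e1 e2
          have f1 : x = x' := by
            rcases e1 with h | h | h
            · exact absurd h.symm (hT.ne t1.2.2.1).1
            · exact h
            · exact absurd (h ▸ h6) t2.2.1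
          have f2 : y = y' := by
            rcases e2 with h | h | h
            · exact absurd (h ▸ t1.1) t1.2.1
            · exact absurd (h ▸ h8) t1.2.1
            · exact h
          rw [f1, f2]
    have d2 : (O.filter (fun q => ¬ q.2.2 ∈ U)).card ≤ 4 * M.card := by
      apply Finset.card_le_mul_card_image_of_maps_to
        (f := fun q : V × V × V => ({q.2.2, q.2.1} : Finset V))
      · intro q hq
        obtain ⟨h1, h2⟩ := Finset.mem_filter.1 hq
        exact (hm q h1).2.2.2.resolve_left h2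
      · intro e he
        have e1 := (hM.mem e he).1
        have e2 : ((ap T e) ×ˢ e).card = 4 := by
          rw [Finset.card_product, hT.card_ap e1, (mem_EE.1 e1).1]
        rw [← e2]
        apply Finset.card_le_card_of_injOn (fun q => (q.1, q.2.1))
        · intro q hq
          obtain ⟨h1, rfl⟩ := Finset.mem_filter.1 (Finset.mem_coe.1 hq)
          exact Finset.mem_coe.2 (Finset.mem_product.2
            ⟨mem_ap_pair.2 (hm q (Finset.mem_filter.1 h1).1).2.2.1, by simp⟩)
        · rintro ⟨u, y, x⟩ hq ⟨u', y', x'⟩ hq' e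
          obtain ⟨h1, h2⟩ := Finset.mem_filter.1 (Finset.mem_coe.1 hq)
          obtain ⟨h3, h4⟩ := Finset.mem_filter.1 (Finset.mem_coe.1 hq')
          have t1 := hm _ (Finset.mem_filter.1 h1).1
          simp only [Prod.mk.injEq] at e h2 h4 t1
          obtain ⟨rfl, rfl⟩ := e
          have e1 : x ∈ ({x', y} : Finset V) := by rw [h4, ← h2]; simp
          simp only [Finset.mem_insert, Finset.mem_singleton] at e1
          rw [e1.resolve_right (hT.ne t1.2.2.1).2.2]
    omega
  have s5 : (P0 T U).card ≤ M.card := by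
    apply Finset.card_le_card_of_surjOn (ap T)
    intro p hp
    obtain ⟨e, he, h⟩ := hM.surj p (Finset.mem_coe.1 hp)
    exact ⟨e, Finset.mem_coe.2 he, h⟩
  have s6 : E'.card + M.card = EW.card :=
    Finset.card_sdiff_add_card_eq_card (fun e he => Finset.mem_filter.2
      ⟨(hM.mem e he).1, (hM.mem e he).2.1⟩)
  have s7 : Uᶜ.card + aa T U 0 ≤ E'.card + Cs.card := by
    have hdis : ∀ t ∈ T.filter (fun t => (t ∩ U).card = 0), ∀ a ∈ t, a ∉ U := by
      intro t ht a ha hau
      have := Finset.card_eq_zero.1 (Finset.mem_filter.1 ht).2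
      exact Finset.notMem_empty a (this ▸ Finset.mem_inter.2 ⟨ha, hau⟩)
    have := collapse Uᶜ (T.filter (fun t => (t ∩ U).card = 0)) E'
      (fun t ht => hT.c3 t (Finset.mem_filter.1 ht).1)
      (fun t ht e he h2 => by
        have ht1 := (Finset.mem_filter.1 ht).1
        refine Finset.mem_sdiff.2 ⟨Finset.mem_filter.2 ⟨mem_EE.2 ⟨h2, t, ht1, he⟩,
          Finset.disjoint_left.2 (fun a ha => hdis t ht a (he ha))⟩, fun hm => ?_⟩
        obtain ⟨z, -, rfl⟩ := hT.eq_insert ht1 he h2
        exact hdis _ ht z (by simp) ((P0_sub (hM.mem e hm).2.2).1 (mem_ap.2 ht1)))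
      (fun S' hS' hne => by
        obtain ⟨u, hu⟩ := hU
        exact hT.free u S' (hS'.trans (Finset.filter_subset _ _))
          (fun t ht h => hdis t (hS' ht) u h hu) hne)
    exact this
  have s8 : 2 * EU.card ≤ 3 * aa T U 3 + aa T U 2 := by
    rw [hT.dcount EU (Finset.filter_subset _ _)]
    have := sum_j hT U (fun j => j.choose 2)
    norm_num at this
    rw [add_comm, ← this]
    apply Finset.sum_le_sum
    intro t _
    rw [← Finset.card_powersetCard]
    apply Finset.card_le_card
    intro e he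
    obtain ⟨h1, h2⟩ := Finset.mem_filter.1 he
    obtain ⟨h3, h4⟩ := Finset.mem_filter.1 h1
    exact Finset.mem_powersetCard.2 ⟨Finset.subset_inter h2 h4, (mem_EE.1 h3).1⟩
  have s9 : 2 * E0.card ≤ 3 * aa T U 3 := by
    rw [hT.dcount E0 (Finset.filter_subset _ _)]
    have := sum_j hT U (fun j => if j = 3 then 3 else 0)
    norm_num [-Finset.sum_ite_eq, -Finset.sum_boole, -Finset.sum_ite_irrel] at this
    rw [← this]
    apply Finset.sum_le_sum
    intro t ht
    rcases (E0.filter (fun e => e ⊆ t)).eq_empty_or_nonempty with h0 | ⟨e, he⟩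
    · rw [h0]; simp
    obtain ⟨h1, h2⟩ := Finset.mem_filter.1 he
    obtain ⟨h3, h4, h5⟩ := Finset.mem_filter.1 h1
    obtain ⟨z, -, hz⟩ := hT.eq_insert ht h2 (mem_EE.1 h3).1
    have htU : t ⊆ U := by
      rw [hz]; exact Finset.insert_subset (h5 (mem_ap.2 (hz ▸ ht))) h4
    rw [Finset.inter_eq_left.2 htU, if_pos (hT.c3 t ht)]
    have : (t.powersetCard 2).card = 3 := by rw [Finset.card_powersetCard, hT.c3 t ht]; rfl
    rw [← this]
    apply Finset.card_le_card
    intro e he
    obtain ⟨h1, h2⟩ := Finset.mem_filter.1 he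
    exact Finset.mem_powersetCard.2 ⟨h2, (mem_EE.1 (Finset.mem_filter.1 h1).1).1⟩
  have s10 : 2 * EW.card ≤ 3 * aa T U 0 + aa T U 1 := by
    rw [hT.dcount EW (Finset.filter_subset _ _)]
    have := sum_j hT U (fun j => (3 - j).choose 2)
    norm_num at this
    rw [← this]
    apply Finset.sum_le_sum
    intro t ht
    have e1 := Finset.card_sdiff_add_card_inter t U
    rw [hT.c3 t ht] at e1
    rw [show 3 - (t ∩ U).card = (t \ U).card by omega, ← Finset.card_powersetCard]
    apply Finset.card_le_card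
    intro e he
    obtain ⟨h1, h2⟩ := Finset.mem_filter.1 he
    obtain ⟨h3, h4⟩ := Finset.mem_filter.1 h1
    exact Finset.mem_powersetCard.2 ⟨Finset.subset_sdiff.2 ⟨h2, h4⟩, (mem_EE.1 h3).1⟩
  have s11 : T.card = aa T U 0 + aa T U 1 + aa T U 2 + aa T U 3 := by
    have := sum_j hT U (fun _ => 1)
    simpa using this
  have s12 : Uᶜ.card + U.card = Fintype.card V := Finset.card_compl_add_card U
  have s13 : 1 ≤ Cs.card := by
    apply Finset.card_pos.2
    apply Finset.Nonempty.image
    rw [Finset.nonempty_iff_ne_empty]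
    intro h
    exact hU2 ((Finset.compl_eq_empty_iff U).1 h)
  omega

lemma deg_le (hT : Tri T) (v : V) :
    (Finset.univ.filter (D T v)).card ≤ 2 * (T.filter (fun t => v ∈ t)).card := by
  set N1 := Finset.univ.filter (fun x => Ed T v x) with hN1
  set N2 := Finset.univ.filter (fun w => w ≠ v ∧ ∃ e ∈ EE T, v ∈ ap T e ∧ w ∈ ap T e) with hN2
  have h0 : Finset.univ.filter (D T v) ⊆ N1 ∪ N2 := by
    intro w hw
    obtain ⟨hne, h | h⟩ := (Finset.mem_filter.1 hw).2
    · exact Finset.mem_union_left _ (Finset.mem_filter.2 ⟨Finset.mem_univ _, hT.EE_ed h⟩)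
    · exact Finset.mem_union_right _ (Finset.mem_filter.2 ⟨Finset.mem_univ _, hne.symm, h⟩)
  have h1 : N1.card * 2 ≤ (T.filter (fun t => v ∈ t)).card * 2 := by
    apply Finset.card_mul_le_card_mul (fun x (t : Finset V) => x ∈ t)
    · intro x hx
      have hx' := (Finset.mem_filter.1 hx).2
      obtain ⟨h2, t, ht, hs⟩ := mem_EE.1 (hT.ed_EE hx')
      rw [← hT.two t ht _ hs h2]
      apply Finset.card_le_card
      intro s hs
      obtain ⟨h3, h4⟩ := Finset.mem_filter.1 hs
      exact Finset.mem_filter.2 ⟨Finset.mem_filter.2 ⟨h3, h4 (by simp)⟩, h4 (by simp)⟩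
    · intro t ht
      obtain ⟨h3, h4⟩ := Finset.mem_filter.1 ht
      have : (t.erase v).card = 2 := by rw [Finset.card_erase_of_mem h4, hT.c3 t h3]
      rw [← this]
      apply Finset.card_le_card
      intro x hx
      obtain ⟨h5, h6⟩ := Finset.mem_filter.1 hx
      exact Finset.mem_erase.2 ⟨(hT.ed_ne (Finset.mem_filter.1 h5).2).symm, h6⟩
  have h2 : N2.card * 1 ≤ (T.filter (fun t => v ∈ t)).card * 1 := by
    apply Finset.card_mul_le_card_mul (fun w (t : Finset V) => w ∈ ap T (t.erase v))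
    · intro w hw
      obtain ⟨-, e, he, a1, a2⟩ := (Finset.mem_filter.1 hw).2
      apply Finset.card_pos.2
      refine ⟨insert v e, Finset.mem_filter.2 ⟨Finset.mem_filter.2 ⟨mem_ap.1 a1, by simp⟩, ?_⟩⟩
      show w ∈ ap T ((insert v e).erase v)
      rw [Finset.erase_insert (hT.not_mem_of_ap (mem_EE.1 he).1 a1)]
      exact a2
    · intro t ht
      obtain ⟨h3, h4⟩ := Finset.mem_filter.1 ht
      have c2 : (t.erase v).card = 2 := by rw [Finset.card_erase_of_mem h4, hT.c3 t h3]
      have hE : t.erase v ∈ EE T := mem_EE.2 ⟨c2, t, h3, Finset.erase_subset _ _⟩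
      have hv : v ∈ ap T (t.erase v) := mem_ap.2 (by rw [Finset.insert_erase h4]; exact h3)
      have : ((ap T (t.erase v)).erase v).card = 1 := by
        rw [Finset.card_erase_of_mem hv, hT.card_ap hE]
      rw [← this]
      apply Finset.card_le_card
      intro x hx
      obtain ⟨h5, h6⟩ := Finset.mem_filter.1 hx
      exact Finset.mem_erase.2 ⟨(Finset.mem_filter.1 h5).2.1, h6⟩
  have := Finset.card_le_card h0
  have := Finset.card_union_le N1 N2
  omega

lemma low_degree (hT : Tri T) (hχ : T.card = 2 * Fintype.card V + 8) (U : Finset V)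
    (hU : U.Nonempty) : ∃ u ∈ U, (U.filter (D T u)).card < 15 := by
  by_contra hcon
  push Not at hcon
  have h16 : 16 ≤ U.card := by
    obtain ⟨u, hu⟩ := hU
    have : U.filter (D T u) ⊆ U.erase u := fun w hw =>
      Finset.mem_erase.2 ⟨(Finset.mem_filter.1 hw).2.1.symm, (Finset.mem_filter.1 hw).1⟩
    have h1 := Finset.card_le_card this
    rw [Finset.card_erase_of_mem hu] at h1
    have := hcon u hu
    omega
  by_cases hU2 : U = Finset.univ
  · subst hU2
    have h1 : ∀ v ∈ (Finset.univ : Finset V), 8 ≤ (T.filter (fun t => v ∈ t)).card := by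
      intro v hv
      have := hcon v hv
      have := deg_le hT v
      omega
    have h2 := Finset.sum_le_sum h1
    have h := Finset.sum_card_bipartiteAbove_eq_sum_card_bipartiteBelow
      (s := (Finset.univ : Finset V)) (t := T) (fun u p => u ∈ p)
    simp only [Finset.bipartiteAbove, Finset.bipartiteBelow] at h
    rw [h] at h2
    have h3 : ∑ t ∈ T, (Finset.univ.filter (fun a => a ∈ t)).card = ∑ t ∈ T, 3 := by
      apply Finset.sum_congr rfl
      intro t ht
      rw [← hT.c3 t ht]; congr 1; ext a; simp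
    rw [h3] at h2
    simp only [Finset.sum_const, smul_eq_mul, Finset.card_univ] at h2 h16
    omega
  · have h1 := proper_bound hT U hU hU2 (fun u hu => le_trans (by norm_num) (hcon u hu))
    have h2 := Finset.sum_le_sum hcon
    simp only [Finset.sum_const, smul_eq_mul] at h2
    omega

theorem colour15 (hT : Tri T) (hχ : T.card = 2 * Fintype.card V + 8) :
    ∃ c : V → Fin 15, ∀ t₁ ∈ T, ∀ t₂ ∈ T, (t₁ ∩ t₂).card = 2 →
      Set.InjOn c (↑(t₁ ∪ t₂) : Set V) := by
  obtain ⟨c, hc⟩ := degen_colour (D T) (by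
      rintro u v ⟨h1, h2 | ⟨e, he, h2, h3⟩⟩
      · exact ⟨h1.symm, Or.inl (by rw [Finset.pair_comm]; exact h2)⟩
      · exact ⟨h1.symm, Or.inr ⟨e, he, h3, h2⟩⟩) (fun u h => h.1 rfl) 15 (by norm_num)
    (low_degree hT hχ) Finset.univ
  refine ⟨c, fun t₁ h1 t₂ h2 hc2 u hu v hv e => ?_⟩
  by_contra hne
  refine hc u (Finset.mem_univ _) v (Finset.mem_univ _) ⟨hne, ?_⟩ e
  have hE : t₁ ∩ t₂ ∈ EE T := mem_EE.2 ⟨hc2, t₁, h1, Finset.inter_subset_left⟩
  have key : ∀ t ∈ T, t₁ ∩ t₂ ⊆ t → ∀ w ∈ t, w ∉ t₁ ∩ t₂ → w ∈ ap T (t₁ ∩ t₂) := by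
    intro t ht hs w hw hw2
    obtain ⟨z, -, hz⟩ := hT.eq_insert ht hs hc2
    have : w = z := by
      rw [hz] at hw
      exact (Finset.mem_insert.1 hw).resolve_right hw2
    rw [this]; exact mem_ap.2 (hz ▸ ht)
  have hu' := Finset.mem_union.1 (Finset.mem_coe.1 hu)
  have hv' := Finset.mem_union.1 (Finset.mem_coe.1 hv)
  by_cases a1 : u ∈ t₁ ∧ v ∈ t₁
  · exact Or.inl (hT.ed_EE (hT.ed_of_mem h1 a1.1 a1.2 hne))
  by_cases a2 : u ∈ t₂ ∧ v ∈ t₂
  · exact Or.inl (hT.ed_EE (hT.ed_of_mem h2 a2.1 a2.2 hne))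
  right
  refine ⟨_, hE, ?_, ?_⟩
  · have : u ∉ t₁ ∩ t₂ := by rw [Finset.mem_inter]; tauto
    rcases hu' with h | h
    · exact key t₁ h1 Finset.inter_subset_left u h this
    · exact key t₂ h2 Finset.inter_subset_right u h this
  · have : v ∉ t₁ ∩ t₂ := by rw [Finset.mem_inter]; tauto
    rcases hv' with h | h
    · exact key t₁ h1 Finset.inter_subset_left v h this
    · exact key t₂ h2 Finset.inter_subset_right v h this

end Pool.Agent.H1.Diag
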