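import Mathlib

namespace Pool.Agent.H1.Eta

open Set Cardinal Function

variable {α L W C : Type}

def Cof (r : α → α → Prop) (A : Set α) : Prop :=
  ∀ B ⊆ A, ∃ B' ⊆ B, #B' ≤ 𝔠 ∧ ∀ x ∈ B, ∃ y ∈ B', r x y

lemma cu {ι : Type} (h : #ι ≤ 𝔠) {A : ι → Set α} (a : ∀ i, #(A i) ≤ 𝔠) : #(⋃ i, A i) ≤ 𝔠 :=
  (mk_iUnion_le _).trans ((mul_le_mul' h (ciSup_le' a)).trans continuum_mul_self.le)

lemma c2 {A B : Set α} (a : #A ≤ 𝔠) (b : #B ≤ 𝔠) : #(A ∪ B : Set α) ≤ 𝔠 :=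
  (mk_union_le _ _).trans ((add_le_add a b).trans continuum_add_self.le)

lemma c1 (x : α) : #({x} : Set α) ≤ 𝔠 := by
  rw [mk_singleton]; exact one_le_aleph0.trans aleph0_le_continuum

lemma Cof.iU {ι : Type} {r} (h : #ι ≤ 𝔠) {A : ι → Set α} (a : ∀ i, Cof r (A i)) :
    Cof r (⋃ i, A i) := fun B hB => by
  choose D d1 d2 d3 using fun i => a i (B ∩ A i) inter_subset_right
  refine ⟨⋃ i, D i, iUnion_subset fun i => (d1 i).trans inter_subset_left, cu h d2, fun x e => ?_⟩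
  obtain ⟨i, hi⟩ := mem_iUnion.1 (hB e)
  obtain ⟨y, a, b⟩ := d3 i x ⟨e, hi⟩
  exact ⟨y, mem_iUnion.2 ⟨i, a⟩, b⟩

lemma Cof.u {r} {A B : Set α} (a : Cof r A) (b : Cof r B) : Cof r (A ∪ B) := by
  rw [union_eq_iUnion]
  exact .iU (mk_le_aleph0.trans aleph0_le_continuum) (by rintro (_ | _) <;> assumption)

lemma Cof.img {β : Type} {r s} {A : Set α} {g : α → β} (h : ∀ x y, r x y → s (g x) (g y))
    (a : Cof r A) : Cof s (g '' A) := fun B hB => by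
  obtain ⟨D, d1, d2, d3⟩ := a (g ⁻¹' B ∩ A) inter_subset_right
  refine ⟨g '' D, image_subset_iff.2 (d1.trans inter_subset_left), mk_image_le.trans d2,
    fun x e => ?_⟩
  obtain ⟨y, a, rfl⟩ := hB e
  obtain ⟨z, b, c⟩ := d3 y ⟨e, a⟩
  exact ⟨_, ⟨z, b, rfl⟩, h _ _ c⟩

variable [LinearOrder L]

def Sat (L : Type) [LinearOrder L] : Prop :=
  ∀ A B : Set L, #A ≤ 𝔠 → #B ≤ 𝔠 → (∀ a ∈ A, ∀ b ∈ B, a < b) →
    ∃ x, (∀ a ∈ A, a < x) ∧ ∀ b ∈ B, x < b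

lemma iv (S : Sat L) (c : L → C) (hC : #C ≤ 𝔠) : ∃ p q : L, p < q ∧
    ∀ x y, p < x → x < y → y < q → ∀ z ∈ Ioo p q, ∃ w ∈ Ioo x y, c w = c z := by
  have two : ∀ A B : Set L, #A ≤ 𝔠 → #B ≤ 𝔠 → (∀ a ∈ A, ∀ b ∈ B, a < b) →
      ∃ x y, x < y ∧ (∀ a ∈ A, a < x) ∧ ∀ b ∈ B, y < b := fun A B a b h => by
    obtain ⟨x, d, e⟩ := S A B a b h
    obtain ⟨y, f, g⟩ := S {x} B (c1 _) b (by simpa)
    exact ⟨x, y, f x rfl, d, g⟩
  obtain ⟨⟨⟨p, q⟩, pq⟩, m⟩ := exists_maximal_of_chains_bounded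
    (r := fun I J : {p : L × L // p.1 < p.2} => I = J ∨ I.1.1 ≤ J.1.1 ∧ J.1.2 ≤ I.1.2 ∧
      c '' Ioo J.1.1 J.1.2 ⊂ c '' Ioo I.1.1 I.1.2) (fun K hK => by
      by_cases e : ∃ J ∈ K, ∀ I ∈ K, I = J ∨ I.1.1 ≤ J.1.1 ∧ J.1.2 ≤ I.1.2 ∧
        c '' Ioo J.1.1 J.1.2 ⊂ c '' Ioo I.1.1 I.1.2
      · exact e.imp fun _ e => e.2
      choose f f1 f2 using fun t : {t : C // ∃ J ∈ K, t ∉ c '' Ioo J.1.1 J.1.2} => t.2
      have k : ∀ g : _ → L, #(range fun t => g (f t)) ≤ 𝔠 := fun g =>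
        mk_range_le.trans ((mk_subtype_le _).trans hC)
      obtain ⟨x, y, xy, a, b⟩ := two _ _ (k (·.1.1)) (k (·.1.2)) (by
        rintro _ ⟨s, rfl⟩ _ ⟨t, rfl⟩
        have := (f s).2
        have := (f t).2
        by_cases e : f s = f t
        · grind
        · have := hK (f1 s) (f1 t) e
          grind)
      refine ⟨⟨(x, y), xy⟩, fun I hI => .inr ?_⟩
      push Not at e
      obtain ⟨J, hJ, n, e⟩ := e I hI
      obtain ⟨t, t1, t2⟩ := exists_of_ssubset (((hK hJ hI n).resolve_left (by grind)).resolve_left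
        n.symm).2.2
      have a := fun s => a _ ⟨s, rfl⟩
      have b := fun s => b _ ⟨s, rfl⟩
      set s : {t : C // ∃ J ∈ K, t ∉ c '' Ioo J.1.1 J.1.2} := ⟨t, J, hJ, t2⟩
      have n : I ≠ f s := fun e => f2 s (e ▸ t1)
      obtain ⟨u, v, w⟩ := ((hK hI (f1 s) n).resolve_right
        (·.elim n.symm fun e => f2 s (e.2.2.1 t1))).resolve_left n
      exact ⟨u.trans (a s).le, (b s).le.trans v,
        (image_mono (Ioo_subset_Ioo (a s).le (b s).le)).trans_ssubset w⟩) (by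
      rintro _ _ _ (rfl | a) (rfl | b)
      exacts [.inl rfl, .inr b, .inr a, .inr ⟨a.1.trans b.1, b.2.1.trans a.2.1, b.2.2.trans a.2.2⟩])
  refine ⟨p, q, pq, fun x y a b d z e => by_contra fun n => ?_⟩
  have k : c '' Ioo x y ⊂ c '' Ioo p q :=
    ⟨image_mono (Ioo_subset_Ioo a.le d.le), fun s => n (s ⟨z, e, rfl⟩)⟩
  obtain e | e := m ⟨(x, y), b⟩ (.inr ⟨a.le, d.le, k⟩)
  · exact a.ne' (congrArg (·.1.1) e)
  · exact k.asymm e.2.2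

variable [LinearOrder W] [WellFoundedLT W]

lemma lv (hW : ∀ b : W, #(Iio b) ≤ 𝔠) (lev : L → W)
    (sep : ∀ x y, x < y → lev x = lev y → ∃ z, x < z ∧ z < y ∧ lev z < lev x) (β : W) :
    Cof (· ≤ ·) {x | lev x = β} := by
  induction β using WellFoundedLT.induction with | _ β ih
  intro B hB
  by_cases e : ∃ m ∈ B, ∀ x ∈ B, x ≤ m
  · obtain ⟨m, a, b⟩ := e
    exact ⟨{m}, by simpa, c1 _, by simpa⟩
  push Not at e
  obtain ⟨Z, z1, z2, z3⟩ := Cof.iU (hW β) (fun γ => ih γ γ.2) {z | lev z < β ∧ ∃ a ∈ B, z < a}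
    fun z e => mem_iUnion.2 ⟨⟨_, e.1⟩, rfl⟩
  choose f f1 f2 using fun z : Z => (z1 z.2).2
  refine ⟨range f, range_subset_iff.2 f1, mk_range_le.trans z2, fun x a => ?_⟩
  obtain ⟨y, b, d⟩ := e x a
  obtain ⟨z, g, h, i⟩ := sep x y d ((hB a).trans (hB b).symm)
  obtain ⟨w, j, k⟩ := z3 z ⟨hB a ▸ i, y, b, h⟩
  exact ⟨_, ⟨⟨w, j⟩, rfl⟩, (g.trans (k.trans_lt (f2 ⟨w, j⟩))).le⟩

def Good (c : L → C) (F : Set (L × L)) : Prop :=
  (∀ p ∈ F, ∀ q ∈ F, p.1 < q.1 ↔ p.2 < q.2) ∧ (∀ p ∈ F, c p.1 = c p.2) ∧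
    Cof (fun p q => p.1 ≤ q.1) F ∧ Cof (fun p q => q.1 ≤ p.1) F

lemma Good.swap {c : L → C} {F} (h : Good c F) : Good c (Prod.swap ⁻¹' F) := by
  have : ∀ r s, (∀ p ∈ F, ∀ q ∈ F, r p q → s p.swap q.swap) → Cof r F →
      Cof s (Prod.swap ⁻¹' F) := fun r s a b B hB => by
    obtain ⟨D, d1, d2, d3⟩ := b (Prod.swap ⁻¹' B) fun p e => hB e
    refine ⟨Prod.swap '' D, image_subset_iff.2 d1, mk_image_le.trans d2, fun x e => ?_⟩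
    obtain ⟨y, f, g⟩ := d3 x.swap e
    exact ⟨_, ⟨y, f, rfl⟩, a _ (hB e) _ (hB (d1 f)) g⟩
  exact ⟨fun p a q b => (h.1 _ a _ b).symm, fun p a => (h.2.1 _ a).symm,
    this _ _ (fun p a q b e => not_lt.1 (mt (h.1 _ b _ a).2 e.not_gt)) h.2.2.1,
    this _ _ (fun p a q b e => not_lt.1 (mt (h.1 _ a _ b).2 e.not_gt)) h.2.2.2⟩

variable (S : Sat L) (hW : ∀ b : W, #(Iio b) ≤ 𝔠) (lev : L → W)
  (sep : ∀ x y, x < y → lev x = lev y → ∃ z, x < z ∧ z < y ∧ lev z < lev x) (c : L → C)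
  (D : ∀ x y, x < y → ∀ z, ∃ w ∈ Ioo x y, c w = c z)
include S hW sep D

lemma step {F} (h : Good c F) {β} (a : ∀ x, lev x < β → ∃ y, (x, y) ∈ F) :
    ∃ F' ⊇ F, Good c F' ∧ ∀ x, lev x ≤ β → ∃ y, (x, y) ∈ F' := by
  have : ∀ x, ∃ y, c x = c y ∧ ∀ p ∈ F, (p.1 < x → p.2 < y) ∧ (x < p.1 → y < p.2) := fun x => by
    obtain ⟨A, a1, a2, a3⟩ := h.2.2.1 {p ∈ F | p.1 < x} (sep_subset _ _)
    obtain ⟨B, b1, b2, b3⟩ := h.2.2.2 {p ∈ F | x < p.1} (sep_subset _ _)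
    obtain ⟨y, d, e⟩ := S (Prod.snd '' A) (Prod.snd '' B) (mk_image_le.trans a2)
      (mk_image_le.trans b2) (by
        rintro _ ⟨p, e, rfl⟩ _ ⟨q, f, rfl⟩
        exact (h.1 _ (a1 e).1 _ (b1 f).1).1 ((a1 e).2.trans (b1 f).2))
    obtain ⟨z, f, g⟩ := S {y} (Prod.snd '' B) (c1 _) (mk_image_le.trans b2) fun _ h => h ▸ e
    obtain ⟨w, i, j⟩ := D y z (f y rfl) x
    refine ⟨w, j.symm, fun p hp => ⟨fun k => ?_, fun k => ?_⟩⟩
    · obtain ⟨q, l, m⟩ := a3 p ⟨hp, k⟩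
      exact (not_lt.1 (mt (h.1 _ (a1 l).1 _ hp).2 m.not_gt)).trans_lt
        ((d _ ⟨q, l, rfl⟩).trans i.1)
    · obtain ⟨q, l, m⟩ := b3 p ⟨hp, k⟩
      exact (i.2.trans (g _ ⟨q, l, rfl⟩)).trans_le
        (not_lt.1 (mt (h.1 _ hp _ (b1 l).1).2 m.not_gt))
  choose g g1 g2 using this
  have k : ∀ x y, x < y → lev x = β → lev y = β → g x < g y := fun x y b d e => by
    obtain ⟨z, f, i, j⟩ := sep x y b (d.trans e.symm)
    obtain ⟨w, l⟩ := a z (d ▸ j)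
    exact ((g2 x _ l).2 f).trans ((g2 y _ l).1 i)
  refine ⟨F ∪ (fun x => (x, g x)) '' {x | lev x = β ∧ ∀ y, (x, y) ∉ F}, subset_union_left,
    ⟨?_, ?_, h.2.2.1.u (.img (fun _ _ => id) fun B e => lv hW lev sep β B (e.trans fun _ e => e.1)),
    h.2.2.2.u (.img (r := (· ≥ ·)) (fun _ _ => id) fun B e => lv (L := Lᵒᵈ) hW lev
      (fun x y b d => (sep y x b d.symm).imp fun _ e => ⟨e.2.1, e.1, d ▸ e.2.2⟩) β B
      (e.trans fun _ e => e.1))⟩, fun x b => ?_⟩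
  · rintro p (b | ⟨x, b, rfl⟩) q (d | ⟨y, d, rfl⟩)
    · exact h.1 _ b _ d
    · have := g2 y p b
      have : p.1 ≠ y := fun e => d.2 p.2 (e ▸ b)
      grind
    · have := g2 x q d
      have : q.1 ≠ x := fun e => b.2 q.2 (e ▸ d)
      grind
    · have := k x y
      have := k y x
      have := b.1
      have := d.1
      grind
  · rintro p (b | ⟨x, b, rfl⟩)
    exacts [h.2.1 _ b, g1 x]
  by_cases e : ∃ y, (x, y) ∈ F
  · exact e.imp fun _ => .inl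
  · exact ⟨g x, .inr ⟨x, ⟨b.eq_of_not_lt (mt (a x) e), not_exists.1 e⟩, rfl⟩⟩

lemma bf : ∃ e : L ≃o L, (∃ x, e x ≠ x) ∧ ∀ x, c (e x) = c x := by
  classical
  obtain ⟨a, -⟩ := S ∅ ∅ (by simp) (by simp) (by simp)
  obtain ⟨a', b, -⟩ := S {a} ∅ (c1 _) (by simp) (by simp)
  obtain ⟨b, ab, cb⟩ := D a a' (b a rfl) a
  let P := fun β G G' => G ⊆ G' ∧ Good c G' ∧ ∀ x, lev x ≤ β → (∃ y, (x, y) ∈ G') ∧ ∃ y, (y, x) ∈ G'
  let T := fun β G => if h : ∃ G', P β G G' then h.choose else G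
  have T1 : ∀ β G, G ⊆ T β G := fun β G => by
    simp only [T]
    split_ifs with h
    exacts [h.choose_spec.1, subset_rfl]
  let F : W → Set (L × L) := WellFoundedLT.fix fun β f => T β ({(a, b)} ∪ ⋃ γ : Iio β, f γ γ.2)
  have F0 : ∀ β, F β = T β ({(a, b)} ∪ ⋃ γ : Iio β, F γ) := fun β => WellFoundedLT.fix_eq _ β
  have F1 : ∀ β, {(a, b)} ∪ ⋃ γ : Iio β, F γ ⊆ F β := fun β => F0 β ▸ T1 _ _
  have F2 : Monotone F := monotone_iff_forall_lt.2 fun γ β h =>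
    ((subset_iUnion (fun γ : Iio β => F γ) ⟨γ, h⟩).trans subset_union_right).trans (F1 β)
  have F3 : ∀ β, Good c (F β) ∧ ∀ x, lev x ≤ β → (∃ y, (x, y) ∈ F β) ∧ ∃ y, (y, x) ∈ F β := by
    intro β
    induction β using WellFoundedLT.induction with | _ β ih
    have g : Good c ({(a, b)} ∪ ⋃ γ : Iio β, F γ) := by
      have s : ∀ r : L × L → L × L → Prop, r (a, b) (a, b) → Cof r {(a, b)} := fun r h B e =>
        ⟨B, subset_rfl, (mk_le_mk_of_subset e).trans (c1 _), fun x f => ⟨x, f, e f ▸ h⟩⟩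
      refine ⟨?_, ?_, .u (s _ (le_refl a)) (.iU (hW β) fun γ => (ih γ γ.2).1.2.2.1),
        .u (s _ (le_refl a)) (.iU (hW β) fun γ => (ih γ γ.2).1.2.2.2)⟩
      · rintro p (rfl | ⟨_, ⟨γ, rfl⟩, d⟩) q (rfl | ⟨_, ⟨δ, rfl⟩, e⟩)
        · simp
        · exact (ih δ δ.2).1.1 _ (F1 _ (.inl rfl)) _ e
        · exact (ih γ γ.2).1.1 _ d _ (F1 _ (.inl rfl))
        · exact (ih (max γ δ) (max_lt γ.2 δ.2)).1.1 _ (F2 (le_max_left _ _) d) _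
            (F2 (le_max_right _ _) e)
      · rintro p (rfl | ⟨_, ⟨γ, rfl⟩, d⟩)
        exacts [cb.symm, (ih γ γ.2).1.2.1 _ d]
    obtain ⟨G, g1, g2, g3⟩ := step S hW lev sep c D g (β := β) fun x h =>
      ((ih _ h).2 x le_rfl).1.imp fun _ e => .inr (mem_iUnion.2 ⟨⟨_, h⟩, e⟩)
    obtain ⟨H, h1, h2, h3⟩ := step S hW lev sep c D g2.swap (β := β) fun x h =>
      ((ih _ h).2 x le_rfl).2.imp fun _ e => g1 (.inr (mem_iUnion.2 ⟨⟨_, h⟩, e⟩))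
    have : ∃ G', P β ({(a, b)} ∪ ⋃ γ : Iio β, F γ) G' := ⟨_, fun p e => h1 (a := p.swap) (g1 e),
      h2.swap, fun x e => ⟨(g3 x e).imp fun y e => h1 (a := (y, x)) e, h3 x e⟩⟩
    rw [F0]
    simp only [T, dif_pos this]
    exact this.choose_spec.2
  have o : ∀ β γ, ∀ p ∈ F β, ∀ q ∈ F γ, p.1 < q.1 ↔ p.2 < q.2 := fun β γ p d q e =>
    (F3 (max β γ)).1.1 _ (F2 (le_max_left _ _) d) _ (F2 (le_max_right _ _) e)
  choose f hf using fun x => ((F3 (lev x)).2 x le_rfl).1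
  have u : ∀ β x y, (x, y) ∈ F β → f x = y := fun β x y e => le_antisymm
    (not_lt.1 (mt (o _ _ _ e _ (hf x)).2 (lt_irrefl x)))
    (not_lt.1 (mt (o _ _ _ (hf x) _ e).2 (lt_irrefl x)))
  exact ⟨StrictMono.orderIsoOfSurjective f (fun x y e => (o _ _ _ (hf x) _ (hf y)).1 e) fun y =>
    ((F3 (lev y)).2 y le_rfl).2.imp fun x e => u _ _ _ e,
    ⟨a, (u (lev a) a b (F1 _ (.inl rfl))).trans_ne ab.1.ne'⟩,
    fun x => ((F3 _).1.2.1 _ (hf x)).symm⟩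

omit D in
theorem aut (hC : #C ≤ 𝔠) : ∃ e : L ≃ L, (∀ x y, e x ≤ e y ↔ x ≤ y) ∧ (∃ x, e x ≠ x) ∧
    ∀ x, c (e x) = c x := by
  classical
  obtain ⟨p, q, pq, h⟩ := iv S c hC
  obtain ⟨e, ⟨x, a⟩, b⟩ := bf (L := Ioo p q) (fun A B a b d => by
      obtain ⟨x, f, g⟩ := S (Subtype.val '' A ∪ {p}) (Subtype.val '' B ∪ {q})
        (c2 (mk_image_le.trans a) (c1 _)) (c2 (mk_image_le.trans b) (c1 _)) (by
          rintro _ (⟨x, e, rfl⟩ | rfl) _ (⟨y, f, rfl⟩ | rfl)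
          exacts [d _ e _ f, x.2.2, y.2.1, pq])
      exact ⟨⟨x, f _ (.inr rfl), g _ (.inr rfl)⟩, fun y e => f _ (.inl ⟨y, e, rfl⟩),
        fun y e => g _ (.inl ⟨y, e, rfl⟩)⟩) hW (lev ·.1) (fun x y a b =>
      let ⟨z, d, e, f⟩ := sep x y a b
      ⟨⟨z, x.2.1.trans d, e.trans y.2.2⟩, d, e, f⟩) (c ·.1) fun x y a z =>
      let ⟨w, d, e⟩ := h x y x.2.1 a y.2.2 z z.2
      ⟨⟨w, x.2.1.trans d.1, d.2.trans y.2.2⟩, d, e⟩
  refine ⟨Equiv.Perm.ofSubtype e.toEquiv, fun x y => ?_, ⟨x, fun d => a (Subtype.ext (by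
    rwa [Equiv.Perm.ofSubtype_apply_of_mem _ x.2] at d))⟩, fun x => ?_⟩
  · by_cases a : x ∈ Ioo p q <;> by_cases b : y ∈ Ioo p q <;>
      simp only [Equiv.Perm.ofSubtype_apply_of_mem, Equiv.Perm.ofSubtype_apply_of_not_mem, a, b,
        not_false_iff]
    · exact e.le_iff_le (x := ⟨x, a⟩) (y := ⟨y, b⟩)
    · have := (e.toEquiv ⟨x, a⟩).2
      grind
    · have := (e.toEquiv ⟨y, b⟩).2
      grind
  · by_cases a : x ∈ Ioo p q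
    · rw [Equiv.Perm.ofSubtype_apply_of_mem _ a]; exact b _
    · rw [Equiv.Perm.ofSubtype_apply_of_not_mem _ a]

end Pool.Agent.H1.Eta
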