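import Mathlib

namespace Pool.Agent.H1.Ew

theorem sq9 (x : ℤ) (h : 3 ≤ x ∨ x ≤ -3) : 9 ≤ x ^ 2 := by
  rcases h with h | h <;> nlinarith

theorem c3a (I a r e p q u : ℤ) (he : 0 ≤ e) (hr : 0 ≤ r) (hpq : 4 * (p * q) ≤ u ^ 2)
    (hI0 : 0 ≤ I) (hI : (u + e) * (u - r - 1) ≤ 2 * I) (hA : u ≤ 2 * a) (hB : 3 ≤ u) :
    5 ≤ 8 * (r * (a + 2 * e) + I - p * q) := by
  have hre : 0 ≤ r * e := mul_nonneg hr he
  have hu2 : 0 ≤ (u - 3) * (u + 1) := mul_nonneg (by omega) (by omega)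
  by_cases hC : r ≤ u - 1
  · have h1 : 0 ≤ e * (u - r - 1) := mul_nonneg he (by omega)
    have h2 : 0 ≤ r * (2 * a - u) := mul_nonneg hr (by omega)
    linarith
  · have h1 : 0 ≤ (r - (u - 1)) * a := mul_nonneg (by omega) (by omega)
    have h2 : 0 ≤ (u - 1) * (2 * a - u) := mul_nonneg (by omega) (by omega)
    linarith

theorem c3b (a r e p q u h' : ℤ) (ha : 1 ≤ a) (he : 0 ≤ e) (hp : 0 ≤ p) (hq : 1 ≤ q)
    (hu : p + q ≤ u) (hur : u ≤ a + r) (hA : 2 * a < u) (hh : q + 1 ≤ h') :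
    5 ≤ (h' + 2 * r - a - 2 * e) ^ 2 + 8 * (r * (a + 2 * e) - p * q) := by
  have hra : a + 1 ≤ r := by omega
  obtain ⟨z, hz'⟩ : ∃ z, z = a + 2 * e := ⟨_, rfl⟩
  have e1 : h' + 2 * r - a - 2 * e = h' + 2 * r - z := by omega
  rw [e1, ← hz']
  have haz : a ≤ z := by omega
  clear e1 hz'
  by_cases hz : r ≤ z
  · have h1 : 0 ≤ r * (z - r) := mul_nonneg (by omega) (by omega)
    have h2 : 0 ≤ (2 * r - 1 - (p + q)) * (2 * r - 1 + (p + q)) := mul_nonneg (by omega) (by omega)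
    have h3 := sq_nonneg (p - q)
    have h4 := sq_nonneg (h' + 2 * r - z)
    linarith
  · have h10 : 0 ≤ (h' - q) * (h' + q + 4 * r - 2 * z) := mul_nonneg (by omega) (by omega)
    have h11 : 0 ≤ (z + r - q - p) * q := mul_nonneg (by omega) (by omega)
    have h12 : 0 ≤ (r - z) * (r + z) := mul_nonneg (by omega) (by omega)
    have h13 : 0 ≤ (r - 2) * (r + 2) := mul_nonneg (by omega) (by omega)
    have h14 : 0 ≤ r * z := mul_nonneg (by omega) (by omega)
    have h15 := sq_nonneg (18 * q - (4 * r + 10 * z))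
    linarith

/-- core inequality, depth at least four -/
theorem core3 (W I a b h' e e3 p q D : ℤ)
    (ha : 1 ≤ a) (he : 0 ≤ e) (he3 : 0 ≤ e3) (hp : 0 ≤ p) (hq : 1 ≤ q) (hI0 : 0 ≤ I)
    (hW : W + I + e3 ≤ a * (b + h') + e * h' + p * q)
    (h1 : a + e ≤ b) (h2 : p + q + e ≤ D) (h3 : D ≤ b)
    (hI : D * (D + a - b - 1) ≤ 2 * I) (hh : q + 1 ≤ h')
    (h6 : (∃ y : ℤ, 1 ≤ y ∧ y + e ≤ D ∧ (a - y) * y ≤ I ∧ h' + 2 * e ≤ 2 * D) ∨
      (a + e ≤ D ∧ (1 ≤ e3 ∨ e + 2 ≤ D ∨ h' ≤ 3 ∨ a + b ≤ 2)))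
    (hn : 14 ≤ a + 2 * b + h') :
    8 * W + 5 ≤ (a + 2 * b + h') ^ 2 := by
  obtain ⟨r, rfl⟩ : ∃ r, b = a + e + r := ⟨b - a - e, by ring⟩
  obtain ⟨u, rfl⟩ : ∃ u, D = u + e := ⟨D - e, by ring⟩
  have hr : 0 ≤ r := by omega
  have hu : p + q ≤ u := by omega
  have hur : u ≤ a + r := by omega
  suffices H : 5 ≤ (h' + 2 * r - a - 2 * e) ^ 2 + 8 * (r * (a + 2 * e) + e3 + I - p * q) by
    linarith
  have hI' : (u + e) * (u - r - 1) ≤ 2 * I := by linarith
  clear hW hI
  have hpq : 4 * (p * q) ≤ u ^ 2 := by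
    have h2 : 0 ≤ (u - (p + q)) * (u + (p + q)) := mul_nonneg (by omega) (by omega)
    have h3 := sq_nonneg (p - q)
    linarith
  have hsq := sq_nonneg (h' + 2 * r - a - 2 * e)
  by_cases hA : u ≤ 2 * a
  · by_cases hB : 3 ≤ u
    · have := c3a I a r e p q u he hr hpq hI0 hI' hA hB
      linarith
    · have hpq1 : p * q ≤ 1 := by
        have h2 : 0 ≤ (2 - u) * (2 + u) := mul_nonneg (by omega) (by omega)
        linarith
      by_cases hr1 : 1 ≤ r
      · have h9 : 0 ≤ (r - 1) * (a + 2 * e) := mul_nonneg (by omega) (by omega)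
        by_cases hz : 2 ≤ a + 2 * e
        · linarith
        · have := sq9 (h' + 2 * r - a - 2 * e) (by omega)
          linarith
      · have hr0 : r = 0 := by omega
        subst hr0
        by_cases hu1 : u = 2
        · subst hu1
          by_cases he1 : 1 ≤ e
          · have : 2 ≤ I := by omega
            linarith
          · have he0 : e = 0 := by omega
            subst he0
            by_cases ha2 : a ≤ 2
            · have h9 : 0 ≤ (h' - a - 6) * (h' - a + 6) := mul_nonneg (by omega) (by omega)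
              linarith
            · rcases h6 with ⟨y, hy1, hy2, hy3, -⟩ | ⟨h6, -⟩
              · have : 2 ≤ I := by
                  have : y = 1 ∨ y = 2 := by omega
                  rcases this with rfl | rfl <;> omega
                linarith
              · omega
        · have hu1 : u = 1 := by omega
          subst hu1
          have hp0 : p = 0 := by omega
          subst hp0
          rcases h6 with ⟨y, hy1, hy2, hy3, hy4⟩ | ⟨h6, h7⟩
          · have : y = 1 := by omega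
            subst this
            by_cases ha2 : 2 ≤ a
            · have : 1 ≤ I := by omega
              linarith
            · have := sq9 (h' + 2 * 0 - a - 2 * e) (by omega)
              linarith
          · rcases h7 with h7 | h7 | h7 | h7
            · linarith
            · omega
            · have := sq9 (h' + 2 * 0 - a - 2 * e) (by omega)
              linarith
            · have := sq9 (h' + 2 * 0 - a - 2 * e) (by omega)
              linarith
  · have := c3b a r e p q u h' ha he hp hq hu hur (by omega) hh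
    linarith

theorem c2a (J al d e a2 b2 : ℤ) (he : 0 ≤ e) (hJ0 : 0 ≤ J) (hal : 1 ≤ al)
    (ha2 : 0 ≤ a2) (hb2 : 0 ≤ b2) (hd : 0 ≤ d) (he1 : e ≤ 1) (hd1 : d ≤ 1) (h4 : 1 + e ≤ al + d)
    (hJ : (1 + e) * (1 + e - d - 1) ≤ 2 * J) (hn : 14 ≤ a2 + 3 * al + 2 * d + 2 * b2 + 1) :
    5 ≤ (al + 2 * d + 1 + 2 * b2 - a2) ^ 2 + 4 * a2 * (2 * (al + d) - 1) - 4 * al * 1
      - 8 * e * 1 + 8 * J := by
  by_cases c0 : a2 = 0
  · subst c0
    by_cases c1 : 4 ≤ al
    · have h1 : 0 ≤ (al - 4) * (al + 2) := mul_nonneg (by omega) (by omega)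
      have h2 : 0 ≤ b2 * (b2 + al + 2 * d + 1) := mul_nonneg (by omega) (by omega)
      have : e = 0 ∨ e = 1 := by omega
      have : d = 0 ∨ d = 1 := by omega
      rcases ‹e = 0 ∨ e = 1› with rfl | rfl <;> rcases ‹d = 0 ∨ d = 1› with rfl | rfl <;> linarith
    · have h1 : 0 ≤ (al + 2 * d + 1 + 2 * b2 - 6) * (al + 2 * d + 1 + 2 * b2 + 6) :=
        mul_nonneg (by omega) (by omega)
      linarith
  · by_cases c1 : a2 = 1
    · subst c1
      have h1 : 0 ≤ (al + 2 * d + 2 * b2 - 4) * (al + 2 * d + 2 * b2 + 4) :=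
        mul_nonneg (by omega) (by omega)
      linarith
    · by_cases c2 : 2 ≤ al + d
      · have h1 : 0 ≤ (a2 - 2) * (2 * (al + d) - 1) := mul_nonneg (by omega) (by omega)
        have h2 := sq_nonneg (al + 2 * d + 1 + 2 * b2 - a2)
        linarith
      · have : al = 1 := by omega
        have : d = 0 := by omega
        have : e = 0 := by omega
        subst_vars
        by_cases c3 : 3 ≤ a2
        · have h2 := sq_nonneg (1 + 2 * 0 + 1 + 2 * b2 - a2)
          linarith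
        · have := sq9 (1 + 2 * 0 + 1 + 2 * b2 - a2) (by omega)
          linarith

theorem c2b (J al d e y a2 b2 : ℤ) (he : 0 ≤ e) (hJ0 : 0 ≤ J) (hal : 1 ≤ al) (hy : 1 ≤ y)
    (ha2 : 0 ≤ a2) (hb2 : 0 ≤ b2) (hd : 0 ≤ d) (hs : 2 ≤ y ∨ 2 ≤ e ∨ 2 ≤ d) (h4 : y + e ≤ al + d)
    (hJ : (y + e) * (y + e - d - 1) ≤ 2 * J) :
    5 ≤ (al + 2 * d + y + 2 * b2 - a2) ^ 2 + 4 * a2 * (2 * (al + d) - y) - 4 * al * y
      - 8 * e * y + 8 * J := by
  by_cases c0 : al + 2 * d + y ≤ a2
  · have h0 : 0 ≤ (al + d - (y + e)) * (al + d + (y + e)) := mul_nonneg (by omega) (by omega)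
    have h0' := sq_nonneg (e - y)
    have h1 : 0 ≤ (a2 - (al + 2 * d + y)) * (2 * (al + d) - y) := mul_nonneg (by omega) (by omega)
    have h2 : 0 ≤ (al + d + y) * (al + d - y) := mul_nonneg (by omega) (by omega)
    have h3 : 0 ≤ d * (2 * (al + d) - y) := mul_nonneg (by omega) (by omega)
    have h5 : 0 ≤ d * y := mul_nonneg (by omega) (by omega)
    have h6 : 0 ≤ (al + d - 2) * (al + d + 2) := mul_nonneg (by omega) (by omega)
    have h7 := sq_nonneg (al + 2 * d + y + 2 * b2 - a2)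
    linarith
  · have h10 : 0 ≤ b2 * (b2 + (al + 2 * d + y - a2)) := mul_nonneg (by omega) (by omega)
    have h11 : (d - e) ^ 2 + 4 * d * y + 4 * y * (y - 1) + 4 * e * (e - 1) ≤
        (al + 2 * d + y) ^ 2 - 4 * al * y - 8 * e * y + 8 * J := by
      have h1 : 0 ≤ (al + d - y - e) * (al + d - y + e) := mul_nonneg (by omega) (by omega)
      have h2 : 0 ≤ d * (al + d - y - e) := mul_nonneg (by omega) (by omega)
      linarith
    have he2 : 0 ≤ e * (e - 1) := by
      rcases (by omega : e = 0 ∨ 1 ≤ e) with h | h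
      · simp [h]
      · exact mul_nonneg he (by omega)
    have hdy : 0 ≤ d * (y - 1) := mul_nonneg (by omega) (by omega)
    have hy2 : 0 ≤ y * (y - 1) := mul_nonneg (by omega) (by omega)
    have hde := sq_nonneg (d - e)
    by_cases c1 : 3 * y ≤ 2 * (al + d) + al
    · have h1 : 0 ≤ a2 * (2 * (al + d) - 3 * y + al) := mul_nonneg (by omega) (by omega)
      have h12 : 5 ≤ (d - e) ^ 2 + 4 * d * y + 4 * y * (y - 1) + 4 * e * (e - 1) := by
        rcases hs with c2 | c2 | c2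
        · have : 0 ≤ (y - 2) * (y + 1) := mul_nonneg (by omega) (by omega)
          linarith
        · have : 0 ≤ (e - 2) * (e + 1) := mul_nonneg (by omega) (by omega)
          linarith
        · linarith
      have := sq_nonneg a2
      linarith
    · have h12 : 0 ≤ (y - 1 - (3 * y - 2 * (al + d) - al)) * (y - 1 + (3 * y - 2 * (al + d) - al)) :=
        mul_nonneg (by omega) (by omega)
      have h14 : 0 ≤ (y - 2) * (3 * y + 4) := mul_nonneg (by omega) (by omega)
      have h15 := sq_nonneg (a2 - (3 * y - 2 * (al + d) - al))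
      linarith

/-- core inequality, depth three -/
theorem core2 (W J a b y e al be : ℤ)
    (hy : 1 ≤ y) (he : 0 ≤ e) (hJ0 : 0 ≤ J) (hal : 1 ≤ al) (h1 : al ≤ a) (h2 : al ≤ be)
    (h3 : be ≤ b) (h4 : y + e ≤ be)
    (hW : W + (a - al) * be + J ≤ a * (b + y) + e * y)
    (hJ : (y + e) * (y + e + al - be - 1) ≤ 2 * J)
    (hn : 14 ≤ a + 2 * b + y) :
    8 * W + 5 ≤ (a + 2 * b + y) ^ 2 := by
  obtain ⟨a2, rfl⟩ : ∃ r, a = al + r := ⟨a - al, by ring⟩
  obtain ⟨b2, rfl⟩ : ∃ r, b = be + r := ⟨b - be, by ring⟩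
  obtain ⟨d, rfl⟩ : ∃ r, be = al + r := ⟨be - al, by ring⟩
  have ha2 : 0 ≤ a2 := by omega
  have hb2 : 0 ≤ b2 := by omega
  have hd : 0 ≤ d := by omega
  suffices H : 5 ≤ (al + 2 * d + y + 2 * b2 - a2) ^ 2 + 4 * a2 * (2 * (al + d) - y) - 4 * al * y
      - 8 * e * y + 8 * J by linarith
  have hJ' : (y + e) * (y + e - d - 1) ≤ 2 * J := by linarith
  by_cases hsmall : y = 1 ∧ e ≤ 1 ∧ d ≤ 1
  · obtain ⟨rfl, he1, hd1⟩ := hsmall
    exact c2a J al d e a2 b2 he hJ0 hal ha2 hb2 hd he1 hd1 h4 hJ' (by omega)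
  · exact c2b J al d e y a2 b2 he hJ0 hal hy ha2 hb2 hd (by omega) h4 hJ'

end Pool.Agent.H1.Ew
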