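import Mathlib

namespace Pool.Agent.H1.Ew

open Finset Pointwise

/-- number of points of `[m, x)` outside `X` -/
def bet (m : ℕ) (X : Finset ℕ) (x : ℕ) : ℕ := #((Ico m x).filter (fun z => z ∉ X))

theorem bet_mono (m : ℕ) (X : Finset ℕ) {x y : ℕ} (h : x ≤ y) : bet m X x ≤ bet m X y := by
  unfold bet
  apply card_le_card
  intro z hz
  simp only [mem_filter, mem_Ico] at hz ⊢
  exact ⟨⟨hz.1.1, by omega⟩, hz.2⟩

theorem low_max (m t : ℕ) (X : Finset ℕ) (hX : ∀ x ∈ X, m ≤ x) (hm : m ∈ X) (ht : 1 ≤ t) :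
    ∃ x0, (∀ x ∈ X.filter (fun x => bet m X x < t), x ≤ x0) ∧
      x0 + 2 ≤ m + #(X.filter (fun x => bet m X x < t)) + t := by
  set Y := X.filter (fun x => bet m X x < t) with hY
  have hmY : m ∈ Y := by
    simp only [hY, mem_filter]
    refine ⟨hm, ?_⟩
    simp [bet]; omega
  have hne : Y.Nonempty := ⟨m, hmY⟩
  refine ⟨Y.max' hne, fun x hx => Y.le_max' x hx, ?_⟩
  set x0 := Y.max' hne with hx0
  have hx0Y : x0 ∈ Y := Y.max'_mem hne
  have h1 : x0 ∈ X := (mem_filter.1 hx0Y).1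
  have h2 : bet m X x0 < t := (mem_filter.1 hx0Y).2
  have h3 : m ≤ x0 := hX _ h1
  have h4 : #((Ico m x0).filter (fun z => z ∈ X)) + bet m X x0 = x0 - m := by
    unfold bet
    rw [card_filter_add_card_filter_not]; simp
  have h5 : insert x0 ((Ico m x0).filter (fun z => z ∈ X)) ⊆ Y := by
    intro z hz
    rcases mem_insert.1 hz with rfl | hz
    · exact hx0Y
    · simp only [mem_filter, mem_Ico] at hz
      simp only [hY, mem_filter]
      exact ⟨hz.2, lt_of_le_of_lt (bet_mono m X hz.1.2.le) h2⟩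
  have h6 := card_le_card h5
  rw [card_insert_of_notMem (by simp)] at h6
  omega

theorem pair_bound (m L t t' : ℕ) (X Dn : Finset ℕ) (hX : ∀ x ∈ X, m ≤ x ∧ x < m + L) (hm : m ∈ X)
    (hD : ∀ z ∈ Dn, 2 * m ≤ z ∧ z < 2 * m + L) (hdis : ∀ x ∈ X, ∀ y ∈ X, x + y ∉ Dn)
    (ht : 1 ≤ t) (ht' : 1 ≤ t') (htt : t + t' = #Dn + 1) :
    #(X.filter (fun x => bet m X x < t)) + #(X.filter (fun x => bet m X x < t')) + #Dn ≤ L + 1 := by
  obtain ⟨x0, hx0, hx1⟩ := low_max m t X (fun x hx => (hX x hx).1) hm ht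
  obtain ⟨y0, hy0, hy1⟩ := low_max m t' X (fun x hx => (hX x hx).1) hm ht'
  set Y := X.filter (fun x => bet m X x < t) with hY
  set Y' := X.filter (fun x => bet m X x < t') with hY'
  have hb0 : bet m X m = 0 := by simp [bet]
  have hne : Y.Nonempty := ⟨m, by simp only [hY, mem_filter]; exact ⟨hm, by omega⟩⟩
  have hne' : Y'.Nonempty := ⟨m, by simp only [hY', mem_filter]; exact ⟨hm, by omega⟩⟩
  have hcd := cauchy_davenport_add_of_linearOrder_isCancelAdd hne hne'
  have hdj : Disjoint (Y + Y') Dn := by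
    rw [disjoint_left]
    intro z hz hz'
    obtain ⟨x, hx, y, hy, rfl⟩ := mem_add.1 hz
    exact hdis x (mem_filter.1 hx).1 y (mem_filter.1 hy).1 hz'
  have hsub : (Y + Y') ∪ Dn ⊆ Ico (2 * m) (max (2 * m + L) (x0 + y0 + 1)) := by
    intro z hz
    rw [mem_Ico]
    rcases mem_union.1 hz with hz | hz
    · obtain ⟨x, hx, y, hy, rfl⟩ := mem_add.1 hz
      have := hx0 x hx
      have := hy0 y hy
      have := (hX x (mem_filter.1 hx).1).1
      have := (hX y (mem_filter.1 hy).1).1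
      omega
    · have := hD z hz
      omega
  have hc := card_le_card hsub
  rw [card_union_of_disjoint hdj, Nat.card_Ico] at hc
  have := hne.card_pos
  have := hne'.card_pos
  omega

theorem sum_bound (m L : ℕ) (X Dn : Finset ℕ) (hX : ∀ x ∈ X, m ≤ x ∧ x < m + L) (hm : m ∈ X)
    (hD : ∀ z ∈ Dn, 2 * m ≤ z ∧ z < 2 * m + L) (hdis : ∀ x ∈ X, ∀ y ∈ X, x + y ∉ Dn) :
    (#Dn : ℤ) * (#Dn + 2 * #X - L - 1) ≤ 2 * ((∑ x ∈ X, bet m X x : ℕ) : ℤ) := by
  set D := #Dn with hDd
  set n : ℕ → ℕ := fun t => #(X.filter (fun x => bet m X x < t)) with hn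
  have h1 : ∑ t ∈ range D, #(X.filter (fun x => t + 1 ≤ bet m X x)) ≤ ∑ x ∈ X, bet m X x := by
    simp only [card_filter]
    rw [sum_comm]
    apply sum_le_sum
    intro x _
    rw [← card_filter]
    calc #((range D).filter (fun t => t + 1 ≤ bet m X x)) ≤ #(range (bet m X x)) := by
          apply card_le_card
          intro t ht
          simp only [mem_filter, mem_range] at ht ⊢
          omega
      _ = bet m X x := by simp
  have h2 : ∀ t, #(X.filter (fun x => t + 1 ≤ bet m X x)) + n (t + 1) = #X := by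
    intro t
    have := card_filter_add_card_filter_not (s := X) (fun x => t + 1 ≤ bet m X x)
    simp only [not_le] at this
    exact this
  have h3 : ∑ t ∈ range D, n (D - 1 - t + 1) = ∑ t ∈ range D, n (t + 1) :=
    sum_range_reflect (fun t => n (t + 1)) D
  have h4 : ∑ t ∈ range D, (n (t + 1) + n (D - 1 - t + 1) + D) ≤ ∑ t ∈ range D, (L + 1) := by
    apply sum_le_sum
    intro t ht
    rw [mem_range] at ht
    exact pair_bound m L (t + 1) (D - 1 - t + 1) X Dn hX hm hD hdis (by omega) (by omega) (by omega)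
  have h5 : ∑ t ∈ range D, (#(X.filter (fun x => t + 1 ≤ bet m X x)) + n (t + 1)) = D * #X := by
    rw [sum_congr rfl (fun t _ => h2 t)]
    simp
  rw [sum_add_distrib] at h5
  rw [sum_add_distrib, sum_add_distrib, h3] at h4
  simp only [sum_const, card_range, smul_eq_mul] at h4
  have h1' := (Int.ofNat_le).2 h1
  have h4' := (Int.ofNat_le).2 h4
  have h5' := congrArg (fun z : ℕ => (z : ℤ)) h5
  push_cast at h1' h4' h5' ⊢
  linarith

end Pool.Agent.H1.Ew
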