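import Pool.Agent.H1.EwA
import Pool.Agent.H1.EwB

namespace Pool.Agent.H1.Ew

open Finset Classical

structure NS (G : Finset ℕ) (m : ℕ) : Prop where
  pos : 0 ∉ G
  cl : ∀ x y, 0 < x → 0 < y → x ∉ G → y ∉ G → x + y ∉ G
  mpos : 0 < m
  mS : m ∉ G
  low : ∀ x, 0 < x → x < m → x ∈ G

def Irr (G : Finset ℕ) (x : ℕ) : Prop :=
  0 < x ∧ x ∉ G ∧ ∀ u v, 0 < u → 0 < v → u ∉ G → v ∉ G → u + v ≠ x

def Gc (G : Finset ℕ) (x : ℕ) : ℕ := #(G.filter (fun y => x < y))

noncomputable def wt (G : Finset ℕ) : ℕ := ∑ y ∈ G, #((range y).filter (Irr G))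

def lev1 (G : Finset ℕ) (m : ℕ) : Finset ℕ := (Ico m (2 * m)).filter (fun z => z ∉ G)

variable {G : Finset ℕ} {m : ℕ}

theorem NS.ge (H : NS G m) {x : ℕ} (h0 : 0 < x) (hx : x ∉ G) : m ≤ x := by
  by_contra h
  exact hx (H.low x h0 (by omega))

theorem NS.up' (H : NS G m) {s : ℕ} (h0 : 0 < s) (hs : s ∉ G) (k : ℕ) : s + m * k ∉ G := by
  induction k with
  | zero => simpa using hs
  | succ k ih =>
    have := H.cl (s + m * k) m (by omega) H.mpos ih H.mS
    rwa [add_assoc, ← Nat.mul_succ] at this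

theorem NS.up (H : NS G m) {s t : ℕ} (h0 : 0 < s) (hs : s ∉ G) (hst : s ≤ t) (hm : s % m = t % m) :
    t ∉ G := by
  obtain ⟨k, hk⟩ := (Nat.modEq_iff_dvd' hst).1 hm
  have : t = s + m * k := by omega
  rw [this]; exact H.up' h0 hs k

theorem step {s t : ℕ} (hst : s < t) (hm : s % m = t % m) : s + m ≤ t := by
  obtain ⟨k, hk⟩ := (Nat.modEq_iff_dvd' hst.le).1 hm
  rcases k with _ | k
  · omega
  · have : m * (k + 1) = m * k + m := by ring
    omega

theorem NS.down (H : NS G m) {s t : ℕ} (ht : t ∈ G ∨ Irr G t) (h0 : 0 < s) (hst : s < t)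
    (hm : s % m = t % m) : s ∈ G := by
  by_contra hs
  rcases ht with ht | ht
  · exact H.up h0 hs hst.le hm ht
  · have h1 := step hst hm
    have h2 : t - s ∉ G := by
      apply H.up H.mpos H.mS (by omega)
      have := (Nat.modEq_iff_dvd' hst.le).1 hm
      rw [Nat.mod_self, Nat.mod_eq_zero_of_dvd this]
    have := H.mpos
    exact ht.2.2 s (t - s) h0 (by omega) hs h2 (by omega)

theorem NS.refl (H : NS G m) {F x : ℕ} (hF : F ∈ G) (h0 : 0 < x) (hx : x ∉ G) (hxF : x < F) :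
    F - x ∈ G := by
  by_contra h
  have := H.cl x (F - x) h0 (by omega) hx h
  rw [show x + (F - x) = F by omega] at this
  exact this hF

theorem NS.card_eq (H : NS G m) : #G + 1 = m + Gc G m := by
  have h1 := card_filter_add_card_filter_not (s := G) (fun y => m < y)
  have h2 : G.filter (fun y => ¬ m < y) = Ico 1 m := by
    ext z
    simp only [mem_filter, mem_Ico]
    constructor
    · rintro ⟨hz, h⟩
      have : z ≠ 0 := fun h => H.pos (h ▸ hz)
      have : z ≠ m := fun h => H.mS (h ▸ hz)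
      omega
    · rintro ⟨h, h'⟩
      exact ⟨H.low z h h', by omega⟩
  rw [h2, Nat.card_Ico] at h1
  have := H.mpos
  unfold Gc
  omega

theorem lev1_card (G : Finset ℕ) (m : ℕ) :
    #(lev1 G m) + #((Ico m (2 * m)).filter (fun z => z ∈ G)) = m := by
  have h1 := card_filter_add_card_filter_not (s := Ico m (2 * m)) (fun z => z ∈ G)
  rw [Nat.card_Ico] at h1
  unfold lev1
  omega

theorem NS.h_eq (H : NS G m) :
    Gc G m = #((Ico m (2 * m)).filter (fun z => z ∈ G)) + #(G.filter (fun y => 2 * m ≤ y)) := by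
  unfold Gc
  rw [← card_union_of_disjoint]
  · congr 1
    ext z
    simp only [mem_filter, mem_Ico, mem_union]
    have := H.mpos
    constructor
    · rintro ⟨hz, h⟩
      by_cases h2 : z < 2 * m
      · exact Or.inl ⟨⟨by omega, h2⟩, hz⟩
      · exact Or.inr ⟨hz, by omega⟩
    · rintro (⟨h, hz⟩ | ⟨hz, h⟩)
      · have : z ≠ m := fun h => H.mS (h ▸ hz)
        exact ⟨hz, by omega⟩
      · exact ⟨hz, by omega⟩
  · rw [disjoint_left]
    intro z hz hz'
    simp only [mem_filter, mem_Ico] at hz hz'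
    omega

theorem NS.mem_lev1 (H : NS G m) : m ∈ lev1 G m := by
  have := H.mpos
  simp only [lev1, mem_filter, mem_Ico]
  exact ⟨⟨le_rfl, by omega⟩, H.mS⟩

theorem NS.irr_lev1 (H : NS G m) {x : ℕ} (hx : x ∈ lev1 G m) : Irr G x := by
  simp only [lev1, mem_filter, mem_Ico] at hx
  have := H.mpos
  refine ⟨by omega, hx.2, fun u v hu hv hu' hv' => ?_⟩
  have := H.ge hu hu'
  have := H.ge hv hv'
  omega

theorem bet_lev1 {x : ℕ} (hx : x ≤ 2 * m) :
    bet m (lev1 G m) x = #((Ico m x).filter (fun z => z ∈ G)) := by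
  unfold bet
  congr 1
  ext z
  simp only [lev1, mem_filter, mem_Ico]
  constructor
  · rintro ⟨h, h'⟩
    refine ⟨h, ?_⟩
    by_contra hz
    exact h' ⟨⟨h.1, by omega⟩, hz⟩
  · rintro ⟨h, h'⟩
    exact ⟨h, fun h'' => h''.2 h'⟩

theorem NS.gc_lev1 (H : NS G m) {x : ℕ} (hx : x ∈ lev1 G m) :
    Gc G x + bet m (lev1 G m) x = Gc G m := by
  simp only [lev1, mem_filter, mem_Ico] at hx
  rw [bet_lev1 hx.1.2.le]
  unfold Gc
  rw [← card_union_of_disjoint]
  · congr 1
    ext z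
    simp only [mem_filter, mem_Ico, mem_union]
    constructor
    · rintro (⟨hz, h⟩ | ⟨h, hz⟩)
      · exact ⟨hz, by omega⟩
      · have : z ≠ m := fun h => H.mS (h ▸ hz)
        exact ⟨hz, by omega⟩
    · rintro ⟨hz, h⟩
      have : z ≠ x := fun h => hx.2 (h ▸ hz)
      by_cases h2 : x < z
      · exact Or.inl ⟨hz, h2⟩
      · exact Or.inr ⟨⟨by omega, by omega⟩, hz⟩
  · rw [disjoint_left]
    intro z hz hz'
    simp only [mem_filter, mem_Ico] at hz hz'
    omega

theorem wt_eq (G T : Finset ℕ) (h1 : ∀ x ∈ T, Irr G x)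
    (h2 : ∀ x y, Irr G x → y ∈ G → x < y → x ∈ T) : wt G = ∑ x ∈ T, Gc G x := by
  unfold wt Gc
  simp only [card_filter (fun y => _ < y)]
  rw [sum_comm]
  apply sum_congr rfl
  intro y hy
  rw [← card_filter]
  congr 1
  ext x
  simp only [mem_filter, mem_range]
  exact ⟨fun h => ⟨h2 x y h.2 hy h.1, h.1⟩, fun h => ⟨h.2, h1 x h.1⟩⟩

theorem NS.split (H : NS G m) (F : ℕ) (hF : ∀ y ∈ G, y ≤ F) :
    wt G + ∑ x ∈ lev1 G m, bet m (lev1 G m) x =
      #(lev1 G m) * Gc G m + ∑ x ∈ (Ico (2 * m) F).filter (Irr G), Gc G x := by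
  rw [wt_eq G (lev1 G m ∪ (Ico (2 * m) F).filter (Irr G))]
  · rw [sum_union]
    · have : ∑ x ∈ lev1 G m, (Gc G x + bet m (lev1 G m) x) = #(lev1 G m) * Gc G m := by
        rw [sum_congr rfl (fun x hx => H.gc_lev1 hx)]
        simp
      rw [sum_add_distrib] at this
      omega
    · rw [disjoint_left]
      intro z hz hz'
      simp only [lev1, mem_filter, mem_Ico] at hz hz'
      omega
  · intro x hx
    rcases mem_union.1 hx with hx | hx
    · exact H.irr_lev1 hx
    · exact (mem_filter.1 hx).2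
  · intro x y hx hy hxy
    have := hF y hy
    have := H.ge hx.1 hx.2.1
    simp only [lev1, mem_union, mem_filter, mem_Ico]
    by_cases h : x < 2 * m
    · exact Or.inl ⟨⟨by omega, h⟩, hx.2.1⟩
    · exact Or.inr ⟨⟨by omega, by omega⟩, hx⟩

end Pool.Agent.H1.Ew
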