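import Pool.Agent.H1.EwC

namespace Pool.Agent.H1.Ew

open Finset Classical

variable {G : Finset ℕ} {m : ℕ}

def gb (G : Finset ℕ) (m x : ℕ) : ℕ := #((Ico m x).filter (fun z => z ∈ G))

def part (G : Finset ℕ) (m M : ℕ) : Finset ℕ := (Ico m M).filter (fun z => z ∉ G)

theorem gb_mono {x y : ℕ} (h : x ≤ y) : gb G m x ≤ gb G m y := by
  unfold gb
  apply card_le_card
  intro z hz
  simp only [mem_filter, mem_Ico] at hz ⊢
  exact ⟨⟨hz.1.1, by omega⟩, hz.2⟩

theorem bet_part {M x : ℕ} (hx : x ≤ M) : bet m (part G m M) x = gb G m x := by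
  unfold bet gb
  congr 1
  ext z
  simp only [part, mem_filter, mem_Ico]
  constructor
  · rintro ⟨h, h'⟩
    refine ⟨h, ?_⟩
    by_contra hz
    exact h' ⟨⟨h.1, by omega⟩, hz⟩
  · rintro ⟨h, h'⟩
    exact ⟨h, fun h'' => h''.2 h'⟩

theorem part_card (G : Finset ℕ) (m L : ℕ) : #(part G m (m + L)) + gb G m (m + L) = L := by
  have h1 := card_filter_add_card_filter_not (s := Ico m (m + L)) (fun z => z ∈ G)
  rw [Nat.card_Ico] at h1
  unfold part gb
  omega

theorem part_sub {M : ℕ} (h : M ≤ 2 * m) : part G m M ⊆ lev1 G m := by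
  intro z hz
  simp only [part, lev1, mem_filter, mem_Ico] at hz ⊢
  exact ⟨⟨hz.1.1, by omega⟩, hz.2⟩

theorem lowpart {M : ℕ} (h : M ≤ 2 * m) :
    ∑ x ∈ part G m M, bet m (part G m M) x + (#(lev1 G m) - #(part G m M)) * gb G m M ≤
      ∑ x ∈ lev1 G m, bet m (lev1 G m) x := by
  rw [← sum_sdiff (part_sub h), add_comm]
  apply Nat.add_le_add
  · rw [← card_sdiff_of_subset (part_sub h), ← smul_eq_mul, ← sum_const]
    apply sum_le_sum
    intro x hx
    simp only [part, lev1, mem_sdiff, mem_filter, mem_Ico] at hx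
    have h1 : M ≤ x := by
      by_contra h'
      exact hx.2 ⟨⟨hx.1.1.1, by omega⟩, hx.1.2⟩
    have : bet m (lev1 G m) x = gb G m x := bet_part (M := 2 * m) hx.1.1.2.le
    rw [this]
    exact gb_mono h1
  · apply le_of_eq
    apply sum_congr rfl
    intro x hx
    simp only [part, mem_filter, mem_Ico] at hx
    have : bet m (lev1 G m) x = gb G m x := bet_part (M := 2 * m) (by omega)
    rw [this, bet_part hx.1.2.le]

theorem NS.sumb (H : NS G m) (L : ℕ) (hL : 1 ≤ L) (Dn : Finset ℕ)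
    (hD : ∀ z ∈ Dn, 2 * m ≤ z ∧ z < 2 * m + L ∧ (z ∈ G ∨ Irr G z)) :
    (#Dn : ℤ) * (#Dn + 2 * #(part G m (m + L)) - L - 1) ≤
      2 * ((∑ x ∈ part G m (m + L), bet m (part G m (m + L)) x : ℕ) : ℤ) := by
  apply sum_bound
  · intro x hx
    simp only [part, mem_filter, mem_Ico] at hx
    exact hx.1
  · simp only [part, mem_filter, mem_Ico]
    exact ⟨⟨le_rfl, by omega⟩, H.mS⟩
  · intro z hz
    exact ⟨(hD z hz).1, (hD z hz).2.1⟩
  · intro x hx y hy hz
    simp only [part, mem_filter, mem_Ico] at hx hy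
    have := H.mpos
    rcases (hD _ hz).2.2 with h | h
    · exact H.cl x y (by omega) (by omega) hx.2 hy.2 h
    · exact h.2.2 x y (by omega) (by omega) hx.2 hy.2 rfl

theorem NS.shift (H : NS G m) (L : ℕ) (Dn : Finset ℕ)
    (hD : ∀ z ∈ Dn, 2 * m ≤ z ∧ z < 2 * m + L ∧ (z ∈ G ∨ Irr G z)) : #Dn ≤ gb G m (m + L) := by
  unfold gb
  apply card_le_card_of_injOn (fun z => z - m)
  · intro z hz
    have h := hD z hz
    have := H.mpos
    simp only [coe_filter, mem_Ico, Set.mem_ofPred_eq]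
    refine ⟨⟨by omega, by omega⟩, H.down h.2.2 (by omega) (by omega) ?_⟩
    conv_rhs => rw [show z = z - m + m by omega]
    rw [Nat.add_mod_right]
  · intro z hz w hw h
    have := hD z hz
    have := hD w hw
    simp only at h
    omega

theorem gc_le {x t : ℕ} (h : t ≤ x + 1) : Gc G x ≤ #(G.filter (fun y => t ≤ y)) := by
  unfold Gc
  apply card_le_card
  intro z hz
  simp only [mem_filter] at hz ⊢
  exact ⟨hz.1, by omega⟩

theorem NS.depth3 (H : NS G m) (F : ℕ) (hF : F ∈ G) (hF' : ∀ y ∈ G, y ≤ F) (h2 : 2 * m ≤ F)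
    (h3 : F < 3 * m) (hn : 13 ≤ #G) : 8 * wt G + 5 ≤ (#G + 1) ^ 2 := by
  have hm := H.mpos
  obtain ⟨L, hL⟩ : ∃ L, F + 1 = 2 * m + L := ⟨F + 1 - 2 * m, by omega⟩
  have e1 := H.card_eq
  have e2 := lev1_card G m
  have e3 := H.h_eq
  have e4 := H.split F hF'
  set E := (Ico (2 * m) F).filter (Irr G) with hE
  set Y := G.filter (fun y => 2 * m ≤ y) with hY
  have e5 : ∑ x ∈ E, Gc G x ≤ #E * #Y := by
    rw [← smul_eq_mul, ← sum_const]
    apply sum_le_sum
    intro x hx
    simp only [hE, mem_filter, mem_Ico] at hx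
    exact gc_le (by omega)
  have hdj : Disjoint Y E := by
    rw [disjoint_left]
    intro z hz hz'
    exact (mem_filter.1 hz').2.2.1 (mem_filter.1 hz).1
  have hD : ∀ z ∈ Y ∪ E, 2 * m ≤ z ∧ z < 2 * m + L ∧ (z ∈ G ∨ Irr G z) := by
    intro z hz
    simp only [hY, hE, mem_union, mem_filter, mem_Ico] at hz
    rcases hz with hz | hz
    · have := hF' z hz.1
      exact ⟨hz.2, by omega, Or.inl hz.1⟩
    · exact ⟨hz.1.1, by omega, Or.inr hz.2⟩
  have e6 := H.sumb L (by omega) _ hD
  have e7 := H.shift L _ hD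
  rw [card_union_of_disjoint hdj] at e6 e7
  have e8 := part_card G m L
  have e9 := lowpart (G := G) (m := m) (M := m + L) (by omega)
  have e10 : #(part G m (m + L)) ≤ #(lev1 G m) := card_le_card (part_sub (by omega))
  have e11 : #(part G m (m + L)) ≤ gb G m (m + L) := by
    unfold gb
    apply card_le_card_of_injOn (fun z => F - z)
    · intro z hz
      simp only [part, coe_filter, mem_Ico, Set.mem_ofPred_eq] at hz ⊢
      exact ⟨⟨by omega, by omega⟩, H.refl hF (by omega) hz.2 (by omega)⟩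
    · intro z hz w hw h
      simp only [part, coe_filter, mem_Ico, Set.mem_ofPred_eq] at hz hw h
      omega
  have e12 : 1 ≤ #(part G m (m + L)) := by
    apply card_pos.2
    refine ⟨m, ?_⟩
    simp only [part, mem_filter, mem_Ico]
    exact ⟨⟨le_rfl, by omega⟩, H.mS⟩
  have e13 : 1 ≤ #Y := card_pos.2 ⟨F, mem_filter.2 ⟨hF, h2⟩⟩
  have e14 : gb G m (m + L) ≤ #((Ico m (2 * m)).filter (fun z => z ∈ G)) :=
    gb_mono (y := 2 * m) (by omega)
  generalize #((Ico m (2 * m)).filter (fun z => z ∈ G)) = b at *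
  generalize ∑ x ∈ part G m (m + L), bet m (part G m (m + L)) x = J at *
  generalize ∑ x ∈ lev1 G m, bet m (lev1 G m) x = I at *
  generalize #(part G m (m + L)) = al at *
  generalize gb G m (m + L) = be at *
  generalize #(lev1 G m) = a at *
  generalize ∑ x ∈ E, Gc G x = SE at *
  generalize #E = e at *
  generalize #Y = y at *
  generalize Gc G m = h at *
  generalize wt G = W at *
  generalize #G = g at *
  have := core2 W J a b y e al be (by omega) (by omega) (by omega) (by omega) (by omega) (by omega)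
    (by omega) (by omega) ?_ ?_ (by omega)
  · have e : (a + 2 * b + y : ℤ) = g + 1 := by omega
    rw [e] at this
    exact_mod_cast this
  · subst e3
    zify [e10] at e4 e5 e9
    linarith
  · have : (L : ℤ) = al + be := by omega
    rw [this] at e6
    push_cast at e6
    linarith

end Pool.Agent.H1.Ew
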