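import Pool.Agent.H1.EwD

namespace Pool.Agent.H1.Ew

open Finset Classical

variable {G : Finset ℕ} {m : ℕ}

theorem NS.inj_level (H : NS G m) (k : ℕ) (hk : 1 ≤ k) (T : Finset ℕ) (P : ℕ → Prop)
    [DecidablePred P]
    (hP : ∀ z ∈ G, P z) (hT : ∀ t ∈ T, (t ∈ G ∨ Irr G t) ∧ k * m ≤ t ∧ (t < k * m + m → P t))
    (hinj : ∀ s ∈ T, ∀ t ∈ T, s < t → s % m ≠ t % m) :
    #T ≤ #((Ico (k * m) (k * m + m)).filter P) := by
  have hm := H.mpos
  have hkm : 0 < k * m := Nat.mul_pos hk hm
  apply card_le_card_of_injOn (fun z => k * m + z % m)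
  · intro t ht
    obtain ⟨h1, h2, h3⟩ := hT t ht
    have h4 := Nat.mod_lt t hm
    have h5 : (k * m + t % m) % m = t % m := by
      rw [Nat.mul_add_mod_self_right, Nat.mod_mod]
    simp only [coe_filter, mem_Ico, Set.mem_ofPred_eq]
    refine ⟨⟨by omega, by omega⟩, ?_⟩
    rcases lt_trichotomy (k * m + t % m) t with h | h | h
    · exact hP _ (H.down h1 (by omega) h h5)
    · rw [h]; exact h3 (by omega)
    · have := step h h5.symm
      omega
  · intro s hs t ht h
    simp only [add_right_inj] at h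
    rcases lt_trichotomy s t with h' | h' | h'
    · exact absurd h (hinj s hs t ht h')
    · exact h'
    · exact absurd h.symm (hinj t ht s hs h')

theorem NS.refl_set (H : NS G m) (F : ℕ) (hF : F ∈ G) (h3 : 3 * m ≤ F) (El : Finset ℕ)
    (hEl : ∀ x ∈ El, Irr G x ∧ 2 * m ≤ x ∧ x + m ≤ F) :
    ∃ T : Finset ℕ, #T = #(lev1 G m) + #El ∧
      (∀ t ∈ T, (t ∈ G ∧ F < t + 2 * m) ∨ t ∈ El) ∧
      (∀ s ∈ T, ∀ t ∈ T, s < t → s % m ≠ t % m) := by
  have hm := H.mpos
  have hA : ∀ x ∈ lev1 G m, m ≤ x ∧ x < 2 * m ∧ x ∉ G := by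
    intro x hx
    simp only [lev1, mem_filter, mem_Ico] at hx
    exact ⟨hx.1.1, hx.1.2, hx.2⟩
  have hcross : ∀ x ∈ lev1 G m, ∀ t ∈ El, (F - x) % m ≠ t % m := by
    intro x hx t ht h
    obtain ⟨a1, a2, a3⟩ := hA x hx
    obtain ⟨b1, b2, b3⟩ := hEl t ht
    have h1 : (x + t) % m = F % m := by
      conv_rhs => rw [show F = x + (F - x) by omega]
      rw [Nat.add_mod, ← h, ← Nat.add_mod]
    have h2 : x + t ∉ G := H.cl x t (by omega) b1.1 a3 b1.2.1
    by_cases h4 : x + t ≤ F
    · exact H.up (by omega) h2 h4 h1 hF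
    · have := step (by omega : F < x + t) h1.symm
      omega
  refine ⟨(lev1 G m).image (fun x => F - x) ∪ El, ?_, ?_, ?_⟩
  · rw [card_union_of_disjoint, card_image_of_injOn]
    · intro x hx y hy h
      have := hA x hx
      have := hA y hy
      simp only at h
      omega
    · rw [disjoint_left]
      intro z hz hz'
      obtain ⟨x, hx, rfl⟩ := mem_image.1 hz
      exact hcross x hx _ hz' rfl
  · intro t ht
    rcases mem_union.1 ht with ht | ht
    · obtain ⟨x, hx, rfl⟩ := mem_image.1 ht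
      obtain ⟨a1, a2, a3⟩ := hA x hx
      exact Or.inl ⟨H.refl hF (by omega) a3 (by omega), by omega⟩
    · exact Or.inr ht
  · intro s hs t ht hst h
    rcases mem_union.1 hs with hs | hs <;> rcases mem_union.1 ht with ht | ht
    · obtain ⟨x, hx, rfl⟩ := mem_image.1 hs
      obtain ⟨y, hy, rfl⟩ := mem_image.1 ht
      have := hA x hx
      have := hA y hy
      have := step hst h
      omega
    · obtain ⟨x, hx, rfl⟩ := mem_image.1 hs
      exact hcross x hx _ ht h
    · obtain ⟨x, hx, rfl⟩ := mem_image.1 ht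
      exact hcross x hx _ hs h.symm
    · exact (hEl s hs).1.2.1 (H.down (Or.inr (hEl t ht).1) (hEl s hs).1.1 hst h)

theorem NS.rep (H : NS G m) {z : ℕ} (hz : z ∈ G) (h2 : 2 * m ≤ z) :
    2 * m + z % m ∈ (Ico (2 * m) (2 * m + m)).filter (fun z => z ∈ G) := by
  have hm := H.mpos
  have h4 := Nat.mod_lt z hm
  have h5 : (2 * m + z % m) % m = z % m := by
    rw [Nat.mul_add_mod_self_right, Nat.mod_mod]
  simp only [mem_filter, mem_Ico]
  refine ⟨⟨by omega, by omega⟩, ?_⟩
  rcases lt_trichotomy (2 * m + z % m) z with h | h | h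
  · exact H.down (Or.inl hz) (by omega) h h5
  · rw [h]; exact hz
  · have := step h h5.symm
    omega

theorem NS.thin (H : NS G m) (F : ℕ) (hF : F ∈ G) (hF' : ∀ y ∈ G, y ≤ F) (h3 : 3 * m ≤ F)
    (h1 : #((Ico (2 * m) (2 * m + m)).filter (fun z => z ∈ G)) ≤ 1) :
    #(G.filter (fun y => 2 * m ≤ y)) ≤ 3 ∨ m ≤ 2 := by
  have hm := H.mpos
  have hres : ∀ z ∈ G, 2 * m ≤ z → z % m = F % m := by
    intro z hz h2
    have := card_le_one.1 h1 _ (H.rep hz h2) _ (H.rep hF (by omega))
    omega
  by_cases h5 : F < 5 * m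
  · left
    calc #(G.filter (fun y => 2 * m ≤ y)) ≤ #({F, F - m, F - 2 * m} : Finset ℕ) := by
          apply card_le_card
          intro z hz
          rw [mem_filter] at hz
          have h6 := hF' z hz.1
          obtain ⟨k, hk⟩ := (Nat.modEq_iff_dvd' h6).1 (hres z hz.1 hz.2)
          simp only [mem_insert, mem_singleton]
          rcases k with _ | _ | _ | k
          · omega
          · omega
          · omega
          · have : m * (k + 1 + 1 + 1) = m * k + 3 * m := by ring
            omega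
      _ ≤ 3 := card_le_three
  · right
    by_contra hm2
    have hF0 : F % m ≠ 0 := by
      intro h
      exact H.up hm H.mS (by omega) (by rw [h, Nat.mod_self]) hF
    obtain ⟨r, hr0, hr1, hr2⟩ : ∃ r, 0 < r ∧ r < m ∧ r ≠ F % m := by
      by_cases h : F % m = 1
      · exact ⟨2, by omega, by omega, by omega⟩
      · exact ⟨1, by omega, by omega, by omega⟩
    have hr : (2 * m + r) % m = r := by
      rw [Nat.mul_add_mod_self_right, Nat.mod_eq_of_lt hr1]
    have hc : 2 * m + r ∉ G := by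
      intro h
      have := hres _ h (by omega)
      omega
    have h7 := H.refl hF (by omega) hc (by omega)
    have h8 := hres _ h7 (by omega)
    obtain ⟨k, hk⟩ := (Nat.modEq_iff_dvd' (by omega : F - (2 * m + r) ≤ F)).1 h8
    have : 2 * m + r = m * k := by omega
    rw [this, Nat.mul_mod_right] at hr
    omega

end Pool.Agent.H1.Ew
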