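import Pool.Agent.H1.EwE

namespace Pool.Agent.H1.Ew

open Finset Classical

variable {G : Finset ℕ} {m : ℕ}

theorem NS.depth4 (H : NS G m) (F : ℕ) (hF : F ∈ G) (hF' : ∀ y ∈ G, y ≤ F) (h3 : 3 * m ≤ F)
    (hn : 13 ≤ #G) : 8 * wt G + 5 ≤ (#G + 1) ^ 2 := by
  have hm := H.mpos
  have e1 := H.card_eq
  have e2 := lev1_card G m
  have e3 := H.h_eq
  have e4 := H.split F hF'
  set E := (Ico (2 * m) F).filter (Irr G) with hE
  set Y := G.filter (fun y => 2 * m ≤ y) with hY
  set El := E.filter (fun x => x + m ≤ F) with hEl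
  set Et := E.filter (fun x => ¬ (x + m ≤ F)) with hEt
  set Q := G.filter (fun y => F + 1 - m ≤ y) with hQ
  set Dn := (Ico (2 * m) (2 * m + m)).filter (fun z => z ∈ G ∨ Irr G z) with hDn
  set Y2 := (Ico (2 * m) (2 * m + m)).filter (fun z => z ∈ G) with hY2
  have mEl : ∀ x ∈ El, Irr G x ∧ 2 * m ≤ x ∧ x + m ≤ F := by
    intro x hx
    simp only [hEl, hE, mem_filter, mem_Ico] at hx
    exact ⟨hx.1.2, hx.1.1.1, hx.2⟩
  have mEt : ∀ x ∈ Et, Irr G x ∧ x < F ∧ F < x + m := by
    intro x hx
    simp only [hEt, hE, mem_filter, mem_Ico] at hx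
    exact ⟨hx.1.2, hx.1.1.2, by omega⟩
  have mQ : ∀ x ∈ Q, x ∈ G ∧ x ≤ F ∧ F < x + m := by
    intro x hx
    simp only [hQ, mem_filter] at hx
    exact ⟨hx.1, hF' x hx.1, by omega⟩
  have f1 : ∑ x ∈ El, Gc G x + ∑ x ∈ Et, Gc G x = ∑ x ∈ E, Gc G x :=
    sum_filter_add_sum_filter_not _ _ _
  have f2 : ∑ x ∈ Et, Gc G x ≤ #Et * #Q := by
    rw [← smul_eq_mul, ← sum_const]
    apply sum_le_sum
    intro x hx
    have := mEt x hx
    exact gc_le (by omega)
  have f3 : ∑ x ∈ El, Gc G x + #(El.filter (fun x => 3 * m ≤ x)) ≤ #El * #Y := by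
    rw [← smul_eq_mul (#El), ← sum_const, card_filter, ← sum_add_distrib]
    apply sum_le_sum
    intro x hx
    have := mEl x hx
    split_ifs with h
    · have hz := H.rep hF (by omega)
      simp only [mem_filter, mem_Ico] at hz
      have : insert (2 * m + F % m) (G.filter (fun y => x < y)) ⊆ Y := by
        intro z hz'
        rcases mem_insert.1 hz' with rfl | hz'
        · exact mem_filter.2 ⟨hz.2, by omega⟩
        · rw [mem_filter] at hz'
          exact mem_filter.2 ⟨hz'.1, by omega⟩
      have := card_le_card this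
      rw [card_insert_of_notMem (by simp only [mem_filter]; omega)] at this
      exact this
    · exact gc_le (by omega)
  obtain ⟨T, hT1, hT2, hT3⟩ := H.refl_set F hF h3 El mEl
  have f4 : #T ≤ #((Ico (1 * m) (1 * m + m)).filter (fun z => z ∈ G)) := by
    apply H.inj_level 1 le_rfl T _ (fun z hz => hz) _ hT3
    intro t ht
    rcases hT2 t ht with h | h
    · exact ⟨Or.inl h.1, by omega, fun _ => h.1⟩
    · have := mEl t h
      exact ⟨Or.inr this.1, by omega, fun _ => by omega⟩
  rw [one_mul, ← two_mul, hT1] at f4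
  have f5 : #(Et ∪ Q ∪ El) ≤ #Dn := by
    apply H.inj_level 2 (by omega) _ _ (fun z hz => Or.inl hz)
    · intro t ht
      simp only [mem_union] at ht
      rcases ht with (h | h) | h
      · have := mEt t h
        exact ⟨Or.inr this.1, by omega, fun _ => Or.inr this.1⟩
      · have := mQ t h
        exact ⟨Or.inl this.1, by omega, fun _ => Or.inl this.1⟩
      · have := mEl t h
        exact ⟨Or.inr this.1, by omega, fun _ => Or.inr this.1⟩
    · intro s hs t ht hst h
      simp only [mem_union] at hs ht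
      have a1 : (t ∈ G ∨ Irr G t) ∧ t ≤ F := by
        rcases ht with (h | h) | h
        · exact ⟨Or.inr (mEt t h).1, (mEt t h).2.1.le⟩
        · exact ⟨Or.inl (mQ t h).1, (mQ t h).2.1⟩
        · have := mEl t h
          exact ⟨Or.inr this.1, by omega⟩
      have a2 := step hst h
      rcases hs with (h' | h') | h'
      · have := mEt s h'
        omega
      · have := mQ s h'
        omega
      · have := mEl s h'
        exact this.1.2.1 (H.down a1.1 this.1.1 hst h)
  rw [card_union_of_disjoint, card_union_of_disjoint] at f5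
  rotate_left
  · rw [disjoint_left]
    intro z hz hz'
    exact (mEt z hz).1.2.1 (mQ z hz').1
  · rw [disjoint_left]
    intro z hz hz'
    have := mEl z hz'
    rcases mem_union.1 hz with h | h
    · have := mEt z h
      omega
    · have := mQ z h
      omega
  have hD : ∀ z ∈ Dn, 2 * m ≤ z ∧ z < 2 * m + m ∧ (z ∈ G ∨ Irr G z) := by
    intro z hz
    simp only [hDn, mem_filter, mem_Ico] at hz
    exact ⟨hz.1.1, hz.1.2, hz.2⟩
  have f6 := H.sumb m hm _ hD
  have f7 := H.shift m _ hD
  rw [← two_mul] at f6 f7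
  change (#Dn : ℤ) * (#Dn + 2 * #(lev1 G m) - m - 1) ≤
      2 * ((∑ x ∈ lev1 G m, bet m (lev1 G m) x : ℕ) : ℤ) at f6
  change #Dn ≤ #((Ico m (2 * m)).filter (fun z => z ∈ G)) at f7
  have f8 : 1 ≤ #Q := card_pos.2 ⟨F, mem_filter.2 ⟨hF, by omega⟩⟩
  have hFm : F - m ∈ G := H.refl hF hm H.mS (by omega)
  have f9 : #Q + 1 ≤ #Y := by
    have : insert (F - m) Q ⊆ Y := by
      intro z hz'
      rcases mem_insert.1 hz' with rfl | hz'
      · exact mem_filter.2 ⟨hFm, by omega⟩
      · have := mQ z hz'
        exact mem_filter.2 ⟨this.1, by omega⟩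
    have := card_le_card this
    rw [card_insert_of_notMem (by simp only [hQ, mem_filter]; omega)] at this
    exact this
  have f10 : 1 ≤ #(lev1 G m) := card_pos.2 ⟨m, H.mem_lev1⟩
  have f11 : (∀ x ∈ El, x < 3 * m) → #Y2 + #El ≤ #Dn := by
    intro h
    rw [← card_union_of_disjoint]
    · apply card_le_card
      intro z hz
      simp only [hDn, mem_filter, mem_Ico]
      rcases mem_union.1 hz with hz | hz
      · simp only [hY2, mem_filter, mem_Ico] at hz
        exact ⟨hz.1, Or.inl hz.2⟩
      · have := mEl z hz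
        have := h z hz
        exact ⟨⟨by omega, by omega⟩, Or.inr (mEl z hz).1⟩
    · rw [disjoint_left]
      intro z hz hz'
      exact (mEl z hz').1.2.1 (mem_filter.1 hz).2
  have f12 : (∃ y : ℤ, 1 ≤ y ∧ y + #El ≤ #Dn ∧
        (#(lev1 G m) - y) * y ≤ ((∑ x ∈ lev1 G m, bet m (lev1 G m) x : ℕ) : ℤ) ∧
        (#Y : ℤ) + 2 * #El ≤ 2 * #Dn) ∨
      ((#(lev1 G m) : ℤ) + #El ≤ #Dn ∧ ((1 : ℤ) ≤ #(El.filter (fun x => 3 * m ≤ x)) ∨
        (#El : ℤ) + 2 ≤ #Dn ∨ (#Y : ℤ) ≤ 3 ∨
        (#(lev1 G m) : ℤ) + #((Ico m (2 * m)).filter (fun z => z ∈ G)) ≤ 2)) := by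
    by_cases h4 : F < 4 * m
    · left
      obtain ⟨L, hL⟩ : ∃ L, F + 1 = 3 * m + L := ⟨F + 1 - 3 * m, by omega⟩
      set YP := (Ico (2 * m) (2 * m + L)).filter (fun z => z ∈ G) with hYP
      have g1 := f11 (fun x hx => by have := mEl x hx; omega)
      have g2 : #YP ≤ #Y2 := by
        apply card_le_card
        intro z hz
        simp only [hYP, hY2, mem_filter, mem_Ico] at hz ⊢
        exact ⟨⟨hz.1.1, by omega⟩, hz.2⟩
      have g3 : 1 ≤ #YP := card_pos.2 ⟨F - m, by
        simp only [hYP, mem_filter, mem_Ico]; exact ⟨⟨by omega, by omega⟩, hFm⟩⟩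
      have g4 : #Y ≤ #Y2 + #Y2 := by
        calc #Y ≤ #(Y2 ∪ Y2.image (fun z => z + m)) := by
              apply card_le_card
              intro z hz
              simp only [hY, mem_filter] at hz
              have := hF' z hz.1
              simp only [hY2, mem_union, mem_image, mem_filter, mem_Ico]
              by_cases h : z < 3 * m
              · exact Or.inl ⟨⟨hz.2, by omega⟩, hz.1⟩
              · exact Or.inr ⟨z - m, ⟨⟨by omega, by omega⟩, H.refl hz.1 hm H.mS (by omega)⟩, by omega⟩
          _ ≤ #Y2 + #(Y2.image (fun z => z + m)) := card_union_le _ _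
          _ ≤ #Y2 + #Y2 := Nat.add_le_add_left card_image_le _
      have g5 : #YP ≤ gb G m (m + L) := by
        apply H.shift L
        intro z hz
        simp only [hYP, mem_filter, mem_Ico] at hz
        exact ⟨hz.1.1, hz.1.2, Or.inl hz.2⟩
      have g6 : #(part G m (m + L)) ≤ #YP := by
        apply card_le_card_of_injOn (fun z => F - z)
        · intro z hz
          simp only [hYP, part, coe_filter, mem_Ico, Set.mem_ofPred_eq] at hz ⊢
          exact ⟨⟨by omega, by omega⟩, H.refl hF (by omega) hz.2 (by omega)⟩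
        · intro z hz w hw h
          simp only [part, coe_filter, mem_Ico, Set.mem_ofPred_eq] at hz hw h
          omega
      have g7 := lowpart (G := G) (m := m) (M := m + L) (by omega)
      have g8 : (#(lev1 G m) - #YP) * #YP ≤ ∑ x ∈ lev1 G m, bet m (lev1 G m) x :=
        le_trans (Nat.mul_le_mul (by omega) g5) (le_trans (Nat.le_add_left _ _) g7)
      refine ⟨#YP, by omega, by omega, ?_, by omega⟩
      by_cases h : #YP ≤ #(lev1 G m)
      · zify [h] at g8
        push_cast
        exact g8
      · have : ((#(lev1 G m) : ℤ) - #YP) * #YP ≤ 0 :=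
          mul_nonpos_of_nonpos_of_nonneg (by omega) (by omega)
        omega
    · right
      have g1 : #T ≤ #Dn := by
        apply H.inj_level 2 (by omega) T _ (fun z hz => Or.inl hz) _ hT3
        intro t ht
        rcases hT2 t ht with h | h
        · exact ⟨Or.inl h.1, by omega, fun _ => Or.inl h.1⟩
        · have := mEl t h
          exact ⟨Or.inr this.1, by omega, fun _ => Or.inr this.1⟩
      refine ⟨by omega, ?_⟩
      by_cases g2 : 1 ≤ #(El.filter (fun x => 3 * m ≤ x))
      · left; omega
      · have g3 := f11 (fun x hx => by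
          by_contra h
          exact g2 (card_pos.2 ⟨x, mem_filter.2 ⟨hx, by omega⟩⟩))
        by_cases g4 : #Y2 ≤ 1
        · have := H.thin F hF hF' h3 g4
          rw [← hY] at this
          omega
        · omega
  generalize #((Ico m (2 * m)).filter (fun z => z ∈ G)) = b at *
  generalize ∑ x ∈ lev1 G m, bet m (lev1 G m) x = I at *
  generalize #(lev1 G m) = a at *
  generalize ∑ x ∈ E, Gc G x = SE at *
  generalize ∑ x ∈ El, Gc G x = SEl at *
  generalize ∑ x ∈ Et, Gc G x = SEt at *
  generalize #(El.filter (fun x => 3 * m ≤ x)) = e3' at *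
  generalize #El = e at *
  generalize #Et = p at *
  generalize #Q = q at *
  generalize #Dn = D at *
  generalize #Y = y at *
  generalize Gc G m = h at *
  generalize wt G = W at *
  generalize #G = g at *
  have := core3 W I a b y e e3' p q D (by omega) (by omega) (by omega) (by omega) (by omega)
    (by omega) ?_ (by omega) (by omega) (by omega) ?_ (by omega) f12 (by omega)
  · have e : (a + 2 * b + y : ℤ) = g + 1 := by omega
    rw [e] at this
    exact_mod_cast this
  · subst e3
    zify at e4 f1 f2 f3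
    linarith
  · have : (m : ℤ) = a + b := by omega
    rw [this] at f6
    linarith

end Pool.Agent.H1.Ew
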