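import Pool.Agent.H1.EwF

namespace Pool.Agent.H1.Ew

open Finset Classical

def spor : List (List ℕ) :=
  [[1, 3, 5], [1, 2, 4, 7], [1, 3, 5, 7], [1, 2, 3, 5, 9], [1, 2, 4, 5, 8], [1, 3, 5, 7, 9],
   [1, 2, 3, 5, 7, 11], [1, 2, 3, 6, 7, 11], [1, 2, 4, 5, 8, 11], [1, 2, 3, 5, 7, 9, 13],
   [1, 2, 3, 5, 7, 9, 11, 15], [1, 2, 3, 4, 5, 9, 10, 11, 17], [1, 2, 3, 5, 7, 9, 11, 13, 17]]

def sumB (s x : ℕ) : ℕ → Bool
  | 0 => false
  | u + 1 => (!(s.testBit (u + 1)) && !(s.testBit (x - (u + 1)))) || sumB s x u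

def sporB (s : ℕ) : Bool :=
  spor.any (fun l => (List.range 25).all (fun i => s.testBit i == l.contains i))

def shallowB (s : ℕ) : Bool :=
  (List.range 14).all (fun x => x == 0 || s.testBit x || decide (s < 2 ^ (2 * x)))

def finalB (s g w : ℕ) : Bool :=
  if w = (g + 1) ^ 2 / 8 then shallowB s || sporB s
  else decide (w < (g + 1) ^ 2 / 8) && !(sporB s)

def go : ℕ → ℕ → ℕ → ℕ → ℕ → ℕ → Bool
  | 0, _, s, g, _, w => finalB s g w
  | f + 1, x, s, g, r, w =>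
    if sumB s x (x - 1) then go f (x + 1) s g r w
    else go f (x + 1) s g (r + 1) w &&
      (decide (12 ≤ g) || go f (x + 1) (s ||| 2 ^ x) (g + 1) r (w + r))

theorem go_true : go 24 1 0 0 0 0 = true := by decide +kernel

end Pool.Agent.H1.Ew
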