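import Pool.Agent.H1.EwG

namespace Pool.Agent.H1.Ew

open Finset Classical

variable {G : Finset ℕ} {m : ℕ}

theorem sumB_iff (s x k : ℕ) : sumB s x k = true ↔
    ∃ u, 1 ≤ u ∧ u ≤ k ∧ s.testBit u = false ∧ s.testBit (x - u) = false := by
  induction k with
  | zero => simp only [sumB]; constructor
            · intro h; exact absurd h (by simp)
            · rintro ⟨u, h1, h2, -⟩; omega
  | succ k ih =>
    simp only [sumB, Bool.or_eq_true, Bool.and_eq_true, Bool.not_eq_true', ih]
    constructor
    · rintro (h | ⟨u, h1, h2, h3⟩)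
      · exact ⟨k + 1, by omega, le_rfl, h⟩
      · exact ⟨u, h1, by omega, h3⟩
    · rintro ⟨u, h1, h2, h3⟩
      by_cases h : u = k + 1
      · subst h; exact Or.inl h3
      · exact Or.inr ⟨u, h1, by omega, h3⟩

theorem filt_in {x : ℕ} (hx : x ∈ G) :
    G.filter (fun y => y < x + 1) = insert x (G.filter (fun y => y < x)) := by
  ext z
  simp only [mem_filter, mem_insert]
  constructor
  · rintro ⟨h1, h2⟩
    by_cases h : z = x
    · exact Or.inl h
    · exact Or.inr ⟨h1, by omega⟩
  · rintro (rfl | ⟨h1, h2⟩)
    · exact ⟨hx, by omega⟩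
    · exact ⟨h1, by omega⟩

theorem filt_out {x : ℕ} (hx : x ∉ G) :
    G.filter (fun y => y < x + 1) = G.filter (fun y => y < x) := by
  ext z
  simp only [mem_filter]
  constructor
  · rintro ⟨h1, h2⟩
    have : z ≠ x := fun h => hx (h ▸ h1)
    exact ⟨h1, by omega⟩
  · rintro ⟨h1, h2⟩
    exact ⟨h1, by omega⟩

theorem go_sound (H : NS G m) (hg : #G ≤ 12) (hb : ∀ y ∈ G, y < 25) :
    ∀ f x s g r w, f + x = 25 → 1 ≤ x → (∀ i, s.testBit i = decide (i ∈ G ∧ i < x)) →
      g = #(G.filter (fun y => y < x)) → r = #((range x).filter (Irr G)) →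
      w = ∑ y ∈ G.filter (fun y => y < x), #((range y).filter (Irr G)) →
      go f x s g r w = true →
      ∃ s : ℕ, (∀ i, s.testBit i = decide (i ∈ G)) ∧ finalB s #G (wt G) = true := by
  intro f
  induction f with
  | zero =>
    intro x s g r w hx _ hs hg' _ hw h
    have hx' : x = 25 := by omega
    subst hx'
    have e : G.filter (fun y => y < 25) = G := filter_true_of_mem hb
    rw [e] at hg' hw
    refine ⟨s, fun i => ?_, ?_⟩
    · rw [hs i]
      by_cases hi : i ∈ G
      · simp [hi, hb i hi]
      · simp [hi]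
    · subst hg' hw
      exact h
  | succ f ih =>
    intro x s g r w hx hx1 hs hg' hr hw h
    have hsum : sumB s x (x - 1) = true ↔ ∃ u v, 0 < u ∧ 0 < v ∧ u ∉ G ∧ v ∉ G ∧ u + v = x := by
      rw [sumB_iff]
      constructor
      · rintro ⟨u, h1, h2, h3, h4⟩
        rw [hs] at h3 h4
        simp only [decide_eq_false_iff_not, not_and] at h3 h4
        exact ⟨u, x - u, by omega, by omega, fun h => h3 h (by omega), fun h => h4 h (by omega),
          by omega⟩
      · rintro ⟨u, v, h1, h2, h3, h4, rfl⟩
        refine ⟨u, h1, by omega, ?_, ?_⟩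
        · rw [hs]; simp [h3]
        · rw [hs]; simp [h4]
    have hs' : x ∉ G → ∀ i, s.testBit i = decide (i ∈ G ∧ i < x + 1) := by
      intro hxG i
      rw [hs i]
      by_cases hi : i ∈ G
      · have : i ≠ x := fun h => hxG (h ▸ hi)
        simp only [hi, true_and, decide_eq_decide]
        omega
      · simp [hi]
    rw [go] at h
    by_cases c : sumB s x (x - 1) = true
    · rw [if_pos c] at h
      obtain ⟨u, v, h1, h2, h3, h4, h5⟩ := hsum.1 c
      have hxG : x ∉ G := h5 ▸ H.cl u v h1 h2 h3 h4
      refine ih (x + 1) s g r w (by omega) (by omega) (hs' hxG) (by rw [filt_out hxG]; exact hg') ?_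
        (by rw [filt_out hxG]; exact hw) h
      rw [range_add_one, filter_insert, if_neg (fun hi => hi.2.2 u v h1 h2 h3 h4 h5)]
      exact hr
    · rw [if_neg c, Bool.and_eq_true] at h
      by_cases hxG : x ∈ G
      · have h12 : ¬ 12 ≤ g := by
          have h1 := card_le_card (filter_subset (fun y => y < x + 1) G)
          rw [filt_in hxG, card_insert_of_notMem (by simp)] at h1
          omega
        have h2 := h.2
        simp only [h12, decide_false, Bool.false_or] at h2
        refine ih (x + 1) _ _ _ _ (by omega) (by omega) ?_ ?_ ?_ ?_ h2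
        · intro i
          rw [Nat.testBit_or, hs i, Nat.testBit_two_pow]
          by_cases hi : x = i
          · subst hi; simp [hxG]
          · by_cases hi' : i ∈ G
            · simp only [hi, hi', true_and, decide_false, Bool.or_false, decide_eq_decide]
              omega
            · simp [hi, hi']
        · rw [filt_in hxG, card_insert_of_notMem (by simp), hg']
        · rw [range_add_one, filter_insert, if_neg (fun hi => hi.2.1 hxG)]
          exact hr
        · rw [filt_in hxG, sum_insert (by simp), hw, hr, add_comm]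
      · refine ih (x + 1) s g (r + 1) w (by omega) (by omega) (hs' hxG)
          (by rw [filt_out hxG]; exact hg') ?_ (by rw [filt_out hxG]; exact hw) h.1
        have hi : Irr G x := ⟨by omega, hxG, fun u v h1 h2 h3 h4 h5 =>
          c (hsum.2 ⟨u, v, h1, h2, h3, h4, h5⟩)⟩
        rw [range_add_one, filter_insert, if_pos hi, card_insert_of_notMem (by simp), hr]

theorem NS.gap_le (H : NS G m) {y : ℕ} (hy : y ∈ G) : y + 1 ≤ 2 * #G := by
  have h0 : y ≠ 0 := fun h => H.pos (h ▸ hy)
  have h1 := card_filter_add_card_filter_not (s := Ico 1 y) (fun z => z ∈ G)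
  rw [Nat.card_Ico] at h1
  have h2 : #((Ico 1 y).filter (fun z => z ∉ G)) ≤ #((Ico 1 y).filter (fun z => z ∈ G)) := by
    apply card_le_card_of_injOn (fun z => y - z)
    · intro z hz
      simp only [coe_filter, mem_Ico, Set.mem_ofPred_eq] at hz ⊢
      exact ⟨⟨by omega, by omega⟩, H.refl hy (by omega) hz.2 (by omega)⟩
    · intro z hz w hw h
      simp only [coe_filter, mem_Ico, Set.mem_ofPred_eq] at hz hw h
      omega
  have h3 : insert y ((Ico 1 y).filter (fun z => z ∈ G)) ⊆ G := by
    intro z hz
    rcases mem_insert.1 hz with rfl | hz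
    · exact hy
    · exact (mem_filter.1 hz).2
  have h4 := card_le_card h3
  rw [card_insert_of_notMem (by simp)] at h4
  omega

theorem spor_lt : ∀ l ∈ spor, ∀ i ∈ l, i < 25 := by decide

theorem NS.small (H : NS G m) (hg : #G ≤ 12) :
    wt G ≤ (#G + 1) ^ 2 / 8 ∧
    (wt G = (#G + 1) ^ 2 / 8 → (∀ y ∈ G, y < 2 * m) ∨ ∃ l ∈ spor, G = l.toFinset) ∧
    ((∃ l ∈ spor, G = l.toFinset) → wt G = (#G + 1) ^ 2 / 8) := by
  have hb : ∀ y ∈ G, y < 25 := fun y hy => by have := H.gap_le hy; omega
  have h0 : G.filter (fun y => y < 1) = ∅ := by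
    apply filter_false_of_mem
    intro y hy h
    have : y = 0 := by omega
    exact H.pos (this ▸ hy)
  obtain ⟨s, hs, hf⟩ := go_sound H hg hb 24 1 0 0 0 0 rfl le_rfl (by
      intro i
      have : ¬ (i ∈ G ∧ i < 1) := by
        rintro ⟨h1, h2⟩
        have : i = 0 := by omega
        exact H.pos (this ▸ h1)
      simp only [Nat.zero_testBit, this, decide_false]) (by rw [h0]; rfl)
      (by simp [Irr, filter_singleton]) (by rw [h0]; rfl) go_true
  have hsp : sporB s = true ↔ ∃ l ∈ spor, G = l.toFinset := by
    simp only [sporB, List.any_eq_true, List.all_eq_true, List.mem_range, beq_iff_eq, hs]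
    constructor
    · rintro ⟨l, hl, h⟩
      refine ⟨l, hl, ?_⟩
      ext i
      rw [List.mem_toFinset]
      by_cases hi : i < 25
      · have := h i hi
        simpa using this
      · exact ⟨fun h' => absurd (hb i h') hi, fun h' => absurd (spor_lt l hl i h') hi⟩
    · rintro ⟨l, hl, rfl⟩
      exact ⟨l, hl, fun i _ => by simp⟩
  unfold finalB at hf
  split_ifs at hf with hw
  · refine ⟨hw.le, fun _ => ?_, fun _ => hw⟩
    rw [Bool.or_eq_true] at hf
    rcases hf with hf | hf
    · left
      simp only [shallowB, List.all_eq_true, List.mem_range, Bool.or_eq_true, beq_iff_eq, hs,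
        decide_eq_true_eq] at hf
      have hm := H.card_eq
      have hm0 := H.mpos
      intro y hy
      rcases hf m (by omega) with (h | h) | h
      · omega
      · exact absurd h H.mS
      · by_contra h'
        have : s.testBit y = false :=
          Nat.testBit_lt_two_pow (lt_of_lt_of_le h (Nat.pow_le_pow_right (by omega) (by omega)))
        rw [hs] at this
        simp [hy] at this
    · exact Or.inr (hsp.1 hf)
  · simp only [Bool.and_eq_true, decide_eq_true_eq, Bool.not_eq_true'] at hf
    refine ⟨hf.1.le, fun h => absurd h hw, fun h => ?_⟩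
    rw [hsp.2 h] at hf
    exact absurd hf.2 (by simp)

end Pool.Agent.H1.Ew
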