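import Pool.Agent.H1.EwH

namespace Pool.Agent.H1.Ew

open Finset Classical

variable {G : Finset ℕ} {m : ℕ}

def fam (a b : ℕ) : Finset ℕ := Ico 1 (a + b) ∪ Ico (2 * a + b) (2 * (a + b))

theorem NS.shallow (H : NS G m) (h : ∀ y ∈ G, y < 2 * m) :
    ∃ b, #(lev1 G m) + b = m ∧ #G + 1 = #(lev1 G m) + 2 * b ∧
      wt G + ∑ x ∈ lev1 G m, bet m (lev1 G m) x = #(lev1 G m) * b := by
  have e1 := H.card_eq
  have e2 := lev1_card G m
  have e3 := H.h_eq
  have e4 := H.split (2 * m) (fun y hy => (h y hy).le)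
  have e5 : G.filter (fun y => 2 * m ≤ y) = ∅ :=
    filter_false_of_mem (fun y hy => by have := h y hy; omega)
  rw [e5] at e3
  simp only [Ico_self, filter_empty, sum_empty, card_empty, add_zero] at e3 e4
  refine ⟨Gc G m, by omega, by omega, e4⟩

theorem amgm (a b : ℕ) : a * b ≤ (a + 2 * b) ^ 2 / 8 := by
  rw [Nat.le_div_iff_mul_le (by omega)]
  zify
  nlinarith [sq_nonneg ((a : ℤ) - 2 * b)]

theorem amgm_eq (a b : ℕ) : a * b = (a + 2 * b) ^ 2 / 8 ↔ a ≤ 2 * b + 2 ∧ 2 * b ≤ a + 2 := by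
  have h1 := amgm a b
  have e : ((a + 2 * b) ^ 2 : ℤ) = 8 * (a * b) + (a - 2 * b) ^ 2 := by ring
  constructor
  · intro h
    have h2 : (a + 2 * b) ^ 2 < 8 * (a * b) + 8 := by omega
    zify at h2
    by_contra h3
    have := sq9 (a - 2 * b) (by omega)
    linarith
  · rintro ⟨h2, h3⟩
    have h4 : 0 ≤ (2 - ((a : ℤ) - 2 * b)) * (2 + (a - 2 * b)) := mul_nonneg (by omega) (by omega)
    have h5 : (a + 2 * b) ^ 2 < 8 * (a * b) + 8 := by
      zify
      linarith
    omega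

theorem NS.eq_fam (H : NS G m) (h : ∀ y ∈ G, y < 2 * m) (b : ℕ) (hb : #(lev1 G m) + b = m)
    (h0 : ∑ x ∈ lev1 G m, bet m (lev1 G m) x = 0) : G = fam #(lev1 G m) b := by
  have h1 : lev1 G m ⊆ Ico m (m + #(lev1 G m)) := by
    intro x hx
    have hx0 : bet m (lev1 G m) x = 0 := sum_eq_zero_iff.1 h0 x hx
    have hx1 : m ≤ x := by
      simp only [lev1, mem_filter, mem_Ico] at hx
      exact hx.1.1
    have : Ico m (x + 1) ⊆ lev1 G m := by
      intro z hz
      rw [mem_Ico] at hz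
      by_cases hzx : z = x
      · exact hzx ▸ hx
      · by_contra h'
        have : z ∈ (Ico m x).filter (fun z => z ∉ lev1 G m) :=
          mem_filter.2 ⟨mem_Ico.2 ⟨hz.1, by omega⟩, h'⟩
        have := card_pos.2 ⟨z, this⟩
        unfold bet at hx0
        omega
    have := card_le_card this
    rw [Nat.card_Ico] at this
    rw [mem_Ico]
    omega
  have h2 : lev1 G m = Ico m (m + #(lev1 G m)) := eq_of_subset_of_card_le h1 (by simp)
  generalize #(lev1 G m) = a at *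
  ext z
  have h3 : z ∈ lev1 G m ↔ z ∈ Ico m (m + a) := by rw [h2]
  simp only [lev1, mem_filter, mem_Ico] at h3
  simp only [fam, mem_union, mem_Ico]
  constructor
  · intro hz
    have := h z hz
    have : z ≠ 0 := fun h => H.pos (h ▸ hz)
    by_cases h4 : z < m
    · omega
    · have : ¬ (m ≤ z ∧ z < m + a) := fun h5 => (h3.2 h5).2 hz
      omega
  · rintro (hz | hz)
    · exact H.low z (by omega) (by omega)
    · by_contra h5
      have := h3.1 ⟨⟨by omega, by omega⟩, h5⟩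
      omega

theorem fam_NS (a b : ℕ) (ha : 1 ≤ a) : NS (fam a b) (a + b) := by
  refine ⟨?_, ?_, by omega, ?_, ?_⟩
  · simp only [fam, mem_union, mem_Ico]; omega
  · intro x y; simp only [fam, mem_union, mem_Ico]; omega
  · simp only [fam, mem_union, mem_Ico]; omega
  · intro x; simp only [fam, mem_union, mem_Ico]; omega

theorem fam_val (a b : ℕ) (ha : 1 ≤ a) : #(fam a b) + 1 = a + 2 * b ∧ wt (fam a b) = a * b := by
  obtain ⟨b', h1, h2, h3⟩ := (fam_NS a b ha).shallow (by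
    intro y; simp only [fam, mem_union, mem_Ico]; omega)
  have e : lev1 (fam a b) (a + b) = Ico (a + b) (2 * a + b) := by
    ext z
    simp only [lev1, fam, mem_filter, mem_union, mem_Ico]; omega
  rw [e] at h1 h2 h3
  have e2 : ∑ x ∈ Ico (a + b) (2 * a + b), bet (a + b) (Ico (a + b) (2 * a + b)) x = 0 := by
    apply sum_eq_zero
    intro x hx
    unfold bet
    rw [card_eq_zero]
    apply filter_false_of_mem
    intro z hz
    simp only [mem_Ico] at hx hz ⊢
    omega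
  rw [e2] at h3
  rw [Nat.card_Ico, show 2 * a + b - (a + b) = a by omega] at h1 h2 h3
  have : b' = b := by omega
  subst this
  exact ⟨h2, h3⟩

theorem NS.deep (H : NS G m) (h : ¬ ∀ y ∈ G, y < 2 * m) (hn : 13 ≤ #G) :
    wt G < (#G + 1) ^ 2 / 8 := by
  have hne : G.Nonempty := card_pos.1 (by omega)
  have hF := G.max'_mem hne
  have hF' : ∀ y ∈ G, y ≤ G.max' hne := fun y hy => G.le_max' y hy
  have h2 : 2 * m ≤ G.max' hne := by
    by_contra h'
    exact h (fun y hy => by have := hF' y hy; omega)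
  have h5 : 8 * wt G + 5 ≤ (#G + 1) ^ 2 := by
    by_cases h3 : 3 * m ≤ G.max' hne
    · exact H.depth4 _ hF hF' h3 hn
    · exact H.depth3 _ hF hF' h2 (by omega) hn
  have h6 : (#G + 1) ^ 2 % 8 ≤ 4 := by
    generalize #G + 1 = n
    rw [Nat.pow_mod]
    have : n % 8 < 8 := Nat.mod_lt _ (by omega)
    generalize n % 8 = r at *
    interval_cases r <;> simp
  omega

theorem NS.main_le (H : NS G m) : wt G ≤ (#G + 1) ^ 2 / 8 := by
  by_cases hg : #G ≤ 12
  · exact (H.small hg).1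
  · by_cases h : ∀ y ∈ G, y < 2 * m
    · obtain ⟨b, h1, h2, h3⟩ := H.shallow h
      have := amgm #(lev1 G m) b
      rw [h2]
      omega
    · exact (H.deep h (by omega)).le

theorem spor_card : ∀ l ∈ spor, #l.toFinset ≤ 9 := by decide

theorem NS.main_eq (H : NS G m) : wt G = (#G + 1) ^ 2 / 8 ↔
    (∃ a b, 1 ≤ a ∧ a ≤ 2 * b + 2 ∧ 2 * b ≤ a + 2 ∧ G = fam a b) ∨ ∃ l ∈ spor, G = l.toFinset := by
  constructor
  · intro hw
    have hsh : (∀ y ∈ G, y < 2 * m) →
        ∃ a b, 1 ≤ a ∧ a ≤ 2 * b + 2 ∧ 2 * b ≤ a + 2 ∧ G = fam a b := by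
      intro h
      obtain ⟨b, h1, h2, h3⟩ := H.shallow h
      have h4 := amgm #(lev1 G m) b
      rw [h2] at hw
      have h5 := (amgm_eq #(lev1 G m) b).1 (by omega)
      exact ⟨_, b, card_pos.2 ⟨m, H.mem_lev1⟩, h5.1, h5.2, H.eq_fam h b h1 (by omega)⟩
    by_cases hg : #G ≤ 12
    · rcases (H.small hg).2.1 hw with h | h
      · exact Or.inl (hsh h)
      · exact Or.inr h
    · by_cases h : ∀ y ∈ G, y < 2 * m
      · exact Or.inl (hsh h)
      · have := H.deep h (by omega)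
        omega
  · rintro (⟨a, b, h1, h2, h3, rfl⟩ | ⟨l, hl, h⟩)
    · obtain ⟨h4, h5⟩ := fam_val a b h1
      rw [h4, h5]
      exact (amgm_eq a b).2 ⟨h2, h3⟩
    · have := spor_card l hl
      exact (H.small (by rw [h]; omega)).2.2 ⟨l, hl, h⟩

theorem spor_NS : ∀ l ∈ spor, ∃ m, NS l.toFinset m := by
  have h1 : ∀ l ∈ spor, 0 ∉ l ∧ (∀ z ∈ l, ∀ x < z, 0 < x → x ∈ l ∨ z - x ∈ l) ∧
      ∃ m < 10, 0 < m ∧ m ∉ l ∧ ∀ x < m, 0 < x → x ∈ l := by decide
  intro l hl
  obtain ⟨h2, h3, m, -, h4, h5, h6⟩ := h1 l hl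
  refine ⟨m, by simpa using h2, ?_, h4, by simpa using h5, fun x a b => by simpa using h6 x b a⟩
  intro x y hx hy hx' hy' hz
  simp only [List.mem_toFinset] at hx' hy' hz
  rcases h3 _ hz x (by omega) hx with h | h
  · exact hx' h
  · rw [show x + y - x = y by omega] at h
    exact hy' h

end Pool.Agent.H1.Ew
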