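import Mathlib

namespace Pool.Agent.H1.Focal
open Finset

variable {ι : Type*} [DecidableEq ι]

/-- Averaging operator: add a uniformly random element of `T`. -/
noncomputable def P (T : Finset ι) : (Finset ι → ℝ) →ₗ[ℝ] (Finset ι → ℝ) where
  toFun φ R := (∑ i ∈ T, φ (insert i R)) / T.card
  map_add' φ ψ := by
    funext R; simp [Finset.sum_add_distrib, add_div]
  map_smul' c φ := by
    funext R; simp [← Finset.mul_sum, mul_div_assoc]

lemma P_apply (T : Finset ι) (φ : Finset ι → ℝ) (R : Finset ι) :
    P T φ R = (∑ i ∈ T, φ (insert i R)) / T.card := rfl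

noncomputable def L (T : Finset ι) (j : ℕ) : (Finset ι → ℝ) →ₗ[ℝ] ℝ :=
  (LinearMap.proj (∅ : Finset ι)) ∘ₗ ((P T : Module.End ℝ (Finset ι → ℝ)) ^ j)

lemma L_apply (T : Finset ι) (j : ℕ) (φ : Finset ι → ℝ) :
    L T j φ = ((P T : Module.End ℝ (Finset ι → ℝ)) ^ j) φ ∅ := rfl

lemma L_succ (T : Finset ι) (j : ℕ) (φ : Finset ι → ℝ) : L T (j+1) φ = L T j (P T φ) := by
  rw [L_apply, L_apply, pow_succ]; rfl

lemma pow_succ_apply (T : Finset ι) (j : ℕ) (φ : Finset ι → ℝ) (R : Finset ι) :
    ((P T : Module.End ℝ (Finset ι → ℝ)) ^ (j+1)) φ R =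
      (∑ i ∈ T, ((P T : Module.End ℝ (Finset ι → ℝ)) ^ j) φ (insert i R)) / T.card := by
  rw [pow_succ']; rfl

lemma pow_nonneg' (T : Finset ι) (φ : Finset ι → ℝ) (h : ∀ R ⊆ T, 0 ≤ φ R) (j : ℕ) :
    ∀ R ⊆ T, 0 ≤ ((P T : Module.End ℝ (Finset ι → ℝ)) ^ j) φ R := by
  induction j with
  | zero => simpa using h
  | succ j ih =>
    intro R hR
    rw [pow_succ_apply]
    refine div_nonneg (Finset.sum_nonneg fun i hi => ih _ ?_) (by positivity)
    exact Finset.insert_subset hi hR

lemma L_nonneg (T : Finset ι) (j : ℕ) (φ : Finset ι → ℝ) (h : ∀ R ⊆ T, 0 ≤ φ R) :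
    0 ≤ L T j φ := pow_nonneg' T φ h j ∅ (Finset.empty_subset _)

lemma L_mono (T : Finset ι) (j : ℕ) (φ ψ : Finset ι → ℝ) (h : ∀ R ⊆ T, φ R ≤ ψ R) :
    L T j φ ≤ L T j ψ := by
  have := L_nonneg T j (ψ - φ) (fun R hR => by simpa using h R hR)
  rw [map_sub] at this; linarith

noncomputable def ind (A : Finset ι) : Finset ι → ℝ := fun R => if R ⊆ A then 1 else 0

lemma P_ind (T A : Finset ι) (hA : A ⊆ T) : P T (ind A) = ((A.card : ℝ) / T.card) • ind A := by
  funext R
  rw [P_apply]
  simp only [ind, Pi.smul_apply, smul_eq_mul, Finset.insert_subset_iff]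
  by_cases h : R ⊆ A
  · simp only [h, and_true, if_true, mul_one]
    rw [Finset.sum_boole]
    congr 2
    congr 1
    ext i; simp only [Finset.mem_filter]; exact ⟨fun h => h.2, fun h => ⟨hA h, h⟩⟩
  · simp [h]

lemma L_ind (T A : Finset ι) (hA : A ⊆ T) (j : ℕ) :
    L T j (ind A) = ((A.card : ℝ) / T.card) ^ j := by
  induction j with
  | zero => simp [L_apply, ind]
  | succ j ih => rw [L_succ, P_ind T A hA, map_smul, ih, smul_eq_mul, pow_succ]; ring

lemma weight_bound (T S : Finset ι) (hT : T ⊆ S) (ht : 0 < T.card) (j : ℕ) :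
    ∀ R : Finset ι, ((P T : Module.End ℝ (Finset ι → ℝ)) ^ j) (fun R => (2:ℝ) ^ (S \ R).card) R ≤
      (2:ℝ) ^ (S \ R).card * ((1 + ((R.card : ℝ) + j) / T.card) / 2) ^ j := by
  have htr : (0:ℝ) < T.card := by exact_mod_cast ht
  induction j with
  | zero => intro R; simp
  | succ j ih =>
    intro R
    rw [pow_succ_apply, div_le_iff₀ htr]
    set ρ : ℝ := (1 + ((R.card : ℝ) + (j+1 : ℕ)) / T.card) / 2 with hρ
    have hρ0 : 0 ≤ ρ := by positivity
    have h1 : ∀ i ∈ T, ((P T : Module.End ℝ (Finset ι → ℝ)) ^ j)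
        (fun R => (2:ℝ) ^ (S \ R).card) (insert i R) ≤
        (2:ℝ) ^ (S \ R).card * ρ ^ j * ((1 + if i ∈ R then 1 else 0) / 2) := by
      intro i hi
      refine (ih _).trans ?_
      have hc : ((insert i R).card : ℝ) ≤ R.card + 1 := by
        exact_mod_cast Finset.card_insert_le i R
      have h2 : ((1 + (((insert i R).card : ℝ) + j) / T.card) / 2) ^ j ≤ ρ ^ j := by
        apply pow_le_pow_left₀ (by positivity)
        rw [hρ]; push_cast
        gcongr ?_ / 2
        gcongr 1 + ?_ / _
        linarith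
      have h3 : (2:ℝ) ^ (S \ insert i R).card =
          (2:ℝ) ^ (S \ R).card * ((1 + if i ∈ R then 1 else 0) / 2) := by
        by_cases hiR : i ∈ R
        · simp [hiR, Finset.insert_eq_of_mem hiR]
        · have : S \ R = insert i (S \ insert i R) := by
            ext a; simp only [Finset.mem_sdiff, Finset.mem_insert]
            constructor
            · rintro ⟨h1, h2⟩
              by_cases ha : a = i
              · exact Or.inl ha
              · exact Or.inr ⟨h1, by tauto⟩
            · rintro (rfl | ⟨h1, h2⟩)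
              · exact ⟨hT hi, hiR⟩
              · exact ⟨h1, by tauto⟩
          rw [this, Finset.card_insert_of_notMem (by simp)]
          simp [hiR, pow_succ]
      rw [h3]
      have : (0:ℝ) ≤ (2:ℝ) ^ (S \ R).card * ((1 + if i ∈ R then 1 else 0) / 2) := by
        split_ifs <;> positivity
      calc _ ≤ (2:ℝ) ^ (S \ R).card * ((1 + if i ∈ R then 1 else 0) / 2) * ρ ^ j :=
            mul_le_mul_of_nonneg_left h2 this
        _ = _ := by ring
    refine (Finset.sum_le_sum h1).trans ?_
    rw [← Finset.mul_sum, ← Finset.sum_div, Finset.sum_add_distrib, Finset.sum_boole]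
    simp only [Finset.sum_const, nsmul_eq_mul, mul_one]
    have h4 : ((T.filter (fun i => i ∈ R)).card : ℝ) ≤ R.card := by
      exact_mod_cast Finset.card_le_card (fun a ha => (Finset.mem_filter.1 ha).2)
    have h5 : ((T.card : ℝ) + (T.filter (fun i => i ∈ R)).card) / 2 ≤ ρ * T.card := by
      rw [hρ]; push_cast
      have : (1 + ((R.card : ℝ) + (j + 1)) / T.card) / 2 * T.card =
          (T.card + (R.card + (j+1))) / 2 := by field_simp
      rw [this]
      have : (0:ℝ) ≤ j := by positivity
      linarith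
    calc _ ≤ (2:ℝ) ^ (S \ R).card * ρ ^ j * (ρ * T.card) :=
          mul_le_mul_of_nonneg_left h5 (by positivity)
      _ = _ := by rw [pow_succ]; ring

lemma L_weight (T S : Finset ι) (hT : T ⊆ S) (J : ℕ) (ht : 2 * J ^ 2 < T.card) :
    (2:ℝ) ^ J * L T J (fun R => (2:ℝ) ^ (S \ R).card) ≤ 2 * 2 ^ S.card := by
  have ht0 : 0 < T.card := by omega
  have htr : (0:ℝ) < T.card := by exact_mod_cast ht0
  have h := weight_bound T S hT ht0 J ∅
  rw [← L_apply] at h
  simp only [Finset.sdiff_empty, Finset.card_empty, Nat.cast_zero, zero_add] at h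
  have h2 : (1 + (J:ℝ) / T.card) ^ J ≤ 2 := by
    calc (1 + (J:ℝ) / T.card) ^ J ≤ (Real.exp ((J:ℝ) / T.card)) ^ J := by
          apply pow_le_pow_left₀ (by positivity)
          linarith [Real.add_one_le_exp ((J:ℝ) / T.card)]
      _ = Real.exp (J * ((J:ℝ) / T.card)) := by rw [Real.exp_nat_mul]
      _ ≤ Real.exp (1/2) := by
          apply Real.exp_le_exp.2
          rw [← mul_div_assoc, div_le_iff₀ htr]
          have : (2:ℝ) * J ^ 2 < T.card := by exact_mod_cast ht
          nlinarith
      _ ≤ 2 := by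
          have h1 : Real.exp (1/2) ^ 2 = Real.exp 1 := by
            rw [← Real.exp_nat_mul]; norm_num
          have h3 := Real.exp_one_lt_d9
          have h4 := Real.exp_pos (1/2)
          nlinarith
  calc (2:ℝ) ^ J * L T J (fun R => (2:ℝ) ^ (S \ R).card)
      ≤ 2 ^ J * (2 ^ S.card * ((1 + (J:ℝ) / T.card) / 2) ^ J) :=
        mul_le_mul_of_nonneg_left h (by positivity)
    _ = 2 ^ S.card * (1 + (J:ℝ) / T.card) ^ J := by rw [div_pow]; field_simp
    _ ≤ 2 ^ S.card * 2 := mul_le_mul_of_nonneg_left h2 (by positivity)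
    _ = _ := by ring

/-- trace of a vector on `S` -/
def tr (S : Finset ι) (x : ι → Bool) : Finset ι := S.filter (fun i => x i = true)

lemma tr_eq_iff (S : Finset ι) (x y : ι → Bool) : tr S x = tr S y ↔ ∀ i ∈ S, x i = y i := by
  constructor
  · intro h i hi
    have := congrArg (fun A => i ∈ A) h
    simp only [tr, Finset.mem_filter, hi, true_and, eq_iff_iff] at this
    cases hx : x i <;> cases hy : y i <;> simp_all
  · intro h
    unfold tr
    exact Finset.filter_congr (fun i hi => by rw [h i hi])

variable [Fintype ι]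

noncomputable def c (F : Finset (ι → Bool)) (S : Finset ι) : ℕ := (F.image (tr S)).card

open Classical in
noncomputable def ownSet (F : Finset (ι → Bool)) (S : Finset ι) : Finset (ι → Bool) :=
  F.filter (fun x => ∀ y ∈ F, (∀ i ∈ S, y i = x i) → y = x)

lemma mem_ownSet {F : Finset (ι → Bool)} {S : Finset ι} {x : ι → Bool} :
    x ∈ ownSet F S ↔ x ∈ F ∧ ∀ y ∈ F, (∀ i ∈ S, y i = x i) → y = x := by
  unfold ownSet; rw [Finset.mem_filter]

omit [Fintype ι] in
lemma c_le (F : Finset (ι → Bool)) (S : Finset ι) : c F S ≤ 2 ^ S.card := by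
  unfold c
  rw [← Finset.card_powerset]
  apply Finset.card_le_card
  intro A hA
  obtain ⟨x, -, rfl⟩ := Finset.mem_image.1 hA
  exact Finset.mem_powerset.2 (Finset.filter_subset _ _)

lemma kraft_step (F : Finset (ι → Bool)) (S' S : Finset ι) (i : ι) (h1 : S' ⊆ S)
    (h2 : S ⊆ insert i S') : (ownSet F S').card + c F S ≤ 2 * c F S' := by
  classical
  set g : (ι → Bool) → Finset ι × Bool := fun x => (tr S' x, x i) with hg
  set h : (ι → Bool) → Finset ι × Bool := fun x => (tr S' x, !x i) with hh
  have ha : c F S ≤ (F.image g).card := by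
    unfold c
    have : F.image (tr S) = (F.image g).image
        (fun p => if i ∈ S ∧ p.2 = true then insert i p.1 else p.1) := by
      rw [Finset.image_image]
      apply Finset.image_congr
      intro x _
      simp only [Function.comp, hg]
      ext a
      have h2a := @h2 a
      have h1a := @h1 a
      split_ifs with hc
      · simp only [tr, Finset.mem_filter, Finset.mem_insert] at *
        constructor
        · rintro ⟨ha, hx⟩
          rcases h2a ha with h | h
          · exact Or.inl h
          · exact Or.inr ⟨h, hx⟩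
        · rintro (rfl | ⟨ha, hx⟩)
          · exact hc
          · exact ⟨h1a ha, hx⟩
      · simp only [tr, Finset.mem_filter, Finset.mem_insert] at *
        constructor
        · rintro ⟨ha, hx⟩
          rcases h2a ha with h | h
          · subst h; exact absurd ⟨ha, hx⟩ hc
          · exact ⟨h, hx⟩
        · rintro ⟨ha, hx⟩
          exact ⟨h1a ha, hx⟩
    rw [this]; exact Finset.card_image_le
  have hb : ((ownSet F S').image h).card = (ownSet F S').card := by
    apply Finset.card_image_of_injOn
    intro x hx y hy hxy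
    have hx' := mem_ownSet.1 hx
    have hy' := mem_ownSet.1 hy
    have := (tr_eq_iff S' x y).1 (congrArg Prod.fst hxy)
    exact hy'.2 x hx'.1 this
  have hd : Disjoint ((ownSet F S').image h) (F.image g) := by
    rw [Finset.disjoint_left]
    intro p hp hq
    obtain ⟨x, hx, rfl⟩ := Finset.mem_image.1 hp
    obtain ⟨y, hy, hxy⟩ := Finset.mem_image.1 hq
    have hx' := mem_ownSet.1 hx
    have e := hx'.2 y hy ((tr_eq_iff S' y x).1 (congrArg Prod.fst hxy))
    subst e
    have := congrArg Prod.snd hxy
    simp [hg, hh] at this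
  have he : ((ownSet F S').image h) ∪ (F.image g) ⊆ (F.image (tr S')) ×ˢ (Finset.univ : Finset Bool) := by
    intro p hp
    rcases Finset.mem_union.1 hp with hp | hp
    · obtain ⟨x, hx, rfl⟩ := Finset.mem_image.1 hp
      exact Finset.mem_product.2 ⟨Finset.mem_image_of_mem _ (mem_ownSet.1 hx).1, Finset.mem_univ _⟩
    · obtain ⟨x, hx, rfl⟩ := Finset.mem_image.1 hp
      exact Finset.mem_product.2 ⟨Finset.mem_image_of_mem _ hx, Finset.mem_univ _⟩
  have hf := Finset.card_le_card he
  rw [Finset.card_union_of_disjoint hd, hb, Finset.card_product] at hf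
  simp only [Finset.card_univ, Fintype.card_bool] at hf
  unfold c at *
  omega

lemma own_le (F : Finset (ι → Bool)) (S : Finset ι) [Nonempty ι] :
    (ownSet F S).card ≤ 2 ^ S.card := by
  obtain ⟨i⟩ := ‹Nonempty ι›
  have := kraft_step F S S i (Finset.Subset.refl _) (Finset.subset_insert _ _)
  have := c_le F S
  omega

lemma kraft (F : Finset (ι → Bool)) (T S : Finset ι) (hT : T ⊆ S) (J : ℕ)
    (ht : 2 * J ^ 2 < T.card) :
    ∑ j ∈ Finset.range J, (2:ℝ) ^ (j+1) * L T (j+1) (fun R => ((ownSet F (S \ R)).card : ℝ))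
      ≤ 4 * 2 ^ S.card := by
  have ht0 : 0 < T.card := by omega
  have htr : (0:ℝ) < T.card := by exact_mod_cast ht0
  set o : Finset ι → ℝ := fun R => ((ownSet F (S \ R)).card : ℝ) with ho
  set cc : Finset ι → ℝ := fun R => (c F (S \ R) : ℝ) with hcc
  have hstep : ∀ j, L T (j+1) o ≤ 2 * L T (j+1) cc - L T j cc := by
    intro j
    rw [L_succ, L_succ]
    have : L T j (P T o) ≤ L T j ((2:ℝ) • P T cc - cc) := by
      apply L_mono
      intro R _
      simp only [Pi.sub_apply, Pi.smul_apply, smul_eq_mul, P_apply]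
      have h1 : ∀ i ∈ T, o (insert i R) ≤ 2 * cc (insert i R) - cc R := by
        intro i _
        have := kraft_step F (S \ insert i R) (S \ R) i
          (Finset.sdiff_subset_sdiff (Finset.Subset.refl _) (Finset.subset_insert _ _))
          (by
            intro a ha
            simp only [Finset.mem_sdiff, Finset.mem_insert] at *
            by_cases h : a = i
            · exact Or.inl h
            · exact Or.inr ⟨ha.1, by tauto⟩)
        have h' : ((ownSet F (S \ insert i R)).card : ℝ) + c F (S \ R) ≤ 2 * c F (S \ insert i R) := by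
          exact_mod_cast this
        simp only [ho, hcc]; linarith
      have h2 := Finset.sum_le_sum h1
      rw [Finset.sum_sub_distrib, ← Finset.mul_sum] at h2
      simp only [Finset.sum_const, nsmul_eq_mul] at h2
      rw [div_le_iff₀ htr]
      have : (2 * ((∑ i ∈ T, cc (insert i R)) / T.card) - cc R) * T.card =
          2 * (∑ i ∈ T, cc (insert i R)) - T.card * cc R := by field_simp
      rw [this]; exact h2
    rw [map_sub, map_smul, smul_eq_mul] at this
    exact this
  have htel : ∀ K : ℕ, ∑ j ∈ Finset.range K, (2:ℝ) ^ (j+1) * L T (j+1) o ≤ 2 ^ (K+1) * L T K cc := by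
    intro K
    induction K with
    | zero =>
      simp only [Finset.range_zero, Finset.sum_empty]
      exact mul_nonneg (by positivity) (L_nonneg _ _ _ (fun R _ => by simp only [hcc]; positivity))
    | succ K ih =>
      rw [Finset.sum_range_succ]
      have := mul_le_mul_of_nonneg_left (hstep K) (show (0:ℝ) ≤ 2 ^ (K+1) by positivity)
      rw [pow_succ 2 (K+1)]
      nlinarith
  refine (htel J).trans ?_
  have h3 : L T J cc ≤ L T J (fun R => (2:ℝ) ^ (S \ R).card) := by
    apply L_mono
    intro R _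
    simp only [hcc]
    exact_mod_cast c_le F (S \ R)
  have h4 := L_weight T S hT J ht
  have h5 := mul_le_mul_of_nonneg_left h3 (show (0:ℝ) ≤ 2 ^ J by positivity)
  rw [pow_succ]
  nlinarith

end Pool.Agent.H1.Focal
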