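import Mathlib
import Pool.Agent.H1.FocalA

namespace Pool.Agent.H1.Focal
open Finset

variable {ι : Type*} [DecidableEq ι] [Fintype ι]

open Classical in
noncomputable def N (F : Finset (ι → Bool)) (T : Finset ι) (x : ι → Bool) : Finset ι → ℝ :=
  fun R => if ∃ y ∈ F, y ≠ x ∧ (∀ i, i ∉ T → y i = x i) ∧ (∀ i ∈ R, y i = x i) then 1 else 0

noncomputable def W (F : Finset (ι → Bool)) (T : Finset ι) (J : ℕ) (x : ι → Bool) : ℝ :=
  ∑ j ∈ Finset.range J, (2:ℝ) ^ (j+1) * L T (j+1) (N F T x)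

def A (T : Finset ι) (x y : ι → Bool) : Finset ι := T.filter (fun i => y i = x i)

lemma N_nonneg (F : Finset (ι → Bool)) (T : Finset ι) (x : ι → Bool) (R : Finset ι) :
    0 ≤ N F T x R := by
  unfold N; split_ifs <;> norm_num

lemma term_nonneg (F : Finset (ι → Bool)) (T : Finset ι) (x : ι → Bool) (j : ℕ) :
    0 ≤ (2:ℝ) ^ (j+1) * L T (j+1) (N F T x) :=
  mul_nonneg (by positivity) (L_nonneg _ _ _ (fun R _ => N_nonneg F T x R))

lemma W_nonneg (F : Finset (ι → Bool)) (T : Finset ι) (J : ℕ) (x : ι → Bool) : 0 ≤ W F T J x :=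
  Finset.sum_nonneg (fun j _ => term_nonneg F T x j)

lemma ind_le_N (F : Finset (ι → Bool)) (T : Finset ι) (x y : ι → Bool) (hy : y ∈ F) (hne : y ≠ x)
    (hout : ∀ i, i ∉ T → y i = x i) (R : Finset ι) : ind (A T x y) R ≤ N F T x R := by
  unfold ind
  split_ifs with h
  · unfold N
    rw [if_pos]
    exact ⟨y, hy, hne, hout, fun i hi => (Finset.mem_filter.1 (h hi)).2⟩
  · exact N_nonneg F T x R

omit [Fintype ι] in
lemma triple (T : Finset ι) (x y z : ι → Bool) :
    2 * ((A T x y ∩ A T x z).card : ℝ) + T.card ≤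
      (A T x y).card + (A T x z).card + (A T y z).card := by
  have h : A T x y ∩ A T x z = T.filter (fun i => y i = x i ∧ z i = x i) := by
    ext i; simp only [A, Finset.mem_inter, Finset.mem_filter]; tauto
  rw [h]
  simp only [A, Finset.card_filter]
  push_cast
  rw [Finset.card_eq_sum_ones, Finset.mul_sum]
  push_cast
  rw [← Finset.sum_add_distrib, ← Finset.sum_add_distrib, ← Finset.sum_add_distrib]
  apply Finset.sum_le_sum
  intro i _
  cases x i <;> cases y i <;> cases z i <;> norm_num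

omit [Fintype ι] in
lemma plotkin (T : Finset ι) (G : Finset (ι → Bool)) :
    (T.card : ℝ) * (G.card : ℝ) ^ 2 / 2 ≤ ∑ x ∈ G, ∑ y ∈ G, ((A T x y).card : ℝ) := by
  simp only [A, Finset.card_filter]
  push_cast
  have h1 : ∑ x ∈ G, ∑ y ∈ G, ∑ i ∈ T, (if y i = x i then (1:ℝ) else 0) =
      ∑ i ∈ T, ∑ x ∈ G, ∑ y ∈ G, (if y i = x i then (1:ℝ) else 0) := by
    rw [Finset.sum_comm (s := T)]
    apply Finset.sum_congr rfl
    intro x _
    rw [Finset.sum_comm]
  rw [h1]
  have h2 : ∀ i ∈ T, (G.card : ℝ) ^ 2 / 2 ≤ ∑ x ∈ G, ∑ y ∈ G, (if y i = x i then (1:ℝ) else 0) := by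
    intro i _
    set s : (ι → Bool) → ℝ := fun x => if x i = true then 1 else -1 with hs
    have h3 : ∑ x ∈ G, ∑ y ∈ G, (if y i = x i then (1:ℝ) else 0) =
        ∑ x ∈ G, ∑ y ∈ G, (1 + s x * s y) / 2 := by
      apply Finset.sum_congr rfl; intro x _
      apply Finset.sum_congr rfl; intro y _
      simp only [hs]
      cases x i <;> cases y i <;> norm_num
    rw [h3]
    simp only [← Finset.sum_div, Finset.sum_add_distrib, Finset.sum_const, nsmul_eq_mul, mul_one]
    rw [← Finset.sum_mul_sum]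
    nlinarith [mul_self_nonneg (∑ x ∈ G, s x)]
  have := Finset.sum_le_sum h2
  simp only [Finset.sum_const, nsmul_eq_mul] at this
  linarith

lemma case2 (F G : Finset (ι → Bool)) (T : Finset ι) (ht : 0 < T.card) (hG : G ⊆ F)
    (hout : ∀ x ∈ G, ∀ y ∈ G, ∀ i, i ∉ T → y i = x i)
    (hsmall : ∀ x ∈ G, ∀ y ∈ G, y ≠ x → ((A T x y).card : ℝ) / T.card ≤ 3/5) (j : ℕ) :
    (G.card : ℝ) * (G.card - 1) - j * G.card - (G.card : ℝ) ^ 3 * (4/5) ^ j ≤
      ∑ x ∈ G, (2:ℝ) ^ j * L T j (N F T x) := by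
  have htr : (0:ℝ) < T.card := by exact_mod_cast ht
  set M : ℝ := (G.card : ℝ) with hM
  set a : (ι → Bool) → (ι → Bool) → ℝ := fun x y => ((A T x y).card : ℝ) / T.card with ha
  have hAT : ∀ x y, A T x y ⊆ T := fun x y => Finset.filter_subset _ _
  have h1 : ∀ x ∈ G, ∑ y ∈ G.erase x, (a x y) ^ j - M ^ 2 * (2/5) ^ j ≤ L T j (N F T x) := by
    intro x hx
    have hp : L T j ((2:ℝ) • ∑ y ∈ G.erase x, ind (A T x y) -
        ∑ y ∈ G.erase x, ∑ z ∈ G.erase x, ind (A T x y ∩ A T x z)) ≤ L T j (N F T x) := by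
      apply L_mono
      intro R _
      simp only [Pi.sub_apply, Pi.smul_apply, smul_eq_mul, Finset.sum_apply]
      have e : ∑ y ∈ G.erase x, ∑ z ∈ G.erase x, ind (A T x y ∩ A T x z) R =
          (∑ y ∈ G.erase x, ind (A T x y) R) * (∑ y ∈ G.erase x, ind (A T x y) R) := by
        rw [Finset.sum_mul_sum]
        apply Finset.sum_congr rfl; intro y _
        apply Finset.sum_congr rfl; intro z _
        simp only [ind, Finset.subset_inter_iff]
        by_cases h1 : R ⊆ A T x y <;> by_cases h2 : R ⊆ A T x z <;> simp [h1, h2]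
      rw [e]
      by_cases hN : ∃ y ∈ G.erase x, R ⊆ A T x y
      · obtain ⟨y, hy, hR⟩ := hN
        have hy' := Finset.mem_erase.1 hy
        have := ind_le_N F T x y (hG hy'.2) hy'.1 (hout x hx y hy'.2) R
        have e2 : ind (A T x y) R = 1 := by simp [ind, hR]
        nlinarith [sq_nonneg (∑ y ∈ G.erase x, ind (A T x y) R - 1)]
      · have : ∑ y ∈ G.erase x, ind (A T x y) R = 0 := by
          apply Finset.sum_eq_zero
          intro y hy
          have : ¬ R ⊆ A T x y := fun h => hN ⟨y, hy, h⟩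
          simp [ind, this]
        rw [this]
        simpa using N_nonneg F T x R
    rw [map_sub, map_smul, map_sum, map_sum, smul_eq_mul] at hp
    simp only [map_sum] at hp
    have e1 : ∑ y ∈ G.erase x, L T j (ind (A T x y)) = ∑ y ∈ G.erase x, (a x y) ^ j :=
      Finset.sum_congr rfl (fun y _ => L_ind T _ (hAT x y) j)
    have e2 : ∀ y ∈ G.erase x, ∑ z ∈ G.erase x, L T j (ind (A T x y ∩ A T x z)) ≤
        (a x y) ^ j + M * (2/5) ^ j := by
      intro y hy
      have hy' := Finset.mem_erase.1 hy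
      rw [← Finset.add_sum_erase _ _ hy, Finset.inter_self, L_ind T _ (hAT x y)]
      have e3 : ∀ z ∈ (G.erase x).erase y, L T j (ind (A T x y ∩ A T x z)) ≤ (2/5) ^ j := by
        intro z hz
        have hz' := Finset.mem_erase.1 hz
        have hz'' := Finset.mem_erase.1 hz'.2
        rw [L_ind T _ (Finset.inter_subset_left.trans (hAT x y))]
        apply pow_le_pow_left₀ (by positivity)
        have t1 := triple T x y z
        have t2 := hsmall x hx y hy'.2 hy'.1
        have t3 := hsmall x hx z hz''.2 hz''.1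
        have t4 := hsmall y hy'.2 z hz''.2 hz'.1
        rw [div_le_iff₀ htr] at t2 t3 t4 ⊢
        linarith
      have e4 := Finset.sum_le_sum e3
      simp only [Finset.sum_const, nsmul_eq_mul] at e4
      have e5 : (((G.erase x).erase y).card : ℝ) ≤ M := by
        rw [hM]
        exact_mod_cast (Finset.card_erase_le.trans Finset.card_erase_le)
      have e6 : (((G.erase x).erase y).card : ℝ) * (2/5) ^ j ≤ M * (2/5) ^ j :=
        mul_le_mul_of_nonneg_right e5 (by positivity)
      simp only [ha]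
      linarith
    have e7 := Finset.sum_le_sum e2
    rw [Finset.sum_add_distrib] at e7
    simp only [Finset.sum_const, nsmul_eq_mul] at e7
    have e8 : ((G.erase x).card : ℝ) ≤ M := by
      rw [hM]; exact_mod_cast Finset.card_erase_le
    have e9 : ((G.erase x).card : ℝ) * (M * (2/5) ^ j) ≤ M * (M * (2/5) ^ j) :=
      mul_le_mul_of_nonneg_right e8 (by positivity)
    rw [e1] at hp
    nlinarith
  have h2 : ∀ x ∈ G, (M - 1) + j * (2 * (∑ y ∈ G, a x y) - 2 - (M - 1)) - M ^ 2 * (4/5) ^ j ≤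
      (2:ℝ) ^ j * L T j (N F T x) := by
    intro x hx
    have b1 := mul_le_mul_of_nonneg_left (h1 x hx) (show (0:ℝ) ≤ 2 ^ j by positivity)
    have b2 : ∀ y ∈ G.erase x, 1 + j * (2 * a x y - 1) ≤ 2 ^ j * (a x y) ^ j := by
      intro y _
      have : 0 ≤ a x y := by simp only [ha]; positivity
      have := one_add_mul_le_pow (show (-2:ℝ) ≤ 2 * a x y - 1 by linarith) j
      rw [← mul_pow]
      simpa using this
    have b3 := Finset.sum_le_sum b2
    rw [← Finset.mul_sum, Finset.sum_add_distrib, ← Finset.mul_sum, Finset.sum_sub_distrib,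
      ← Finset.mul_sum] at b3
    simp only [Finset.sum_const, nsmul_eq_mul, mul_one] at b3
    have b4 : ((G.erase x).card : ℝ) = M - 1 := by
      rw [Finset.card_erase_of_mem hx, hM, Nat.cast_sub (Finset.card_pos.2 ⟨x, hx⟩)]; simp
    have b5 : ∑ y ∈ G, a x y = 1 + ∑ y ∈ G.erase x, a x y := by
      rw [← Finset.add_sum_erase _ _ hx]
      congr 1
      simp only [ha, A]
      simp [htr.ne']
    have b6 : (2:ℝ) ^ j * (2/5) ^ j = (4/5) ^ j := by rw [← mul_pow]; norm_num
    rw [b4] at b3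
    rw [b5]
    have b7 : (2:ℝ) ^ j * (∑ y ∈ G.erase x, a x y ^ j - M ^ 2 * (2 / 5) ^ j) =
      2 ^ j * ∑ y ∈ G.erase x, a x y ^ j - M ^ 2 * (4/5) ^ j := by rw [← b6]; ring
    rw [b7] at b1
    nlinarith
  have h3 := Finset.sum_le_sum h2
  refine le_trans ?_ h3
  have h4 : M ^ 2 / 2 ≤ ∑ x ∈ G, ∑ y ∈ G, a x y := by
    have := plotkin T G
    simp only [ha, ← Finset.sum_div]
    rw [le_div_iff₀ htr]
    linarith
  simp only [Finset.sum_sub_distrib, Finset.sum_add_distrib, ← Finset.mul_sum,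
    Finset.sum_const, nsmul_eq_mul, ← hM]
  have hj : (0:ℝ) ≤ j := by positivity
  nlinarith [mul_le_mul_of_nonneg_left h4 hj]

lemma group (F G : Finset (ι → Bool)) (T : Finset ι) (ht : 0 < T.card) (hG : G ⊆ F)
    (hout : ∀ x ∈ G, ∀ y ∈ G, ∀ i, i ∉ T → y i = x i) (q : ℕ) (hq : 31 ≤ q) (hc : G.card = 4 * q)
    (J : ℕ) (hJ : J = 5 * (4 * q) ^ 3) :
    ((4 * q : ℕ) : ℝ) ^ 3 / 32 ≤ ∑ x ∈ G, W F T J x := by
  have hqr : (31:ℝ) ≤ q := by exact_mod_cast hq
  by_cases hsmall : ∀ x ∈ G, ∀ y ∈ G, y ≠ x → ((A T x y).card : ℝ) / T.card ≤ 3/5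
  · unfold W
    rw [Finset.sum_comm]
    have hsub : Finset.Ico 30 (30 + q) ⊆ Finset.range J := by
      intro j hj
      rw [Finset.mem_Ico] at hj
      rw [Finset.mem_range, hJ]
      have : 4 * q ≤ (4 * q) ^ 3 := Nat.le_self_pow (by norm_num) _
      omega
    refine le_trans ?_ (Finset.sum_le_sum_of_subset_of_nonneg hsub
      (fun j _ _ => Finset.sum_nonneg (fun x _ => term_nonneg F T x j)))
    have h1 : ∀ j ∈ Finset.Ico 30 (30 + q), (4 * q : ℝ) ^ 2 / 4 - (4 * q : ℝ) ^ 3 * (4/5) ^ j ≤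
        ∑ x ∈ G, (2:ℝ) ^ (j+1) * L T (j+1) (N F T x) := by
      intro j hj
      rw [Finset.mem_Ico] at hj
      refine le_trans ?_ (case2 F G T ht hG hout hsmall (j+1))
      rw [hc]; push_cast
      have hj2 : (j:ℝ) + 1 ≤ 2 * q := by
        have : j + 1 ≤ 2 * q := by omega
        exact_mod_cast this
      have h45 : ((4:ℝ)/5) ^ (j+1) ≤ (4/5) ^ j :=
        pow_le_pow_of_le_one (by norm_num) (by norm_num) (Nat.le_succ j)
      have := mul_le_mul_of_nonneg_left h45 (show (0:ℝ) ≤ (4 * q : ℝ) ^ 3 by positivity)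
      nlinarith
    refine le_trans ?_ (Finset.sum_le_sum h1)
    rw [Finset.sum_sub_distrib, ← Finset.mul_sum]
    simp only [Finset.sum_const, nsmul_eq_mul, Nat.card_Ico, Nat.add_sub_cancel_left]
    have h2 := geom_sum_Ico_le_of_lt_one (m := 30) (n := 30 + q) (show (0:ℝ) ≤ 4/5 by norm_num)
      (show (4/5:ℝ) < 1 by norm_num)
    have h3 : ((4:ℝ)/5) ^ 30 / (1 - 4/5) ≤ 1/32 := by norm_num
    have := mul_le_mul_of_nonneg_left (h2.trans h3) (show (0:ℝ) ≤ (4 * q : ℝ) ^ 3 by positivity)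
    push_cast
    nlinarith
  · push Not at hsmall
    obtain ⟨x, hx, y, hy, hne, hbig⟩ := hsmall
    refine le_trans ?_ (Finset.single_le_sum (fun x _ => W_nonneg F T J x) hx)
    obtain ⟨K, hK⟩ : ∃ K, J = K + 1 := ⟨J - 1, by
      have : 0 < (4 * q) ^ 3 := by positivity
      omega⟩
    unfold W
    refine le_trans ?_ (Finset.single_le_sum (fun j _ => term_nonneg F T x j)
      (show K ∈ Finset.range J by rw [Finset.mem_range]; omega))
    rw [← hK]
    have h1 : L T J (ind (A T x y)) ≤ L T J (N F T x) :=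
      L_mono _ _ _ _ (fun R _ => ind_le_N F T x y (hG hy) hne (hout x hx y hy) R)
    rw [L_ind T (A T x y) (Finset.filter_subset _ _)] at h1
    have h2 : ((3:ℝ)/5) ^ J ≤ (((A T x y).card : ℝ) / T.card) ^ J :=
      pow_le_pow_left₀ (by norm_num) hbig.le J
    have h3 := mul_le_mul_of_nonneg_left (h2.trans h1) (show (0:ℝ) ≤ 2 ^ J by positivity)
    have h4 := one_add_mul_le_pow (show (-2:ℝ) ≤ 1/5 by norm_num) J
    have h5 : (2:ℝ) ^ J * (3/5) ^ J = (1 + 1/5) ^ J := by rw [← mul_pow]; norm_num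
    have h6 : (J:ℝ) = 5 * ((4 * q : ℕ) : ℝ) ^ 3 := by rw [hJ]; push_cast; ring
    have h7 : (0:ℝ) ≤ ((4 * q : ℕ) : ℝ) ^ 3 := by positivity
    linarith

/-- abstract focal-freeness with `k + 2` non-focus vectors -/
def FF (k : ℕ) (F : Finset (ι → Bool)) : Prop :=
  ∀ x ∈ F, ∀ y : Fin (k + 2) → (ι → Bool), (∀ l, y l ∈ F) → (∀ l, y l ≠ x) →
    (∀ l l' i, l ≠ l' → y l i = x i ∨ y l' i = x i) → False

lemma core (k : ℕ) (F : Finset (ι → Bool)) (hF : FF k F) (U : Fin k → Finset ι) (T S : Finset ι)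
    (hU : ∀ l, U l ⊆ S) (hT : T ⊆ S) (hd : ∀ l l', l ≠ l' → Disjoint (U l) (U l'))
    (hd' : ∀ l, Disjoint (U l) T) (q : ℕ) (hq : 31 ≤ q) (ht : 2 * (5 * (4 * q) ^ 3) ^ 2 < T.card) :
    ((F.card : ℝ) - ∑ l, 2 ^ (U l)ᶜ.card - (4 * q : ℕ) * 2 ^ Tᶜ.card) * ((4 * q : ℕ) : ℝ) ^ 2 / 32
      ≤ 4 * 2 ^ S.card := by
  classical
  have ht0 : 0 < T.card := by omega
  have : Nonempty ι := ⟨(Finset.card_pos.1 ht0).choose⟩
  set J := 5 * (4 * q) ^ 3 with hJ
  set M : ℕ := 4 * q with hM
  have hM0 : 0 < M := by omega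
  have hMr : (0:ℝ) < M := by exact_mod_cast hM0
  set bad := Finset.univ.biUnion (fun l => ownSet F (U l)ᶜ) with hbad
  set low := F.filter (fun x => W F T J x < (M:ℝ) ^ 2 / 32) with hlow
  have hbadc : (bad.card : ℝ) ≤ ∑ l, 2 ^ (U l)ᶜ.card := by
    have : bad.card ≤ ∑ l, 2 ^ (U l)ᶜ.card :=
      Finset.card_biUnion_le.trans (Finset.sum_le_sum (fun l _ => own_le F _))
    exact_mod_cast this
  have hlowc : (low.card : ℝ) ≤ M * 2 ^ Tᶜ.card := by
    have : low.card ≤ 2 ^ Tᶜ.card * M := by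
      by_contra hcon
      push Not at hcon
      rw [← Finset.card_powerset] at hcon
      obtain ⟨p, -, hp⟩ := Finset.exists_lt_card_fiber_of_mul_lt_card_of_maps_to
        (f := tr Tᶜ) (s := low) (t := Tᶜ.powerset)
        (fun x _ => Finset.mem_powerset.2 (Finset.filter_subset _ _)) hcon
      obtain ⟨G, hG, hGc⟩ := Finset.exists_subset_card_eq hp.le
      have hGl : ∀ x ∈ G, x ∈ low ∧ tr Tᶜ x = p := fun x hx => Finset.mem_filter.1 (hG hx)
      have hg := group F G T ht0 (fun x hx => (Finset.mem_filter.1 (hGl x hx).1).1)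
        (fun x hx y hy i hi => (tr_eq_iff Tᶜ y x).1 ((hGl y hy).2.trans (hGl x hx).2.symm) i
          (Finset.mem_compl.2 hi)) q hq hGc J rfl
      have hne : G.Nonempty := Finset.card_pos.1 (by omega)
      have hlt := Finset.sum_lt_sum_of_nonempty hne
        (fun x hx => (Finset.mem_filter.1 (hGl x hx).1).2)
      simp only [Finset.sum_const, nsmul_eq_mul, hGc] at hlt
      rw [← hM] at hg
      nlinarith
    rw [mul_comm]; exact_mod_cast this
  set good := F \ bad with hgood
  have hown : ∀ R ⊆ T, ∑ x ∈ good, N F T x R ≤ ((ownSet F (S \ R)).card : ℝ) := by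
    intro R hR
    unfold N
    rw [Finset.sum_boole]
    have : good.filter (fun x => ∃ y ∈ F, y ≠ x ∧ (∀ i, i ∉ T → y i = x i) ∧ (∀ i ∈ R, y i = x i))
        ⊆ ownSet F (S \ R) := by
      intro x hx
      obtain ⟨hxg, w, hwF, hwx, hw1, hw2⟩ := Finset.mem_filter.1 hx
      obtain ⟨hxF, hxb⟩ := Finset.mem_sdiff.1 hxg
      rw [mem_ownSet]
      refine ⟨hxF, fun z hzF hz => ?_⟩
      by_contra hzx
      have hy : ∀ l, ∃ y ∈ F, (∀ i, i ∉ U l → y i = x i) ∧ y ≠ x := by
        intro l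
        by_contra hcon
        apply hxb
        refine Finset.mem_biUnion.2 ⟨l, Finset.mem_univ _, mem_ownSet.2 ⟨hxF, fun y hy h => ?_⟩⟩
        by_contra hyx
        exact hcon ⟨y, hy, fun i hi => h i (Finset.mem_compl.2 hi), hyx⟩
      choose y hyF hy1 hy2 using hy
      have zw : ∀ i, z i = x i ∨ w i = x i := by
        intro i
        by_cases h1 : i ∈ R
        · exact Or.inr (hw2 i h1)
        · by_cases h2 : i ∈ T
          · exact Or.inl (hz i (Finset.mem_sdiff.2 ⟨hT h2, h1⟩))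
          · exact Or.inr (hw1 i h2)
      have zy : ∀ l i, z i = x i ∨ y l i = x i := by
        intro l i
        by_cases h1 : i ∈ U l
        · exact Or.inl (hz i (Finset.mem_sdiff.2 ⟨hU l h1, fun h =>
            Finset.disjoint_left.1 (hd' l) h1 (hR h)⟩))
        · exact Or.inr (hy1 l i h1)
      have wy : ∀ l i, w i = x i ∨ y l i = x i := by
        intro l i
        by_cases h1 : i ∈ U l
        · exact Or.inl (hw1 i (Finset.disjoint_left.1 (hd' l) h1))
        · exact Or.inr (hy1 l i h1)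
      have yy : ∀ l l' i, l ≠ l' → y l i = x i ∨ y l' i = x i := by
        intro l l' i hne
        by_cases h1 : i ∈ U l
        · exact Or.inr (hy1 l' i (Finset.disjoint_left.1 (hd l l' hne) h1))
        · exact Or.inl (hy1 l i h1)
      refine hF x hxF (Fin.cons z (Fin.cons w y)) ?_ ?_ ?_
      · intro l
        refine Fin.cases ?_ (fun l => Fin.cases ?_ (fun l => ?_) l) l
        · exact hzF
        · exact hwF
        · exact hyF l
      · intro l
        refine Fin.cases ?_ (fun l => Fin.cases ?_ (fun l => ?_) l) l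
        · exact hzx
        · exact hwx
        · exact hy2 l
      · intro l l' i
        refine Fin.cases ?_ (fun l => Fin.cases ?_ (fun l => ?_) l) l <;>
        refine Fin.cases ?_ (fun l' => Fin.cases ?_ (fun l' => ?_) l') l' <;> intro hne
        · exact absurd rfl hne
        · exact zw i
        · exact zy l' i
        · exact (zw i).symm
        · exact absurd rfl hne
        · exact wy l' i
        · exact (zy l i).symm
        · exact (wy l i).symm
        · exact yy l l' i (fun h => hne (by rw [h]))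
    exact_mod_cast Finset.card_le_card this
  have hk := kraft F T S hT J ht
  have hsum : ∑ x ∈ good, W F T J x ≤ 4 * 2 ^ S.card := by
    refine le_trans ?_ hk
    unfold W
    rw [Finset.sum_comm]
    apply Finset.sum_le_sum
    intro j _
    rw [← Finset.mul_sum, ← map_sum]
    apply mul_le_mul_of_nonneg_left _ (by positivity)
    apply L_mono
    intro R hR
    rw [Finset.sum_apply]
    exact hown R hR
  have h1 : ∑ x ∈ good \ low, W F T J x ≤ ∑ x ∈ good, W F T J x :=
    Finset.sum_le_sum_of_subset_of_nonneg Finset.sdiff_subset (fun x _ _ => W_nonneg F T J x)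
  have h2 : ∀ x ∈ good \ low, (M:ℝ) ^ 2 / 32 ≤ W F T J x := by
    intro x hx
    obtain ⟨hx1, hx2⟩ := Finset.mem_sdiff.1 hx
    by_contra hcon
    exact hx2 (Finset.mem_filter.2 ⟨(Finset.mem_sdiff.1 hx1).1, lt_of_not_ge hcon⟩)
  have h3 := Finset.sum_le_sum h2
  simp only [Finset.sum_const, nsmul_eq_mul] at h3
  have h4 : (F.card : ℝ) ≤ (good \ low).card + low.card + bad.card := by
    have a1 : F.card ≤ good.card + bad.card := Finset.card_le_card_sdiff_add_card
    have a2 : good.card ≤ (good \ low).card + low.card := Finset.card_le_card_sdiff_add_card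
    have : F.card ≤ (good \ low).card + low.card + bad.card := by omega
    exact_mod_cast this
  have h5 : (F.card : ℝ) - ∑ l, 2 ^ (U l)ᶜ.card - (M:ℝ) * 2 ^ Tᶜ.card ≤ (good \ low).card := by
    linarith
  have h6 := mul_le_mul_of_nonneg_right h5 (show (0:ℝ) ≤ (M:ℝ) ^ 2 / 32 by positivity)
  rw [mul_div_assoc]
  linarith

end Pool.Agent.H1.Focal
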