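import Mathlib

set_option autoImplicit false

namespace Pool.Agent.H1.Geo

open Finset Matrix

variable {U : Type*} [Fintype U]

structure IsProj (P : Matrix U U ℝ) : Prop where
  sym : ∀ x y, x ⬝ᵥ P *ᵥ y = y ⬝ᵥ P *ᵥ x
  idem : ∀ x, P *ᵥ (P *ᵥ x) = P *ᵥ x

theorem dot_nonneg (x : U → ℝ) : 0 ≤ x ⬝ᵥ x := sum_nonneg fun i _ => mul_self_nonneg (x i)

theorem IsProj.eq {P : Matrix U U ℝ} (h : IsProj P) (x : U → ℝ) :
    x ⬝ᵥ P *ᵥ x = (P *ᵥ x) ⬝ᵥ P *ᵥ x := by
  rw [← h.idem x, h.sym x, h.idem x]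

theorem IsProj.nonneg {P : Matrix U U ℝ} (h : IsProj P) (x : U → ℝ) : 0 ≤ x ⬝ᵥ P *ᵥ x := by
  rw [h.eq]; exact dot_nonneg _

theorem IsProj.le {P : Matrix U U ℝ} (h : IsProj P) (x : U → ℝ) : x ⬝ᵥ P *ᵥ x ≤ x ⬝ᵥ x := by
  have h1 := dot_nonneg (x - P *ᵥ x)
  rw [sub_dotProduct, dotProduct_sub, dotProduct_sub, dotProduct_comm (P *ᵥ x) x, ← h.eq] at h1
  linarith

theorem IsProj.step {P : Matrix U U ℝ} (h : IsProj P) (v : U → ℝ) (hv : 0 < v ⬝ᵥ P *ᵥ v) :
    ∃ P' : Matrix U U ℝ, IsProj P' ∧ P'.trace = P.trace - 1 ∧ ∀ (c : U → ℝ) (a : ℝ),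
      (c + a • v) ⬝ᵥ P *ᵥ (c + a • v) = c ⬝ᵥ P' *ᵥ c +
        (c ⬝ᵥ P *ᵥ v + a * v ⬝ᵥ P *ᵥ v) ^ 2 / (v ⬝ᵥ P *ᵥ v) := by
  have hu := h.eq v
  have hPu := h.idem v
  have hs := fun x => h.sym x v
  have hs2 : ∀ x, (P *ᵥ v) ⬝ᵥ P *ᵥ x = x ⬝ᵥ P *ᵥ v := fun x => by rw [h.sym, h.idem]
  generalize hu' : P *ᵥ v = u at *
  generalize hd : v ⬝ᵥ u = d at *
  have e : ∀ x, (P - d⁻¹ • vecMulVec u u) *ᵥ x = P *ᵥ x - (d⁻¹ * x ⬝ᵥ u) • u := by
    intro x
    rw [sub_mulVec, smul_mulVec, vecMulVec_mulVec, dotProduct_comm x u]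
    ext i
    simp
    ring
  refine ⟨P - d⁻¹ • vecMulVec u u, ⟨fun x y => ?_, fun x => ?_⟩, ?_, fun c a => ?_⟩
  · rw [e, e, dotProduct_sub, dotProduct_sub, h.sym x y, dotProduct_smul, dotProduct_smul]
    simp only [smul_eq_mul]; ring
  · rw [e x, e, mulVec_sub, mulVec_smul, h.idem, hPu, sub_dotProduct, smul_dotProduct, ← hu,
      dotProduct_comm (P *ᵥ x) u, hs2, smul_eq_mul]
    have : d⁻¹ * (x ⬝ᵥ u - d⁻¹ * x ⬝ᵥ u * d) = 0 := by field_simp; ring
    rw [this, zero_smul, sub_zero]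
  · rw [trace_sub, trace_smul, trace_vecMulVec, ← hu, smul_eq_mul, inv_mul_cancel₀ hv.ne']
  · rw [e, mulVec_add, mulVec_smul, hu', add_dotProduct, dotProduct_add, dotProduct_add,
      dotProduct_sub, smul_dotProduct, dotProduct_smul, dotProduct_smul, dotProduct_smul,
      smul_dotProduct, hd, ← hs c]
    simp only [smul_eq_mul]
    field_simp
    ring

theorem onedim (Q : ℕ) (hQ : 0 < Q) {lam d t : ℝ} (hd : 0 < d) (hl : 0 < lam)
    (h : 4 * Q < lam * d) : ∑ a : Fin Q, Real.exp (-(lam * ((t + a * d) ^ 2 / d))) ≤ 2 := by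
  have hQ' : (0 : ℝ) < Q := by exact_mod_cast hQ
  have h1 : ∀ a : Fin Q, Real.exp (-(lam * ((t + a * d) ^ 2 / d))) ≤
      (if lam * ((t + a * d) ^ 2 / d) ≤ Q then 1 else 0) + 1 / Q := by
    intro a
    split_ifs with ha
    · have : Real.exp (-(lam * ((t + a * d) ^ 2 / d))) ≤ 1 :=
        Real.exp_le_one_iff.2 (neg_nonpos.2 (by positivity))
      have : (0 : ℝ) ≤ 1 / Q := by positivity
      linarith
    · rw [zero_add, Real.exp_neg, one_div]
      refine inv_anti₀ hQ' ?_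
      have := Real.add_one_le_exp (lam * ((t + a * d) ^ 2 / d))
      linarith [not_le.1 ha]
  refine (sum_le_sum fun a _ => h1 a).trans ?_
  rw [sum_add_distrib, sum_const, card_univ, Fintype.card_fin, nsmul_eq_mul, mul_one_div_cancel hQ'.ne',
    sum_boole]
  have : (univ.filter fun a : Fin Q => lam * ((t + a * d) ^ 2 / d) ≤ Q).card ≤ 1 := by
    rw [card_le_one]
    intro a ha b hb
    have ha := (mem_filter.1 ha).2
    have hb := (mem_filter.1 hb).2
    rw [← mul_div_assoc, div_le_iff₀ hd] at ha hb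
    by_contra hne
    have h2 : (1 : ℝ) ≤ ((a : ℝ) - b) ^ 2 := by
      have : ((a : ℤ) - b) ≠ 0 := sub_ne_zero.2 fun e => hne (Fin.ext (by exact_mod_cast e))
      have : (1 : ℤ) ≤ ((a : ℤ) - b) ^ 2 := by
        have := sq_pos_of_ne_zero this; omega
      exact_mod_cast this
    have h3 : lam * (((a : ℝ) - b) ^ 2 * d ^ 2) ≤ 4 * Q * d := by
      nlinarith [mul_nonneg hl.le (sq_nonneg ((t + a * d) + (t + b * d)))]
    have h4 : lam * (1 * d ^ 2) ≤ lam * (((a : ℝ) - b) ^ 2 * d ^ 2) := by gcongr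
    nlinarith
  have : ((univ.filter fun a : Fin Q => lam * ((t + a * d) ^ 2 / d) ≤ Q).card : ℝ) ≤ 1 := by
    exact_mod_cast this
  linarith

variable {Ω : Type*} [Fintype Ω]

def Iso (v : Ω → U → ℝ) : Prop :=
  ∀ j k, (∀ ω, v ω j * v ω j = 1) ∧ (j ≠ k → ∑ ω, v ω j * v ω k = 0)

theorem Iso.sum {v : Ω → U → ℝ} (h : Iso v) (P : Matrix U U ℝ) :
    ∑ ω, v ω ⬝ᵥ P *ᵥ v ω = Fintype.card Ω * P.trace := by
  simp only [dotProduct, mulVec, mul_sum, trace, Matrix.diag]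
  rw [sum_comm]
  refine sum_congr rfl fun j _ => ?_
  rw [sum_comm, sum_eq_single j]
  · have : ∀ ω, v ω j * (P j j * v ω j) = P j j := fun ω => by
      rw [mul_left_comm, (h j j).1, mul_one]
    simp [this]
  · intro k _ hk
    have := (h j k).2 hk.symm
    calc _ = P j k * ∑ ω, v ω j * v ω k := by
          rw [mul_sum]; exact sum_congr rfl fun _ _ => by ring
      _ = 0 := by rw [this, mul_zero]
  · simp

theorem Iso.norm {v : Ω → U → ℝ} (h : Iso v) (ω : Ω) : v ω ⬝ᵥ v ω = Fintype.card U := by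
  simp [dotProduct, fun j => (h j j).1 ω]

theorem main [Nonempty U] (Q : ℕ) (hQ : 8 ≤ Q) {lam : ℝ} (hl : 0 < lam)
    (hU : 16 * Q < lam * Fintype.card U) (m : ℕ) :
    ∀ (v : Fin m → Ω → U → ℝ), (∀ i, Iso (v i)) → ∀ (r : ℕ) (P : Matrix U U ℝ), IsProj P →
      (Fintype.card U : ℝ) / 2 + r ≤ P.trace → ∀ c : U → ℝ,
      ∑ τ : Fin m → Ω × Fin Q, Real.exp (-(lam * ((c + ∑ i, ((τ i).2 : ℝ) • v i (τ i).1) ⬝ᵥ
        P *ᵥ (c + ∑ i, ((τ i).2 : ℝ) • v i (τ i).1)))) ≤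
        ((Fintype.card Ω : ℝ) * Q) ^ m * ((2 / Q) ^ r + (3 / 4) ^ m) := by
  classical
  have hQ' : (8 : ℝ) ≤ Q := by exact_mod_cast hQ
  have hU0 : (0 : ℝ) < Fintype.card U := by exact_mod_cast Fintype.card_pos
  have triv : ∀ (m : ℕ) (P : Matrix U U ℝ) (S : (Fin m → Ω × Fin Q) → U → ℝ), IsProj P →
      ∑ τ, Real.exp (-(lam * (S τ ⬝ᵥ P *ᵥ S τ))) ≤ ((Fintype.card Ω : ℝ) * Q) ^ m * 1 := by
    intro m P S hP
    calc _ ≤ ∑ _τ : Fin m → Ω × Fin Q, (1 : ℝ) := sum_le_sum fun τ _ =>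
          Real.exp_le_one_iff.2 (neg_nonpos.2 (mul_nonneg hl.le (hP.nonneg _)))
      _ = _ := by simp
  induction m with
  | zero =>
    intro v _ r P hP _ c
    refine (triv 0 P _ hP).trans ?_
    have : (0 : ℝ) ≤ (2 / Q) ^ r := by positivity
    simp only [pow_zero]
    linarith
  | succ m ih =>
    intro v hv r P hP htr c
    rcases r with _ | r
    · refine (triv _ P _ hP).trans (mul_le_mul_of_nonneg_left ?_ (by positivity))
      have : (0 : ℝ) ≤ (3 / 4) ^ (m + 1) := by positivity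
      simp only [pow_zero]
      linarith
    rw [← (Fin.consEquiv fun _ => Ω × Fin Q).sum_comp, Fintype.sum_prod_type, Fintype.sum_prod_type]
    simp only [Fin.consEquiv_apply, Fin.sum_univ_succ, Fin.cons_zero, Fin.cons_succ]
    set W := ((Fintype.card Ω : ℝ) * Q) ^ m with hW
    have hW0 : 0 ≤ W := by positivity
    set θ := (3 / 4 : ℝ) ^ m with hθ
    have hθ0 : 0 ≤ θ := by positivity
    let good : Ω → Prop := fun ω => (Fintype.card U : ℝ) / 4 ≤ v 0 ω ⬝ᵥ P *ᵥ v 0 ω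
    have key : ∀ ω, ∑ a : Fin Q, ∑ τ : Fin m → Ω × Fin Q,
        Real.exp (-(lam * ((c + ((a : ℝ) • v 0 ω + ∑ i, ((τ i).2 : ℝ) • v i.succ (τ i).1)) ⬝ᵥ
        P *ᵥ (c + ((a : ℝ) • v 0 ω + ∑ i, ((τ i).2 : ℝ) • v i.succ (τ i).1))))) ≤
        W * Q * ((2 / Q) ^ (r + 1) + θ * (1 - 3 / 4 * if good ω then 1 else 0)) := by
      intro ω
      split_ifs with hg
      · have hd : 0 < v 0 ω ⬝ᵥ P *ᵥ v 0 ω := lt_of_lt_of_le (by positivity) hg
        obtain ⟨P', hP', htr', hs⟩ := hP.step (v 0 ω) hd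
        have h1 := ih (fun i => v i.succ) (fun i => hv _) r P' hP'
          (by rw [htr']; push_cast at htr; linarith) c
        rw [sum_comm]
        calc _ ≤ ∑ τ : Fin m → Ω × Fin Q, Real.exp (-(lam * ((c + ∑ i, ((τ i).2 : ℝ) • v i.succ (τ i).1) ⬝ᵥ
              P' *ᵥ (c + ∑ i, ((τ i).2 : ℝ) • v i.succ (τ i).1)))) * 2 := by
              refine sum_le_sum fun τ _ => ?_
              simp only [add_comm (_ • v 0 ω), ← add_assoc, hs, mul_add lam, neg_add, Real.exp_add]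
              rw [← mul_sum]
              refine mul_le_mul_of_nonneg_left (onedim Q (by omega) hd hl ?_) (Real.exp_pos _).le
              have := mul_le_mul_of_nonneg_left hg hl.le
              linarith
          _ ≤ W * ((2 / Q) ^ r + θ) * 2 := by rw [← sum_mul]; gcongr
          _ ≤ _ := by
              have e : W * Q * ((2 / Q) ^ (r + 1) + θ * (1 - 3 / 4 * 1)) =
                  W * (2 / Q) ^ r * 2 + W * θ * (Q / 4) := by
                rw [pow_succ]; field_simp; ring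
              rw [e]
              nlinarith [mul_nonneg hW0 hθ0]
      · calc _ ≤ ∑ _a : Fin Q, W * ((2 / Q) ^ (r + 1) + θ) := by
              refine sum_le_sum fun a _ => ?_
              simp only [← add_assoc]
              exact ih (fun i => v i.succ) (fun i => hv _) (r + 1) P hP htr _
          _ = _ := by simp; ring
    refine (sum_le_sum fun ω _ => key ω).trans ?_
    have hG : (Fintype.card Ω : ℝ) ≤ 3 * ∑ ω, if good ω then (1 : ℝ) else 0 := by
      have h1 := (hv 0).sum P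
      have h2 : ∑ ω, v 0 ω ⬝ᵥ P *ᵥ v 0 ω ≤
          ∑ ω, (Fintype.card U : ℝ) * (1 / 4 + 3 / 4 * if good ω then (1 : ℝ) else 0) := by
        refine sum_le_sum fun ω _ => ?_
        split_ifs with hg
        · have := hP.le (v 0 ω)
          rw [(hv 0).norm] at this
          linarith
        · have := not_le.1 hg
          linarith
      rw [h1, ← mul_sum, sum_add_distrib, ← mul_sum] at h2
      simp only [sum_const, card_univ, nsmul_eq_mul] at h2
      have h3 : (Fintype.card U : ℝ) / 2 ≤ P.trace := by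
        have : (0 : ℝ) ≤ ((r + 1 : ℕ) : ℝ) := by positivity
        linarith
      have h4 := mul_le_mul_of_nonneg_left h3 (Nat.cast_nonneg (α := ℝ) (Fintype.card Ω))
      nlinarith
    rw [← mul_sum, sum_add_distrib, ← mul_sum, sum_sub_distrib, ← mul_sum]
    simp only [sum_const, card_univ, nsmul_eq_mul]
    rw [pow_succ ((Fintype.card Ω : ℝ) * Q), pow_succ (3 / 4 : ℝ), ← hW, ← hθ]
    have h5 : 0 ≤ W * Q * θ := by positivity
    nlinarith

end Pool.Agent.H1.Geo
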