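import Mathlib

namespace Pool.Agent.H1.Hud

lemma dep {p q p' q' : ℝ} (h : p * q' = p' * q) :
    ∃ a b, 0 ≤ a ∧ (a ≠ 0 ∨ b ≠ 0) ∧ a * p + b * p' = 0 ∧ a * q + b * q' = 0 := by
  by_cases h1 : p' = 0
  · by_cases h2 : q' = 0
    · exact ⟨0, 1, by simp [h1, h2]⟩
    · exact ⟨q' ^ 2, -q * q', by positivity, .inl (by positivity), by linear_combination q' * h,
        by ring⟩
  · exact ⟨p' ^ 2, -p * p', by positivity, .inl (by positivity), by ring,
      by linear_combination -p' * h⟩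

structure Geo (W : Type) where
  t : W → ℝ
  p : W → ℝ
  q : W → ℝ
  B : W → W → ℝ
  C : ℝ
  hB : ∀ x y, B x y = t x * t y - p x * p y - q x * q y
  b1 : ∀ x, B x x = 1
  b2 : ∀ x y, 1 ≤ B x y
  b3 : ∀ x y z, B y z = 1 → B x y = B x z
  t1 : ∀ x, 1 ≤ t x
  tC : ∀ x, t x ≤ C

variable {W : Type} (g : Geo W)

def U (j i k : W) : Prop := ∃ m a b : ℝ, 0 ≤ m ∧ 0 ≤ a ∧ 0 ≤ b ∧ 0 < a + b ∧
  m * g.p j = a * g.p i + b * g.p k ∧ m * g.q j = a * g.q i + b * g.q k

variable {g}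

lemma sy (x y : W) : g.B x y = g.B y x := by rw [g.hB, g.hB]; ring

lemma U.symm {j i k : W} : U g j i k → U g j k i
  | ⟨m, a, b, h1, h2, h3, h4, h5, h6⟩ => ⟨m, b, a, h1, h3, h2, by linarith, by linarith, by linarith⟩

lemma key {j i k : W} (h : U g j i k) (h1 : g.B i k ≤ g.C) (h2 : g.C < g.B i j) :
    ∃ m a b l : ℝ, 0 ≤ m ∧ 0 ≤ a ∧ 0 ≤ b ∧ 0 < a + b ∧ 0 < l ∧
      l + m * g.t j = a * g.t i + b * g.t k ∧
      ∀ x, m * g.B j x + l * g.t x = a * g.B i x + b * g.B k x := by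
  obtain ⟨m, a, b, hm, ha, hb, hab, e1, e2⟩ := h
  obtain ⟨l, hl⟩ : ∃ l, l + m * g.t j = a * g.t i + b * g.t k := ⟨_, sub_add_cancel _ _⟩
  have e : ∀ x, m * g.B j x + l * g.t x = a * g.B i x + b * g.B k x := fun x => by
    simp only [g.hB]; linear_combination g.t x * hl - g.p x * e1 - g.q x * e2
  refine ⟨m, a, b, l, hm, ha, hb, hab, lt_of_not_ge fun n => ?_, hl, e⟩
  have k1 := e j
  have k2 := e i
  rw [g.b1] at k1 k2
  rw [sy j, sy k] at k2
  have := g.t1 i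
  have := g.tC i
  have : a + b - l ≤ m := by
    nlinarith [g.b2 i j, g.b2 k j, g.t1 j, mul_nonneg ha (sub_nonneg.2 (g.b2 i j)),
      mul_nonneg hb (sub_nonneg.2 (g.b2 k j)), mul_nonneg (neg_nonneg.2 n) (sub_nonneg.2 (g.t1 j))]
  nlinarith [mul_nonneg hb (sub_nonneg.2 h1), mul_nonneg (neg_nonneg.2 n) (sub_nonneg.2 (g.tC i)),
    mul_pos (show 0 < m by linarith) (sub_pos.2 h2)]

lemma lC {j i k : W} (h : U g j i k) (h1 : g.B i k ≤ g.C) (h2 : g.C < g.B i j) : g.t k < g.t j := by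
  obtain ⟨m, a, b, l, hm, ha, hb, hab, hl, -, e⟩ := key h h1 h2
  refine lt_of_not_ge fun n => ?_
  have k1 := e j
  have k2 := e k
  rw [g.b1] at k1 k2
  rw [sy k] at k1
  have h3 := (g.b2 j k).lt_of_ne' fun e => by linarith [g.b3 i j k e]
  have := mul_nonneg hm (sub_pos.2 h3).le
  have := mul_nonneg hl.le (sub_nonneg.2 n)
  rcases ha.eq_or_lt with rfl | ha
  · nlinarith [mul_pos (show 0 < b by linarith) (sub_pos.2 h3)]
  · nlinarith [mul_pos ha (sub_pos.2 (h1.trans_lt h2)), mul_nonneg hb (sub_pos.2 h3).le]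

lemma lA {j i k : W} (h : U g j i k) (h1 : g.B i k ≤ g.C) (h2 : g.C < g.B i j) (h3 : g.C < g.B k j)
    (h4 : g.t i ≤ g.t k) : 2 * g.C * g.t i < (1 + g.C) * g.t j := by
  obtain ⟨m, a, b, l, hm, ha, hb, hab, hl, e0, e⟩ := key h h1 h2
  have k1 := e j
  have k2 := e k
  have k3 := e i
  rw [g.b1] at k1 k2 k3
  rw [sy j] at k2 k3
  rw [sy k] at k3
  have := g.t1 i
  have := g.tC i
  have t := g.t1 j
  have f1 : (a + b) * g.t i ≤ l + m * g.t j := by nlinarith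
  have f2 : (a + b) * g.C < m + l * g.t j := by
    rcases ha.eq_or_lt with rfl | ha
    · nlinarith
    · nlinarith [mul_pos ha (sub_pos.2 h2), mul_nonneg hb (sub_pos.2 h3).le]
  have f3 : l * (l + m * g.t j) + m * (m + l * g.t j) = a ^ 2 + b ^ 2 + 2 * a * b * g.B i k := by
    linear_combination l * e0 + m * k1 + a * k3 + b * k2
  have f4 : a ^ 2 + b ^ 2 + 2 * a * b * g.B i k ≤ (a + b) ^ 2 * (1 + g.C) / 2 := by
    nlinarith [mul_nonneg (mul_nonneg ha hb) (sub_nonneg.2 h1),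
      mul_nonneg (sq_nonneg (a - b)) (show 0 ≤ g.C - 1 by linarith)]
  have f5 : (a + b) * g.t i * ((a + b) * g.C) < (l + m * g.t j) * (m + l * g.t j) :=
    mul_lt_mul' f1 f2 (by nlinarith) (by positivity)
  have f6 : (l + m * g.t j) * (m + l * g.t j) ≤
      g.t j * (l * (l + m * g.t j) + m * (m + l * g.t j)) := by
    nlinarith [mul_nonneg (mul_nonneg hl.le hm) (show 0 ≤ g.t j ^ 2 - 1 by nlinarith)]
  refine lt_of_mul_lt_mul_left (a := (a + b) ^ 2) ?_ (by positivity)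
  nlinarith [mul_le_mul_of_nonneg_left f4 (show 0 ≤ g.t j by linarith)]

lemma lD {y v z w : W} (h : U g y v z) (h' : U g z y w) (h1 : g.B v z ≤ g.C) (h2 : g.B y w ≤ g.C)
    (h3 : g.C < g.B v w) (h4 : g.C < g.B y z) : False := by
  obtain ⟨m, b, a, l, hm, hb, ha, hab, hl, -, e⟩ := key h.symm (sy v z ▸ h1) (sy y z ▸ h4)
  obtain ⟨m', a', b', l', hm', ha', hb', hab', hl', -, e'⟩ := key h' h2 h4
  have k1 := e y
  have k2 := e v
  have k3 := e' y
  have k4 := e' v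
  rw [g.b1] at k1 k2 k3
  rw [sy z, sy v] at k1
  rw [sy z] at k2 k3 k4
  rw [sy w] at k3 k4
  have h5 := (g.b2 y v).lt_of_ne' fun e => by linarith [g.b3 z y v e, @sy _ g z y, @sy _ g z v]
  have s : l' * a * (g.B y v - 1) + (l' * b + l * m') * (g.B y z - g.B v z) +
      (l' * m + l * a') * (g.B y v - 1) + l * b' * (g.B v w - g.B y w) = 0 := by
    linear_combination l' * (k2 - k1) + l * (k3 - k4)
  have p1 := sub_pos.2 h5
  have p2 := sub_pos.2 (h1.trans_lt h4)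
  have p3 := sub_pos.2 (h2.trans_lt h3)
  rcases ha.eq_or_lt with rfl | ha
  · have : 0 < b := by linarith
    exact s.not_gt (by positivity)
  · exact s.not_gt (by positivity)

lemma lT {j i k : W} (h : U g j i k) (l : W) : U g l i k ∨ U g i j l ∨ U g k j l := by
  obtain ⟨m, a, b, hm, ha, hb, hab, e1, e2⟩ := h
  rcases hm.eq_or_lt with rfl | hm
  · exact .inl ⟨0, a, b, le_rfl, ha, hb, hab, by linarith, by linarith⟩
  obtain ⟨c, x, y, hc, n, f1, f2⟩ : ∃ c x y, 0 ≤ c ∧ (c ≠ 0 ∨ x ≠ 0 ∨ y ≠ 0) ∧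
      c * g.p l = x * g.p i + y * g.p k ∧ c * g.q l = x * g.q i + y * g.q k := by
    by_cases d : g.p i * g.q k = g.p k * g.q i
    · obtain ⟨x, y, -, h⟩ := dep d
      exact ⟨0, x, y, le_rfl, .inr h.1, by linarith [h.2.1], by linarith [h.2.2]⟩
    · have := sub_ne_zero.2 d
      exact ⟨(g.p i * g.q k - g.p k * g.q i) ^ 2, (g.p i * g.q k - g.p k * g.q i) *
        (g.p l * g.q k - g.p k * g.q l), (g.p i * g.q k - g.p k * g.q i) *
        (g.p i * g.q l - g.p l * g.q i), by positivity, .inl (by positivity), by ring, by ring⟩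
  by_cases d : y < 0 ∧ 0 ≤ b * x - y * a
  · exact .inr (.inl ⟨b * x - y * a, -y * m, b * c, d.2, by nlinarith, by positivity,
      by nlinarith [mul_nonneg hb hc], by linear_combination y * e1 - b * f1,
      by linear_combination y * e2 - b * f2⟩)
  by_cases d' : x < 0 ∧ b * x - y * a ≤ 0
  · exact .inr (.inr ⟨y * a - b * x, -x * m, a * c, by linarith, by nlinarith, by positivity,
      by nlinarith [mul_nonneg ha hc], by linear_combination x * e1 - a * f1,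
      by linear_combination x * e2 - a * f2⟩)
  have hx : 0 ≤ x := le_of_not_gt fun hx => d ⟨lt_of_not_ge fun hy => d' ⟨hx, by nlinarith⟩,
    (lt_of_not_ge fun e => d' ⟨hx, e⟩).le⟩
  have hy : 0 ≤ y := le_of_not_gt fun hy => d ⟨hy, by nlinarith⟩
  rcases (add_nonneg hx hy).eq_or_lt with e | e
  · obtain rfl : x = 0 := by linarith
    obtain rfl : y = 0 := by linarith
    exact .inr (.inl ⟨0, 0, c, le_rfl, le_rfl, hc, by simpa [hc.lt_iff_ne'] using n, by linarith,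
      by linarith⟩)
  · exact .inl ⟨c, x, y, hc, hx, hy, e, f1, f2⟩

lemma lS (v y z : W) (s : ℝ) (hs : s ≠ 0) (h : 0 ≤ s * (g.p v * g.q y - g.p y * g.q v))
    (h' : 0 ≤ s * (g.p v * g.q z - g.p z * g.q v)) : U g y v z ∨ U g z v y := by
  rcases h.eq_or_lt with d | d
  · obtain ⟨a, b, ha, n, e1, e2⟩ := dep (sub_eq_zero.1 ((mul_eq_zero.1 d.symm).resolve_left hs))
    rcases le_or_gt 0 b with hb | hb
    · exact .inr ⟨0, a, b, le_rfl, ha, hb, by
        rcases n with n | n <;> positivity, by linarith, by linarith⟩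
    rcases ha.eq_or_lt with rfl | ha
    · exact .inr ⟨0, 0, -b, le_rfl, le_rfl, by linarith, by linarith, by linarith, by linarith⟩
    · exact .inl ⟨-b, a, 0, by linarith, ha.le, le_rfl, by linarith, by linarith, by linarith⟩
  rcases le_or_gt 0 (s * (g.p y * g.q z - g.p z * g.q y)) with e | e
  · exact .inl ⟨_, _, _, h', e, h, by linarith, by ring, by ring⟩
  · exact .inr ⟨_, _, _, h, neg_nonneg.2 e.le, h', by linarith, by ring, by ring⟩

lemma claw {v y z w : W} (h : U g y v z) (h1 : g.B v z ≤ g.C) (h2 : g.B y w ≤ g.C)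
    (h3 : g.C < g.B v w) (h4 : g.C < g.B y z) : U g w v z := by
  obtain e | e | e := lT h w
  · exact e
  · exact ((lC e.symm (sy y w ▸ h2) (sy v w ▸ h3)).not_gt
      (lC h.symm (sy v z ▸ h1) (sy y z ▸ h4))).elim
  · exact (lD h e h1 h2 h3 h4).elim

variable {n : ℤ} {P : Bool → ℤ → W} (H : ∀ s s' k j, 0 ≤ k → k < n → 0 ≤ j → j < n →
  (g.B (P s k) (P s' j) ≤ g.C ↔ k = j ∨ s = s' ∧ (k = j + 1 ∨ j = k + 1)))
include H

lemma side {e k : ℤ} (he : e = 1 ∨ e = -1) (h0 : 2 ≤ k) (h1 : k + 2 < n)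
    (h : U g (P false (k + e)) (P false k) (P false (k - e)) ∨
      U g (P false (k + e)) (P false k) (P true k) ∨
      U g (P true k) (P false k) (P false (k - e))) :
    ∃ s i, (i = k ∨ i = k - e) ∧ ∀ s' (d : ℕ), 0 ≤ k + e * (2 + d) → k + e * (2 + d) < n →
      2 * g.C * g.t (P s i) < (1 + g.C) * g.t (P s' (k + e * (2 + d))) := by
  have A : ∀ s s' k j, 0 ≤ k ∧ k < n ∧ 0 ≤ j ∧ j < n ∧
      (k = j ∨ s = s' ∧ (k = j + 1 ∨ j = k + 1)) → g.B (P s k) (P s' j) ≤ g.C :=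
    fun s s' k j h => (H _ _ _ _ h.1 h.2.1 h.2.2.1 h.2.2.2.1).2 h.2.2.2.2
  have N : ∀ s s' k j, 0 ≤ k ∧ k < n ∧ 0 ≤ j ∧ j < n ∧
      ¬ (k = j ∨ s = s' ∧ (k = j + 1 ∨ j = k + 1)) → g.C < g.B (P s k) (P s' j) :=
    fun s s' k j h => lt_of_not_ge fun e => h.2.2.2.2 ((H _ _ _ _ h.1 h.2.1 h.2.2.1 h.2.2.2.1).1 e)
  obtain ⟨s, i, hi, s0, a, u⟩ : ∃ s i, (i = k ∨ i = k - e) ∧ ∃ s0, g.B (P false k) (P s i) ≤ g.C ∧
      U g (P s0 (k + e * 2)) (P false k) (P s i) := by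
    obtain h | h | h := h
    · refine ⟨_, _, .inr rfl, false, A _ _ _ _ ?_, claw h (A _ _ _ _ ?_) (A _ _ _ _ ?_)
        (N _ _ _ _ ?_) (N _ _ _ _ ?_)⟩ <;> simp <;> omega
    · refine ⟨_, _, .inl rfl, false, A _ _ _ _ ?_, claw h (A _ _ _ _ ?_) (A _ _ _ _ ?_)
        (N _ _ _ _ ?_) (N _ _ _ _ ?_)⟩ <;> simp <;> omega
    · refine ⟨_, _, .inr rfl, true, A _ _ _ _ ?_, claw (claw (w := P true (k + e)) h (A _ _ _ _ ?_)
        (A _ _ _ _ ?_) (N _ _ _ _ ?_) (N _ _ _ _ ?_)) (A _ _ _ _ ?_) (A _ _ _ _ ?_)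
        (N _ _ _ _ ?_) (N _ _ _ _ ?_)⟩ <;> simp <;> omega
  have : ∀ (d : ℕ) s', 0 ≤ k + e * (2 + d) → k + e * (2 + d) < n →
      U g (P s' (k + e * (2 + d))) (P false k) (P s i) := fun d => by
    induction d with
    | zero =>
      refine fun s' h h' => claw u a (A _ _ _ _ ?_) (N _ _ _ _ ?_) (N _ _ _ _ ?_) <;>
        rcases he with rfl | rfl <;> simp <;> omega
    | succ d ih =>
      refine fun s' h h' => claw (ih s' ?_ ?_) a (A _ _ _ _ ?_) (N _ _ _ _ ?_) (N _ _ _ _ ?_) <;>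
        rcases he with rfl | rfl <;> simp at h h' ⊢ <;> omega
  rcases le_total (g.t (P false k)) (g.t (P s i)) with l | l
  · refine ⟨false, k, .inl rfl, fun s' d h h' => lA (this d s' h h') a (N _ _ _ _ ?_)
      (N _ _ _ _ ?_) l⟩ <;> rcases he with rfl | rfl <;> simp at h h' ⊢ <;> omega
  · refine ⟨s, i, hi, fun s' d h h' => lA (this d s' h h').symm (sy _ _ ▸ a) (N _ _ _ _ ?_)
      (N _ _ _ _ ?_) l⟩ <;> rcases he with rfl | rfl <;> simp at h h' ⊢ <;> omega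

lemma grow (i : ℕ) (hi : 3 * i + 2 < n) : ∃ s, ∃ j : ℤ, 0 ≤ j ∧ j ≤ 3 * i + 1 ∧
    ∀ s' (j' : ℤ), 3 * i + 2 ≤ j' → j' < n → (2 * g.C) ^ i * g.t (P s j) ≤ (1 + g.C) ^ i * g.C * g.t (P s' j') := by
  have c := (g.t1 (P false 0)).trans (g.tC _)
  induction i with
  | zero => exact ⟨false, 0, le_rfl, by simp, fun s j _ _ => by
      simpa using (g.tC _).trans (le_mul_of_one_le_right (by linarith) (g.t1 _))⟩
  | succ i ih =>
    obtain ⟨s, j, j0, j1, h⟩ := ih (by omega)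
    obtain ⟨k, hk⟩ : ∃ k : ℤ, k = 3 * i + 3 := ⟨_, rfl⟩
    obtain ⟨e, he, u⟩ : ∃ e, (e = 1 ∨ e = -1) ∧
        (U g (P false (k + e)) (P false k) (P false (k - e)) ∨
        U g (P false (k + e)) (P false k) (P true k) ∨
        U g (P true k) (P false k) (P false (k - e))) := by
      obtain ⟨a, ha, h | h | h⟩ := (show ∀ x y z : ℝ, ∃ a : ℝ, a ≠ 0 ∧ ((0 ≤ a * x ∧ 0 ≤ a * y) ∨
          (0 ≤ a * x ∧ 0 ≤ a * z) ∨ 0 ≤ a * y ∧ 0 ≤ a * z) from fun x y z => by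
        by_cases h : (0 ≤ x ∧ 0 ≤ y) ∨ (0 ≤ x ∧ 0 ≤ z) ∨ 0 ≤ y ∧ 0 ≤ z
        · exact ⟨1, by simpa using h⟩
        · exact ⟨-1, by simp, by grind⟩) _ _ _
      · obtain h | h := lS (P false k) (P false (k + 1)) (P false (k - 1)) a ha h.1 h.2
        · exact ⟨1, .inl rfl, .inl h⟩
        · exact ⟨-1, .inr rfl, .inl (by simpa [← sub_eq_add_neg] using h)⟩
      · obtain h | h := lS (P false k) (P false (k + 1)) (P true k) a ha h.1 h.2
        · exact ⟨1, .inl rfl, .inr (.inl h)⟩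
        · exact ⟨-1, .inr rfl, .inr (.inr (by simpa using h))⟩
      · obtain h | h := lS (P false k) (P false (k - 1)) (P true k) a ha h.1 h.2
        · exact ⟨-1, .inr rfl, .inr (.inl h)⟩
        · exact ⟨1, .inl rfl, .inr (.inr h)⟩
    obtain ⟨s1, i1, h1, h2⟩ := side H he (by omega) (by omega) u
    have p : 0 ≤ (2 * g.C) ^ i := by positivity
    have p' : 0 ≤ (1 + g.C) ^ i * g.C := by positivity
    rcases he with rfl | rfl
    · refine ⟨s, j, j0, by omega, fun s' j' a b => ?_⟩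
      have := h2 s' (j' - k - 2).toNat (by omega) (by omega)
      rw [show k + 1 * (2 + ((j' - k - 2).toNat : ℤ)) = j' by omega] at this
      have := mul_le_mul_of_nonneg_left this.le p'
      have := mul_le_mul_of_nonneg_left (h s1 i1 (by omega) (by omega)) (show 0 ≤ 2 * g.C by linarith)
      rw [pow_succ, pow_succ]
      linarith
    · refine ⟨s1, i1, by omega, by omega, fun s' j' a b => ?_⟩
      have := h2 s (k - 2 - j).toNat (by omega) (by omega)
      rw [show k + -1 * (2 + ((k - 2 - j).toNat : ℤ)) = j by omega] at this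
      have := mul_le_mul_of_nonneg_left this.le p
      have := mul_le_mul_of_nonneg_left (h s' j' (by omega) b) (show 0 ≤ 1 + g.C by linarith)
      rw [pow_succ, pow_succ]
      linarith

lemma fin (i : ℕ) (hi : 3 * i + 2 < n) (h9 : 9 ≤ i) (c : 1 < g.C) : (4 / 3) ^ i ≤ g.C ^ 2 := by
  obtain ⟨s, j, -, -, h⟩ := grow H i hi
  have h := h s _ le_rfl hi
  have h : (2 * g.C / (1 + g.C)) ^ i ≤ g.C ^ 2 := by
    rw [div_pow, div_le_iff₀ (by positivity)]
    nlinarith [mul_le_mul_of_nonneg_left (g.t1 (P s j)) (show 0 ≤ (2 * g.C) ^ i by positivity),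
      mul_le_mul_of_nonneg_left (g.tC (P s (3 * i + 2)))
        (show 0 ≤ (1 + g.C) ^ i * g.C by positivity)]
  rcases le_or_gt 2 g.C with l | l
  · exact (pow_le_pow_left₀ (by norm_num) (by rw [le_div_iff₀ (by positivity)]; linarith) _).trans h
  have := (one_add_mul_le_pow (a := (g.C - 1) / 3) (by linarith) i).trans
    ((pow_le_pow_left₀ (by linarith) (by rw [le_div_iff₀ (by positivity)]; nlinarith) _).trans h)
  have h9 : (9 : ℝ) ≤ i := by exact_mod_cast h9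
  nlinarith

end Pool.Agent.H1.Hud
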