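import Mathlib

set_option autoImplicit false

namespace Pool.Agent.H1.Lamp

open Finset Pointwise

abbrev V (m : ℕ) := ZMod m × ZMod m × ZMod m

def tr {m : ℕ} (v : V m) : Equiv.Perm (V m) := Equiv.addRight v

def sh (m : ℕ) : Equiv.Perm (V m) where
  toFun x := (x.2.2, x.1, x.2.1)
  invFun x := (x.2.1, x.2.2, x.1)
  left_inv _ := rfl
  right_inv _ := rfl

theorem tr_inj {m : ℕ} : Function.Injective (tr (m := m)) := by
  intro v w h
  have := congrArg (fun f : Equiv.Perm (V m) => f 0) h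
  simpa [tr] using this

theorem tr_mul {m : ℕ} (v w : V m) : tr v * tr w = tr (v + w) := by
  ext1 x; simp [tr]; abel

theorem sh_tr {m : ℕ} (a b c : ZMod m) : sh m * tr (a, b, c) = tr (c, a, b) * sh m := by
  ext1 x; simp [tr, sh]

theorem main (m : ℕ) [NeZero m] [DecidableEq (Equiv.Perm (V m))] :
    ∃ A B : Finset (Equiv.Perm (V m)), A.card = m ^ 2 ∧ (A * B).card ≤ 2 * m ^ 2 ∧
      (∀ b ∈ B, (A * {b} * B).card ≤ 2 * m ^ 2) ∧ m ^ 3 ≤ (B ^ 5).card := by
  let A : Finset (Equiv.Perm (V m)) :=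
    (univ : Finset (ZMod m × ZMod m)).image (fun q => tr (q.1, q.2, 0))
  let B : Finset (Equiv.Perm (V m)) :=
    insert (sh m) ((univ : Finset (ZMod m)).image (fun a => tr (a, 0, 0)))
  have hA : A.card = m ^ 2 := by
    rw [card_image_of_injective]
    · simp [sq]
    · intro q q' h
      have := tr_inj h
      simp only [Prod.mk.injEq] at this
      exact Prod.ext this.1 this.2.1
  have memA : ∀ g, g ∈ A ↔ ∃ a b, g = tr (a, b, 0) := by
    intro g; simp only [A, mem_image, mem_univ, true_and, Prod.exists]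
    constructor
    · rintro ⟨a, b, rfl⟩; exact ⟨a, b, rfl⟩
    · rintro ⟨a, b, rfl⟩; exact ⟨a, b, rfl⟩
  have memB : ∀ g, g ∈ B ↔ g = sh m ∨ ∃ a, g = tr (a, 0, 0) := by
    intro g; simp only [B, mem_insert, mem_image, mem_univ, true_and]
    constructor
    · rintro (h | ⟨a, rfl⟩)
      · exact Or.inl h
      · exact Or.inr ⟨a, rfl⟩
    · rintro (h | ⟨a, rfl⟩)
      · exact Or.inl h
      · exact Or.inr ⟨a, rfl⟩
  have two : ∀ g h : Equiv.Perm (V m), (A * {g} ∪ A * {h}).card ≤ 2 * m ^ 2 := by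
    intro g h
    refine (card_union_le _ _).trans ?_
    rw [card_mul_singleton, card_mul_singleton, hA]; omega
  have hAB : A * B ⊆ A * {1} ∪ A * {sh m} := by
    intro g hg
    obtain ⟨x, hx, y, hy, rfl⟩ := mem_mul.1 hg
    rcases (memB y).1 hy with rfl | ⟨c, rfl⟩
    · exact mem_union_right _ (mul_mem_mul hx (mem_singleton_self _))
    · obtain ⟨a, b, rfl⟩ := (memA x).1 hx
      refine mem_union_left _ (mem_mul.2 ⟨_, (memA _).2 ⟨a + c, b, rfl⟩, 1, mem_singleton_self _, ?_⟩)
      simp [tr_mul]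
  refine ⟨A, B, hA, (card_le_card hAB).trans (two _ _), ?_, ?_⟩
  · intro b hb
    rcases (memB b).1 hb with rfl | ⟨c, rfl⟩
    · refine le_trans (card_le_card ?_) (two (sh m) (sh m * sh m))
      intro g hg
      obtain ⟨x, hx, y, hy, rfl⟩ := mem_mul.1 hg
      obtain ⟨x, hx', z, hz, rfl⟩ := mem_mul.1 hx
      rw [mem_singleton] at hz; subst hz
      rcases (memB y).1 hy with rfl | ⟨c, rfl⟩
      · refine mem_union_right _ ?_
        rw [mul_assoc]
        exact mul_mem_mul hx' (mem_singleton_self _)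
      · obtain ⟨a, b, rfl⟩ := (memA x).1 hx'
        refine mem_union_left _ (mem_mul.2 ⟨_, (memA _).2 ⟨a, b + c, rfl⟩, _, mem_singleton_self _, ?_⟩)
        rw [mul_assoc, sh_tr, ← mul_assoc, tr_mul]; simp
    · refine le_trans (card_le_card ?_) ((card_le_card hAB).trans (two _ _))
      apply mul_subset_mul_right
      intro g hg
      obtain ⟨x, hx', z, hz, rfl⟩ := mem_mul.1 hg
      rw [mem_singleton] at hz; subst hz
      obtain ⟨a, b, rfl⟩ := (memA x).1 hx'
      exact (memA _).2 ⟨a + c, b, by simp [tr_mul]⟩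
  · have hsub : (univ : Finset (V m)).image (fun v => tr v * (sh m * sh m)) ⊆ B ^ 5 := by
      intro g hg
      obtain ⟨⟨a, b, c⟩, -, rfl⟩ := mem_image.1 hg
      have e : tr (a, b, c) * (sh m * sh m) =
          tr (a, 0, 0) * sh m * tr (b, 0, 0) * sh m * tr (c, 0, 0) := by
        ext1 x; simp [tr, sh]
      have hB5 : B ^ 5 = B * B * B * B * B := by
        rw [pow_succ, pow_succ, pow_succ, pow_succ, pow_one]
      rw [e, hB5]
      have h1 : ∀ a, tr ((a, 0, 0) : V m) ∈ B := fun a => (memB _).2 (Or.inr ⟨a, rfl⟩)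
      have h2 : sh m ∈ B := (memB _).2 (Or.inl rfl)
      exact mul_mem_mul (mul_mem_mul (mul_mem_mul (mul_mem_mul (h1 _) h2) (h1 _)) h2) (h1 _)
    refine le_trans ?_ (card_le_card hsub)
    rw [card_image_of_injective]
    · simp [pow_succ, mul_assoc]
    · intro v w h
      exact tr_inj (mul_right_cancel h)

end Pool.Agent.H1.Lamp
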