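import Mathlib

set_option autoImplicit false

namespace Pool.Agent.H1.Mult

open Finset Pointwise

/-- The set of distinct values of multinomial coefficients `n! / (p_1! ... p_t!)`,
`p` ranging over the partitions of `n`. -/
def Mset (n : ℕ) : Finset ℕ :=
  (univ : Finset (Nat.Partition n)).image
    fun p => n.factorial / (p.parts.map Nat.factorial).prod

/-- `r_n(t)`: number of pairs `x ≤ y` in `Mset n` with `x + y = t`. -/
def r (n t : ℕ) : ℕ :=
  ((Mset n ×ˢ Mset n).filter fun q => q.1 ≤ q.2 ∧ q.1 + q.2 = t).card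

/-- `C(n) = ∑_t max (r_n(t) - 1, 0)` (truncated subtraction; `r_n(t) = 0` off the sumset). -/
def C (n : ℕ) : ℕ := ∑ t ∈ Mset n + Mset n, (r n t - 1)

/-- `D(n)`: number of `t` with `r_n(t) ≥ 2`. -/
def D (n : ℕ) : ℕ := ((Mset n + Mset n).filter fun t => 2 ≤ r n t).card

/-- `μ(n) = max_t r_n(t)`. -/
def mu (n : ℕ) : ℕ := (Mset n + Mset n).sup fun t => r n t

end Pool.Agent.H1.Mult
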