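import Mathlib
import Pool.Agent.H1.MultDefs

set_option autoImplicit false

namespace Pool.Agent.H1.Mult

open Finset Pointwise Filter

def val (s : Multiset ℕ) : ℕ := (s.map Nat.factorial).prod

def IsP (n w : ℕ) : Prop := ∃ s : Multiset ℕ, s.sum ≤ n ∧ w = val s

theorem val_dvd (s : Multiset ℕ) : val s ∣ s.sum.factorial := by
  induction s using Multiset.induction_on with
  | empty => simp [val]
  | cons a s ih =>
    simp only [val, Multiset.map_cons, Multiset.prod_cons, Multiset.sum_cons] at ih ⊢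
    exact (Nat.mul_dvd_mul_left _ ih).trans (Nat.factorial_mul_factorial_dvd_factorial_add _ _)

theorem IsP.dvd {n w : ℕ} (h : IsP n w) : w ∣ n.factorial := by
  obtain ⟨s, hs, rfl⟩ := h
  exact (val_dvd s).trans (Nat.factorial_dvd_factorial hs)

theorem IsP.pos {n w : ℕ} (h : IsP n w) : 0 < w :=
  Nat.pos_of_dvd_of_pos h.dvd (Nat.factorial_pos n)

theorem IsP.mono {m n w : ℕ} (h : IsP m w) (hmn : m ≤ n) : IsP n w := by
  obtain ⟨s, hs, rfl⟩ := h
  exact ⟨s, hs.trans hmn, rfl⟩

theorem IsP.mul {m n u w : ℕ} (h : IsP m u) (h' : IsP n w) : IsP (m + n) (u * w) := by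
  obtain ⟨s, hs, rfl⟩ := h
  obtain ⟨t, ht, rfl⟩ := h'
  exact ⟨s + t, by simp; omega, by simp [val]⟩

theorem isP_fact (p : ℕ) : IsP p p.factorial := ⟨{p}, by simp, by simp [val]⟩

theorem isP_one (n : ℕ) : IsP n 1 := ⟨0, by simp, by simp [val]⟩

theorem isP_prod {ι : Type} [DecidableEq ι] (T : Finset ι) (f : ι → ℕ) :
    IsP (∑ i ∈ T, f i) (∏ i ∈ T, (f i).factorial) := by
  induction T using Finset.induction_on with
  | empty => simpa using isP_one 0
  | insert a T ha ih => rw [sum_insert ha, prod_insert ha]; exact (isP_fact _).mul ih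

def Pf (n : ℕ) : Finset ℕ := (univ : Finset (Nat.Partition n)).image fun p => val p.parts

theorem val_filter (s : Multiset ℕ) : val (s.filter (· ≠ 0)) = val s := by
  induction s using Multiset.induction_on with
  | empty => simp
  | cons a s ih =>
    by_cases ha : a = 0
    · subst ha
      rw [Multiset.filter_cons_of_neg _ (by simp), ih]; simp [val]
    · rw [Multiset.filter_cons_of_pos (p := (· ≠ 0)) _ ha]
      simp only [val, Multiset.map_cons, Multiset.prod_cons] at ih ⊢
      rw [ih]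

theorem mem_Pf {n w : ℕ} : w ∈ Pf n ↔ IsP n w := by
  simp only [Pf, mem_image, mem_univ, true_and]
  constructor
  · rintro ⟨p, rfl⟩; exact ⟨p.parts, p.parts_sum.le, rfl⟩
  · rintro ⟨s, hs, rfl⟩
    refine ⟨Nat.Partition.ofSums n (s + Multiset.replicate (n - s.sum) 1) (by simp; omega), ?_⟩
    rw [Nat.Partition.ofSums_parts, val_filter]
    simp [val]

theorem Mset_eq (n : ℕ) : Mset n = (Pf n).image fun w => n.factorial / w := by
  rw [Pf, image_image]; rfl

theorem mem_Mset {n x w : ℕ} (h : IsP n w) (hx : x * w = n.factorial) : x ∈ Mset n := by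
  rw [Mset_eq, mem_image]
  refine ⟨w, mem_Pf.2 h, ?_⟩
  rw [← hx, Nat.mul_div_cancel _ h.pos]

theorem card_Mset (n : ℕ) : (Mset n).card = (Pf n).card := by
  rw [Mset_eq, card_image_of_injOn]
  intro a ha b hb hab
  have ha' := (mem_Pf.1 ha).dvd
  have hb' := (mem_Pf.1 hb).dvd
  simp only at hab
  rw [← Nat.div_div_self ha' (Nat.factorial_ne_zero n), hab,
    Nat.div_div_self hb' (Nat.factorial_ne_zero n)]

open Classical in
noncomputable def cost (u : ℕ) : ℕ := if h : ∃ k, IsP k u then Nat.find h else 0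

theorem card_Pf_succ (n : ℕ) : (Pf (n + 1)).card ≤ 2 * (Pf n).card := by
  classical
  have hsub : Pf (n + 1) ⊆ Pf n ∪ (Pf n).image fun u => u * (n + 1 - cost u).factorial := by
    intro w hw
    by_cases hn : w ∈ Pf n
    · exact mem_union_left _ hn
    refine mem_union_right _ ?_
    rw [mem_Pf] at hw hn
    obtain ⟨s, hs, rfl⟩ := hw
    have hsum : s.sum = n + 1 := by
      by_contra hne
      exact hn ⟨s, by omega, rfl⟩
    obtain ⟨p, hp, hp0⟩ : ∃ p ∈ s, p ≠ 0 := by
      by_contra hc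
      push Not at hc
      have := Multiset.sum_eq_zero hc
      omega
    obtain ⟨t, rfl⟩ := Multiset.exists_cons_of_mem hp
    rw [Multiset.sum_cons] at hsum
    have hv : val (p ::ₘ t) = val t * p.factorial := by simp [val, mul_comm]
    have ht : IsP t.sum (val t) := ⟨t, le_rfl, rfl⟩
    have hex : ∃ k, IsP k (val t) := ⟨_, ht⟩
    have hc : cost (val t) = t.sum := by
      rw [cost, dif_pos hex]
      apply le_antisymm (Nat.find_min' hex ht)
      by_contra hlt
      push Not at hlt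
      apply hn
      rw [hv]
      exact ((Nat.find_spec hex).mul (isP_fact p)).mono (by omega)
    rw [mem_image]
    refine ⟨val t, mem_Pf.2 (ht.mono (by omega)), ?_⟩
    rw [hc, hv, show n + 1 - t.sum = p by omega]
  refine (card_le_card hsub).trans ((card_union_le _ _).trans ?_)
  have := card_image_le (s := Pf n) (f := fun u => u * (n + 1 - cost u).factorial)
  omega

theorem card_Pf_five (n : ℕ) : (Pf (n + 5)).card ≤ 32 * (Pf n).card := by
  have h1 := card_Pf_succ n
  have h2 := card_Pf_succ (n + 1)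
  have h3 := card_Pf_succ (n + 2)
  have h4 := card_Pf_succ (n + 3)
  have h5 := card_Pf_succ (n + 4)
  simp only [add_assoc] at *
  norm_num at *
  omega

/-- The set of dilation factors of the progression 10, 20, 30. -/
def Vs (m : ℕ) : Finset ℕ := (Pf m).image fun w => (m + 5).factorial / (w * 120)

theorem card_Vs (m : ℕ) : (Vs m).card = (Pf m).card := by
  rw [Vs, card_image_of_injOn]
  intro a ha b hb hab
  have ha' : a * 120 ∣ _ := ((mem_Pf.1 ha).mul (isP_fact 5)).dvd
  have hb' : b * 120 ∣ _ := ((mem_Pf.1 hb).mul (isP_fact 5)).dvd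
  simp only at hab
  have : a * 120 = b * 120 := by
    rw [← Nat.div_div_self ha' (Nat.factorial_ne_zero _), hab,
      Nat.div_div_self hb' (Nat.factorial_ne_zero _)]
  omega

theorem Vs_spec {m v : ℕ} (hv : v ∈ Vs m) :
    0 < v ∧ 10 * v ∈ Mset (m + 5) ∧ 20 * v ∈ Mset (m + 5) ∧ 30 * v ∈ Mset (m + 5) := by
  obtain ⟨w, hw, rfl⟩ := mem_image.1 hv
  rw [mem_Pf] at hw
  have hd : w * 120 ∣ _ := (hw.mul (isP_fact 5)).dvd
  obtain ⟨v, hv⟩ := hd
  have hw0 := hw.pos
  have e : (m + 5).factorial / (w * 120) = v := by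
    rw [hv, Nat.mul_div_cancel_left _ (by omega)]
  rw [e]
  have h12 : IsP 5 12 := (isP_fact 3).mul (isP_fact 2)
  have h6 : IsP 5 6 := (isP_fact 3).mono (by norm_num)
  have h4 : IsP 5 4 := ((isP_fact 2).mul (isP_fact 2)).mono (by norm_num)
  refine ⟨?_, mem_Mset (hw.mul h12) (by rw [hv]; ring), mem_Mset (hw.mul h6) (by rw [hv]; ring),
    mem_Mset (hw.mul h4) (by rw [hv]; ring)⟩
  rcases Nat.eq_zero_or_pos v with rfl | h
  · exact absurd hv (by simp [Nat.factorial_ne_zero])
  · exact h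

theorem card_le_D (m : ℕ) : (Mset (m + 5)).card ≤ 32 * D (m + 5) := by
  rw [card_Mset]
  refine (card_Pf_five m).trans (Nat.mul_le_mul_left _ ?_)
  rw [← card_Vs, D]
  apply card_le_card_of_injOn (fun v => 40 * v)
  · intro v hv
    obtain ⟨h0, h1, h2, h3⟩ := Vs_spec hv
    simp only [coe_filter, Set.mem_ofPred_eq]
    refine ⟨mem_add.2 ⟨_, h1, _, h3, by ring⟩, ?_⟩
    have : ({(10 * v, 30 * v), (20 * v, 20 * v)} : Finset (ℕ × ℕ)) ⊆
        (Mset (m + 5) ×ˢ Mset (m + 5)).filter fun q => q.1 ≤ q.2 ∧ q.1 + q.2 = 40 * v := by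
      intro q hq
      simp only [mem_insert, mem_singleton] at hq
      rcases hq with rfl | rfl
      · exact mem_filter.2 ⟨mem_product.2 ⟨h1, h3⟩, by simp only; omega, by simp only; omega⟩
      · exact mem_filter.2 ⟨mem_product.2 ⟨h2, h2⟩, by simp only; omega, by simp only; omega⟩
    have h := card_le_card this
    rwa [card_pair (by simp; omega)] at h
  · intro a _ b _ h
    simp only at h; omega

theorem sidon_defect (m : ℕ) (S : Finset ℕ) (hS : S ⊆ Mset (m + 5))
    (hsid : ∀ x ∈ S, ∀ y ∈ S, ∀ u ∈ S, ∀ v ∈ S, x + y = u + v → (x = u ∧ y = v) ∨ (x = v ∧ y = u)) :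
    (Mset (m + 5)).card + 96 * S.card ≤ 96 * (Mset (m + 5)).card := by
  set E := Mset (m + 5) \ S with hE
  have hsub : Vs m ⊆ E.image (· / 10) ∪ E.image (· / 20) ∪ E.image (· / 30) := by
    intro v hv
    obtain ⟨h0, h1, h2, h3⟩ := Vs_spec hv
    simp only [mem_union, mem_image, hE]
    by_cases a1 : 10 * v ∈ S
    · by_cases a2 : 20 * v ∈ S
      · by_cases a3 : 30 * v ∈ S
        · have := hsid _ a1 _ a3 _ a2 _ a2 (by ring)
          omega
        · exact Or.inr ⟨_, mem_sdiff.2 ⟨h3, a3⟩, by omega⟩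
      · exact Or.inl (Or.inr ⟨_, mem_sdiff.2 ⟨h2, a2⟩, by omega⟩)
    · exact Or.inl (Or.inl ⟨_, mem_sdiff.2 ⟨h1, a1⟩, by omega⟩)
  have h1 := card_le_card hsub
  have h2 := card_union_le (E.image (· / 10) ∪ E.image (· / 20)) (E.image (· / 30))
  have h3 := card_union_le (E.image (· / 10)) (E.image (· / 20))
  have h4 := card_image_le (s := E) (f := (· / 10))
  have h5 := card_image_le (s := E) (f := (· / 20))
  have h6 := card_image_le (s := E) (f := (· / 30))
  have h7 : E.card + S.card = (Mset (m + 5)).card := card_sdiff_add_card_eq_card hS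
  have h8 := card_Pf_five m
  rw [← card_Mset, ← card_Vs] at h8
  omega

theorem D_le_C (n : ℕ) : D n ≤ C n := by
  rw [D, C, card_filter]
  apply sum_le_sum
  intro t _
  split_ifs <;> omega

theorem mu_le_card (n : ℕ) : mu n ≤ (Mset n).card := by
  apply Finset.sup_le
  intro t _
  apply card_le_card_of_injOn (fun q => q.1)
  · intro q hq
    simp only [coe_filter, mem_product, Set.mem_ofPred_eq] at hq
    exact hq.1.1
  · intro q hq q' hq' h
    simp only [coe_filter, mem_product, Set.mem_ofPred_eq] at hq hq' h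
    exact Prod.ext h (by omega)

theorem mu_lower (n y k : ℕ) (hy : y * y ≤ n) :
    ((Nat.primeCounting y).choose k) ^ 2 ≤ (2 * y ^ k + 1) * (2 * mu n) := by
  set P := Nat.primesLE y with hP
  have hPc : P.card = Nat.primeCounting y := by rw [hP]; simp
  have hPm : ∀ p ∈ P, p.Prime ∧ p ≤ y := by
    intro p hp; rw [hP, Nat.mem_primesLE] at hp; exact ⟨hp.2, hp.1⟩
  have hsum : ∑ p ∈ P, p ≤ n := by
    refine le_trans ?_ hy
    refine (sum_le_card_nsmul P _ y fun p hp => (hPm p hp).2).trans ?_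
    rw [smul_eq_mul]
    apply Nat.mul_le_mul_right
    have : P ⊆ Icc 1 y := fun p hp => mem_Icc.2 ⟨(hPm p hp).1.one_le, (hPm p hp).2⟩
    simpa using card_le_card this
  obtain ⟨v, hv⟩ : ∏ p ∈ P, p.factorial ∣ n.factorial := ((isP_prod P id).mono hsum).dvd
  have hv0 : 0 < v := by
    rcases Nat.eq_zero_or_pos v with rfl | h
    · exact absurd hv (by simp [Nat.factorial_ne_zero])
    · exact h
  set X : Finset ℕ := (P.powersetCard k).image fun T => ∏ p ∈ T, p with hX
  have hXc : X.card = (Nat.primeCounting y).choose k := by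
    rw [hX, card_image_of_injOn, card_powersetCard, hPc]
    intro T hT T' hT' h
    have a1 := (mem_powersetCard.1 hT).1
    have a2 := (mem_powersetCard.1 hT').1
    simp only at h
    rw [← Nat.primeFactors_prod (fun p hp => (hPm p (a1 hp)).1), h,
      Nat.primeFactors_prod (fun p hp => (hPm p (a2 hp)).1)]
  have hXm : ∀ a ∈ X, a ≤ y ^ k ∧ v * a ∈ Mset n := by
    intro a ha
    obtain ⟨T, hT, rfl⟩ := mem_image.1 ha
    obtain ⟨a1, a2⟩ := mem_powersetCard.1 hT
    refine ⟨?_, ?_⟩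
    · rw [← a2]; exact prod_le_pow_card _ _ _ fun p hp => (hPm p (a1 hp)).2
    · have h1 := (isP_prod (P \ T) id).mul (isP_prod T fun p => p - 1)
      refine mem_Mset (h1.mono ?_) ?_
      · refine le_trans ?_ hsum
        rw [← sum_sdiff a1]
        exact Nat.add_le_add_left (sum_le_sum fun p _ => Nat.sub_le _ _) _
      · rw [hv, ← prod_sdiff a1]
        have : ∏ p ∈ T, p.factorial = (∏ p ∈ T, p) * ∏ p ∈ T, (p - 1).factorial := by
          rw [← prod_mul_distrib]
          exact prod_congr rfl fun p hp =>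
            (Nat.mul_factorial_pred (hPm p (a1 hp)).1.ne_zero).symm
        rw [this]; simp only [id]; ring
  rw [← hXc, sq, ← card_product]
  have key : ∀ t ∈ range (2 * y ^ k + 1),
      ((X ×ˢ X).filter fun q => q.1 + q.2 = t).card ≤ 2 * mu n := by
    intro t _
    rcases ((X ×ˢ X).filter fun q => q.1 + q.2 = t).eq_empty_or_nonempty with he | ⟨q0, hq0⟩
    · rw [he]; simp
    have hr : r n (v * t) ≤ mu n := by
      apply Finset.le_sup (f := fun t => r n t)
      simp only [mem_filter, mem_product] at hq0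
      exact mem_add.2 ⟨_, (hXm _ hq0.1.1).2, _, (hXm _ hq0.1.2).2, by rw [← hq0.2]; ring⟩
    have hle : ((X ×ˢ X).filter fun q => q.1 ≤ q.2 ∧ q.1 + q.2 = t).card ≤ r n (v * t) := by
      apply card_le_card_of_injOn (fun q => (v * q.1, v * q.2))
      · intro q hq
        simp only [coe_filter, mem_product, Set.mem_ofPred_eq] at hq ⊢
        exact ⟨⟨(hXm _ hq.1.1).2, (hXm _ hq.1.2).2⟩, Nat.mul_le_mul_left _ hq.2.1,
          by rw [← hq.2.2]; ring⟩
      · intro q _ q' _ h
        simp only [Prod.mk.injEq] at h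
        exact Prod.ext (Nat.eq_of_mul_eq_mul_left hv0 h.1) (Nat.eq_of_mul_eq_mul_left hv0 h.2)
    have hsub : ((X ×ˢ X).filter fun q => q.1 + q.2 = t) ⊆
        ((X ×ˢ X).filter fun q => q.1 ≤ q.2 ∧ q.1 + q.2 = t) ∪
        ((X ×ˢ X).filter fun q => q.1 ≤ q.2 ∧ q.1 + q.2 = t).image Prod.swap := by
      intro q hq
      simp only [mem_filter, mem_product] at hq
      rcases le_total q.1 q.2 with h | h
      · exact mem_union_left _ (mem_filter.2 ⟨mem_product.2 hq.1, h, hq.2⟩)
      · refine mem_union_right _ (mem_image.2 ⟨q.swap, ?_, Prod.swap_swap _⟩)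
        exact mem_filter.2 ⟨mem_product.2 ⟨hq.1.2, hq.1.1⟩, h, by simp; omega⟩
    have h1 := (card_le_card hsub).trans (card_union_le _ _)
    have h2 := card_image_le (s := (X ×ˢ X).filter fun q => q.1 ≤ q.2 ∧ q.1 + q.2 = t)
      (f := Prod.swap)
    omega
  have := card_le_mul_card_image_of_maps_to (s := X ×ˢ X) (t := range (2 * y ^ k + 1))
    (f := fun q => q.1 + q.2) (by
      intro q hq
      rw [mem_product] at hq
      have := (hXm _ hq.1).1
      have := (hXm _ hq.2).1
      rw [mem_range]; omega) (2 * mu n) key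
  rw [card_range] at this
  linarith

theorem pi_lower : ∀ᶠ y : ℕ in atTop, y ^ 3 ≤ (Nat.primeCounting y) ^ 4 := by
  have h1 : ∀ᶠ x : ℝ in atTop, Real.log x ≤ (1 / 8) * x ^ (1 / 4 : ℝ) := by
    have := (isLittleO_log_rpow_atTop (show (0 : ℝ) < 1 / 4 by norm_num)).bound
      (show (0 : ℝ) < 1 / 8 by norm_num)
    filter_upwards [this, eventually_ge_atTop 1] with x hx hx1
    rw [Real.norm_of_nonneg (Real.log_nonneg hx1), Real.norm_of_nonneg (by positivity)] at hx
    exact hx
  filter_upwards [tendsto_natCast_atTop_atTop.eventually h1, eventually_ge_atTop 2] with y hy hy2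
  have hy' : (2 : ℝ) ≤ y := by exact_mod_cast hy2
  have hl : 0 < Real.log y := Real.log_pos (by linarith)
  have hp := Chebyshev.pi_ge y
  rw [div_le_iff₀ hl] at hp
  set s : ℝ := (y : ℝ) ^ (1 / 4 : ℝ) with hs
  have hs4 : s ^ 4 = y := by
    rw [hs, ← Real.rpow_natCast, ← Real.rpow_mul (by linarith)]; norm_num
  have hs1 : 1 ≤ s := Real.one_le_rpow (by linarith) (by norm_num)
  have hl2 : Real.log (y + 1) ≤ 2 * Real.log y := by
    rw [show 2 * Real.log y = Real.log (y ^ 2) by rw [Real.log_pow]; norm_num]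
    apply Real.log_le_log (by linarith); nlinarith
  have hlog2 : (1 / 2 : ℝ) < Real.log 2 := by have := Real.log_two_gt_d9; linarith
  have hss : s ≤ s ^ 4 := le_self_pow₀ hs1 (by norm_num)
  have hz : (0 : ℝ) ≤ (Nat.primeCounting y : ℝ) := by positivity
  have h3 : s ^ 4 / 4 ≤ (Nat.primeCounting y : ℝ) * (1 / 8 * s) := by
    refine le_trans ?_ (hp.trans (mul_le_mul_of_nonneg_left hy hz))
    rw [hs4]; nlinarith
  have h4 : s ^ 3 ≤ (Nat.primeCounting y : ℝ) := by
    have : s ^ 3 * s ≤ (Nat.primeCounting y : ℝ) * s := by nlinarith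
    exact le_of_mul_le_mul_right this (by linarith)
  have h5 : (s ^ 3) ^ 4 ≤ (Nat.primeCounting y : ℝ) ^ 4 := pow_le_pow_left₀ (by positivity) h4 4
  have h6 : (s ^ 3) ^ 4 = (y : ℝ) ^ 3 := by rw [← hs4]; ring
  rw [h6] at h5
  exact_mod_cast h5

theorem mu_superpoly (K : ℕ) : ∀ᶠ n : ℕ in atTop, n ^ K ≤ mu n := by
  set j := 2 * K + 1 with hj
  set k := 2 * j with hk
  have hsq : Tendsto Nat.sqrt atTop atTop := by
    apply tendsto_atTop_atTop.2
    intro b
    exact ⟨b * b, fun n hn => Nat.le_sqrt.2 hn⟩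
  have hpi : Tendsto Nat.primeCounting atTop atTop := Nat.tendsto_primeCounting
  filter_upwards [hsq.eventually pi_lower, hsq.eventually (hpi.eventually (eventually_ge_atTop (2 * k))),
    hsq.eventually (eventually_ge_atTop (4 ^ K * (2 ^ k * k.factorial) ^ 2 * 6 + 1))] with n h1 h2 h3
  set y := Nat.sqrt n with hy
  set z := Nat.primeCounting y with hz
  have hm := mu_lower n y k (Nat.sqrt_le n)
  rw [← hz] at hm
  have hy1 : 1 ≤ y := by omega
  have hc : z ^ k ≤ 2 ^ k * k.factorial * z.choose k := by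
    have a1 : (z + 1 - k) ^ k ≤ z.descFactorial k := Nat.pow_sub_le_descFactorial z k
    rw [Nat.descFactorial_eq_factorial_mul_choose] at a1
    calc z ^ k ≤ (2 * (z + 1 - k)) ^ k := Nat.pow_le_pow_left (by omega) k
      _ = 2 ^ k * (z + 1 - k) ^ k := mul_pow _ _ _
      _ ≤ 2 ^ k * (k.factorial * z.choose k) := Nat.mul_le_mul_left _ a1
      _ = _ := by ring
  set c := 2 ^ k * k.factorial with hcdef
  have e1 : y ^ (3 * j) ≤ (z ^ k) ^ 2 := by
    calc y ^ (3 * j) = (y ^ 3) ^ j := by rw [pow_mul]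
      _ ≤ (z ^ 4) ^ j := Nat.pow_le_pow_left h1 j
      _ = (z ^ k) ^ 2 := by rw [hk]; ring
  have e2 : (z ^ k) ^ 2 ≤ c ^ 2 * (z.choose k) ^ 2 := by
    rw [← mul_pow]; exact Nat.pow_le_pow_left hc 2
  have hyk : 1 ≤ y ^ k := Nat.one_le_pow _ _ hy1
  have e3 : y ^ k * y ^ j ≤ y ^ k * (c ^ 2 * 6 * mu n) := by
    calc y ^ k * y ^ j = y ^ (3 * j) := by rw [hk]; ring
      _ ≤ c ^ 2 * (z.choose k) ^ 2 := e1.trans e2
      _ ≤ c ^ 2 * ((2 * y ^ k + 1) * (2 * mu n)) := Nat.mul_le_mul_left _ hm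
      _ ≤ c ^ 2 * ((3 * y ^ k) * (2 * mu n)) := by gcongr; omega
      _ = _ := by ring
  have e4 : y ^ j ≤ c ^ 2 * 6 * mu n := Nat.le_of_mul_le_mul_left e3 hyk
  have e5 : n ≤ 4 * y ^ 2 := by
    have := Nat.lt_succ_sqrt n
    rw [← hy] at this
    simp only [Nat.succ_eq_add_one] at this
    nlinarith
  have e6 : n ^ K ≤ 4 ^ K * y ^ (2 * K) := by
    rw [pow_mul, ← mul_pow]; exact Nat.pow_le_pow_left e5 K
  have hc0 : 0 < c ^ 2 * 6 := by rw [hcdef]; positivity
  apply Nat.le_of_mul_le_mul_left _ hc0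
  calc c ^ 2 * 6 * n ^ K ≤ c ^ 2 * 6 * (4 ^ K * y ^ (2 * K)) := Nat.mul_le_mul_left _ e6
    _ = (4 ^ K * c ^ 2 * 6) * y ^ (2 * K) := by ring
    _ ≤ y * y ^ (2 * K) := Nat.mul_le_mul_right _ (by omega)
    _ = y ^ j := by rw [hj]; ring
    _ ≤ _ := e4

theorem D_superpoly (K : ℕ) : ∀ᶠ n : ℕ in atTop, n ^ K ≤ D n := by
  filter_upwards [mu_superpoly (K + 1), eventually_ge_atTop 32] with n h1 h2
  obtain ⟨m, rfl⟩ : ∃ m, n = m + 5 := ⟨n - 5, by omega⟩
  have h3 := card_le_D m
  have h4 := mu_le_card (m + 5)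
  have h5 : 32 * (m + 5) ^ K ≤ (m + 5) ^ (K + 1) := by
    rw [pow_succ, mul_comm]; exact Nat.mul_le_mul_left _ h2
  omega

end Pool.Agent.H1.Mult
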