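import Mathlib
import Pool.Agent.H1.Geo

set_option autoImplicit false

namespace Pool.Agent.H1.Part2

open Finset Matrix

abbrev Y (n : ℕ) := Fin n → ZMod 2
abbrev V (n : ℕ) := Y n × Y n

theorem ball {n C : ℕ} (g : Y n →ₗ[ZMod 2] Y C) (t : Y n) :
    ∃ u, g u = g t ∧ (univ.filter fun i => u i ≠ 0).card ≤ C := by
  classical
  obtain ⟨u, hu, hmin⟩ := exists_min_image (univ.filter fun u => g u = g t)
    (fun u => (univ.filter fun i => u i ≠ 0).card) ⟨t, by simp⟩
  refine ⟨u, (mem_filter.1 hu).2, not_lt.1 fun hlt => ?_⟩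
  obtain ⟨s, hs, s', hs', hne, h⟩ := exists_ne_map_eq_of_card_lt_of_maps_to
    (s := (univ.filter fun i => u i ≠ 0).powerset) (t := (univ : Finset (Y C)))
    (f := fun s => g fun i => if i ∈ s then 1 else 0)
    (by rw [card_powerset, card_univ, Fintype.card_fun, ZMod.card, Fintype.card_fin]
        exact Nat.pow_lt_pow_right (by norm_num) hlt) (fun _ _ => mem_univ _)
  have h1 := hmin (u + (fun i => if i ∈ s then 1 else 0) - fun i => if i ∈ s' then 1 else 0)
    (by rw [mem_filter, map_sub, map_add, h, (mem_filter.1 hu).2]; simp)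
  refine absurd h1 (not_le.2 (card_lt_card ⟨fun i hi => ?_, fun hsub => hne ?_⟩))
  · by_contra hc
    have h2 : i ∉ s := fun h => hc (mem_powerset.1 hs h)
    have h3 : i ∉ s' := fun h => hc (mem_powerset.1 hs' h)
    simp only [mem_filter, mem_univ, true_and, Pi.sub_apply, Pi.add_apply, h2, h3, if_false,
      add_zero, sub_zero] at hi hc
    exact hc hi
  · ext i
    by_cases hi : u i ≠ 0
    · have h2 := hsub (mem_filter.2 ⟨mem_univ i, hi⟩)
      simp only [mem_filter, mem_univ, true_and, Pi.sub_apply, Pi.add_apply] at h2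
      have h3 : u i = 1 := (by decide : ∀ a : ZMod 2, a ≠ 0 → a = 1) _ hi
      rw [h3] at h2
      by_cases h4 : i ∈ s <;> by_cases h5 : i ∈ s' <;> simp [h4, h5] at h2 ⊢
      exact h2 (by decide)
    · have h2 : i ∉ s := fun h => hi (mem_filter.1 (mem_powerset.1 hs h)).2
      have h3 : i ∉ s' := fun h => hi (mem_filter.1 (mem_powerset.1 hs' h)).2
      simp [h2, h3]

def Free {n : ℕ} (L : ℕ) (Z : Finset (V n)) : Prop :=
  ∀ T ⊆ Z, T.Nonempty → T.card ≤ L → ∑ z ∈ T, z.1 ≠ 0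

theorem fiber {n C : ℕ} (g : V n →ₗ[ZMod 2] Y C) (x : V n) :
    2 ^ n * 2 ^ n ≤ (univ.filter fun z => g z = g x).card * 2 ^ C := by
  classical
  have h1 := card_le_mul_card_image (f := g) univ (univ.filter fun z => g z = g x).card
    fun b hb => by
      obtain ⟨a, -, rfl⟩ := mem_image.1 hb
      refine card_le_card_of_injOn (fun z => z - a + x) (fun z hz => ?_) fun a _ b _ h => by simpa using h
      simp only [coe_filter, mem_univ, true_and, Set.mem_ofPred_eq] at hz ⊢
      rw [map_add, map_sub, hz]; simp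
  have h2 : (univ.image g).card ≤ 2 ^ C := (card_le_univ _).trans (by simp)
  calc _ = (univ : Finset (V n)).card := by simp
    _ ≤ _ := h1.trans (Nat.mul_le_mul_left _ h2)

noncomputable instance {n C : ℕ} : Fintype (V n →ₗ[ZMod 2] Y C) :=
  have : Finite (V n →ₗ[ZMod 2] Y C) := Finite.of_injective _ DFunLike.coe_injective
  Fintype.ofFinite _

theorem card_lin (n C : ℕ) : Fintype.card (V n →ₗ[ZMod 2] Y C) = 2 ^ ((n + n) * C) := by
  rw [← Nat.card_eq_fintype_card, Module.natCard_eq_pow_finrank (K := ZMod 2),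
    Module.finrank_linearMap]
  simp

open Classical in
theorem greedy {n C L R : ℕ} (hR : 1 ≤ R) (h : (L + 1) * R ^ L * 2 ^ (C + 1) ≤ 2 ^ n) (r : ℕ) :
    r ≤ R → ∃ Z : Finset (V n), Z.card ≤ r ∧ Free L Z ∧
      ((univ.filter fun j : (V n →ₗ[ZMod 2] Y C) × V n => ∀ z ∈ Z, j.1 z ≠ j.1 j.2).card : ℝ) ≤
        (1 - 1 / 2 ^ (C + 1)) ^ r * Fintype.card ((V n →ₗ[ZMod 2] Y C) × V n) := by
  induction r with
  | zero =>
    intro _
    refine ⟨∅, le_rfl, fun T hT hne => absurd (subset_empty.1 hT) hne.ne_empty, ?_⟩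
    simp
  | succ r ih =>
    intro hr
    obtain ⟨Z, hZ, hF, hc⟩ := ih (by omega)
    set J := univ.filter fun j : (V n →ₗ[ZMod 2] Y C) × V n => ∀ z ∈ Z, j.1 z ≠ j.1 j.2 with hJ
    let F : Finset (Y n) := ((range (L + 1)).biUnion fun k => powersetCard k Z).image
      fun T => -∑ z ∈ T, z.1
    have hFc : F.card * 2 ^ (C + 1) ≤ 2 ^ n := by
      refine le_trans (Nat.mul_le_mul_right _ (card_image_le.trans (card_biUnion_le.trans ?_))) h
      calc _ ≤ ∑ _k ∈ range (L + 1), R ^ L := by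
            refine sum_le_sum fun k hk => ?_
            rw [card_powersetCard]
            exact (Nat.choose_le_pow _ _).trans ((Nat.pow_le_pow_left (by omega) _).trans
              (Nat.pow_le_pow_right hR (by have := mem_range.1 hk; omega)))
        _ = _ := by simp
    let A : Finset (V n) := univ \ F ×ˢ univ
    have hA : ∀ j : (V n →ₗ[ZMod 2] Y C) × V n,
        2 ^ n * 2 ^ n ≤ (A.filter fun z => j.1 z = j.1 j.2).card * 2 ^ (C + 1) := by
      intro j
      have h1 := fiber j.1 j.2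
      have h2 : (univ.filter fun z => j.1 z = j.1 j.2) ⊆
          (A.filter fun z => j.1 z = j.1 j.2) ∪ F ×ˢ univ := by
        intro z hz
        by_cases hz' : z ∈ F ×ˢ univ
        · exact mem_union_right _ hz'
        · exact mem_union_left _ (mem_filter.2 ⟨mem_sdiff.2 ⟨mem_univ _, hz'⟩, (mem_filter.1 hz).2⟩)
      have h3 := (card_le_card h2).trans (card_union_le _ _)
      rw [card_product, card_univ, Fintype.card_fun, ZMod.card, Fintype.card_fin] at h3
      have h4 := Nat.mul_le_mul_right (2 ^ (C + 1)) h3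
      have h5 := Nat.mul_le_mul_right (2 ^ n) hFc
      rw [pow_succ] at *
      nlinarith
    have hAne : A.Nonempty := by
      have := hA (0, 0)
      have h1 : 0 < (A.filter fun z => (0 : V n →ₗ[ZMod 2] Y C) z = (0 : V n →ₗ[ZMod 2] Y C) 0).card := by
        by_contra h0
        rw [not_lt, Nat.le_zero] at h0
        simp only [h0, zero_mul] at this
        exact absurd this (not_le.2 (by positivity))
      exact (card_pos.1 h1).mono (filter_subset _ _)
    obtain ⟨z, hz, hz2⟩ := exists_le_of_sum_le (f := fun _ => J.card)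
      (g := fun z => (J.filter fun j => j.1 z = j.1 j.2).card * 2 ^ (C + 1)) hAne (by
        calc _ = ∑ _j ∈ J, A.card := by simp [mul_comm]
          _ ≤ ∑ j ∈ J, (A.filter fun z => j.1 z = j.1 j.2).card * 2 ^ (C + 1) :=
            sum_le_sum fun j _ => le_trans ((card_le_univ _).trans (by simp)) (hA j)
          _ = _ := by
            simp only [← sum_mul, card_filter]
            rw [sum_comm])
    refine ⟨insert z Z, (card_insert_le _ _).trans (by omega), fun T hT hne hTc h0 => ?_, ?_⟩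
    · by_cases hzT : z ∈ T
      · refine (mem_sdiff.1 hz).2 (mem_product.2 ⟨mem_image.2 ⟨T.erase z, mem_biUnion.2
          ⟨(T.erase z).card, mem_range.2 ?_, mem_powersetCard.2 ⟨?_, rfl⟩⟩, ?_⟩, mem_univ _⟩)
        · have := card_erase_le (s := T) (a := z); omega
        · exact subset_insert_iff.1 hT
        · rw [← add_sum_erase _ _ hzT] at h0
          exact (eq_neg_of_add_eq_zero_left h0).symm
      · exact hF T ((subset_insert_iff_of_notMem hzT).1 hT) hne hTc h0
    · have h1 : (univ.filter fun j : (V n →ₗ[ZMod 2] Y C) × V n =>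
          ∀ w ∈ insert z Z, j.1 w ≠ j.1 j.2) = J.filter fun j => ¬ j.1 z = j.1 j.2 := by
        ext j; simp [hJ, and_comm]
      have h2 := card_filter_add_card_filter_not (s := J) fun j => j.1 z = j.1 j.2
      rw [h1, pow_succ', mul_assoc]
      have h3 : (0 : ℝ) ≤ 1 - 1 / 2 ^ (C + 1) := by
        rw [sub_nonneg, div_le_one (by positivity)]; exact one_le_pow₀ (by norm_num)
      refine le_trans ?_ (mul_le_mul_of_nonneg_left hc h3)
      have h4 : (J.card : ℝ) ≤ (J.filter fun j => j.1 z = j.1 j.2).card * 2 ^ (C + 1) := by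
        exact_mod_cast hz2
      have h5 : ((J.filter fun j => j.1 z = j.1 j.2).card : ℝ) +
          (J.filter fun j => ¬ j.1 z = j.1 j.2).card = J.card := by exact_mod_cast h2
      rw [← div_le_iff₀ (by positivity)] at h4
      rw [sub_mul, one_mul, one_div_mul_eq_div]
      linarith

theorem exists_Z {n C L R : ℕ} (hR : 1 ≤ R) (h : (L + 1) * R ^ L * 2 ^ (C + 1) ≤ 2 ^ n)
    (h2 : (n + n) * (C + 1) * 2 ^ (C + 1) < R) :
    ∃ Z : Finset (V n), Z.card ≤ R ∧ Free L Z ∧
      ∀ (g : V n →ₗ[ZMod 2] Y C) (x : V n), ∃ z ∈ Z, g z = g x := by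
  classical
  obtain ⟨Z, h3, h4, h5⟩ := greedy hR h R le_rfl
  refine ⟨Z, h3, h4, fun g x => ?_⟩
  by_contra hc
  push Not at hc
  have h6 : 1 ≤ (univ.filter fun j : (V n →ₗ[ZMod 2] Y C) × V n => ∀ z ∈ Z, j.1 z ≠ j.1 j.2).card :=
    card_pos.2 ⟨(g, x), mem_filter.2 ⟨mem_univ _, hc⟩⟩
  have h7 : (1 : ℝ) ≤ _ := le_trans (by exact_mod_cast h6) h5
  have h8 : (Fintype.card ((V n →ₗ[ZMod 2] Y C) × V n) : ℝ) ≤ Real.exp (((n + n) * (C + 1) : ℕ) : ℝ) := by
    rw [Fintype.card_prod, card_lin, ← mul_one (((n + n) * (C + 1) : ℕ) : ℝ), Real.exp_nat_mul]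
    calc _ = (2 : ℝ) ^ ((n + n) * (C + 1)) := by simp; ring
      _ ≤ _ := by
        gcongr
        have := Real.add_one_le_exp 1; linarith
  have h3 : (0 : ℝ) ≤ 1 - 1 / 2 ^ (C + 1) := by
    rw [sub_nonneg, div_le_one (by positivity)]; exact one_le_pow₀ (by norm_num)
  have h9 : (1 - 1 / 2 ^ (C + 1) : ℝ) ^ R ≤ Real.exp (R * (-(1 / 2 ^ (C + 1)))) := by
    rw [Real.exp_nat_mul]
    gcongr
    have := Real.add_one_le_exp (-(1 / 2 ^ (C + 1))); linarith
  have h10 := h7.trans (mul_le_mul h9 h8 (by positivity) (by positivity))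
  rw [← Real.exp_add, Real.one_le_exp_iff] at h10
  have h11 : (((n + n) * (C + 1) : ℕ) : ℝ) * 2 ^ (C + 1) < R := by exact_mod_cast h2
  rw [← lt_div_iff₀ (by positivity)] at h11
  rw [mul_neg, mul_one_div] at h10
  linarith

theorem add_self {n : ℕ} (x : V n) : x + x = 0 := by
  ext i <;> simp [CharTwo.add_self_eq_zero]

theorem colour {n l : ℕ} {Z : Finset (V n)} (hZ : Free (2 * l + 1) Z) (M : Set (V n))
    (hM : ¬ ∃ p : Fin (l + 1) → V n, (∀ j : Fin l, p j.castSucc + p j.succ ∈ Z) ∧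
      Function.Injective (fun j : Fin l => (p j.castSucc).1) ∧ ∀ j : Fin l, p j.castSucc ∈ M) :
    ∃ col : V n → Bool, ∀ x ∈ M, ∀ y ∈ M, x + y ∈ Z → col x ≠ col y := by
  classical
  let G : SimpleGraph (V n) :=
    { Adj := fun x y => x ≠ y ∧ x ∈ M ∧ y ∈ M ∧ x + y ∈ Z
      symm := ⟨fun x y h => ⟨h.1.symm, h.2.2.1, h.2.1, add_comm x y ▸ h.2.2.2⟩⟩
      loopless := ⟨fun x h => h.1 rfl⟩ }
  have walk : ∀ {a b : V n} (p : G.Walk a b) (i d : ℕ), i + d ≤ p.length →
      ∃ T ⊆ Z, T.card ≤ d ∧ T.card % 2 = d % 2 ∧ p.getVert i + p.getVert (i + d) = ∑ z ∈ T, z := by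
    intro a b p i d
    induction d with
    | zero => exact fun _ => ⟨∅, empty_subset _, le_rfl, rfl, by simp [add_self]⟩
    | succ d ih =>
      intro hd
      obtain ⟨T, hT, h1, h2, h3⟩ := ih (by omega)
      have h4 := (p.adj_getVert_succ (show i + d < p.length by omega)).2.2.2
      have h5 : p.getVert i + p.getVert (i + (d + 1)) =
          (p.getVert (i + d) + p.getVert (i + d + 1)) + ∑ z ∈ T, z := by
        rw [← h3, ← add_assoc i, ← add_zero (p.getVert i + p.getVert (i + d + 1)),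
          ← add_self (p.getVert (i + d))]
        abel
      generalize p.getVert (i + d) + p.getVert (i + d + 1) = z at h4 h5
      by_cases hz : z ∈ T
      · have h6 := card_erase_of_mem hz
        have h7 := card_pos.2 ⟨z, hz⟩
        refine ⟨T.erase z, (erase_subset _ _).trans hT, by omega, by omega, ?_⟩
        rw [h5, ← add_sum_erase _ _ hz, ← add_assoc, add_self, zero_add]
      · have h6 := card_insert_of_notMem hz
        exact ⟨insert z T, insert_subset h4 hT, by omega, by omega, by rw [h5, sum_insert hz]⟩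
  have short : ∀ {a b : V n} (p : G.Walk a b), p.IsPath → p.length < l := by
    intro a b p hp
    by_contra hl
    refine hM ⟨fun j => p.getVert j, fun j => ?_, ?_, fun j => ?_⟩
    · exact (p.adj_getVert_succ (show (j : ℕ) < p.length by omega)).2.2.2
    · have key : ∀ i j : Fin l, (i : ℕ) ≤ j → (p.getVert i).1 = (p.getVert j).1 → i = j := by
        intro i j hij h
        obtain ⟨d, hd⟩ := Nat.exists_eq_add_of_le hij
        obtain ⟨T, hT, h1, -, h3⟩ := walk p i d (by omega)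
        rw [← hd] at h3
        rcases T.eq_empty_or_nonempty with rfl | hne
        · rw [sum_empty, ← add_self (p.getVert i)] at h3
          exact Fin.ext (hp.getVert_injOn (by simp only [Set.mem_ofPred_eq]; omega)
            (by simp only [Set.mem_ofPred_eq]; omega) (add_left_cancel h3).symm)
        · refine absurd ?_ (hZ T hT hne (by omega))
          rw [← Prod.fst_sum, ← h3, Prod.fst_add, h, ← Prod.fst_add, add_self, Prod.fst_zero]
      intro i j h
      rcases le_total (i : ℕ) j with h' | h'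
      · exact key i j h' h
      · exact (key j i h' h.symm).symm
    · exact (p.adj_getVert_succ (show (j : ℕ) < p.length by omega)).2.1
  refine ⟨fun x => decide (G.dist (G.connectedComponentMk x).out x % 2 = 0),
    fun x hx y hy hxy hcol => ?_⟩
  have hne : x ≠ y := by
    rintro rfl
    exact hZ {x + x} (singleton_subset_iff.2 hxy) (singleton_nonempty _) (by simp)
      (by simp [add_self])
  have hadj : G.Adj x y := ⟨hne, hx, hy, hxy⟩
  have hc : G.connectedComponentMk x = G.connectedComponentMk y :=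
    SimpleGraph.ConnectedComponent.connectedComponentMk_eq_of_adj hadj
  have hr : ∀ w, G.Reachable (G.connectedComponentMk w).out w := fun w =>
    SimpleGraph.ConnectedComponent.exact (G.connectedComponentMk w).out_eq
  obtain ⟨p, hp, hpl⟩ := (hr x).exists_path_of_dist
  obtain ⟨q, hq, hql⟩ := (hr y).exists_path_of_dist
  have h1 := short p hp
  have h2 := short q hq
  simp only [← hpl, ← hql, decide_eq_decide] at hcol
  let w : G.Walk x x := SimpleGraph.Walk.cons hadj (q.reverse.append (p.copy (by rw [hc]) rfl))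
  have hw : w.length = q.length + p.length + 1 := by simp [w]
  obtain ⟨T, hT, h3, h4, h5⟩ := walk w 0 w.length (by omega)
  rw [zero_add, w.getVert_zero, w.getVert_length, add_self] at h5
  refine hZ T hT (card_pos.1 (by omega)) (by omega) ?_
  rw [← Prod.fst_sum, ← h5, Prod.fst_zero]

noncomputable def chi (t : ZMod 2) : ℝ := if t = 0 then 1 else -1

theorem chi_add (a b : ZMod 2) : chi (a + b) = chi a * chi b := by
  unfold chi
  rcases (by decide : ∀ a : ZMod 2, a = 0 ∨ a = 1) a with rfl | rfl <;>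
    rcases (by decide : ∀ a : ZMod 2, a = 0 ∨ a = 1) b with rfl | rfl <;> simp
  decide

theorem chi_sq (a : ZMod 2) : chi a * chi a = 1 := by
  unfold chi; split_ifs <;> norm_num

theorem chi_one : chi 1 = -1 := by simp [chi]

theorem chi_sum {n : ℕ} {y : Y n} (hy : y ≠ 0) : ∑ ψ : Y n, chi (ψ ⬝ᵥ y) = 0 := by
  obtain ⟨i, hi⟩ := Function.ne_iff.1 hy
  have h3 : y i = 1 := (by decide : ∀ a : ZMod 2, a ≠ 0 → a = 1) _ hi
  have h := Equiv.sum_comp (Equiv.addRight (Pi.single i (1 : ZMod 2) : Y n)) fun ψ => chi (ψ ⬝ᵥ y)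
  simp only [Equiv.coe_addRight, add_dotProduct, single_dotProduct, h3, mul_one, chi_add, chi_one,
    ← sum_mul] at h
  linarith

noncomputable def f {n Q : ℕ} (τ : Fin n → Y n × Fin Q) (x : V n) : ℝ :=
  ∑ i, ((τ i).2 : ℝ) * chi ((τ i).1 ⬝ᵥ x.1 + x.2 i)

theorem f_odd {n Q C : ℕ} (τ : Fin n → Y n × Fin Q) (g : V n →ₗ[ZMod 2] Y C) (x₀ : V n) :
    ∃ z, g z = g x₀ ∧ ∀ x, |f τ x + f τ (x + z)| ≤ 2 * (Q * C) := by
  classical
  obtain ⟨u, hu, hc⟩ := ball (g.comp (LinearMap.inr _ _ _))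
    ((fun i => 1 - (τ i).1 ⬝ᵥ x₀.1) - x₀.2)
  refine ⟨x₀ + (0, (fun i => 1 - (τ i).1 ⬝ᵥ x₀.1) - x₀.2) - (0, u), ?_, fun x => ?_⟩
  · simp only [LinearMap.comp_apply, LinearMap.inr_apply] at hu
    rw [map_sub, map_add, hu]; simp
  · unfold f
    rw [← sum_add_distrib]
    refine (abs_sum_le_sum_abs _ _).trans ?_
    calc _ ≤ ∑ i, if u i ≠ 0 then 2 * (Q : ℝ) else 0 := by
          refine sum_le_sum fun i _ => ?_
          have e : (τ i).1 ⬝ᵥ (x + (x₀ + (0, (fun i => 1 - (τ i).1 ⬝ᵥ x₀.1) - x₀.2) - (0, u))).1 +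
              (x + (x₀ + (0, (fun i => 1 - (τ i).1 ⬝ᵥ x₀.1) - x₀.2) - (0, u))).2 i =
              ((τ i).1 ⬝ᵥ x.1 + x.2 i) + (1 - u i) := by
            simp [dotProduct_add]; ring
          rw [e, chi_add _ (1 - u i)]
          have h1 : (((τ i).2 : ℕ) : ℝ) ≤ Q := by exact_mod_cast (τ i).2.2.le
          have h2 : (0 : ℝ) ≤ ((τ i).2 : ℕ) := by positivity
          split_ifs with h
          · unfold chi
            split_ifs <;> rw [abs_le] <;> constructor <;> linarith
          · rw [not_not.1 h, sub_zero, chi_one]; simp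
      _ ≤ _ := by
        rw [← sum_filter, sum_const, nsmul_eq_mul]
        have : ((univ.filter fun i => u i ≠ 0).card : ℝ) ≤ C := by exact_mod_cast hc
        have h2 : (0 : ℝ) ≤ Q := by positivity
        nlinarith

open Classical in
theorem survive {n Q h : ℕ} (hQ : 8 ≤ Q) {D : ℝ} (hD : 0 < D) (hl : 16 * Q * D ^ 2 < 2 * h)
    (p : Fin (2 * h) → V n) (hp : Function.Injective fun j => (p j).1) :
    ((univ.filter fun τ : Fin n → Y n × Fin Q => ∀ j, |f τ (p j)| ≤ D).card : ℝ) ≤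
      Real.exp (2 * h) * ((2 / Q) ^ h + (3 / 4) ^ n) * Fintype.card (Fin n → Y n × Fin Q) := by
  have hh : 0 < h := by
    have : (0 : ℝ) < 2 * h := lt_of_le_of_lt (by positivity) hl
    have : (0 : ℝ) < h := by linarith
    exact_mod_cast this
  have : Nonempty (Fin (2 * h)) := ⟨⟨0, by omega⟩⟩
  have h1 := Geo.main (U := Fin (2 * h)) (Ω := Y n) Q hQ (lam := 1 / D ^ 2) (by positivity)
    (by rw [one_div_mul_eq_div, lt_div_iff₀ (by positivity)]; simpa using hl) n
    (fun i ψ j => chi (ψ ⬝ᵥ (p j).1 + (p j).2 i)) (fun i j k => ⟨fun _ => chi_sq _, fun hjk => by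
      have := chi_sum (y := (p j).1 - (p k).1) (sub_ne_zero.2 fun e => hjk (hp e))
      calc _ = chi ((p j).2 i + (p k).2 i) * ∑ ψ : Y n, chi (ψ ⬝ᵥ ((p j).1 - (p k).1)) := by
            rw [mul_sum]
            refine sum_congr rfl fun ψ _ => ?_
            rw [dotProduct_sub, CharTwo.sub_eq_add]
            simp only [chi_add]; ring
        _ = 0 := by rw [this, mul_zero]⟩) h 1 ⟨fun x y => by simp [dotProduct_comm], fun x => by simp⟩
    (by simp [two_mul]) 0
  have h2 : ((univ.filter fun τ : Fin n → Y n × Fin Q => ∀ j, |f τ (p j)| ≤ D).card : ℝ) *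
      Real.exp (-(2 * h)) ≤ _ := le_trans ?_ h1
  · rw [Real.exp_neg, ← div_eq_mul_inv, div_le_iff₀ (Real.exp_pos _)] at h2
    refine h2.trans (le_of_eq ?_)
    simp; ring
  · rw [← nsmul_eq_mul, ← sum_const]
    refine le_trans (sum_le_sum fun τ hτ => ?_)
      (sum_le_sum_of_subset_of_nonneg (subset_univ _) fun _ _ _ => (Real.exp_pos _).le)
    have hτ := (mem_filter.1 hτ).2
    rw [Real.exp_le_exp, neg_le_neg_iff, one_div_mul_eq_div, div_le_iff₀ (by positivity), one_mulVec,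
      zero_add]
    calc _ ≤ ∑ _j : Fin (2 * h), D ^ 2 := by
          refine sum_le_sum fun j _ => ?_
          have := sq_le_sq' (abs_le.1 (hτ j)).1 (abs_le.1 (hτ j)).2
          simpa [f, sq] using this
      _ = _ := by simp

theorem union_bound {P T : Type*} [Fintype T] [Nonempty T] (s : Finset P) (surv : P → Finset T)
    {γ : ℝ} (hs : ∀ p ∈ s, ((surv p).card : ℝ) ≤ γ * Fintype.card T) (k : ℕ)
    (h : s.card * γ ^ k < 1) : ∃ τ : Fin k → T, ∀ p ∈ s, ∃ b, τ b ∉ surv p := by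
  classical
  by_contra hc
  push Not at hc
  have h1 : (univ : Finset (Fin k → T)) ⊆ s.biUnion fun p => Fintype.piFinset fun _ => surv p := by
    intro τ _
    obtain ⟨p, hp, h⟩ := hc τ
    exact mem_biUnion.2 ⟨p, hp, Fintype.mem_piFinset.2 h⟩
  have h2 := (card_le_card h1).trans card_biUnion_le
  simp only [card_univ, Fintype.card_fun, Fintype.card_fin, Fintype.card_piFinset, prod_const] at h2
  have h3 : (Fintype.card T : ℝ) ^ k ≤ ∑ p ∈ s, ((surv p).card : ℝ) ^ k := by exact_mod_cast h2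
  have h4 : ∑ p ∈ s, ((surv p).card : ℝ) ^ k ≤ ∑ _p ∈ s, (γ * Fintype.card T) ^ k :=
    sum_le_sum fun p hp => by gcongr; exact hs p hp
  rw [sum_const, nsmul_eq_mul, mul_pow, ← mul_assoc] at h4
  have h5 : (0 : ℝ) < (Fintype.card T : ℝ) ^ k := by
    have : (0 : ℝ) < Fintype.card T := by exact_mod_cast Fintype.card_pos
    positivity
  nlinarith

open Classical in
theorem paths {n l : ℕ} (Z : Finset (V n)) :
    (univ.filter fun p : Fin (l + 1) → V n => ∀ j : Fin l, p j.castSucc + p j.succ ∈ Z).card ≤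
      2 ^ n * 2 ^ n * Z.card ^ l := by
  calc _ ≤ ((univ : Finset (V n)) ×ˢ Fintype.piFinset fun _ : Fin l => Z).card := by
        refine card_le_card_of_injOn (fun p => (p 0, fun j => p j.castSucc + p j.succ))
          (fun p hp => ?_) fun p _ q _ h => ?_
        · exact mem_product.2 ⟨mem_univ _, Fintype.mem_piFinset.2 (mem_filter.1 hp).2⟩
        · simp only [Prod.mk.injEq] at h
          funext j
          induction j using Fin.induction with
          | zero => exact h.1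
          | succ j ih =>
            have := congrFun h.2 j
            simp only [ih] at this
            exact add_left_cancel this
    _ = _ := by simp

theorem num1 (s j : ℕ) (hs : 11 ≤ s) (hj : 1 ≤ j) :
    Real.exp (2 * ((2 * j : ℕ) : ℝ)) * ((2 / ((2 ^ s : ℕ) : ℝ)) ^ (2 * j) + (3 / 4) ^ (92 * (s * j))) ≤
      1 / 2 ^ (s * j) := by
  have h1 : Real.exp (2 * ((2 * j : ℕ) : ℝ)) ≤ 2 ^ (8 * j) := by
    have : 2 * ((2 * j : ℕ) : ℝ) = ((4 * j : ℕ) : ℝ) * 1 := by push_cast; ring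
    rw [this, Real.exp_nat_mul, show 8 * j = 2 * (4 * j) by ring, pow_mul (2 : ℝ) 2]
    gcongr
    have := Real.exp_one_lt_d9; linarith
  have h2 : (3 / 4 : ℝ) ^ (92 * (s * j)) ≤ 1 / 2 ^ (3 * (s * j)) := by
    rw [pow_mul (3 / 4 : ℝ) 92, pow_mul (2 : ℝ) 3, ← _root_.one_div_pow]
    gcongr
    norm_num
  have h3 : (2 / ((2 ^ s : ℕ) : ℝ)) ^ (2 * j) = 2 ^ (2 * j) / 2 ^ (2 * (s * j)) := by
    push_cast
    rw [div_pow, ← pow_mul]; congr 2; ring
  have h4 : 11 * j ≤ s * j := Nat.mul_le_mul_right _ hs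
  have h5 : (2 : ℝ) ^ (10 * j + 1) ≤ 2 ^ (s * j) := pow_le_pow_right₀ (by norm_num) (by omega)
  have h6 : (2 : ℝ) ^ (8 * j + 1) ≤ 2 ^ (2 * (s * j)) := pow_le_pow_right₀ (by norm_num) (by omega)
  calc _ ≤ (2 : ℝ) ^ (8 * j) * (2 ^ (2 * j) / 2 ^ (2 * (s * j)) + 1 / 2 ^ (3 * (s * j))) := by
        rw [h3]; gcongr
    _ = (2 ^ (10 * j + 1) / 2 ^ (s * j) + 2 ^ (8 * j + 1) / 2 ^ (2 * (s * j))) / 2 / 2 ^ (s * j) := by
        field_simp; ring
    _ ≤ (1 + 1) / 2 / 2 ^ (s * j) := by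
        gcongr
        · rwa [div_le_one (by positivity)]
        · rwa [div_le_one (by positivity)]
    _ = _ := by norm_num

theorem main (C : ℕ) : ∃ n : ℕ, C < n ∧ ∃ κ : V n → (Fin 209 × Bool) ⊕ Bool,
    ∀ i (g : V n →ₗ[ZMod 2] Y C) (x₀ : V n), ∃ z, g z = g x₀ ∧
      ∀ x y, κ x = i → κ y = i → x + y ≠ z := by
  classical
  obtain ⟨s, hs⟩ : ∃ s, s = 2 * (C + 1) + 10 := ⟨_, rfl⟩
  obtain ⟨B, hB⟩ : ∃ B, B = 2 ^ (C + 1) := ⟨_, rfl⟩
  have hB1 : C + 1 < B := hB ▸ Nat.lt_two_pow_self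
  have hQ : 2 ^ s = 1024 * B ^ 2 := by rw [hs, hB]; ring
  have hsQ : s < 2 ^ s := Nat.lt_two_pow_self
  obtain ⟨j, hj⟩ : ∃ j, j = (2 ^ s) ^ 4 := ⟨_, rfl⟩
  have hj1 : 1 ≤ j := hj ▸ Nat.one_le_pow _ _ (by positivity)
  have hsj : s ≤ s * j := Nat.le_mul_of_pos_right _ hj1
  have hsj' : 12 * j ≤ s * j := Nat.mul_le_mul_right _ (by omega)
  obtain ⟨n, hn⟩ : ∃ n, n = 92 * (s * j) := ⟨_, rfl⟩
  obtain ⟨Z, hZc, hZf, hZb⟩ := exists_Z (n := n) (C := C) (L := 2 * (2 * (2 * j)) + 1)
    (R := (2 ^ s) ^ 6) (Nat.one_le_pow _ _ (by positivity))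
    (by
      calc _ ≤ 2 ^ (2 * (2 * (2 * j)) + 1 + 1) * ((2 ^ s) ^ 6) ^ (2 * (2 * (2 * j)) + 1) *
            2 ^ (C + 1) := by gcongr; exact Nat.lt_two_pow_self.le
        _ = 2 ^ (8 * j + 2 + 48 * (s * j) + 6 * s + (C + 1)) := by ring
        _ ≤ _ := Nat.pow_le_pow_right (by norm_num) (by omega))
    (by
      rw [← hB, hn, hj]
      have h1 : 184 * ((C + 1) * B) < 2 ^ s := by rw [hQ]; nlinarith
      generalize 2 ^ s = Q at *
      calc _ = (184 * ((C + 1) * B)) * s * Q ^ 4 := by ring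
        _ < Q * Q * Q ^ 4 := by
          have : 0 < Q := by omega
          gcongr
        _ = _ := by ring)
  obtain ⟨τ, hτ⟩ := union_bound (T := Fin n → Y n × Fin (2 ^ s))
    ((univ.filter fun p : Fin (2 * (2 * j) + 1) → V n =>
      ∀ i : Fin (2 * (2 * j)), p i.castSucc + p i.succ ∈ Z).filter
      fun p => Function.Injective fun i : Fin (2 * (2 * j)) => (p i.castSucc).1)
    (fun p => univ.filter fun τ => ∀ i : Fin (2 * (2 * j)),
      |f τ (p i.castSucc)| ≤ ((2 ^ s : ℕ) : ℝ) * (C + 1)) (γ := 1 / 2 ^ (s * j))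
    (fun p hp => (survive (by rw [hQ]; nlinarith) (by positivity) (by
        have : 16 * 2 ^ s * (2 ^ s * (C + 1)) ^ 2 < 2 * (2 * j) := by
          have h1 : 4 * (C + 1) ^ 2 < 2 ^ s := by rw [hQ]; nlinarith
          rw [hj]
          generalize 2 ^ s = Q at *
          calc _ = 4 * (4 * (C + 1) ^ 2) * Q ^ 3 := by ring
            _ < 4 * Q * Q ^ 3 := by
              have : 0 < Q := by omega
              gcongr
            _ = _ := by ring
        exact_mod_cast this) _ (mem_filter.1 hp).2).trans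
      (mul_le_mul_of_nonneg_right (hn ▸ num1 s j (by omega) hj1) (by positivity))) 209
    (by
      have h1 := (card_filter_le _ fun p => Function.Injective
        fun i : Fin (2 * (2 * j)) => (p i.castSucc).1).trans (paths (l := 2 * (2 * j)) Z)
      have h2 : 2 ^ n * 2 ^ n * Z.card ^ (2 * (2 * j)) < (2 ^ (s * j)) ^ 209 := by
        calc _ ≤ 2 ^ n * 2 ^ n * ((2 ^ s) ^ 6) ^ (2 * (2 * j)) := by gcongr
          _ = (2 ^ (s * j)) ^ 208 := by rw [hn]; ring
          _ < _ := Nat.pow_lt_pow_right (Nat.one_lt_two_pow (by omega)) (by norm_num)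
      rw [_root_.one_div_pow, mul_one_div, div_lt_one (by positivity)]
      exact_mod_cast h1.trans_lt h2)
  obtain ⟨col, hcol⟩ := colour hZf {x | ∀ b, |f (τ b) x| ≤ ((2 ^ s : ℕ) : ℝ) * (C + 1)} (by
    rintro ⟨p, h1, h2, h3⟩
    obtain ⟨b, hb⟩ := hτ p (mem_filter.2 ⟨mem_filter.2 ⟨mem_univ _, h1⟩, h2⟩)
    exact hb (mem_filter.2 ⟨mem_univ _, fun i => h3 i b⟩))
  have hκ : ∀ x : V n, ∃ i : (Fin 209 × Bool) ⊕ Bool, match i with
      | .inl (b, true) => ((2 ^ s : ℕ) : ℝ) * (C + 1) < f (τ b) x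
      | .inl (b, false) => f (τ b) x < -(((2 ^ s : ℕ) : ℝ) * (C + 1))
      | .inr c => (∀ b, |f (τ b) x| ≤ ((2 ^ s : ℕ) : ℝ) * (C + 1)) ∧ col x = c := by
    intro x
    by_cases h : ∀ b, |f (τ b) x| ≤ ((2 ^ s : ℕ) : ℝ) * (C + 1)
    · exact ⟨.inr (col x), h, rfl⟩
    · obtain ⟨b, hb⟩ := not_forall.1 h
      rcases lt_abs.1 (not_le.1 hb) with h | h
      · exact ⟨.inl (b, true), h⟩
      · exact ⟨.inl (b, false), by simp only; linarith⟩
  choose κ hκ using hκ
  refine ⟨n, by omega, κ, fun i g x₀ => ?_⟩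
  have hQ0 : (0 : ℝ) < ((2 ^ s : ℕ) : ℝ) := by positivity
  rcases i with ⟨b, c⟩ | c
  · obtain ⟨z, hz, h⟩ := f_odd (τ b) g x₀
    refine ⟨z, hz, fun x y hx hy hxy => ?_⟩
    have h1 := hκ x
    have h2 := hκ y
    have h3 := abs_le.1 (h x)
    rw [← hxy, ← add_assoc, add_self, zero_add] at h3
    rw [hx] at h1
    rw [hy] at h2
    cases c <;> simp only at h1 h2 <;> nlinarith
  · obtain ⟨z, hz, h⟩ := hZb g x₀
    refine ⟨z, h, fun x y hx hy hxy => ?_⟩
    have h1 := hκ x
    have h2 := hκ y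
    rw [hx] at h1
    rw [hy] at h2
    exact hcol x h1.1 y h2.1 (hxy ▸ hz) (h1.2.trans h2.2.symm)

end Pool.Agent.H1.Part2
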