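import Pool.Agent.H1.PdA

set_option autoImplicit false

namespace Pool.Agent.H1.Pd

theorem p0 : g3 11 (((((((0 ||| 2 ^ 17) ||| 2 ^ 16) ||| 2 ^ 15) ||| 2 ^ 14) ||| 2 ^ 13) ||| 2 ^ 12) ||| 2 ^ 11) 0 = true := by decide +kernel

theorem p1 : g3 11 ((((((0 ||| 2 ^ 17) ||| 2 ^ 16) ||| 2 ^ 15) ||| 2 ^ 14) ||| 2 ^ 13) ||| 2 ^ 12) (0 ||| 2 ^ 11) = true := by decide +kernel

theorem p2 : g3 12 (((((0 ||| 2 ^ 17) ||| 2 ^ 16) ||| 2 ^ 15) ||| 2 ^ 14) ||| 2 ^ 13) (0 ||| 2 ^ 12) = true := by decide +kernel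

theorem p3 : g3 11 ((((((0 ||| 2 ^ 17) ||| 2 ^ 16) ||| 2 ^ 15) ||| 2 ^ 14) ||| 2 ^ 12) ||| 2 ^ 11) (0 ||| 2 ^ 13) = true := by decide +kernel

theorem p4 : g3 11 (((((0 ||| 2 ^ 17) ||| 2 ^ 16) ||| 2 ^ 15) ||| 2 ^ 14) ||| 2 ^ 12) ((0 ||| 2 ^ 13) ||| 2 ^ 11) = true := by decide +kernel

theorem p5 : g3 12 ((((0 ||| 2 ^ 17) ||| 2 ^ 16) ||| 2 ^ 15) ||| 2 ^ 14) ((0 ||| 2 ^ 13) ||| 2 ^ 12) = true := by decide +kernel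

theorem p6 : g3 11 ((((((0 ||| 2 ^ 17) ||| 2 ^ 16) ||| 2 ^ 15) ||| 2 ^ 13) ||| 2 ^ 12) ||| 2 ^ 11) (0 ||| 2 ^ 14) = true := by decide +kernel

theorem p7 : g3 11 (((((0 ||| 2 ^ 17) ||| 2 ^ 16) ||| 2 ^ 15) ||| 2 ^ 13) ||| 2 ^ 12) ((0 ||| 2 ^ 14) ||| 2 ^ 11) = true := by decide +kernel

theorem p8 : g3 12 ((((0 ||| 2 ^ 17) ||| 2 ^ 16) ||| 2 ^ 15) ||| 2 ^ 13) ((0 ||| 2 ^ 14) ||| 2 ^ 12) = true := by decide +kernel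

theorem p9 : g3 13 (((0 ||| 2 ^ 17) ||| 2 ^ 16) ||| 2 ^ 15) ((0 ||| 2 ^ 14) ||| 2 ^ 13) = true := by decide +kernel

theorem p10 : g3 11 ((((((0 ||| 2 ^ 17) ||| 2 ^ 16) ||| 2 ^ 14) ||| 2 ^ 13) ||| 2 ^ 12) ||| 2 ^ 11) (0 ||| 2 ^ 15) = true := by decide +kernel

theorem p11 : g3 11 (((((0 ||| 2 ^ 17) ||| 2 ^ 16) ||| 2 ^ 14) ||| 2 ^ 13) ||| 2 ^ 12) ((0 ||| 2 ^ 15) ||| 2 ^ 11) = true := by decide +kernel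

theorem p12 : g3 12 ((((0 ||| 2 ^ 17) ||| 2 ^ 16) ||| 2 ^ 14) ||| 2 ^ 13) ((0 ||| 2 ^ 15) ||| 2 ^ 12) = true := by decide +kernel

theorem p13 : g3 13 (((0 ||| 2 ^ 17) ||| 2 ^ 16) ||| 2 ^ 14) ((0 ||| 2 ^ 15) ||| 2 ^ 13) = true := by decide +kernel

end Pool.Agent.H1.Pd
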