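import Pool.Agent.H1.PdBx

set_option autoImplicit false

namespace Pool.Agent.H1.Pd

theorem p14 : g3 14 ((0 ||| 2 ^ 17) ||| 2 ^ 16) ((0 ||| 2 ^ 15) ||| 2 ^ 14) = true := by decide +kernel

theorem p15 : g3 11 ((((((0 ||| 2 ^ 17) ||| 2 ^ 15) ||| 2 ^ 14) ||| 2 ^ 13) ||| 2 ^ 12) ||| 2 ^ 11) (0 ||| 2 ^ 16) = true := by decide +kernel

theorem p16 : g3 11 (((((0 ||| 2 ^ 17) ||| 2 ^ 15) ||| 2 ^ 14) ||| 2 ^ 13) ||| 2 ^ 12) ((0 ||| 2 ^ 16) ||| 2 ^ 11) = true := by decide +kernel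

theorem p17 : g3 12 ((((0 ||| 2 ^ 17) ||| 2 ^ 15) ||| 2 ^ 14) ||| 2 ^ 13) ((0 ||| 2 ^ 16) ||| 2 ^ 12) = true := by decide +kernel

theorem p18 : g3 13 (((0 ||| 2 ^ 17) ||| 2 ^ 15) ||| 2 ^ 14) ((0 ||| 2 ^ 16) ||| 2 ^ 13) = true := by decide +kernel

theorem p19 : g3 14 ((0 ||| 2 ^ 17) ||| 2 ^ 15) ((0 ||| 2 ^ 16) ||| 2 ^ 14) = true := by decide +kernel

theorem p20 : g3 15 (0 ||| 2 ^ 17) ((0 ||| 2 ^ 16) ||| 2 ^ 15) = true := by decide +kernel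

theorem p21 : g3 11 ((((((0 ||| 2 ^ 16) ||| 2 ^ 15) ||| 2 ^ 14) ||| 2 ^ 13) ||| 2 ^ 12) ||| 2 ^ 11) (0 ||| 2 ^ 17) = true := by decide +kernel

theorem p22 : g3 11 (((((0 ||| 2 ^ 16) ||| 2 ^ 15) ||| 2 ^ 14) ||| 2 ^ 13) ||| 2 ^ 12) ((0 ||| 2 ^ 17) ||| 2 ^ 11) = true := by decide +kernel

theorem p23 : g3 12 ((((0 ||| 2 ^ 16) ||| 2 ^ 15) ||| 2 ^ 14) ||| 2 ^ 13) ((0 ||| 2 ^ 17) ||| 2 ^ 12) = true := by decide +kernel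

theorem p24 : g3 12 ((((0 ||| 2 ^ 16) ||| 2 ^ 15) ||| 2 ^ 14) ||| 2 ^ 12) ((0 ||| 2 ^ 17) ||| 2 ^ 13) = true := by decide +kernel

theorem p25 : g3 12 (((0 ||| 2 ^ 16) ||| 2 ^ 15) ||| 2 ^ 14) (((0 ||| 2 ^ 17) ||| 2 ^ 13) ||| 2 ^ 12) = true := by decide +kernel

end Pool.Agent.H1.Pd
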