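import Pool.Agent.H1.PdBy

set_option autoImplicit false

namespace Pool.Agent.H1.Pd

theorem p26 : g3 11 (((((0 ||| 2 ^ 16) ||| 2 ^ 15) ||| 2 ^ 13) ||| 2 ^ 12) ||| 2 ^ 11) ((0 ||| 2 ^ 17) ||| 2 ^ 14) = true := by decide +kernel

theorem p27 : g3 11 ((((0 ||| 2 ^ 16) ||| 2 ^ 15) ||| 2 ^ 13) ||| 2 ^ 12) (((0 ||| 2 ^ 17) ||| 2 ^ 14) ||| 2 ^ 11) = true := by decide +kernel

theorem p28 : g3 12 (((0 ||| 2 ^ 16) ||| 2 ^ 15) ||| 2 ^ 13) (((0 ||| 2 ^ 17) ||| 2 ^ 14) ||| 2 ^ 12) = true := by decide +kernel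

theorem p29 : g3 13 ((0 ||| 2 ^ 16) ||| 2 ^ 15) (((0 ||| 2 ^ 17) ||| 2 ^ 14) ||| 2 ^ 13) = true := by decide +kernel

theorem p30 : g3 11 (((((0 ||| 2 ^ 16) ||| 2 ^ 14) ||| 2 ^ 13) ||| 2 ^ 12) ||| 2 ^ 11) ((0 ||| 2 ^ 17) ||| 2 ^ 15) = true := by decide +kernel

theorem p31 : g3 11 ((((0 ||| 2 ^ 16) ||| 2 ^ 14) ||| 2 ^ 13) ||| 2 ^ 12) (((0 ||| 2 ^ 17) ||| 2 ^ 15) ||| 2 ^ 11) = true := by decide +kernel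

theorem p32 : g3 12 (((0 ||| 2 ^ 16) ||| 2 ^ 14) ||| 2 ^ 13) (((0 ||| 2 ^ 17) ||| 2 ^ 15) ||| 2 ^ 12) = true := by decide +kernel

theorem p33 : g3 13 ((0 ||| 2 ^ 16) ||| 2 ^ 14) (((0 ||| 2 ^ 17) ||| 2 ^ 15) ||| 2 ^ 13) = true := by decide +kernel

theorem p34 : g3 14 (0 ||| 2 ^ 16) (((0 ||| 2 ^ 17) ||| 2 ^ 15) ||| 2 ^ 14) = true := by decide +kernel

theorem p35 : g3 12 ((((0 ||| 2 ^ 15) ||| 2 ^ 14) ||| 2 ^ 13) ||| 2 ^ 12) ((0 ||| 2 ^ 17) ||| 2 ^ 16) = true := by decide +kernel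

theorem p36 : g3 12 (((0 ||| 2 ^ 15) ||| 2 ^ 14) ||| 2 ^ 13) (((0 ||| 2 ^ 17) ||| 2 ^ 16) ||| 2 ^ 12) = true := by decide +kernel

theorem p37 : g3 13 ((0 ||| 2 ^ 15) ||| 2 ^ 14) (((0 ||| 2 ^ 17) ||| 2 ^ 16) ||| 2 ^ 13) = true := by decide +kernel

theorem p38 : g3 14 (0 ||| 2 ^ 15) (((0 ||| 2 ^ 17) ||| 2 ^ 16) ||| 2 ^ 14) = true := by decide +kernel

theorem p39 : g3 15 0 (((0 ||| 2 ^ 17) ||| 2 ^ 16) ||| 2 ^ 15) = true := by decide +kernel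

theorem k2 : g3 18 0 0 = true :=
  (step 17 _ _ (step 16 _ _ (step 15 _ _ (step 14 _ _ (step 13 _ _ (step 12 _ _ (step 11 _ _ p0 p1) p2) (step 12 _ _ (step 11 _ _ p3 p4) p5)) (step 13 _ _ (step 12 _ _ (step 11 _ _ p6 p7) p8) p9)) (step 14 _ _ (step 13 _ _ (step 12 _ _ (step 11 _ _ p10 p11) p12) p13) p14)) (step 15 _ _ (step 14 _ _ (step 13 _ _ (step 12 _ _ (step 11 _ _ p15 p16) p17) p18) p19) p20)) (step 16 _ _ (step 15 _ _ (step 14 _ _ (step 13 _ _ (step 12 _ _ (step 11 _ _ p21 p22) p23) (step 12 _ _ p24 p25)) (step 13 _ _ (step 12 _ _ (step 11 _ _ p26 p27) p28) p29)) (step 14 _ _ (step 13 _ _ (step 12 _ _ (step 11 _ _ p30 p31) p32) p33) p34)) (step 15 _ _ (step 14 _ _ (step 13 _ _ (step 12 _ _ p35 p36) p37) p38) p39)))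

end Pool.Agent.H1.Pd
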