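import Mathlib

set_option autoImplicit false

namespace Pool.Agent.H1.PwBohr

def x : ℕ → ℤ
  | 0 => 1
  | k + 1 => (x k + k) ^ 2 + (k + 1) * (x k + k) + (k + 1)

theorem x_pos (k : ℕ) : 1 ≤ x k := by
  induction k with
  | zero => simp [x]
  | succ k ih => simp only [x]; nlinarith [sq_nonneg (x k + k), Int.natCast_nonneg k]

theorem y_mono {i j : ℕ} (h : i ≤ j) : x i + i ≤ x j + j := by
  induction h with
  | refl => exact le_rfl
  | step _ ih =>
    rename_i m _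
    refine ih.trans ?_
    simp only [x]; push_cast
    nlinarith [sq_nonneg (x m + m), Int.natCast_nonneg m, x_pos m]

/-- cluster description -/
def Cl (P : ℤ → Prop) (k : ℕ) (u v : ℤ) : Prop :=
  1 ≤ u ∧ u ≤ x k + k ∧ x (k + 1) ≤ v ∧ v ≤ x (k + 1) + (k + 1) ∧ P v

theorem cl_unique {P : ℤ → Prop} {k k' : ℕ} {u v u' v' : ℤ} (h : Cl P k u v) (h' : Cl P k' u' v')
    (M : ℤ) (hk : M ≤ k) (hk' : M ≤ k') (h1 : u * v - u' * v' ≤ M) (h2 : u' * v' - u * v ≤ M) :
    u = u' := by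
  have key : ∀ {k k' : ℕ} {u v u' v' : ℤ}, Cl P k u v → Cl P k' u' v' → k < k' →
      (k' : ℤ) + 1 ≤ u' * v' - u * v := by
    intro k k' u v u' v' h h' hlt
    obtain ⟨a1, a2, a3, a4, -⟩ := h
    obtain ⟨b1, b2, b3, b4, -⟩ := h'
    have e1 : x (k + 1) + ((k + 1 : ℕ) : ℤ) ≤ x k' + k' := y_mono hlt
    have e2 : x k + k ≤ x k' + k' := y_mono hlt.le
    push_cast at e1
    have p1 := x_pos k'
    have p2 := x_pos (k + 1)
    have p3 := x_pos (k' + 1)
    have : u * v ≤ (x k' + k') * (x k' + k') :=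
      mul_le_mul (by linarith) (by linarith) (by linarith) (by linarith [Int.natCast_nonneg k'])
    have : v' ≤ u' * v' := by nlinarith
    simp only [x] at b3
    nlinarith [Int.natCast_nonneg k']
  have key2 : ∀ {k : ℕ} {u v u' v' : ℤ}, Cl P k u v → Cl P k u' v' → u < u' →
      (k : ℤ) + 1 ≤ u' * v' - u * v := by
    intro k u v u' v' h h' hlt
    obtain ⟨a1, a2, a3, a4, -⟩ := h
    obtain ⟨b1, b2, b3, b4, -⟩ := h'
    have p3 := x_pos (k + 1)
    have e1 : (u + 1) * x (k + 1) ≤ u' * v' :=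
      mul_le_mul (by linarith) b3 (by linarith) (by linarith)
    have e2 : u * v ≤ u * (x (k + 1) + (k + 1)) := mul_le_mul_of_nonneg_left a4 (by linarith)
    have e3 : u * ((k : ℤ) + 1) ≤ (x k + k) * (k + 1) :=
      mul_le_mul_of_nonneg_right a2 (by positivity)
    have e4 : x (k + 1) = (x k + k) ^ 2 + (k + 1) * (x k + k) + (k + 1) := by simp only [x]
    nlinarith [sq_nonneg (x k + k)]
  rcases lt_trichotomy k k' with hlt | rfl | hlt
  · have := key h h' hlt; linarith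
  · rcases lt_trichotomy u u' with hlt | rfl | hlt
    · have := key2 h h' hlt; linarith
    · rfl
    · have := key2 h' h hlt; linarith
  · have := key h' h hlt; linarith

theorem cl_large {P : ℤ → Prop} {k : ℕ} {u v : ℤ} (h : Cl P k u v) (M : ℕ)
    (hn : (x (M + 1) + (M + 1)) ^ 2 < u * v) : M ≤ k := by
  by_contra hlt
  push Not at hlt
  obtain ⟨a1, a2, a3, a4, -⟩ := h
  have e1 : x (k + 1) + ((k + 1 : ℕ) : ℤ) ≤ x (M + 1) + ((M + 1 : ℕ) : ℤ) := y_mono (by omega)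
  have e2 : x k + k ≤ x (M + 1) + ((M + 1 : ℕ) : ℤ) := y_mono (by omega)
  push_cast at e1 e2
  have p2 := x_pos (k + 1)
  have p3 := x_pos (M + 1)
  have : u * v ≤ (x (M + 1) + (M + 1)) * (x (M + 1) + (M + 1)) :=
    mul_le_mul (by linarith) (by linarith) (by linarith) (by positivity)
  nlinarith

def U (n : ℤ) : Prop := |(n : ℝ) * √2 - (round ((n : ℝ) * √2) : ℝ)| < 1 / 10

theorem ap_bound (m : ℤ) (hm : 0 < m) : ∃ L : ℕ, 2 ≤ L ∧ ∀ (u : ℤ) (v : ℕ → ℤ), 1 ≤ u →
    (∀ t < L, u * v t = u * v 0 + t * m) → ¬ ∀ t < L, U (v t) := by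
  set η : ℝ := |(m : ℝ) * √2 - (round ((m : ℝ) * √2) : ℝ)| with hη
  have hη0 : 0 < η := by
    rw [hη, abs_pos, sub_ne_zero]
    have : Irrational ((m : ℝ) * √2) := irrational_sqrt_two.intCast_mul hm.ne'
    exact this.ne_int _
  obtain ⟨L, hL⟩ := exists_nat_gt ((m : ℝ) / η)
  refine ⟨L + 2, by omega, ?_⟩
  intro u v hu hv hU
  set d : ℤ := v 1 - v 0 with hd
  have hud : u * d = m := by have := hv 1 (by omega); push_cast at this; rw [hd]; linarith
  have hvt : ∀ t < L + 2, v t = v 0 + t * d := by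
    intro t ht
    have := hv t ht
    apply mul_left_cancel₀ (show u ≠ 0 by omega)
    rw [this, ← hud]; ring
  set e : ℕ → ℝ := fun t => (v t : ℝ) * √2 - (round ((v t : ℝ) * √2) : ℝ) with he
  have hb : ∀ t < L + 2, |e t| < 1 / 10 := hU
  have step : ∀ t, t + 1 < L + 2 → e (t + 1) - e t = e 1 - e 0 := by
    intro t ht
    set z : ℤ := round ((v (t + 1) : ℝ) * √2) - round ((v t : ℝ) * √2) -
      round ((v 1 : ℝ) * √2) + round ((v 0 : ℝ) * √2) with hz
    have e1 : e (t + 1) - e t - (e 1 - e 0) = -(z : ℝ) := by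
      have a1 : (v (t + 1) : ℝ) = v 0 + (t + 1) * d := by exact_mod_cast hvt (t + 1) ht
      have a2 : (v t : ℝ) = v 0 + t * d := by exact_mod_cast hvt t (by omega)
      have a3 : (v 1 : ℝ) = v 0 + d := by rw [hd]; push_cast; ring
      simp only [he, hz]; push_cast
      linear_combination √2 * a1 - √2 * a2 - √2 * a3
    have b1 := abs_lt.1 (hb (t + 1) ht)
    have b2 := abs_lt.1 (hb t (by omega))
    have b3 := abs_lt.1 (hb 1 (by omega))
    have b4 := abs_lt.1 (hb 0 (by omega))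
    have c1 : (z : ℝ) < 1 := by linarith [b1.1, b2.2, b3.2, b4.1]
    have c2 : (-1 : ℝ) < z := by linarith [b1.2, b2.1, b3.1, b4.2]
    have c3 : z < 1 := by exact_mod_cast c1
    have c4 : -1 < z := by exact_mod_cast c2
    have c5 : z = 0 := by omega
    rw [c5] at e1; simp at e1; linarith
  have lin : ∀ t < L + 2, e t = e 0 + t * (e 1 - e 0) := by
    intro t
    induction t with
    | zero => simp
    | succ t ih => intro ht; have := ih (by omega); have := step t ht; push_cast; linarith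
  have hδ : η ≤ u * |e 1 - e 0| := by
    have a3 : (v 1 : ℝ) = v 0 + d := by rw [hd]; push_cast; ring
    have a4 : (u : ℝ) * d = m := by exact_mod_cast hud
    have hu' : (0 : ℝ) < u := by exact_mod_cast (show (0 : ℤ) < u by omega)
    have : (u : ℝ) * (e 1 - e 0) = (m : ℝ) * √2 -
        ((u * (round ((v 1 : ℝ) * √2) - round ((v 0 : ℝ) * √2)) : ℤ) : ℝ) := by
      simp only [he]; push_cast
      linear_combination (u : ℝ) * √2 * a3 + √2 * a4
    rw [← abs_of_pos hu', ← abs_mul, this]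
    exact round_le _ _
  have hum : (u : ℝ) ≤ m := by
    have : 1 ≤ d := by nlinarith
    have : u ≤ m := by nlinarith
    exact_mod_cast this
  have f1 := lin (L + 1) (by omega)
  have f2 := abs_lt.1 (hb (L + 1) (by omega))
  have f3 := abs_lt.1 (hb 0 (by omega))
  have f4 : |((L + 1 : ℕ) : ℝ) * (e 1 - e 0)| < 1 := by
    rw [abs_lt]; constructor <;> linarith [f2.1, f2.2, f3.1, f3.2]
  rw [abs_mul, abs_of_nonneg (by positivity)] at f4
  push_cast at f4
  rw [div_lt_iff₀ hη0] at hL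
  have g1 : η ≤ m * |e 1 - e 0| := hδ.trans (mul_le_mul_of_nonneg_right hum (abs_nonneg _))
  have hm' : (0 : ℝ) < m := by exact_mod_cast hm
  have g2 : ((L : ℝ) + 1) * η ≤ (L + 1) * (m * |e 1 - e 0|) :=
    mul_le_mul_of_nonneg_left g1 (by positivity)
  nlinarith

def T (r : ℕ) : Set ℤ := {n | ∃ j : ℕ, j % 2 = r ∧ x j ≤ n ∧ n ≤ x j + j}

theorem T_thick (r : ℕ) (hr : r < 2) (L : ℕ) : ∃ a : ℤ, ∀ k : ℕ, k < L → a + (k : ℤ) ∈ T r := by
  refine ⟨x (2 * L + r), fun k hk => ⟨2 * L + r, by omega, by omega, ?_⟩⟩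
  push_cast; omega

theorem prod_cl {b c : ℤ} (hb : b ∈ T 0) (hb' : U b) (hc : c ∈ T 1) (hc' : U c) :
    ∃ k u v, Cl U k u v ∧ b * c = u * v := by
  obtain ⟨i, hi, b1, b2⟩ := hb
  obtain ⟨j, hj, c1, c2⟩ := hc
  rcases lt_trichotomy i j with h | h | h
  · obtain ⟨k, rfl⟩ : ∃ k, j = k + 1 := ⟨j - 1, by omega⟩
    refine ⟨k, b, c, ⟨(x_pos i).trans b1, b2.trans (y_mono (by omega)), c1, ?_, hc'⟩, rfl⟩
    exact_mod_cast c2
  · omega
  · obtain ⟨k, rfl⟩ : ∃ k, i = k + 1 := ⟨i - 1, by omega⟩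
    refine ⟨k, c, b, ⟨(x_pos j).trans c1, c2.trans (y_mono (by omega)), b1, ?_, hb'⟩, mul_comm _ _⟩
    exact_mod_cast b2

theorem main (m r : ℤ) (S : Set ℤ) (hm : 0 < m)
    (hS : ∀ L : ℕ, ∃ a : ℤ, ∀ k : ℕ, k < L → a + (k : ℤ) ∈ S)
    (h : ∀ n ∈ S, n ≡ r [ZMOD m] → ∃ k u v, Cl U k u v ∧ n = u * v) : False := by
  obtain ⟨L, hL2, hL⟩ := ap_bound m hm
  obtain ⟨m', rfl⟩ : ∃ m' : ℕ, m = m' := ⟨m.toNat, by omega⟩
  set M : ℕ := L * m' with hM
  obtain ⟨K, hK⟩ : ∃ K : ℕ, (x (M + 1) + (M + 1)) ^ 2 ≤ K := ⟨_, (Int.self_le_toNat _)⟩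
  obtain ⟨a, ha⟩ := hS ((K + L + 1) * m')
  obtain ⟨k0, hk0⟩ : ∃ k0 : ℕ, (k0 : ℤ) = (r - a) % m' :=
    ⟨((r - a) % m').toNat, Int.toNat_of_nonneg (Int.emod_nonneg _ hm.ne')⟩
  have hk0lt : k0 < m' := by
    have := Int.emod_lt_of_pos (r - a) hm
    omega
  have hall : ∀ t < K + L, ∃ k u v, Cl U k u v ∧ a + k0 + t * (m' : ℤ) = u * v := by
    intro t ht
    apply h
    · have := ha (k0 + t * m') (by nlinarith)
      push_cast at this
      rwa [add_assoc]
    · have e1 : (k0 : ℤ) ≡ r - a [ZMOD m'] := by rw [hk0]; exact Int.mod_modEq _ _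
      have e2 : (t : ℤ) * m' ≡ 0 [ZMOD m'] := Int.modEq_zero_iff_dvd.2 (Dvd.intro_left _ rfl)
      have := ((Int.ModEq.refl a).add e1).add e2
      simpa using this
  have hpos : 1 ≤ a + k0 := by
    obtain ⟨k, u, v, hc, e⟩ := hall 0 (by omega)
    obtain ⟨a1, -, a3, -⟩ := hc
    have := x_pos (k + 1)
    simp at e
    nlinarith
  have hall' : ∀ t : ℕ, ∃ k u v, t < L → Cl U k u v ∧ M ≤ k ∧
      a + k0 + K * (m' : ℤ) + t * (m' : ℤ) = u * v := by
    intro t
    by_cases ht : t < L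
    · obtain ⟨k, u, v, hc, e⟩ := hall (K + t) (by omega)
      push_cast at e
      refine ⟨k, u, v, fun _ => ⟨hc, cl_large hc M ?_, by linarith⟩⟩
      have : (K : ℤ) ≤ (K + t) * m' := by nlinarith [Int.natCast_nonneg K, Int.natCast_nonneg t]
      linarith
    · exact ⟨0, 0, 0, fun h => absurd h ht⟩
  choose k u v hk using hall'
  obtain ⟨c0, d0, e0⟩ := hk 0 (by omega)
  have hu : ∀ t < L, u t = u 0 := by
    intro t ht
    obtain ⟨c1, d1, e1⟩ := hk t ht
    have : (t : ℤ) * m' ≤ M := by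
      rw [hM]; push_cast
      exact mul_le_mul_of_nonneg_right (by exact_mod_cast ht.le) (by positivity)
    have h0 : (0 : ℤ) ≤ (t : ℤ) * m' := by positivity
    apply cl_unique c1 c0 M (by exact_mod_cast d1) (by exact_mod_cast d0)
    · simp at e0; linarith
    · simp at e0; linarith
  apply hL (u 0) v c0.1
  · intro t ht
    obtain ⟨c1, d1, e1⟩ := hk t ht
    rw [hu t ht] at e1
    simp at e0; linarith
  · intro t ht
    exact (hk t ht).1.2.2.2.2

end Pool.Agent.H1.PwBohr
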