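import Mathlib

set_option autoImplicit false

namespace Pool.Agent.H1.RepDeg

open Finset

def M : Fin 12 → Fin 12 → ℕ :=
  ![![3,2,0,0,1,0,0,1,0,0,0,0], ![2,3,0,0,1,0,0,1,0,1,0,0], ![0,0,3,2,0,1,1,1,1,1,1,1],
    ![0,0,2,3,1,1,1,1,1,1,1,1], ![1,1,0,1,3,2,1,1,1,1,1,1], ![0,0,1,1,2,3,0,1,1,1,0,1],
    ![0,0,1,1,1,0,3,2,0,0,1,1], ![1,1,1,1,1,1,2,3,1,1,1,1], ![0,0,1,1,1,1,0,1,3,2,1,1],
    ![0,1,1,1,1,1,0,1,2,3,1,1], ![0,0,1,1,1,0,1,1,1,1,3,2], ![0,0,1,1,1,1,1,1,1,1,2,3]]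

def lev : Fin 12 → ℕ := ![3, 4, 7, 8, 9, 6, 5, 10, 7, 8, 7, 8]

def r (P : Fin 12) : ℕ := if P.val < 2 then 1 else 0

theorem M_symm : ∀ P Q, M P Q = M Q P := by decide
theorem M_two : ∀ P Q, M P Q = 2 → r P = r Q := by decide
theorem M_three : ∀ P Q, M P Q = 3 ↔ P = Q := by decide

def R (s : ℕ) : SimpleGraph (Fin 12 × Fin s) where
  Adj x y := M x.1 y.1 = 1 ∨ (M x.1 y.1 = 2 ∧ s ≤ x.2 + y.2 + r x.1) ∨
    (M x.1 y.1 = 3 ∧ r x.1 = 1 ∧ x.2 ≠ y.2)
  symm := ⟨fun x y h => by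
    rw [M_symm y.1]
    rcases h with h | ⟨h, h'⟩ | ⟨h, h', h''⟩
    · exact Or.inl h
    · exact Or.inr (Or.inl ⟨h, by rw [← M_two _ _ h]; omega⟩)
    · exact Or.inr (Or.inr ⟨h, (M_three _ _).1 h ▸ h', h''.symm⟩)⟩
  loopless := ⟨fun x h => by
    have := (M_three x.1 x.1).2 rfl
    rcases h with h | ⟨h, -⟩ | ⟨-, -, h⟩
    · omega
    · omega
    · exact h rfl⟩

theorem deg (s : ℕ) (x : Fin 12 × Fin s) : ((R s).neighborSet x).ncard = s * lev x.1 + x.2 := by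
  classical
  obtain ⟨P, i⟩ := x
  have hi := i.2
  have h1 : ∀ t ≤ 1, (univ.filter fun j : Fin s => s ≤ i + j + t).card = i + t := by
    intro t ht
    rw [← card_map Fin.valEmbedding, show (i : ℕ) + t = (Ico (s - (i + t)) s).card by
      rw [Nat.card_Ico]; omega]
    congr 1
    ext j
    simp only [mem_map, mem_filter, mem_univ, true_and, Fin.valEmbedding_apply, mem_Ico]
    constructor
    · rintro ⟨a, ha, rfl⟩; exact ⟨by omega, a.2⟩
    · rintro ⟨h, h'⟩; exact ⟨⟨j, h'⟩, by simp only; omega, rfl⟩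
  have h2 : (univ.filter fun j : Fin s => i ≠ j).card = s - 1 := by
    rw [filter_ne, card_erase_of_mem (mem_univ _)]; simp
  have h3 : ∀ Q, (univ.filter fun j : Fin s => (R s).Adj (P, i) (Q, j)).card =
      if M P Q = 1 then s else if M P Q = 2 then i + r P else if M P Q = 3 ∧ r P = 1 then s - 1 else 0 := by
    intro Q
    have hr : r P ≤ 1 := by unfold r; split_ifs <;> omega
    split_ifs with a b c
    · simp [R, a]
    · rw [← h1 _ hr]; congr 1; ext j; simp [R, b]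
    · rw [← h2]; congr 1; ext j; simp [R, c.1, c.2]
    · rw [card_eq_zero, filter_eq_empty_iff]
      rintro j - (h | h | h)
      · exact a h
      · exact b h.1
      · exact c ⟨h.1, h.2.1⟩
  have h4 : (R s).neighborSet (P, i) = ↑(univ.filter fun y => (R s).Adj (P, i) y) := by
    ext y; simp
  rw [h4, Set.ncard_coe_finset, card_filter, Fintype.sum_prod_type]
  simp only [← card_filter, h3]
  fin_cases P <;> simp [Fin.sum_univ_succ, M, r, lev] <;> omega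

theorem key1 : ∀ P Q W, P ≠ Q → lev P = lev Q → r W = 1 → M P W = 0 ∨ M Q W = 0 := by decide
theorem key2 : ∀ P Q W, P ≠ Q → lev P = lev Q → r W ≠ 1 → M P W = 1 ∨ M Q W = 1 := by decide

theorem no_clique {s : ℕ} {x y : Fin 12 × Fin s} (hxy : x ≠ y)
    (hd : ((R s).neighborSet x).ncard = ((R s).neighborSet y).ncard) (f : Fin 13 → Fin 12 × Fin s)
    (H : SimpleGraph (Fin 12 × Fin s)) (hH : H = R s ∨ H = (R s)ᶜ)
    (h1 : ∀ a, H.Adj x (f a)) (h2 : ∀ a, H.Adj y (f a)) (h3 : ∀ a b, a ≠ b → H.Adj (f a) (f b)) :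
    False := by
  rw [deg, deg] at hd
  have hi : x.2 = y.2 := by
    have := congrArg (· % s) hd
    simp only [Nat.mul_add_mod, Nat.mod_eq_of_lt x.2.2, Nat.mod_eq_of_lt y.2.2] at this
    exact Fin.ext this
  have hl : lev x.1 = lev y.1 := by
    rw [hi] at hd
    exact Nat.eq_of_mul_eq_mul_left x.2.pos (Nat.add_right_cancel hd)
  have hP : x.1 ≠ y.1 := fun h => hxy (Prod.ext h hi)
  obtain ⟨a, b, hab, h⟩ := Fintype.exists_ne_map_eq_of_card_lt (fun a => (f a).1) (by simp)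
  have h4 := h3 a b hab
  have h5 := (M_three _ _).2 h
  have h1 := h1 a
  have h2 := h2 a
  rcases hH with rfl | rfl
  · have hr : r (f a).1 = 1 := by
      rcases h4 with h | h | h
      · omega
      · omega
      · exact h.2.1
    simp only [R] at h1 h2
    rcases key1 _ _ _ hP hl hr with h | h <;> omega
  · have hr : r (f a).1 ≠ 1 := fun hr =>
      h4.2 (Or.inr (Or.inr ⟨h5, hr, fun e => h4.1 (Prod.ext h e)⟩))
    rcases key2 _ _ _ hP hl hr with h | h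
    · exact h1.2 (Or.inl h)
    · exact h2.2 (Or.inl h)

end Pool.Agent.H1.RepDeg
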