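import Mathlib

set_option autoImplicit false

namespace Pool.Agent.H1.Restricted

open Finset

/-- two intervals -/
def An (L : ℕ) : Finset ℕ := Ico 0 (3 * L) ∪ Ico (4 * L) (7 * L)

/-- allowed integer sums -/
def good (L s : ℕ) : Prop := s < L ∨ (5 * L ≤ s ∧ s < 9 * L) ∨ (13 * L ≤ s ∧ s < 14 * L)

instance (L s : ℕ) : Decidable (good L s) := by unfold good; infer_instance

theorem mem_An {L x : ℕ} : x ∈ An L ↔ x < 3 * L ∨ (4 * L ≤ x ∧ x < 7 * L) := by
  simp [An]

theorem card_An (L : ℕ) : (An L).card = 6 * L := by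
  unfold An
  rw [card_union_of_disjoint]
  · simp; omega
  · rw [disjoint_left]; intro x h1 h2; simp at h1 h2; omega

theorem card_bad (L a : ℕ) (ha : a ∈ An L) :
    ((An L).filter (fun b => ¬ good L (a + b))).card ≤ 3 * L := by
  have hsub : (An L).filter (fun b => ¬ good L (a + b)) ⊆
      Ico (L - a) (min (3 * L) (5 * L - a)) ∪ Ico (4 * L) (min (7 * L) (5 * L - a)) ∪
      Ico (9 * L - a) (3 * L) ∪ Ico (max (4 * L) (9 * L - a)) (min (7 * L) (13 * L - a)) := by
    intro b hb
    rw [mem_filter, mem_An] at hb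
    rw [mem_An] at ha
    unfold good at hb
    simp only [mem_union, mem_Ico]
    omega
  refine (card_le_card hsub).trans ?_
  refine (card_union_le _ _).trans ?_
  refine (Nat.add_le_add_right (card_union_le _ _) _).trans ?_
  refine (Nat.add_le_add_right (Nat.add_le_add_right (card_union_le _ _) _) _).trans ?_
  rw [mem_An] at ha
  simp only [Nat.card_Ico]
  omega

theorem main (L p : ℕ) (hL : 1 ≤ L) (h1 : 13 * L ≤ p) :
    ∃ (A : Finset (ZMod p)) (F : Finset (ZMod p × ZMod p)), A.card = 6 * L ∧ F ⊆ A ×ˢ A ∧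
      (∀ x : ZMod p, (F.filter (fun q => q.1 = x)).card ≤ 3 * L) ∧
      (∀ x : ZMod p, (F.filter (fun q => q.2 = x)).card ≤ 3 * L) ∧
      (((A ×ˢ A) \ F).image (fun q => q.1 + q.2)).card ≤ 5 * L + (p - 13 * L) := by
  haveI : NeZero p := ⟨by omega⟩
  let A : Finset (ZMod p) := (An L).image (fun n : ℕ => (n : ZMod p))
  have hA : ∀ x ∈ A, x.val ∈ An L := by
    intro x hx
    obtain ⟨n, hn, rfl⟩ := mem_image.1 hx
    have : n < p := by rw [mem_An] at hn; omega
    rwa [ZMod.val_cast_of_lt this]
  let F : Finset (ZMod p × ZMod p) := (A ×ˢ A).filter (fun q => ¬ good L (q.1.val + q.2.val))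
  refine ⟨A, F, ?_, filter_subset _ _, ?_, ?_, ?_⟩
  · rw [card_image_of_injOn, card_An]
    intro a ha b hb hab
    have ha' : a < p := by have := mem_An.1 ha; omega
    have hb' : b < p := by have := mem_An.1 hb; omega
    have := congrArg ZMod.val hab
    simpa [ZMod.val_cast_of_lt ha', ZMod.val_cast_of_lt hb'] using this
  · intro x
    by_cases hx : x ∈ A
    · refine le_trans ?_ (card_bad L x.val (hA x hx))
      apply card_le_card_of_injOn (fun q => q.2.val)
      · intro q hq
        simp only [coe_filter, F, mem_filter, mem_product, Set.mem_setOf_eq] at hq ⊢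
        obtain ⟨⟨⟨_, h2⟩, h3⟩, rfl⟩ := hq
        exact ⟨hA _ h2, h3⟩
      · intro q hq q' hq' h
        simp only [coe_filter, Set.mem_setOf_eq] at hq hq'
        exact Prod.ext (hq.2.trans hq'.2.symm) (ZMod.val_injective p h)
    · rw [filter_eq_empty_iff.2]
      · simp
      · intro q hq h
        simp only [F, mem_filter, mem_product] at hq
        exact hx (h ▸ hq.1.1)
  · intro x
    by_cases hx : x ∈ A
    · refine le_trans ?_ (card_bad L x.val (hA x hx))
      apply card_le_card_of_injOn (fun q => q.1.val)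
      · intro q hq
        simp only [coe_filter, F, mem_filter, mem_product, Set.mem_setOf_eq] at hq ⊢
        obtain ⟨⟨⟨h1, _⟩, h3⟩, rfl⟩ := hq
        exact ⟨hA _ h1, by rwa [add_comm]⟩
      · intro q hq q' hq' h
        simp only [coe_filter, Set.mem_setOf_eq] at hq hq'
        exact Prod.ext (ZMod.val_injective p h) (hq.2.trans hq'.2.symm)
    · rw [filter_eq_empty_iff.2]
      · simp
      · intro q hq h
        simp only [F, mem_filter, mem_product] at hq
        exact hx (h ▸ hq.1.2)
  · have hsub : ((A ×ˢ A) \ F).image (fun q => q.1 + q.2) ⊆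
        (Ico 0 L ∪ Ico (5 * L) (9 * L) ∪ Ico (13 * L) p).image (fun n : ℕ => (n : ZMod p)) := by
      intro s hs
      obtain ⟨q, hq, rfl⟩ := mem_image.1 hs
      simp only [F, mem_sdiff, mem_filter, not_and, not_not] at hq
      have hg := hq.2 hq.1
      have hs : q.1 + q.2 = ((q.1.val + q.2.val : ℕ) : ZMod p) := by simp
      rw [mem_image]
      by_cases hlt : q.1.val + q.2.val < p
      · refine ⟨q.1.val + q.2.val, ?_, hs.symm⟩
        unfold good at hg
        simp only [mem_union, mem_Ico]
        omega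
      · refine ⟨q.1.val + q.2.val - p, ?_, ?_⟩
        · unfold good at hg
          simp only [mem_union, mem_Ico]
          omega
        · rw [hs, Nat.cast_sub (by omega)]; simp
    refine (card_le_card hsub).trans (card_image_le.trans ?_)
    refine (card_union_le _ _).trans ?_
    refine (Nat.add_le_add_right (card_union_le _ _) _).trans ?_
    simp only [Nat.card_Ico]
    omega

/-- For arbitrarily large primes there is a counterexample, even without passing to a bounded subset. -/
theorem counter (n₀ : ℕ) : ∃ p : ℕ, p.Prime ∧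
    ∃ (A : Finset (ZMod p)) (F : Finset (ZMod p × ZMod p)) (d : ℕ), n₀ ≤ A.card ∧
      (A.card : ℝ) < (1 - 1 / 14) * (p : ℝ) / 2 ∧ F ⊆ A ×ˢ A ∧
      (∀ x : ZMod p, (F.filter (fun q => q.1 = x)).card ≤ d) ∧
      (∀ x : ZMod p, (F.filter (fun q => q.2 = x)).card ≤ d) ∧
      ∀ B : Finset (ZMod p), B ⊆ A →
        ((((A ×ˢ B) \ F).image (fun q => q.1 + q.2)).card : ℤ) <
          2 * (A.card : ℤ) - 2 * (d : ℤ) - 1 := by
  obtain ⟨p, hp1, hp⟩ := Nat.exists_infinite_primes (13 * (n₀ + 14))
  obtain ⟨A, F, hA, hF, h1, h2, h3⟩ := main (p / 13) p (by omega) (by omega)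
  refine ⟨p, hp, A, F, 3 * (p / 13), by omega, ?_, hF, h1, h2, ?_⟩
  · rw [hA]
    have h13 : 13 * (p / 13) ≤ p := by omega
    have h13' : (13 : ℝ) * ((p / 13 : ℕ) : ℝ) ≤ p := by exact_mod_cast h13
    have hpos : (0 : ℝ) < p := by exact_mod_cast hp.pos
    push_cast
    linarith
  · intro B hB
    have : (((A ×ˢ B) \ F).image (fun q => q.1 + q.2)).card ≤
        (((A ×ˢ A) \ F).image (fun q => q.1 + q.2)).card := by
      apply card_le_card
      apply image_subset_image
      exact sdiff_subset_sdiff (product_subset_product_right hB) (Subset.refl _)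
    rw [hA]
    push_cast
    omega

end Pool.Agent.H1.Restricted
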