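import Pool.Agent.H28.Explicit

set_option autoImplicit false
set_option linter.unusedSectionVars false

/-! Rank-3 geometries over `GF(4)` all of whose minors are affine have at most 8 points;
`AG(2,3)` has 9 points and no supersolvable tangential 1-block minor. -/

namespace Pool.Agent.H1.Tb4

open Set Submodule Module Pool.Agent.H28.VecMat Pool.Agent.H28.TangDefs Pool.Agent.H28.Crit
  Pool.Agent.H28.Explicit
open scoped Matroid

instance : Fact (∀ r : ZMod 2, r ^ 2 ≠ 1 + 1 * r) := ⟨by decide⟩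

/-- the field with four elements -/
abbrev F4 : Type := QuadraticAlgebra (ZMod 2) 1 1

instance : Fintype F4 := Fintype.ofEquiv _ (QuadraticAlgebra.equivProd (1 : ZMod 2) 1).symm

theorem card_F4 : Fintype.card F4 = 4 := by
  rw [Fintype.card_congr (QuadraticAlgebra.equivProd (1 : ZMod 2) 1)]
  simp

def el (n : ℕ) : F4 := ⟨(n % 2 : ℕ), (n / 2 % 2 : ℕ)⟩

def pt (i : Fin 16) : F4 × F4 := (el (i.1 % 4), el (i.1 / 4))

theorem pt_surj : ∀ a b : F4, ∃ i, pt i = (a, b) := by decide +kernel

def Ls : List (List ℕ) :=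
  [[15, 4369, 10305, 17025, 33825, 65535], [15, 5250, 8738, 18450, 33090, 65535], [15, 6180,
  8580, 17476, 33300, 65535], [15, 4680, 9240, 16680, 34952, 65535], [240, 4369, 9240,
  18450, 33300, 65535], [240, 6180, 8738, 16680, 33825, 65535], [240, 4680, 10305, 17476,
  33090, 65535], [240, 5250, 8580, 17025, 34952, 65535], [3840, 4369, 8580, 16680, 33090,
  65535], [3840, 4680, 8738, 17025, 33300, 65535], [3840, 5250, 9240, 17476, 33825, 65535],
  [3840, 6180, 10305, 18450, 34952, 65535], [4369, 4680, 5250, 6180, 61440, 65535], [8580,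
  8738, 9240, 10305, 61440, 65535], [16680, 17025, 17476, 18450, 61440, 65535], [33090,
  33300, 33825, 34952, 61440, 65535]]

theorem zero_mask : ∀ a b c : F4, ∀ s : Fin 16, a + b * (pt s).1 + c * (pt s).2 = 0 →
    ∃ Z ∈ Ls.getD s [], ∀ i : Fin 16,
      (Z.testBit i = true ↔ a + b * (pt i).1 + c * (pt i).2 = 0) := by decide +kernel

def pc (n : ℕ) : ℕ := (List.range 8).countP (fun i => n.testBit i)

def bad (n : ℕ) : Bool :=
  (List.range 16).any fun s => n.testBit s && (Ls.getD s []).all fun Z => !Nat.beq (n &&& Z) (2 ^ s)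

theorem chk_all : ((List.range 256).all fun a => (List.range 256).all fun b =>
    Nat.ble (pc a + pc b) 8 || bad (256 * a + b)) = true := by decide +kernel

theorem pc_split (n : ℕ) :
    ((Finset.range 16).filter (fun i => n.testBit i = true)).card = pc (n / 256) + pc (n % 256) := by
  have h1 : ∀ i, (n / 256).testBit i = n.testBit (i + 8) := fun i => by
    rw [show 256 = 2 ^ 8 by norm_num, Nat.testBit_div_two_pow]
  have h2 : ∀ i < 8, (n % 256).testBit i = n.testBit i := fun i hi => by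
    rw [show 256 = 2 ^ 8 by norm_num, Nat.testBit_mod_two_pow]
    simp [hi]
  have h3 : ∀ m, pc m = ∑ i ∈ Finset.range 8, if m.testBit i = true then 1 else 0 := fun m => by
    rw [← Finset.card_filter, pc, List.countP_eq_length_filter]
    simp only [Finset.card, Finset.filter_val, Finset.range_val, Multiset.range,
      Multiset.filter_coe, Multiset.coe_card]
    simp
  rw [Finset.card_filter, h3, h3, show 16 = 8 + 8 by norm_num, Finset.sum_range_add, add_comm]
  congr 1
  · exact Finset.sum_congr rfl fun i _ => by rw [h1, add_comm]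
  · exact Finset.sum_congr rfl fun i hi => by rw [h2 i (Finset.mem_range.1 hi)]

theorem fin_bound (T : Finset (Fin 16))
    (h : ∀ s ∈ T, ∃ a b c : F4, ∀ t ∈ T, (a + b * (pt t).1 + c * (pt t).2 = 0 ↔ t = s)) :
    T.card ≤ 8 := by
  set n := Nat.ofBits (fun i : Fin 16 => decide (i ∈ T)) with hn
  have hlt : n < 2 ^ 16 := Nat.ofBits_lt_two_pow _
  have hb : ∀ i : Fin 16, n.testBit i = decide (i ∈ T) := fun i => by
    rw [hn, Nat.testBit_ofBits_lt _ _ i.2]
  have hc := chk_all
  simp only [List.all_eq_true, List.mem_range] at hc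
  replace hc := hc (n / 256) (by omega) (n % 256) (by omega)
  rw [Nat.div_add_mod] at hc
  simp only [bad, Bool.or_eq_true, List.any_eq_true, List.mem_range, Nat.ble_eq,
    Bool.and_eq_true, List.all_eq_true, Bool.not_eq_true', ← Bool.not_eq_true, Nat.beq_eq] at hc
  rcases hc with hc | ⟨s, hs, hs1, hs2⟩
  · have : T.card = ((Finset.range 16).filter (fun i => n.testBit i = true)).card := by
      refine Finset.card_bij (fun a _ => a.1) ?_ ?_ ?_
      · intro a ha
        simp [hb, ha]
      · intro a _ b _ hab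
        exact Fin.ext hab
      · intro b hb'
        simp only [Finset.mem_filter, Finset.mem_range] at hb'
        refine ⟨⟨b, hb'.1⟩, ?_, rfl⟩
        have := (hb ⟨b, hb'.1⟩).symm.trans hb'.2
        simpa using this
    rw [this, pc_split]
    exact hc
  · exfalso
    have hsT : (⟨s, hs⟩ : Fin 16) ∈ T := by
      have := (hb ⟨s, hs⟩).symm.trans hs1
      simpa using this
    obtain ⟨a, b, c, habc⟩ := h _ hsT
    obtain ⟨Z, hZ, hZ2⟩ := zero_mask a b c _ ((habc _ hsT).2 rfl)
    refine hs2 Z hZ (Nat.eq_of_testBit_eq fun i => ?_)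
    rw [Nat.testBit_and, Nat.testBit_two_pow]
    by_cases hi : i < 16
    · have h1 := hb ⟨i, hi⟩
      have h2 := hZ2 ⟨i, hi⟩
      simp only at h1 h2
      by_cases hiT : (⟨i, hi⟩ : Fin 16) ∈ T
      · have h3 := habc _ hiT
        rw [← h2, Fin.ext_iff] at h3
        simp only at h3
        rw [h1]
        by_cases hsi : s = i
        · simp [hsi, hiT, h3.2 hsi.symm]
        · have : Z.testBit i = false := by
            by_contra hh
            exact hsi (h3.1 (by simpa using hh)).symm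
          simp [hsi, this]
      · have hsi : s ≠ i := by
          rintro rfl
          exact hiT hsT
        simp [h1, hiT, hsi]
    · have : n.testBit i = false :=
        Nat.testBit_lt_two_pow (hlt.trans_le (Nat.pow_le_pow_right (by norm_num) (by omega)))
      have hsi : s ≠ i := by omega
      simp [this, hsi]

section general

variable {α : Type} [Fintype α] {F : Type} [Field F] [Fintype F]

theorem rep_fin {V : Type*} [AddCommGroup V] [Module F V] [FiniteDimensional F V]
    {N : Matroid α} {ψ : α → V} (h : Rep F N ψ) :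
    ∃ (n : ℕ) (v : α → Fin n → F), Rep F N v := by
  refine ⟨_, (Module.finBasis F V).equivFun ∘ ψ, fun I => ?_⟩
  rw [h I]
  refine and_congr_left fun _ => ?_
  exact (LinearMap.linearIndependent_iff (Module.finBasis F V).equivFun.toLinearMap
    (LinearEquiv.ker _)).symm

theorem minor_rep {n : ℕ} {M N : Matroid α} {φ : α → Fin n → F} (h : Rep F M φ) (hN : N ≤m M) :
    ∃ (n : ℕ) (v : α → Fin n → F), Rep F N v := by
  obtain ⟨C, D, hC, -, -, rfl⟩ := hN.exists_eq_contract_delete_disjoint
  exact rep_fin ((h.contract (toFinite _) hC).delete D)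

theorem all_crit {n : ℕ} {M : Matroid α} {φ : α → Fin n → F} (h : Rep F M φ) (k : ℕ)
    (hT : ∀ N, N ≤m M → ¬ (Representable F N ∧ IsSimple N ∧ ¬ CritLE (Fintype.card F) k N ∧
      ∀ N', N' <m N → IsSimple N' → CritLE (Fintype.card F) k N')) :
    ∀ (j : ℕ) (N : Matroid α), N.E.ncard = j → N ≤m M → (∀ e ∈ N.E, N.Indep {e}) →
      CritLE (Fintype.card F) k N := by
  intro j
  induction j using Nat.strong_induction_on with
  | _ j ih =>
    intro N hj hN hl
    obtain ⟨n', ψ, hψ⟩ := minor_rep h hN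
    by_cases hs : IsSimple N
    · by_contra hc
      refine hT N hN ⟨⟨n', ψ, represents_of_rep hψ⟩, hs, hc, fun N' hN' hs' => ?_⟩
      refine ih _ (hj ▸ ncard_lt_ncard hN'.ssubset (toFinite _)) N' rfl (hN'.isMinor.trans hN)
        fun e he => by simpa using hs' e he e he
    · simp only [IsSimple, not_forall] at hs
      obtain ⟨e, he, f, hf, hef⟩ := hs
      have hne : e ≠ f := by
        rintro rfl
        exact hef (by simpa using hl e he)
      rw [hψ.pair_indep_iff hne he hf] at hef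
      push Not at hef
      obtain ⟨c, hc⟩ := hef (hψ.ne_zero_of_indep (hl f hf))
      have hc0 : c ≠ 0 := by
        rintro rfl
        exact hψ.ne_zero_of_indep (hl e he) (by rw [← hc, zero_smul])
      have h1 := ih _ (by
        rw [← hj, Matroid.delete_ground]
        exact ncard_lt_ncard (sdiff_singleton_ssubset.2 he) (toFinite _)) (N ＼ {e}) rfl
        (Matroid.IsMinor.trans ⟨∅, {e}, by simp⟩ hN) (fun x hx => by
          rw [Matroid.delete_indep_iff]
          exact ⟨hl x hx.1, by simpa using hx.2⟩)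
      rw [critLE_iff (hψ.delete {e})] at h1
      rw [critLE_iff hψ]
      obtain ⟨L, hL⟩ := h1
      refine ⟨L, fun x hx => ?_⟩
      by_cases hxe : x = e
      · obtain ⟨i, hi⟩ := hL f ⟨hf, by simpa using hne.symm⟩
        refine ⟨i, ?_⟩
        rw [hxe, ← hc, map_smul, smul_eq_mul]
        exact mul_ne_zero hc0 hi
      · exact hL x ⟨hx, hxe⟩

end general

theorem upper {α : Type} [Fintype α] {M : Matroid α} (hr : Representable F4 M) (hs : IsSimple M)
    (h3 : M.eRank = 3)
    (hT : ∀ N, N ≤m M → ¬ (Representable F4 N ∧ IsSimple N ∧ ¬ CritLE (Fintype.card F4) 1 N ∧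
      ∀ N', N' <m N → IsSimple N' → CritLE (Fintype.card F4) 1 N')) : M.E.encard ≤ 8 := by
  classical
  obtain ⟨n, φ, hφ⟩ := hr
  have h := rep_of_represents hφ
  have hall := all_crit h 1 hT
  obtain ⟨L0, hL0⟩ := (critLE_iff h 1).1
    (hall _ M rfl Matroid.IsMinor.refl fun e he => by simpa using hs e he e he)
  have hL0' : ∀ e ∈ M.E, L0 0 (φ e) ≠ 0 := fun e he => by
    obtain ⟨i, hi⟩ := hL0 e he
    rwa [Subsingleton.elim i 0] at hi
  have htan : ∀ e ∈ M.E, ∃ L : Dual F4 (Fin n → F4), ∀ f ∈ M.E, (L (φ f) = 0 ↔ f = e) := by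
    intro e he
    have hne : M.IsNonloop e := by
      rw [← Matroid.indep_singleton]
      simpa using hs e he e he
    have h1 := hall _ (M ／ {e}) rfl ⟨{e}, ∅, by simp⟩ fun f hf => by
      rw [hne.contractElem_indep_iff]
      exact ⟨fun hh => hf.2 (mem_singleton_iff.1 hh).symm, hs e he f hf.1⟩
    obtain ⟨L, hL1, hL2⟩ := (critLE_contract_iff h 1 (by simpa using he)).1 h1
    refine ⟨L 0, fun f hf => ⟨fun h0 => ?_, fun hfe => hfe ▸ hL1 0 f (by simpa using hfe)⟩⟩
    by_contra hfe
    obtain ⟨i, hi⟩ := hL2 f hf hfe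
    rw [Subsingleton.elim i 0] at hi
    exact hi h0
  obtain ⟨B, hB⟩ := M.exists_isBase
  obtain ⟨b1, b2, b3, -, -, -, rfl⟩ := encard_eq_three.1 (hB.encard_eq_eRank.trans h3)
  have hBE := hB.subset_ground
  have hco : ∀ e ∈ M.E, ∃ x y z : F4, x • φ b1 + y • φ b2 + z • φ b3 = φ e := by
    intro e he
    have : e ∈ M.closure {b1, b2, b3} := by rwa [hB.closure_eq]
    have h2 := ((h.mem_closure hBE).1 this).1
    rw [image_insert_eq, image_pair] at h2
    exact Submodule.mem_span_triple.1 h2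
  choose! x y z hxyz using hco
  have u1 := hL0' b1 (hBE (by simp))
  have u2 := hL0' b2 (hBE (by simp))
  have u3 := hL0' b3 (hBE (by simp))
  have hP : ∀ e, ∃ i, pt i = (y e * L0 0 (φ b2) / L0 0 (φ e), z e * L0 0 (φ b3) / L0 0 (φ e)) :=
    fun e => pt_surj _ _
  choose P hP using hP
  have key : ∀ e ∈ M.E, ∃ a b c : F4, ∀ f ∈ M.E,
      (a + b * (pt (P f)).1 + c * (pt (P f)).2 = 0 ↔ f = e) := by
    intro e he
    obtain ⟨L, hL⟩ := htan e he
    refine ⟨L (φ b1) / L0 0 (φ b1), L (φ b2) / L0 0 (φ b2) - L (φ b1) / L0 0 (φ b1),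
      L (φ b3) / L0 0 (φ b3) - L (φ b1) / L0 0 (φ b1), fun f hf => ?_⟩
    rw [← hL f hf, hP f]
    have e1 : L (φ f) = x f * L (φ b1) + y f * L (φ b2) + z f * L (φ b3) := by
      rw [← hxyz f hf]; simp
    have e2 : L0 0 (φ f) = x f * L0 0 (φ b1) + y f * L0 0 (φ b2) + z f * L0 0 (φ b3) := by
      conv_lhs => rw [← hxyz f hf]
      simp
    have u := hL0' f hf
    have e3 : L (φ b1) / L0 0 (φ b1) +
        (L (φ b2) / L0 0 (φ b2) - L (φ b1) / L0 0 (φ b1)) * (y f * L0 0 (φ b2) / L0 0 (φ f)) +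
        (L (φ b3) / L0 0 (φ b3) - L (φ b1) / L0 0 (φ b1)) * (z f * L0 0 (φ b3) / L0 0 (φ f)) =
        L (φ f) / L0 0 (φ f) := by
      rw [e1]
      field_simp
      rw [e2]
      ring
    simp only
    rw [e3, div_eq_zero_iff]
    simp [u]
  have hinj : InjOn P M.E := by
    intro e he f hf hef
    obtain ⟨a, b, c, habc⟩ := key e he
    have := (habc e he).2 rfl
    rw [hef] at this
    exact ((habc f hf).1 this).symm
  have hcard := fin_bound ((toFinite M.E).toFinset.image P) (by
    intro s hs'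
    obtain ⟨e, he, rfl⟩ := Finset.mem_image.1 hs'
    rw [Finite.mem_toFinset] at he
    obtain ⟨a, b, c, habc⟩ := key e he
    refine ⟨a, b, c, fun t ht => ?_⟩
    obtain ⟨f, hf, rfl⟩ := Finset.mem_image.1 ht
    rw [Finite.mem_toFinset] at hf
    rw [habc f hf]
    exact ⟨fun hh => hh ▸ rfl, fun hh => hinj hf he hh⟩)
  rw [Finset.card_image_of_injOn (by rw [Finite.coe_toFinset]; exact hinj)] at hcard
  rw [(toFinite M.E).encard_eq_coe_toFinset_card]
  exact_mod_cast hcard

/-- the nine points of a triangle without its vertices in `PG(2,4)` -/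
def phi (e : Fin 9) : Fin 3 → F4 :=
  if e.1 < 3 then ![0, 1, el (e.1 + 1)] else if e.1 < 6 then ![1, 0, el (e.1 - 2)]
  else ![1, el (e.1 - 5), 0]

theorem d0 : ∀ e, phi e ≠ 0 := by decide +kernel

theorem d1 : ∀ e f, e ≠ f → ∀ c : F4, c • phi f ≠ phi e := by decide +kernel

theorem d2 : ∀ e : Fin 9, ∃ a b c : F4, ∀ f : Fin 9,
    (a * phi f 0 + b * phi f 1 + c * phi f 2 = 0 ↔ f = e) := by decide +kernel

theorem d3 : ∀ a b c : F4, (a = 0 ∧ b = 0 ∧ c = 0) ∨ ∃ p q : Fin 9, p ≠ q ∧ ∀ e : Fin 9,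
    a * phi e 0 + b * phi e 1 + c * phi e 2 = 0 → ∀ s t : F4, s • phi p + t • phi q ≠ phi e := by
  decide +kernel

theorem d4 : ∀ a b c : F4, ∃ x y z : F4, x • phi 0 + y • phi 1 + z • phi 3 = ![a, b, c] := by
  decide +kernel

/-- `AG(2,3)` -/
noncomputable def A : Matroid (Fin 9) := vec F4 phi

theorem rep : Rep F4 A phi := rep_vec phi

theorem simple : IsSimple A := simple_of rep (fun e _ => d0 e) fun e _ f _ => d1 e f

theorem rank : A.eRk A.E = 3 := by
  rw [rep.eRk subset_rfl (toFinite _)]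
  have : span F4 (phi '' A.E) = ⊤ := by
    rw [eq_top_iff]
    intro v _
    obtain ⟨x, y, z, hh⟩ := d4 (v 0) (v 1) (v 2)
    have hv : v = ![v 0, v 1, v 2] := by
      funext i
      fin_cases i <;> rfl
    rw [hv, ← hh]
    have hm : ∀ e, phi e ∈ span F4 (phi '' A.E) := fun e => subset_span ⟨e, trivial, rfl⟩
    exact add_mem (add_mem (smul_mem _ _ (hm _)) (smul_mem _ _ (hm _))) (smul_mem _ _ (hm _))
  rw [this, finrank_top, Module.finrank_fin_fun]
  rfl

theorem not_ss : ¬ Supersolvable A := by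
  rintro ⟨X, hX, -⟩
  obtain ⟨h1, h2⟩ := hX 2 (by rw [rank]; norm_num)
  obtain ⟨L, hL0, hL⟩ := modularHyperplane_elim rep simple (H := X 2)
    ⟨h1, by rw [h2, rank]; norm_num⟩
  obtain ⟨l, rfl⟩ := exists_dotL L
  rcases d3 (l 0) (l 1) (l 2) with ⟨a, b, c⟩ | ⟨p, q, hpq, hh⟩
  · apply hL0
    refine LinearMap.ext fun v => ?_
    simp [dotL_apply, Fin.sum_univ_three, a, b, c]
  · obtain ⟨e, -, he, s, t, hst⟩ := hL p trivial q trivial hpq
    rw [dotL_apply, Fin.sum_univ_three] at he
    exact hh e he s t hst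

theorem proper_crit (N : Matroid (Fin 9)) (hN : N <m A) (hs : IsSimple N) :
    CritLE (Fintype.card F4) 1 N := by
  refine critLE_of_tangents' rep simple 1 (tangents_of_small rep simple fun I _ hne hI => ?_) hN
    fun e he => by simpa using hs e he e he
  have h1 := (Set.ncard_pos (toFinite I)).2 hne
  rw [Module.finrank_fin_fun] at hI
  obtain ⟨e, rfl⟩ := Set.ncard_eq_one.1 (by omega : I.ncard = 1)
  obtain ⟨a, b, c, h⟩ := d2 e
  refine ⟨dotL ![a, b, c], ?_, fun f _ hf => ?_⟩
  · rintro f rfl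
    rw [dotL_apply, Fin.sum_univ_three]
    exact (h f).2 rfl
  · rw [dotL_apply, Fin.sum_univ_three] at hf
    exact subset_span ⟨f, (h f).1 hf, rfl⟩

end Pool.Agent.H1.Tb4
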