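import Mathlib

set_option autoImplicit false

namespace Pool.Agent.H1.TwoSq

open Finset Filter Topology

theorem exists_prime_three {n : ℕ} (h : n % 4 = 3) : ∃ r, r.Prime ∧ r % 4 = 3 ∧ r ∣ n := by
  by_contra hc
  push Not at hc
  obtain ⟨x, y, hxy⟩ : ∃ x y, n = x ^ 2 + y ^ 2 := by
    rw [Nat.eq_sq_add_sq_iff]
    intro q hq h3
    exact absurd (Nat.dvd_of_mem_primeFactors hq) (hc q (Nat.prime_of_mem_primeFactors hq) h3)
  have hx : x ^ 2 % 4 = 0 ∨ x ^ 2 % 4 = 1 := by
    rw [Nat.pow_mod]; have : x % 4 < 4 := Nat.mod_lt _ (by norm_num)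
    interval_cases x % 4 <;> simp
  have hy : y ^ 2 % 4 = 0 ∨ y ^ 2 % 4 = 1 := by
    rw [Nat.pow_mod]; have : y % 4 < 4 := Nat.mod_lt _ (by norm_num)
    interval_cases y % 4 <;> simp
  omega

theorem pi_small (A : ℕ) (hA : 0 < A) : ∃ J : ℕ, 0 < J ∧ 2 * (Nat.primeCounting (A * J) : ℝ) < J := by
  have h1 := Chebyshev.eventually_primeCounting_le (ε := 1) one_pos
  have h2 : ∀ᶠ x : ℝ in atTop, 2 * (Real.log 4 + 1) * A < Real.log x :=
    Real.tendsto_log_atTop.eventually (eventually_gt_atTop _)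
  have h3 : Tendsto (fun J : ℕ => ((A * J : ℕ) : ℝ)) atTop atTop :=
    tendsto_natCast_atTop_atTop.comp (tendsto_id.const_mul_atTop' hA)
  obtain ⟨J, ⟨h4, h5⟩, h6⟩ := ((h3.eventually (h1.and h2)).and (eventually_gt_atTop 0)).exists
  refine ⟨J, h6, ?_⟩
  rw [Nat.floor_natCast] at h4
  have h7 : 0 < Real.log 4 + 1 := by have := Real.log_pos (show (1 : ℝ) < 4 by norm_num); linarith
  have hA' : (0 : ℝ) < A := by exact_mod_cast hA
  have hJ : (0 : ℝ) < J := by exact_mod_cast h6
  have h8 : 0 < Real.log ((A * J : ℕ) : ℝ) := lt_trans (by positivity) h5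
  rw [le_div_iff₀ h8] at h4
  generalize Real.log ((A * J : ℕ) : ℝ) = l at *
  push_cast at h4
  have : 2 * (Nat.primeCounting (A * J) : ℝ) * l < J * l := by nlinarith
  exact lt_of_mul_lt_mul_right this h8.le

theorem diverge (B : ℝ) : ∃ P : Finset ℕ, (∀ r ∈ P, r.Prime ∧ r % 4 = 3) ∧
    B ≤ ∑ r ∈ P, (1 : ℝ) / r := by
  classical
  by_contra hc
  push Not at hc
  let f : ℕ → ℝ := fun r => if r.Prime ∧ r % 4 = 3 then 1 / r else 0
  have hf : Summable f := by
    refine summable_of_sum_le (c := B) (fun r => ?_) fun u => ?_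
    · simp only [f]; split_ifs <;> positivity
    · rw [← sum_filter]
      exact (hc _ fun r hr => (mem_filter.1 hr).2).le
  obtain ⟨s, hs⟩ := hf.vanishing (e := Set.Iio (1 / 2)) (Iio_mem_nhds (by norm_num))
  set M := (s.sup id).factorial with hM
  have hM0 : 0 < M := Nat.factorial_pos _
  obtain ⟨J, hJ, hpi⟩ := pi_small (4 * M) (by omega)
  let Q := (Nat.primesLE (4 * M * J)).filter fun r => r % 4 = 3 ∧ r ∉ s
  have hQ : ∑ r ∈ Q, (1 : ℝ) / r < 1 / 2 := by
    have := hs Q (disjoint_left.2 fun r hr => (mem_filter.1 hr).2.2)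
    rw [Set.mem_Iio] at this
    refine lt_of_eq_of_lt (sum_congr rfl fun r hr => ?_) this
    have := mem_filter.1 hr
    simp only [f]
    rw [if_pos ⟨Nat.prime_of_mem_primesLE this.1, this.2.1⟩]
  have hcov : range J ⊆ Q.biUnion fun r => (range J).filter fun j => r ∣ 4 * M * (j + 1) - 1 := by
    intro j hj
    have hpos : 0 < M * (j + 1) := by positivity
    obtain ⟨r, hr, h3, hd⟩ := exists_prime_three (n := 4 * M * (j + 1) - 1) (by
      rw [mul_assoc]; omega)
    refine mem_biUnion.2 ⟨r, mem_filter.2 ⟨?_, h3, fun hs => ?_⟩, mem_filter.2 ⟨hj, hd⟩⟩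
    · rw [Nat.mem_primesLE]
      refine ⟨?_, hr⟩
      have h1 := Nat.le_of_dvd (by rw [mul_assoc]; omega) hd
      have h2 : 4 * M * (j + 1) ≤ 4 * M * J := Nat.mul_le_mul_left _ (mem_range.1 hj)
      omega
    · have h1 : r ∣ M := Nat.dvd_factorial hr.pos (le_sup (f := id) hs)
      have h2 : r ∣ 4 * M * (j + 1) := (h1.mul_left 4).mul_right _
      have h3 := (Nat.dvd_sub h2 hd)
      rw [Nat.sub_sub_self (by rw [mul_assoc]; omega)] at h3
      exact hr.one_lt.ne' (Nat.dvd_one.1 h3)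
  have hcard : ∀ r ∈ Q, ((((range J).filter fun j => r ∣ 4 * M * (j + 1) - 1).card : ℕ) : ℝ) ≤
      J * (1 / r) + 1 := by
    intro r hr
    have hr := Nat.prime_of_mem_primesLE (mem_filter.1 hr).1
    have h1 : ((range J).filter fun j => r ∣ 4 * M * (j + 1) - 1).card ≤ (range (J / r + 1)).card := by
      refine card_le_card_of_injOn (· / r) (fun j hj => ?_) ?_
      · have := mem_range.1 (mem_filter.1 hj).1
        exact mem_range.2 (Nat.lt_succ_of_le (Nat.div_le_div_right this.le))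
      · have key : ∀ i j : ℕ, i ≤ j → r ∣ 4 * M * (i + 1) - 1 → r ∣ 4 * M * (j + 1) - 1 →
            i / r = j / r → i = j := by
          intro i j hij hi hj h
          obtain ⟨d, rfl⟩ := Nat.exists_eq_add_of_le hij
          have hpos : 0 < M * (i + 1) := by positivity
          have e : 4 * M * (i + d + 1) - 1 = (4 * M * (i + 1) - 1) + 4 * M * d := by
            have : 4 * M * (i + d + 1) = 4 * (M * (i + 1)) + 4 * M * d := by ring
            rw [this, mul_assoc 4 M (i + 1)]; omega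
          rw [e] at hj
          have h2 := (Nat.dvd_add_right hi).1 hj
          rcases (Nat.Prime.dvd_mul hr).1 h2 with h3 | h3
          · have h4 := Nat.dvd_sub (h3.mul_right (i + 1)) hi
            rw [Nat.sub_sub_self (by rw [mul_assoc]; omega)] at h4
            exact absurd (Nat.dvd_one.1 h4) hr.one_lt.ne'
          · obtain ⟨c, rfl⟩ := h3
            rw [Nat.add_mul_div_left _ _ hr.pos] at h
            have : c = 0 := by omega
            simp [this]
        intro i hi j hj h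
        have hi := (mem_filter.1 hi).2
        have hj := (mem_filter.1 hj).2
        rcases le_total i j with h' | h'
        · exact key i j h' hi hj h
        · exact (key j i h' hj hi h.symm).symm
    rw [card_range] at h1
    have h2 : ((J / r : ℕ) : ℝ) ≤ J / r := Nat.cast_div_le
    have h3 : ((((range J).filter fun j => r ∣ 4 * M * (j + 1) - 1).card : ℕ) : ℝ) ≤
        (J / r : ℕ) + 1 := by exact_mod_cast h1
    rw [mul_one_div]; linarith
  have h1 := (card_le_card hcov).trans card_biUnion_le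
  rw [card_range] at h1
  have h2 : (J : ℝ) ≤ ∑ r ∈ Q, (J * (1 / (r : ℝ)) + 1) := by
    refine le_trans ?_ (sum_le_sum hcard)
    exact_mod_cast h1
  rw [sum_add_distrib, ← mul_sum, sum_const, nsmul_eq_mul, mul_one] at h2
  have h3 : Q.card ≤ Nat.primeCounting (4 * M * J) := by
    rw [← Nat.primesLE_card_eq_primeCounting]
    exact card_filter_le _ _
  have h4 : (Q.card : ℝ) ≤ Nat.primeCounting (4 * M * J) := by exact_mod_cast h3
  have hJ' : (0 : ℝ) < J := by exact_mod_cast hJ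
  nlinarith

/-- number of residues mod `M` that are sums of two squares -/
noncomputable def g (M : ℕ) : ℕ := Nat.card {x : ZMod M // ∃ a b, x = a ^ 2 + b ^ 2}

theorem g_mul {m n : ℕ} [NeZero m] [NeZero n] (h : m.Coprime n) : g (m * n) ≤ g m * g n := by
  unfold g
  rw [← Nat.card_prod]
  let e := ZMod.chineseRemainder h
  refine Nat.card_le_card_of_injective (fun x => (⟨(e x.1).1, ?_⟩, ⟨(e x.1).2, ?_⟩)) ?_
  · obtain ⟨a, b, hx⟩ := x.2
    exact ⟨(e a).1, (e b).1, by rw [hx]; simp⟩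
  · obtain ⟨a, b, hx⟩ := x.2
    exact ⟨(e a).2, (e b).2, by rw [hx]; simp⟩
  · intro x y hxy
    simp only [Prod.mk.injEq, Subtype.mk.injEq] at hxy
    exact Subtype.ext (e.injective (Prod.ext hxy.1 hxy.2))

theorem g_sq {r : ℕ} (hr : r.Prime) (h3 : r % 4 = 3) : g (r * r) + r ≤ r * r + 1 := by
  classical
  have : Fact r.Prime := ⟨hr⟩
  have : NeZero (r * r) := ⟨by have := hr.pos; positivity⟩
  let T : Finset (ZMod (r * r)) := univ.filter fun x => ∃ a b, x = a ^ 2 + b ^ 2
  have hg : g (r * r) = T.card := by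
    unfold g
    rw [Nat.card_eq_fintype_card, Fintype.card_subtype]
  let U : Finset (ZMod (r * r)) := (Ico 1 r).image fun i : ℕ => ((r * i : ℕ) : ZMod (r * r))
  have hU : U.card = r - 1 := by
    rw [card_image_of_injOn, Nat.card_Ico]
    intro i hi j hj h
    have hi := (mem_Ico.1 hi).2
    have hj := (mem_Ico.1 hj).2
    have := (ZMod.natCast_eq_natCast_iff' _ _ _).1 h
    rw [Nat.mod_eq_of_lt (Nat.mul_lt_mul_of_pos_left hi hr.pos),
      Nat.mod_eq_of_lt (Nat.mul_lt_mul_of_pos_left hj hr.pos)] at this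
    exact Nat.eq_of_mul_eq_mul_left hr.pos this
  have hd : Disjoint T U := by
    rw [disjoint_left]
    intro x hx hu
    obtain ⟨a, b, hx⟩ := (mem_filter.1 hx).2
    obtain ⟨i, hi, rfl⟩ := mem_image.1 hu
    obtain ⟨a, rfl⟩ := ZMod.natCast_zmod_surjective a
    obtain ⟨b, rfl⟩ := ZMod.natCast_zmod_surjective b
    have h1 : r * i ≡ a ^ 2 + b ^ 2 [MOD r * r] := by
      rw [← ZMod.natCast_eq_natCast_iff]; push_cast at hx ⊢; exact hx
    have h2 : ((a : ZMod r)) ^ 2 = -(b : ZMod r) ^ 2 := by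
      have := (ZMod.natCast_eq_natCast_iff _ _ _).2 (h1.of_mul_left r)
      push_cast at this
      rw [ZMod.natCast_self, zero_mul] at this
      linear_combination -this
    have ha : r ∣ a := by
      by_contra h
      exact ZMod.mod_four_ne_three_of_sq_eq_neg_sq (by rwa [Ne, ZMod.natCast_eq_zero_iff]) h2 h3
    have hb : r ∣ b := by
      by_contra h
      exact ZMod.mod_four_ne_three_of_sq_eq_neg_sq' (by rwa [Ne, ZMod.natCast_eq_zero_iff]) h2 h3
    obtain ⟨a, rfl⟩ := ha
    obtain ⟨b, rfl⟩ := hb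
    have h4 : r * r ∣ r * i := (h1.dvd_iff dvd_rfl).2 ⟨a ^ 2 + b ^ 2, by ring⟩
    have h5 := Nat.le_of_dvd (mem_Ico.1 hi).1 (Nat.dvd_of_mul_dvd_mul_left hr.pos h4)
    exact absurd (mem_Ico.1 hi).2 (not_lt.2 h5)
  have := card_le_univ (T ∪ U)
  rw [card_union_of_disjoint hd, ZMod.card, hU] at this
  have := hr.pos
  omega

theorem g_prod (P : Finset ℕ) (hP : ∀ r ∈ P, r.Prime ∧ r % 4 = 3) :
    (g (∏ r ∈ P, r * r) : ℝ) * (1 + ∑ r ∈ P, (1 : ℝ) / r / 2) ≤ (∏ r ∈ P, r * r : ℕ) := by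
  classical
  induction P using Finset.induction_on with
  | empty =>
    have : g 1 ≤ 1 := by
      unfold g
      exact (Finite.card_subtype_le _).trans (by simp)
    simpa using this
  | insert r P hr ih =>
    have ih := ih fun s hs => hP s (mem_insert_of_mem hs)
    obtain ⟨hp, h3⟩ := hP r (mem_insert_self _ _)
    rw [prod_insert hr, sum_insert hr]
    have hM : 0 < ∏ r ∈ P, r * r :=
      prod_pos fun s hs => by have := (hP s (mem_insert_of_mem hs)).1.pos; positivity
    have hcop : (r * r).Coprime (∏ r ∈ P, r * r) := by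
      refine Nat.Coprime.prod_right fun s hs => ?_
      have : r.Coprime s := (Nat.coprime_primes hp (hP s (mem_insert_of_mem hs)).1).2
        fun h => hr (h ▸ hs)
      exact Nat.Coprime.mul_left (this.mul_right this) (this.mul_right this)
    have : NeZero (r * r) := ⟨by have := hp.pos; positivity⟩
    have : NeZero (∏ r ∈ P, r * r) := ⟨hM.ne'⟩
    have h1 : (g (r * r * ∏ r ∈ P, r * r) : ℝ) ≤ g (r * r) * g (∏ r ∈ P, r * r) := by
      exact_mod_cast g_mul hcop
    have h2 : (g (r * r) : ℝ) + r ≤ r * r + 1 := by exact_mod_cast g_sq hp h3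
    have h4 : (2 : ℝ) ≤ r := by exact_mod_cast hp.two_le
    have hs : 0 ≤ ∑ r ∈ P, (1 : ℝ) / r / 2 := sum_nonneg fun _ _ => by positivity
    rw [Nat.cast_mul, Nat.cast_mul]
    generalize ∑ r ∈ P, (1 : ℝ) / r / 2 = s at *
    have h5 : (g (r * r) : ℝ) * (1 + (1 / r / 2 + s)) ≤ r * r * (1 + s) := by
      have e : (r : ℝ) * r * (1 / r / 2) = r / 2 := by field_simp
      have h6 : (g (r * r) : ℝ) ≤ r * r - r / 2 := by linarith
      have h7 : (0 : ℝ) ≤ 1 / r / 2 := by positivity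
      calc _ ≤ ((r : ℝ) * r - r / 2) * (1 + (1 / r / 2 + s)) := by gcongr
        _ = r * r * (1 + s) + (r * r * (1 / r / 2) - r / 2) - r / 2 * (1 / r / 2 + s) := by ring
        _ ≤ _ := by
          rw [e]
          have : 0 ≤ (r : ℝ) / 2 * (1 / r / 2 + s) := by positivity
          linarith
    calc _ ≤ (g (r * r) * g (∏ r ∈ P, r * r) : ℝ) * (1 + (1 / r / 2 + s)) := by gcongr
      _ = g (∏ r ∈ P, r * r) * ((g (r * r) : ℝ) * (1 + (1 / r / 2 + s))) := by ring
      _ ≤ g (∏ r ∈ P, r * r) * (r * r * (1 + s) : ℝ) := by gcongr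
      _ = r * r * (g (∏ r ∈ P, r * r) * (1 + s) : ℝ) := by ring
      _ ≤ _ := by gcongr

theorem g_small {ε : ℝ} (hε : 0 < ε) : ∃ M : ℕ, 0 < M ∧ (g M : ℝ) ≤ ε * M := by
  obtain ⟨P, hP, h⟩ := diverge (2 / ε)
  have h1 := g_prod P hP
  refine ⟨∏ r ∈ P, r * r, prod_pos fun s hs => by have := (hP s hs).1.pos; positivity, ?_⟩
  rw [← sum_div] at h1
  have h2 : 1 ≤ ε * ((∑ r ∈ P, (1 : ℝ) / r) / 2) := by
    rw [div_le_iff₀ hε] at h; linarith
  have h3 : (0 : ℝ) ≤ g (∏ r ∈ P, r * r) := by positivity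
  nlinarith [mul_le_mul_of_nonneg_left h1 hε.le, mul_le_mul_of_nonneg_left h2 h3]

open Classical in
theorem count (M X : ℕ) (hM : 0 < M) :
    ((range X).filter fun n => ∃ a b : ℕ, n = a ^ 2 + b ^ 2).card ≤ (X / M + 1) * g M := by
  have : NeZero M := ⟨hM.ne'⟩
  let T : Finset (ZMod M) := univ.filter fun x => ∃ a b, x = a ^ 2 + b ^ 2
  have hg : g M = T.card := by
    unfold g
    rw [Nat.card_eq_fintype_card, Fintype.card_subtype]
  rw [hg, ← card_range (X / M + 1), ← card_product]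
  refine card_le_card_of_injOn (fun n => (n / M, (n : ZMod M))) (fun n hn => ?_) ?_
  · obtain ⟨h1, a, b, h2⟩ := mem_filter.1 hn
    refine mem_product.2 ⟨mem_range.2 (Nat.lt_succ_of_le (Nat.div_le_div_right (mem_range.1 h1).le)),
      mem_filter.2 ⟨mem_univ _, a, b, by rw [h2]; push_cast; rfl⟩⟩
  · intro i _ j _ h
    simp only [Prod.mk.injEq] at h
    have := (ZMod.natCast_eq_natCast_iff' _ _ _).1 h.2
    rw [← Nat.div_add_mod i M, ← Nat.div_add_mod j M, h.1, this]

end Pool.Agent.H1.TwoSq
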