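import Mathlib

namespace Pool.Agent.H1.Ty

set_option linter.unusedSectionVars false

open Finset Classical

variable {ι : Type} [Fintype ι] [LinearOrder ι]

def val (g : ι → ℕ) (a : ι → ℕ) : ℕ := ∑ i, a i * g i

theorem val_add (g a b : ι → ℕ) : val g (a + b) = val g a + val g b := by
  simp [val, add_mul, sum_add_distrib]

def key (g : ι → ℕ) (a : ι → ℕ) : ℕ ×ₗ Lex (ι → ℕ) := toLex (val g a, toLex a)

theorem key_lt (g a b : ι → ℕ) :
    key g a < key g b ↔ val g a < val g b ∨ (val g a = val g b ∧ toLex a < toLex b) := by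
  simp [key, Prod.Lex.toLex_lt_toLex]

theorem key_inj (g : ι → ℕ) {a b : ι → ℕ} (h : key g a = key g b) : a = b := by
  simp only [key, toLex_inj, Prod.mk.injEq] at h
  exact h.2

theorem key_add (g a b c : ι → ℕ) : key g (a + c) < key g (b + c) ↔ key g a < key g b := by
  rw [key_lt, key_lt, val_add, val_add, toLex_add, toLex_add, add_lt_add_iff_right,
    add_lt_add_iff_right, Nat.add_right_cancel_iff]

def Std (g : ι → ℕ) (m : ℕ) (a : ι → ℕ) : Prop :=
  ∀ b, val g b % m = val g a % m → key g a ≤ key g b

variable {g : ι → ℕ} {m : ℕ}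

theorem exists_std (g : ι → ℕ) (m : ℕ) (a : ι → ℕ) :
    ∃ z, Std g m z ∧ val g z % m = val g a % m := by
  obtain ⟨_, ⟨z, hz, rfl⟩, h⟩ := (wellFounded_lt (α := ℕ ×ₗ Lex (ι → ℕ))).has_min
    (key g '' {b | val g b % m = val g a % m}) ⟨_, a, rfl, rfl⟩
  exact ⟨z, fun b hb => not_lt.1 (h _ ⟨b, hb.trans hz, rfl⟩), hz⟩

theorem Std.eq {a b : ι → ℕ} (ha : Std g m a) (hb : Std g m b) (h : val g a % m = val g b % m) :
    a = b := key_inj g (le_antisymm (ha b h.symm) (hb a h))

theorem Std.of_add {a c : ι → ℕ} (h : Std g m (a + c)) : Std g m a := by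
  intro b hb
  have := h (b + c) (by rw [val_add, val_add, Nat.add_mod, hb, ← Nat.add_mod])
  by_contra h'
  exact absurd ((key_add g b a c).2 (not_le.1 h')) (not_lt.2 this)

theorem Std.of_le {a b : ι → ℕ} (h : Std g m b) (hab : a ≤ b) : Std g m a := by
  have : b = a + (b - a) := by
    funext i
    have : a i ≤ b i := hab i
    simp only [Pi.add_apply, Pi.sub_apply]
    omega
  rw [this] at h
  exact h.of_add

theorem mod_cancel {x y c : ℕ} (h : (x + c) % m = (y + c) % m) : x % m = y % m :=
  Nat.ModEq.add_right_cancel' c h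

theorem full_zero {u : ι → ℕ} (hu : ¬ Std g m u) (hmin : ∀ v, v < u → Std g m v)
    (hfull : ∀ k, 1 ≤ u k) : val g u % m = 0 % m := by
  obtain ⟨z, hz, hz'⟩ := exists_std g m u
  by_cases h0 : z = 0
  · rw [← hz', h0]; simp [val]
  · exfalso
    obtain ⟨k, hk⟩ := Function.ne_iff.1 h0
    simp only [Pi.zero_apply] at hk
    have e1 : u = (u - Pi.single k 1) + Pi.single k 1 := by
      funext i
      have := hfull i
      by_cases h : i = k
      · subst h; simp; omega
      · simp [h]
    have e2 : z = (z - Pi.single k 1) + Pi.single k 1 := by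
      funext i
      by_cases h : i = k
      · subst h; simp; omega
      · simp [h]
    have h1 : Std g m (u - Pi.single k 1) := by
      apply hmin
      rw [Pi.lt_def]
      refine ⟨fun i => by simp, k, ?_⟩
      have := hfull k
      simp; omega
    have h2 : Std g m (z - Pi.single k 1) := by
      rw [e2] at hz; exact hz.of_add
    have h3 := h1.eq h2 (by
      rw [e1, e2, val_add, val_add] at hz'
      exact (mod_cancel hz').symm)
    rw [e1, h3, ← e2] at hu
    exact hu hz

theorem exists_pair (h2 : 2 ≤ Fintype.card ι) {y : ι → ℕ} (hy : Std g m y)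
    (hmax : ∀ i, ¬ Std g m (y + Pi.single i 1)) :
    ∃ i j, i ≠ j ∧ ¬ Std g m (Function.update y j 0 + Pi.single i 1) := by
  by_contra hcon
  push Not at hcon
  have key : ∀ i, ∃ u, u ≤ y + Pi.single i 1 ∧ u i = y i + 1 ∧ (∀ v, v < u → Std g m v) ∧
      (∀ k, 1 ≤ u k) ∧ val g u % m = 0 % m := by
    intro i
    obtain ⟨u, ⟨hu1, hu2⟩, hu3⟩ := (wellFounded_lt (α := ι → ℕ)).has_min
      {u | u ≤ y + Pi.single i 1 ∧ ¬ Std g m u} ⟨_, le_rfl, hmax i⟩
    have hmin : ∀ v, v < u → Std g m v := by
      intro v hv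
      by_contra h
      exact hu3 v ⟨hv.le.trans hu1, h⟩ hv
    have hi : u i = y i + 1 := by
      by_contra h
      apply hu2
      apply hy.of_le
      intro k
      have := hu1 k
      by_cases hk : k = i
      · subst hk
        simp only [Pi.add_apply, Pi.single_eq_same] at this
        show u k ≤ y k
        omega
      · simpa [hk] using this
    have hfull : ∀ k, 1 ≤ u k := by
      intro k
      by_contra h
      have hki : i ≠ k := by rintro rfl; omega
      apply hu2
      apply (hcon i k hki).of_le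
      intro l
      have := hu1 l
      by_cases hl : l = k
      · subst hl
        have : u l = 0 := by omega
        rw [this]; exact Nat.zero_le _
      · simpa [hl] using this
    exact ⟨u, hu1, hi, hmin, hfull, full_zero hu2 hmin hfull⟩
  obtain ⟨i, j, hij⟩ := Fintype.exists_pair_of_one_lt_card (α := ι) (by omega)
  obtain ⟨u, a1, a2, a3, a4, a5⟩ := key i
  obtain ⟨v, b1, b2, b3, b4, b5⟩ := key j
  have e1 : ∀ w : ι → ℕ, (∀ k, 1 ≤ w k) → w = (w - Pi.single i 1) + Pi.single i 1 := by
    intro w hw
    funext l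
    have := hw l
    by_cases h : l = i
    · subst h; simp; omega
    · simp [h]
  have e2 : ∀ w : ι → ℕ, (∀ k, 1 ≤ w k) → w - Pi.single i 1 < w := by
    intro w hw
    rw [Pi.lt_def]
    refine ⟨fun i => by simp, i, ?_⟩
    have := hw i
    simp; omega
  have h3 := (a3 _ (e2 u a4)).eq (b3 _ (e2 v b4)) (by
    have := a5.trans b5.symm
    rw [e1 u a4, e1 v b4, val_add, val_add] at this
    exact mod_cancel this)
  have h4 : u = v := by rw [e1 u a4, h3, ← e1 v b4]
  have := b1 i
  rw [← h4, a2] at this
  simp [hij] at this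

theorem max_eq {y y' : ι → ℕ} (hy : Std g m y) (hy' : Std g m y')
    (hmax : ∀ i, ¬ Std g m (y + Pi.single i 1)) (hmax' : ∀ i, ¬ Std g m (y' + Pi.single i 1))
    (k : ι) (h : ∀ l, l ≠ k → y l = y' l) : y = y' := by
  funext l
  by_cases hl : l = k
  · subst hl
    rcases lt_trichotomy (y l) (y' l) with h1 | h1 | h1
    · exfalso
      apply hmax l
      apply hy'.of_le
      intro t
      by_cases ht : t = l
      · subst ht; simp; omega
      · simp [ht, h t ht]
    · exact h1
    · exfalso
      apply hmax' l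
      apply hy.of_le
      intro t
      by_cases ht : t = l
      · subst ht; simp; omega
      · simp [ht, h t ht]
  · exact h l hl

theorem big_bound (hm : 0 < m) (M : Finset (ι → ℕ))
    (hM : ∀ y ∈ M, Std g m y ∧ ∀ i, ¬ Std g m (y + Pi.single i 1)) (B : ℕ) (k : ι) :
    #(M.filter (fun y => B ≤ y k)) * B ≤ m := by
  suffices H : #(M.filter (fun y => B ≤ y k) ×ˢ range B) ≤ #(range m) by
    simpa using H
  have hs : ∀ p ∈ M.filter (fun y => B ≤ y k) ×ˢ range B, Std g m (Function.update p.1 k p.2) := by
    intro p hp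
    simp only [mem_product, mem_filter, mem_range] at hp
    apply (hM _ hp.1.1).1.of_le
    intro t
    by_cases ht : t = k
    · subst ht; simp; omega
    · simp [ht]
  apply card_le_card_of_injOn (fun p => val g (Function.update p.1 k p.2) % m)
  · intro p _
    simp only [coe_range, Set.mem_Iio]
    exact Nat.mod_lt _ hm
  · intro p hp q hq h
    have h1 := (hs p hp).eq (hs q hq) h
    simp only [coe_product, coe_filter, Set.mem_prod, Set.mem_ofPred_eq] at hp hq
    have h2 : p.2 = q.2 := by simpa using congrFun h1 k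
    have h3 : p.1 = q.1 := max_eq (hM _ hp.1.1).1 (hM _ hq.1.1).1 (hM _ hp.1.1).2 (hM _ hq.1.1).2 k
      (fun l hl => by simpa [hl] using congrFun h1 l)
    exact Prod.ext h3 h2

theorem small_bound (M : Finset (ι → ℕ))
    (hM : ∀ y ∈ M, Std g m y ∧ ∀ i, ¬ Std g m (y + Pi.single i 1)) (B : ℕ) (i j : ι) (hij : i ≠ j) :
    #(M.filter (fun y => (∀ k, y k < B) ∧ ¬ Std g m (Function.update y j 0 + Pi.single i 1))) ≤
      B ^ (Fintype.card ι - 2) := by
  have hc : #(Fintype.piFinset (fun k : ι => if k ∈ ({i, j} : Finset ι) then ({0} : Finset ℕ)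
      else range B)) = B ^ (Fintype.card ι - 2) := by
    rw [Fintype.card_piFinset]
    simp only [apply_ite Finset.card, card_singleton, card_range]
    rw [prod_ite, prod_const_one, one_mul, prod_const, filter_not, card_sdiff_of_subset
      (filter_subset _ _), filter_mem_eq_inter, univ_inter, card_pair hij, card_univ]
  rw [← hc]
  apply card_le_card_of_injOn (fun y k => if k ∈ ({i, j} : Finset ι) then 0 else y k)
  · intro y hy
    simp only [coe_filter, Set.mem_ofPred_eq] at hy
    simp only [mem_coe, Fintype.mem_piFinset]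
    intro k
    split_ifs
    · simp
    · exact mem_range.2 (hy.2.1 k)
  · intro y hy y' hy' h
    simp only [coe_filter, Set.mem_ofPred_eq] at hy hy'
    have h1 : ∀ l, l ≠ i → l ≠ j → y l = y' l := by
      intro l a b
      simpa [a, b] using congrFun h l
    apply max_eq (hM _ hy.1).1 (hM _ hy'.1).1 (hM _ hy.1).2 (hM _ hy'.1).2 j
    intro l hl
    by_cases hli : l = i
    · subst hli
      rcases lt_trichotomy (y l) (y' l) with h2 | h2 | h2
      · exfalso
        apply hy.2.2
        apply (hM _ hy'.1).1.of_le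
        intro t
        by_cases ht : t = l
        · subst ht; simp [hl]; omega
        · by_cases ht' : t = j
          · subst ht'; simp [ht]
          · simp [ht, ht', h1 t ht ht']
      · exact h2
      · exfalso
        apply hy'.2.2
        apply (hM _ hy.1).1.of_le
        intro t
        by_cases ht : t = l
        · subst ht; simp [hl]; omega
        · by_cases ht' : t = j
          · subst ht'; simp [ht]
          · simp [ht, ht', h1 t ht ht']
    · exact h1 l hli hl

theorem total_bound (hm : 0 < m) (h2 : 2 ≤ Fintype.card ι) (M : Finset (ι → ℕ))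
    (hM : ∀ y ∈ M, Std g m y ∧ ∀ i, ¬ Std g m (y + Pi.single i 1)) (B : ℕ) :
    #M * B ≤ Fintype.card ι * m + Fintype.card ι ^ 2 * B ^ (Fintype.card ι - 2) * B := by
  have hsub : M ⊆ (univ.biUnion (fun k => M.filter (fun y => B ≤ y k))) ∪
      (univ.offDiag.biUnion (fun p : ι × ι => M.filter (fun y => (∀ k, y k < B) ∧
        ¬ Std g m (Function.update y p.2 0 + Pi.single p.1 1)))) := by
    intro y hy
    simp only [mem_union, mem_biUnion, mem_univ, true_and, mem_filter, mem_offDiag]
    by_cases h : ∀ k, y k < B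
    · obtain ⟨i, j, hij, h'⟩ := exists_pair h2 (hM y hy).1 (hM y hy).2
      exact Or.inr ⟨(i, j), hij, hy, h, h'⟩
    · push Not at h
      obtain ⟨k, hk⟩ := h
      exact Or.inl ⟨k, hy, hk⟩
  have h1 := (card_le_card hsub).trans ((card_union_le _ _).trans
    (Nat.add_le_add card_biUnion_le card_biUnion_le))
  have h3 : (∑ k : ι, #(M.filter (fun y => B ≤ y k))) * B ≤ Fintype.card ι * m := by
    rw [sum_mul, ← card_univ, ← smul_eq_mul, ← sum_const]
    exact sum_le_sum (fun k _ => big_bound hm M hM B k)
  have h4 : ∑ p ∈ (univ : Finset ι).offDiag, #(M.filter (fun y => (∀ k, y k < B) ∧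
        ¬ Std g m (Function.update y p.2 0 + Pi.single p.1 1))) ≤
      Fintype.card ι ^ 2 * B ^ (Fintype.card ι - 2) := by
    calc _ ≤ ∑ _p ∈ (univ : Finset ι).offDiag, B ^ (Fintype.card ι - 2) :=
          sum_le_sum (fun p hp => small_bound M hM B p.1 p.2 (mem_offDiag.1 hp).2.2)
      _ ≤ _ := by
          rw [sum_const, smul_eq_mul, offDiag_card, card_univ, sq]
          exact Nat.mul_le_mul_right _ (Nat.sub_le _ _)
  calc #M * B ≤ _ := Nat.mul_le_mul_right B (h1.trans (Nat.add_le_add_left h4 _))
    _ ≤ _ := by rw [add_mul]; exact Nat.add_le_add_right h3 _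

end Pool.Agent.H1.Ty
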