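import Pool.Agent.H1.TyA

namespace Pool.Agent.H1.Ty

open Finset Classical

theorem numeric (d : ℕ) : ∃ M : ℕ, ∀ m r t : ℕ, M ≤ m → m < (d + 3 + r).choose r →
    (∀ B, t * B ≤ (d + 3) * m + (d + 3) ^ 2 * B ^ (d + 1) * B) →
    t < (d + 3 + r - 2).choose (r - 1) := by
  set R := 2 * (d + 3) ^ 2 * 8 ^ (d + 1) * (d + 2).factorial + (d + 3) with hR
  refine ⟨(d + 3 + R).choose (d + 3), fun m r t h1 h2 h3 => ?_⟩
  have hr : R < r := by
    by_contra h
    have e : (d + 3 + r).choose r = (d + 3 + r).choose (d + 3) := Nat.choose_symm_add.symm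
    have := Nat.choose_le_choose (d + 3) (show d + 3 + r ≤ d + 3 + R by omega)
    omega
  obtain ⟨s, rfl⟩ : ∃ s, r = s + 1 := ⟨r - 1, by omega⟩
  have e0 : d + 3 + (s + 1) - 2 = s + (d + 2) := by omega
  rw [e0, Nat.add_sub_cancel]
  set C := (s + (d + 2)).choose s with hC
  have e1 : (s + (d + 2) + 1).choose s * (d + 3) = C * (s + (d + 2) + 1) := by
    have := Nat.choose_mul_succ_eq (s + (d + 2)) s
    rw [show s + (d + 2) + 1 - s = d + 3 by omega] at this
    exact this.symm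
  have e2 : (d + 3 + (s + 1)).choose (s + 1) * (s + 1) =
      (s + (d + 2) + 2) * (s + (d + 2) + 1).choose s := by
    have := Nat.add_one_mul_choose_eq (s + (d + 2) + 1) s
    rw [show d + 3 + (s + 1) = s + (d + 2) + 1 + 1 by omega]
    exact this.symm
  have e3 : (d + 3) * m ≤ 4 * (s + 1) * C := by
    have h4 : (d + 3) * m * (s + 1) ≤ 4 * (s + 1) * C * (s + 1) := by
      calc (d + 3) * m * (s + 1) ≤ (d + 3) * (d + 3 + (s + 1)).choose (s + 1) * (s + 1) := by
            gcongr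
        _ = (s + (d + 2) + 2) * ((s + (d + 2) + 1).choose s * (d + 3)) := by
            rw [mul_assoc, e2]; ring
        _ = (s + (d + 2) + 2) * (s + (d + 2) + 1) * C := by rw [e1]; ring
        _ ≤ (2 * (s + 1)) * (2 * (s + 1)) * C := by
            gcongr <;> omega
        _ = _ := by ring
    exact Nat.le_of_mul_le_mul_right h4 (by omega)
  have e4 : (s + 1) ^ (d + 2) ≤ (d + 2).factorial * C := by
    have := Nat.pow_succ_le_ascFactorial (s + 1) (d + 2)
    rw [Nat.ascFactorial_eq_factorial_mul_choose, Nat.choose_symm_add.symm] at this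
    exact this
  have e5 : 2 * ((d + 3) ^ 2 * (8 * (s + 1)) ^ (d + 1)) < C := by
    have h4 : (d + 2).factorial * (2 * ((d + 3) ^ 2 * (8 * (s + 1)) ^ (d + 1))) <
        (d + 2).factorial * C := by
      calc (d + 2).factorial * (2 * ((d + 3) ^ 2 * (8 * (s + 1)) ^ (d + 1)))
          = (2 * (d + 3) ^ 2 * 8 ^ (d + 1) * (d + 2).factorial) * (s + 1) ^ (d + 1) := by
            rw [mul_pow]; ring
        _ < (s + 1) * (s + 1) ^ (d + 1) :=
            Nat.mul_lt_mul_of_pos_right (by omega) (by positivity)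
        _ = (s + 1) ^ (d + 2) := by ring
        _ ≤ _ := e4
    exact Nat.lt_of_mul_lt_mul_left h4
  have e6 := h3 (8 * (s + 1))
  generalize (d + 3) ^ 2 * (8 * (s + 1)) ^ (d + 1) = X at *
  by_contra h
  have h' : C ≤ t := by omega
  nlinarith

theorem type_bound (S : AddSubmonoid ℕ) (m e : ℕ) (he : 2 ≤ e)
    (hm : m ∈ S ∧ m ≠ 0 ∧ ∀ x ∈ S, x ≠ 0 → m ≤ x)
    (hg : {x : ℕ | x ∈ S ∧ x ≠ 0 ∧ ¬ ∃ a ∈ S, ∃ b ∈ S, a ≠ 0 ∧ b ≠ 0 ∧ a + b = x}.ncard = e + 1)
    (hfin : (S : Set ℕ)ᶜ.Finite) (B : ℕ) :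
    {x : ℕ | x ∉ S ∧ ∀ s ∈ S, s ≠ 0 → x + s ∈ S}.ncard * B ≤ e * m + e ^ 2 * B ^ (e - 2) * B := by
  have hm0 : 0 < m := Nat.pos_of_ne_zero hm.2.1
  have hGf : {x : ℕ | x ∈ S ∧ x ≠ 0 ∧ ¬ ∃ a ∈ S, ∃ b ∈ S, a ≠ 0 ∧ b ≠ 0 ∧ a + b = x}.Finite :=
    Set.finite_of_ncard_ne_zero (by omega)
  have hmG : m ∈ hGf.toFinset := by
    simp only [Set.Finite.mem_toFinset, Set.mem_ofPred_eq]
    refine ⟨hm.1, hm.2.1, ?_⟩
    rintro ⟨a, ha, b, hb, h1, h2, h3⟩
    have := hm.2.2 a ha h1
    omega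
  set E := hGf.toFinset.erase m with hE
  have hcard : Fintype.card E = e := by
    rw [Fintype.card_coe, hE, card_erase_of_mem hmG, ← Set.ncard_eq_toFinset_card _ hGf, hg]
    rfl
  let g : E → ℕ := fun i => i.1
  have hgS : ∀ i, g i ∈ S ∧ g i ≠ 0 := by
    intro i
    have := mem_of_mem_erase i.2
    simp only [Set.Finite.mem_toFinset, Set.mem_ofPred_eq] at this
    exact ⟨this.1, this.2.1⟩
  have hval : ∀ a, val g a ∈ S := fun a =>
    sum_mem (fun i _ => by simpa using nsmul_mem (hgS i).1 (a i))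
  have hsingle : ∀ i, val g (Pi.single i 1) = g i := by
    intro i
    simp [val, Pi.single_apply]
  have hgen : ∀ s, s ∈ S → ∃ k a, s = m * k + val g a := by
    intro s
    induction s using Nat.strong_induction_on with
    | _ s ih =>
      intro hs
      by_cases h0 : s = 0
      · exact ⟨0, 0, by simp [h0, val]⟩
      by_cases h1 : ∃ a ∈ S, ∃ b ∈ S, a ≠ 0 ∧ b ≠ 0 ∧ a + b = s
      · obtain ⟨a, ha, b, hb, h2, h3, rfl⟩ := h1
        obtain ⟨k, u, hu⟩ := ih a (by omega) ha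
        obtain ⟨l, v, hv⟩ := ih b (by omega) hb
        exact ⟨k + l, u + v, by rw [val_add, hu, hv]; ring⟩
      · by_cases h2 : s = m
        · exact ⟨1, 0, by simp [h2, val]⟩
        · have : s ∈ E := mem_erase.2 ⟨h2, by
            simp only [Set.Finite.mem_toFinset, Set.mem_ofPred_eq]; exact ⟨hs, h0, h1⟩⟩
          exact ⟨0, Pi.single ⟨s, this⟩ 1, by rw [hsingle]; simp [g]⟩
  have hkm : ∀ k, m * k ∈ S := fun k => by simpa [mul_comm] using nsmul_mem hm.1 k
  have hPF : ∀ x, x ∉ S → (∀ s ∈ S, s ≠ 0 → x + s ∈ S) → ∃ y, val g y = x + m ∧ Std g m y ∧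
      ∀ i, ¬ Std g m (y + Pi.single i 1) := by
    intro x hx hx'
    obtain ⟨k, a, ha⟩ := hgen _ (hx' m hm.1 hm.2.1)
    have hk : k = 0 := by
      rcases k with _ | k
      · rfl
      · exfalso
        apply hx
        have : x = m * k + val g a := by rw [mul_add] at ha; omega
        rw [this]; exact add_mem (hkm k) (hval a)
    subst hk
    simp only [mul_zero, zero_add] at ha
    obtain ⟨y, hy, hy'⟩ := exists_std g m a
    have h1 : val g y ≤ val g a := by
      have := hy a hy'.symm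
      by_contra h
      exact absurd ((key_lt g a y).2 (Or.inl (by omega))) (not_lt.2 this)
    have h2 : val g y = x + m := by
      obtain ⟨l, hl⟩ := (Nat.modEq_iff_dvd' h1).1 hy'
      rcases l with _ | l
      · omega
      · exfalso
        apply hx
        have : x = m * l + val g y := by rw [mul_add] at hl; omega
        rw [this]; exact add_mem (hkm l) (hval y)
    refine ⟨y, h2, hy, fun i h => ?_⟩
    obtain ⟨k, b, hb⟩ := hgen _ (hx' (g i) (hgS i).1 (hgS i).2)
    have h3 : val g (y + Pi.single i 1) = val g b + m * (k + 1) := by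
      rw [val_add, hsingle, h2, mul_add]; omega
    have := h b (by rw [h3, Nat.add_mul_mod_self_left])
    have h4 : 0 < m * (k + 1) := by positivity
    exact absurd ((key_lt g b _).2 (Or.inl (by omega))) (not_lt.2 this)
  have hPf : {x : ℕ | x ∉ S ∧ ∀ s ∈ S, s ≠ 0 → x + s ∈ S}.Finite :=
    hfin.subset (fun x hx => hx.1)
  choose! f hf using hPF
  have h5 := total_bound (g := g) hm0 (by omega) (hPf.toFinset.image f) (by
    intro y hy
    obtain ⟨x, hx, rfl⟩ := mem_image.1 hy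
    simp only [Set.Finite.mem_toFinset, Set.mem_ofPred_eq] at hx
    exact (hf x hx.1 hx.2).2) B
  rw [card_image_of_injOn, hcard, ← Set.ncard_eq_toFinset_card _ hPf] at h5
  · exact h5
  · intro x hx x' hx' h
    simp only [Set.Finite.coe_toFinset, Set.mem_ofPred_eq] at hx hx'
    have h1 := (hf x hx.1 hx.2).1
    have h2 := (hf x' hx'.1 hx'.2).1
    rw [h] at h1
    omega

end Pool.Agent.H1.Ty
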