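import Pool.Agent.H1.TyB

set_option autoImplicit false

namespace Pool.Agent.H1.TyL

open Finset

/-- generators of the extremal family -/
def gens (m X b n : ℕ) : Finset ℕ :=
  insert m (insert (m + 1) (insert X ((range n).image (fun i => X + b ^ i))))

def SS (m X b n : ℕ) : AddSubmonoid ℕ := AddSubmonoid.closure (gens m X b n : Set ℕ)

variable {m X b n : ℕ}

theorem mem_gens {x : ℕ} : x ∈ gens m X b n ↔
    x = m ∨ x = m + 1 ∨ x = X ∨ ∃ i < n, X + b ^ i = x := by
  simp [gens]

theorem gen_mem {x : ℕ} (h : x ∈ gens m X b n) : x ∈ SS m X b n :=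
  AddSubmonoid.subset_closure (by exact_mod_cast h)

theorem m_mem : m ∈ SS m X b n := gen_mem (mem_gens.2 (Or.inl rfl))
theorem m1_mem : m + 1 ∈ SS m X b n := gen_mem (mem_gens.2 (Or.inr (Or.inl rfl)))
theorem X_mem : X ∈ SS m X b n := gen_mem (mem_gens.2 (Or.inr (Or.inr (Or.inl rfl))))
theorem Xi_mem {i : ℕ} (hi : i < n) : X + b ^ i ∈ SS m X b n :=
  gen_mem (mem_gens.2 (Or.inr (Or.inr (Or.inr ⟨i, hi, rfl⟩))))

theorem mul_mem' {S : AddSubmonoid ℕ} {x : ℕ} (k : ℕ) (h : x ∈ S) : k * x ∈ S := by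
  simpa using S.nsmul_mem h k

theorem two_mem {A c : ℕ} (h : c ≤ A) : A * m + c ∈ SS m X b n := by
  obtain ⟨d, rfl⟩ := Nat.exists_eq_add_of_le h
  have : (c + d) * m + c = d * m + c * (m + 1) := by ring
  rw [this]
  exact add_mem (mul_mem' _ m_mem) (mul_mem' _ m1_mem)

theorem form (hb : 1 ≤ b) {v : ℕ} (hv : v ∈ SS m X b n) :
    ∃ L c j σ : ℕ, c ≤ L ∧ σ ≤ j * b ^ (n - 1) ∧ v = L * m + c + j * X + σ := by
  induction hv using AddSubmonoid.closure_induction with
  | mem x hx =>
    rcases mem_gens.1 (by exact_mod_cast hx) with h | h | h | ⟨i, hi, h⟩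
    · exact ⟨1, 0, 0, 0, by omega, by omega, by omega⟩
    · exact ⟨1, 1, 0, 0, by omega, by omega, by omega⟩
    · exact ⟨0, 0, 1, 0, by omega, by omega, by omega⟩
    · refine ⟨0, 0, 1, b ^ i, le_rfl, ?_, by omega⟩
      rw [one_mul]
      exact Nat.pow_le_pow_right hb (by omega)
  | zero => exact ⟨0, 0, 0, 0, by omega, by omega, by omega⟩
  | add x y _ _ hx hy =>
    obtain ⟨L, c, j, σ, h1, h2, rfl⟩ := hx
    obtain ⟨L', c', j', σ', h1', h2', rfl⟩ := hy
    refine ⟨L + L', c + c', j + j', σ + σ', by omega, ?_, by ring⟩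
    rw [add_mul]; omega

theorem digits (hb : 1 ≤ b) : ∀ n' ≤ n, ∀ t < b ^ n', (n' * b) * X + t ∈ SS m X b n := by
  intro n'
  induction n' with
  | zero =>
    intro _ t ht
    have : t = 0 := by simpa using ht
    subst this
    simp
  | succ p ih =>
    intro hp t ht
    have hpos : 0 < b ^ p := by positivity
    have hq : t / b ^ p < b := by
      rw [Nat.div_lt_iff_lt_mul hpos, mul_comm, ← pow_succ]; exact ht
    have h1 := ih (by omega) (t % b ^ p) (Nat.mod_lt _ hpos)
    obtain ⟨d, hd⟩ := Nat.exists_eq_add_of_le hq.le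
    have h2 := Nat.div_add_mod t (b ^ p)
    have : ((p + 1) * b) * X + t =
        (p * b * X + t % b ^ p) + (t / b ^ p) * (X + b ^ p) + d * X := by
      have e1 : ((p + 1) * b) * X = p * b * X + (t / b ^ p + d) * X := by rw [← hd]; ring
      rw [e1]
      nth_rewrite 2 [← h2]
      ring
    rw [this]
    exact add_mem (add_mem h1 (mul_mem' _ (Xi_mem (by omega)))) (mul_mem' _ X_mem)

theorem ge_m (hb : 1 ≤ b) (hX : m ≤ X) {v : ℕ} (hv : v ∈ SS m X b n) (h0 : v ≠ 0) : m ≤ v := by
  obtain ⟨L, c, j, σ, h1, h2, rfl⟩ := form hb hv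
  rcases Nat.eq_zero_or_pos j with rfl | hj
  · rcases Nat.eq_zero_or_pos L with rfl | hL
    · omega
    · have := Nat.mul_le_mul_right m hL
      omega
  · have := Nat.mul_le_mul_right X hj
    omega

theorem cofin (hm : 0 < m) : ((SS m X b n : Set ℕ))ᶜ.Finite := by
  refine (Set.finite_lt_nat (m * m)).subset ?_
  intro v hv
  by_contra h
  apply hv
  have h' : m * m ≤ v := by simpa using h
  have h1 := Nat.div_add_mod v m
  have h2 := Nat.mod_lt v hm
  have h3 : m ≤ v / m := (Nat.le_div_iff_mul_le hm).2 h'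
  have := two_mem (m := m) (X := X) (b := b) (n := n) (A := v / m) (c := v % m) (by omega)
  rw [mul_comm, h1] at this
  exact this

theorem tri {v : ℕ} (hv : v ∈ SS m X b n) : v = 0 ∨ v ∈ gens m X b n ∨
    ∃ a ∈ SS m X b n, ∃ c ∈ SS m X b n, a ≠ 0 ∧ c ≠ 0 ∧ a + c = v := by
  induction hv using AddSubmonoid.closure_induction with
  | mem x hx => exact Or.inr (Or.inl (by exact_mod_cast hx))
  | zero => exact Or.inl rfl
  | add x y hx' hy' hx hy =>
    by_cases h1 : x = 0
    · subst h1; simpa using hy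
    by_cases h2 : y = 0
    · subst h2; simpa using hx
    exact Or.inr (Or.inr ⟨x, hx', y, hy', h1, h2, rfl⟩)

theorem irr_eq {W N : ℕ} (hb : 1 ≤ b) (hm : 2 ≤ m) (hX : X = W * m + N) (hW : 1 ≤ W)
    (hWN : W < N) (hN : N + b ^ (n - 1) < m) :
    {x : ℕ | x ∈ SS m X b n ∧ x ≠ 0 ∧
      ¬ ∃ a ∈ SS m X b n, ∃ c ∈ SS m X b n, a ≠ 0 ∧ c ≠ 0 ∧ a + c = x} = gens m X b n := by
  have hmX : m ≤ X := by
    have := Nat.mul_le_mul_right m hW
    omega
  have key : ∀ γ ≤ b ^ (n - 1), ¬ ∃ a ∈ SS m X b n, ∃ c ∈ SS m X b n, a ≠ 0 ∧ c ≠ 0 ∧ a + c = X + γ := by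
    rintro γ hγ ⟨a, ha, c, hc, ha0, hc0, h⟩
    have h1 := ge_m hb hmX ha ha0
    have h2 := ge_m hb hmX hc hc0
    obtain ⟨L, d, j, σ, h3, h4, ea⟩ := form hb ha
    obtain ⟨L', d', j', σ', h3', h4', ec⟩ := form hb hc
    rcases Nat.eq_zero_or_pos j with rfl | hj
    · rcases Nat.eq_zero_or_pos j' with rfl | hj'
      · have e : (L + L') * m + (d + d') = W * m + (N + γ) := by rw [add_mul]; omega
        by_cases hl : L + L' ≤ W
        · have := Nat.mul_le_mul_right m hl
          omega
        · have := Nat.mul_le_mul_right m (show W + 1 ≤ L + L' by omega)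
          rw [add_mul W] at this
          omega
      · have := Nat.mul_le_mul_right X hj'
        omega
    · have := Nat.mul_le_mul_right X hj
      omega
  ext x
  simp only [Set.mem_ofPred_eq, Finset.mem_coe]
  constructor
  · rintro ⟨h1, h2, h3⟩
    rcases tri h1 with h | h | h
    · exact absurd h h2
    · exact h
    · exact absurd h h3
  · intro hx
    refine ⟨gen_mem hx, ?_, ?_⟩
    · rcases mem_gens.1 hx with h | h | h | ⟨i, hi, h⟩ <;> omega
    · rcases mem_gens.1 hx with h | h | h | ⟨i, hi, h⟩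
      · rintro ⟨a, ha, c, hc, ha0, hc0, e⟩
        have h1 := ge_m hb hmX ha ha0
        have h2 := ge_m hb hmX hc hc0
        omega
      · rintro ⟨a, ha, c, hc, ha0, hc0, e⟩
        have h1 := ge_m hb hmX ha ha0
        have h2 := ge_m hb hmX hc hc0
        omega
      · rw [h]; simpa using key 0 (Nat.zero_le _)
      · rw [← h]; exact key _ (Nat.pow_le_pow_right hb (by omega))

theorem card_gens (hb : 2 ≤ b) (hX : m + 1 < X) : #(gens m X b n) = n + 3 := by
  have hinj : Function.Injective (fun i => X + b ^ i) := by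
    intro i j h
    exact Nat.pow_right_injective hb (Nat.add_left_cancel h)
  have hp : ∀ i, 0 < b ^ i := fun i => by positivity
  unfold gens
  rw [card_insert_of_notMem, card_insert_of_notMem, card_insert_of_notMem,
    card_image_of_injective _ hinj, card_range]
  · simp only [mem_image, not_exists, not_and]
    intro i _ h
    have := hp i
    omega
  · simp only [mem_insert, mem_image, not_or, not_exists, not_and]
    refine ⟨by omega, fun i _ h => by omega⟩
  · simp only [mem_insert, mem_image, not_or, not_exists, not_and]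
    refine ⟨by omega, by omega, fun i _ h => by omega⟩

theorem pf_of_gens {x : ℕ} (h : ∀ g ∈ gens m X b n, x + g ∈ SS m X b n) :
    ∀ s ∈ SS m X b n, s ≠ 0 → x + s ∈ SS m X b n := by
  intro s hs
  induction hs using AddSubmonoid.closure_induction with
  | mem y hy => exact fun _ => h y (by exact_mod_cast hy)
  | zero => exact fun h => absurd rfl h
  | add y z hy' hz' hy hz =>
    intro _
    by_cases h1 : y = 0
    · subst h1; simp only [zero_add] at *; exact hz (by assumption)
    · rw [← add_assoc]; exact add_mem (hy h1) hz'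

theorem not_mem {W N k t x : ℕ} (hb : 1 ≤ b) (hX : X = W * m + N)
    (h1 : W + k * b ^ (n - 1) ≤ N) (h2 : k * N + t < m) (hx : x + m = k * X + t) : x ∉ SS m X b n := by
  intro hmem
  obtain ⟨L, c, j, σ, h3, h4, rfl⟩ := form hb hmem
  by_cases hj : k ≤ j
  · have := Nat.mul_le_mul_right X hj
    omega
  obtain ⟨δ, rfl⟩ : ∃ δ, k = j + (δ + 1) := ⟨k - j - 1, by omega⟩
  have e : (L + 1) * m + c + σ = ((δ + 1) * W) * m + (δ + 1) * N + t := by
    have : (j + (δ + 1)) * X = j * X + (((δ + 1) * W) * m + (δ + 1) * N) := by rw [hX]; ring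
    rw [add_mul L]
    omega
  have h5 : (δ + 1) * N ≤ (j + (δ + 1)) * N := Nat.mul_le_mul_right _ (by omega)
  by_cases hl : L + 1 ≤ (δ + 1) * W
  · have h6 := Nat.mul_le_mul_right m hl
    generalize b ^ (n - 1) = P at *
    have h7 : j * P ≤ (j + (δ + 1)) * P := Nat.mul_le_mul_right _ (by omega)
    have h8 : (δ + 1) * (W + (j + (δ + 1)) * P) ≤ (δ + 1) * N := Nat.mul_le_mul_left _ h1
    have h9 : (j + (δ + 1)) * P ≤ (δ + 1) * ((j + (δ + 1)) * P) :=
      Nat.le_mul_of_pos_left _ (by omega)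
    rw [mul_add] at h8
    omega
  · have := Nat.mul_le_mul_right m (show (δ + 1) * W + 1 ≤ L + 1 by omega)
    rw [add_mul ((δ + 1) * W)] at this
    omega

theorem lower (p b m : ℕ) (hb : 2 ≤ b) (hm : 2 * (p + 1) * (p + 4) * b ^ (p + 2) ≤ m) :
    ∃ S : AddSubmonoid ℕ, (S : Set ℕ)ᶜ.Finite ∧ (m ∈ S ∧ m ≠ 0 ∧ ∀ x ∈ S, x ≠ 0 → m ≤ x) ∧
      {x : ℕ | x ∈ S ∧ x ≠ 0 ∧ ¬ ∃ a ∈ S, ∃ c ∈ S, a ≠ 0 ∧ c ≠ 0 ∧ a + c = x}.ncard = p + 4 ∧
      b ^ (p + 1) - 1 ≤ {x : ℕ | x ∉ S ∧ ∀ s ∈ S, s ≠ 0 → x + s ∈ S}.ncard := by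
  set k := (p + 1) * b with hk
  set P := b ^ p with hP
  have hP1 : 1 ≤ P := Nat.one_le_pow _ _ (by omega)
  have hbp : b ≤ P * b := Nat.le_mul_of_pos_left _ hP1
  set W := b ^ (p + 1) with hW
  have hWP : W = P * b := by rw [hW, pow_succ]
  have hk2 : 2 ≤ k := le_trans hb (Nat.le_mul_of_pos_left _ (by omega))
  set q := m / (k + 1) with hq
  have hq1 : (p + 4) * W ≤ q := by
    rw [hq, Nat.le_div_iff_mul_le (by omega)]
    refine le_trans ?_ hm
    have : 2 * (p + 1) * (p + 4) * b ^ (p + 2) = (p + 4) * W * (2 * k) := by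
      rw [hW, hk]; ring
    rw [this]
    exact Nat.mul_le_mul_left _ (by omega)
  have hdm := Nat.div_add_mod m (k + 1)
  have hml := Nat.mod_lt m (show 0 < k + 1 by omega)
  rw [← hq] at hdm
  have hkP : k * P = (p + 1) * W := by rw [hk, hWP]; ring
  have hkW : k ≤ (p + 1) * W := by rw [hk, hWP]; exact Nat.mul_le_mul_left _ hbp
  have hPW : P ≤ W := by rw [hWP]; exact Nat.le_mul_of_pos_right _ (by omega)
  have hW2 : 2 ≤ W := by omega
  have e1 : (p + 4) * W = (p + 1) * W + 3 * W := by ring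
  have e2 : (k + 1) * q = k * q + q := by ring
  have e3 : k * (q + 1) = k * q + k := by ring
  have hqk : 2 * q ≤ k * q := Nat.mul_le_mul_right _ hk2
  set N := q + 1 with hN
  set X := W * m + N with hX
  have hWm : 2 * m ≤ W * m := Nat.mul_le_mul_right _ hW2
  have hb1 : 1 ≤ b := by omega
  refine ⟨SS m X b (p + 1), cofin (by omega), ⟨m_mem, by omega, fun x hx h0 =>
    ge_m hb1 (by omega) hx h0⟩, ?_, ?_⟩
  · rw [irr_eq hb1 (by omega) hX (by omega) (by omega) (by simp only [Nat.add_sub_cancel]; omega),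
      Set.ncard_coe_finset, card_gens hb (by omega)]
  · have hkX : m ≤ k * X := le_trans (by omega) (Nat.le_mul_of_pos_left X (show 0 < k by omega))
    have hfin : {x : ℕ | x ∉ SS m X b (p + 1) ∧
        ∀ s ∈ SS m X b (p + 1), s ≠ 0 → x + s ∈ SS m X b (p + 1)}.Finite :=
      (cofin (m := m) (X := X) (b := b) (n := p + 1) (by omega)).subset (fun x hx => hx.1)
    have hsub : (((range (W - 1)).image (fun t => k * X - m + t) : Finset ℕ) : Set ℕ) ⊆
        {x : ℕ | x ∉ SS m X b (p + 1) ∧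
        ∀ s ∈ SS m X b (p + 1), s ≠ 0 → x + s ∈ SS m X b (p + 1)} := by
      intro x hx
      simp only [coe_image, coe_range, Set.mem_image, Set.mem_Iio] at hx
      obtain ⟨t, ht, rfl⟩ := hx
      have hbig : ∀ γ ≤ P, k * X - m + t + (X + γ) ∈ SS m X b (p + 1) := by
        intro γ hγ
        have e4 : k * X = k * W * m + k * N := by rw [hX]; ring
        have e5 : (k + 1) * W * m = k * W * m + W * m := by ring
        have e6 : (k + 1) * W = k * W + W := by ring
        have e7 : k * 2 ≤ k * W := Nat.mul_le_mul_left _ hW2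
        have e8 : 2 * W ≤ k * W := Nat.mul_le_mul_right _ hk2
        have e9 : k + 1 + W + W ≤ k * W + W + 1 := by
          obtain ⟨u, hu⟩ := Nat.exists_eq_add_of_le hk2
          obtain ⟨v, hv⟩ := Nat.exists_eq_add_of_le hW2
          rw [hu, hv]
          nlinarith [Nat.zero_le (u * v)]
        have := two_mem (m := m) (X := X) (b := b) (n := p + 1) (A := (k + 1) * W)
          (c := k * N + N + t + γ - m) (by omega)
        convert this using 1
        omega
      refine ⟨not_mem (k := k) (t := t) hb1 hX (by simp only [Nat.add_sub_cancel]; rw [← hP]; omega)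
        (by omega) (by omega), pf_of_gens ?_⟩
      intro g hg
      rcases mem_gens.1 hg with h | h | h | ⟨i, hi, h⟩
      · have := digits (m := m) (X := X) hb1 (p + 1) le_rfl t (by omega)
        rw [← hk] at this
        convert this using 1
        omega
      · have := digits (m := m) (X := X) hb1 (p + 1) le_rfl (t + 1) (by omega)
        rw [← hk] at this
        convert this using 1
        omega
      · rw [h]; simpa using hbig 0 (Nat.zero_le _)
      · rw [← h]; exact hbig _ (Nat.pow_le_pow_right hb1 (by omega))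
    have := Set.ncard_le_ncard hsub hfin
    rwa [Set.ncard_coe_finset, card_image_of_injective _ (add_right_injective _), card_range]
      at this

end Pool.Agent.H1.TyL
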