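import Mathlib

set_option autoImplicit false
set_option linter.unusedSectionVars false
set_option linter.deprecated false

namespace Pool.Agent.H1.YdA

open scoped InnerProductSpace Matrix
open Finset

section Defs
variable {Ω : Type} [Fintype Ω]

/-- the indicator vector of a set of points (a column of an incidence matrix) -/
noncomputable def ind (a : Set Ω) : EuclideanSpace ℝ Ω := WithLp.toLp 2 (a.indicator 1)

/-- `V_F`, the span of the indicator vectors of the parts of `F` -/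
noncomputable def V (F : Setoid Ω) : Submodule ℝ (EuclideanSpace ℝ Ω) :=
  Submodule.span ℝ (ind '' F.classes)

/-- `P_L`, the orthogonal projection onto the sum of the `V_G`, `G ∈ L` -/
noncomputable def P (L : Set (Setoid Ω)) : EuclideanSpace ℝ Ω →L[ℝ] EuclideanSpace ℝ Ω :=
  (⨆ G ∈ L, V G).starProjection

/-- `Q_L = P_L - P_U`, with `U` the one-part partition -/
noncomputable def Q (L : Set (Setoid Ω)) : EuclideanSpace ℝ Ω →L[ℝ] EuclideanSpace ℝ Ω :=
  P L - P {⊤}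

/-- the `(a, b)` entry of `X_Fᵀ (I - P_L) X_F` -/
noncomputable def info (L : Set (Setoid Ω)) (a b : Set Ω) : ℝ := ⟪ind a, (1 - P L) (ind b)⟫_ℝ

/-- the mean entry of `N_{FG}` (its entries add up to `|Ω|`) -/
noncomputable def mean (F G : Setoid Ω) : ℝ :=
  (Fintype.card Ω : ℝ) / ((F.classes.ncard : ℝ) * (G.classes.ncard : ℝ))

open Classical in
/-- universal balance -/
def UB (H : Set (Setoid Ω)) : Prop :=
  (∀ F ∈ H, ∀ a ∈ F.classes, ∀ b ∈ F.classes, a.ncard = b.ncard) ∧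
  (∀ F ∈ H, ∀ G ∈ H, F ≠ G → ∀ a ∈ F.classes, ∀ b ∈ G.classes,
    ((a ∩ b).ncard : ℤ) = ⌊mean F G⌋ ∨ ((a ∩ b).ncard : ℤ) = ⌈mean F G⌉) ∧
  (∀ F ∈ H, ∀ L : Set (Setoid Ω), L.Nonempty → L ⊆ H \ {F} →
    (∃ α β : ℝ, ∀ a ∈ F.classes, ∀ b ∈ F.classes, info L a b = (if a = b then α else 0) + β) ∧
    (∃ a ∈ F.classes, ∃ b ∈ F.classes, info L a b ≠ 0) ∧
    ∃ μ : ℝ, 0 < μ ∧ μ < 1 ∧ Q {F} * Q L * Q {F} = μ • Q {F})

/-- an `n × m` Youden-type design -/
def Youden (n m : ℕ) (𝓕 𝓖 : Set (Setoid Ω)) : Prop :=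
  (∀ F ∈ 𝓕, F.classes.ncard = m ∧ ∀ a ∈ F.classes, a.ncard = n) ∧
  (∀ G ∈ 𝓖, G.classes.ncard = n ∧ ∀ a ∈ G.classes, a.ncard = m) ∧
  (∀ F ∈ 𝓕, ∀ G ∈ 𝓖, ∀ a ∈ F.classes, ∀ b ∈ G.classes, (a ∩ b).ncard = 1) ∧
  UB 𝓕 ∧ UB 𝓖

end Defs

variable {Ω : Type} [Fintype Ω] {ι κ : Type} [Fintype ι] [DecidableEq ι] [Fintype κ]
  [DecidableEq κ]

noncomputable def X (f : Ω → ι) (v : ι → ℝ) : EuclideanSpace ℝ Ω := WithLp.toLp 2 (fun ω => v (f ω))

def cnt (f : Ω → ι) (g : Ω → κ) (i : ι) (j : κ) : ℕ :=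
  (univ.filter fun ω => f ω = i ∧ g ω = j).card

def N (f : Ω → ι) (g : Ω → κ) : Matrix ι κ ℝ := fun i j => (cnt f g i j : ℝ)

def J (ι : Type) : Matrix ι ι ℝ := fun _ _ => 1

lemma inner_X (f : Ω → ι) (g : Ω → κ) (u : ι → ℝ) (v : κ → ℝ) :
    ⟪X f u, X g v⟫_ℝ = u ⬝ᵥ (N f g *ᵥ v) := by
  simp only [X, PiLp.inner_apply, dotProduct, Matrix.mulVec, N, cnt, card_filter, Nat.cast_sum,
    Finset.sum_mul, Finset.mul_sum]
  simp only [Finset.sum_comm (s := (univ : Finset κ)) (t := (univ : Finset Ω))]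
  rw [Finset.sum_comm]
  refine Finset.sum_congr rfl fun ω _ => ?_
  simp [ite_and, mul_comm]

omit [Fintype Ω] [Fintype ι] [DecidableEq ι] in
lemma mem_classes {f : Ω → ι} (hf : Function.Surjective f) (a : Set Ω) :
    a ∈ (Setoid.ker f).classes ↔ ∃ i, a = {ω | f ω = i} := by
  constructor
  · rintro ⟨y, rfl⟩
    exact ⟨f y, rfl⟩
  · rintro ⟨i, rfl⟩
    obtain ⟨y, rfl⟩ := hf i
    exact ⟨y, rfl⟩

omit [Fintype Ω] [Fintype ι] in
lemma ind_fib (f : Ω → ι) (i : ι) : ind {ω | f ω = i} = X f (Pi.single i 1) := by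
  ext ω
  by_cases h : f ω = i <;> simp [ind, X, h, Set.indicator, Pi.single_apply]

omit [Fintype Ω] [Fintype ι] [DecidableEq ι] in
lemma X_add (f : Ω → ι) (u v : ι → ℝ) : X f (u + v) = X f u + X f v := by
  ext ω; simp [X]

omit [Fintype Ω] [Fintype ι] [DecidableEq ι] in
lemma X_smul (f : Ω → ι) (c : ℝ) (v : ι → ℝ) : X f (c • v) = c • X f v := by
  ext ω; simp [X]

lemma X_mem {f : Ω → ι} (hf : Function.Surjective f) (v : ι → ℝ) :
    X f v ∈ V (Setoid.ker f) := by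
  have : X f v = ∑ i, v i • ind {ω | f ω = i} := by
    ext ω
    simp [ind_fib, X, Pi.single_apply]
  rw [this]
  exact Submodule.sum_mem _ fun i _ => Submodule.smul_mem _ _
    (Submodule.subset_span ⟨_, (mem_classes hf _).2 ⟨i, rfl⟩, rfl⟩)

lemma mem_V {f : Ω → ι} (hf : Function.Surjective f) {x : EuclideanSpace ℝ Ω}
    (hx : x ∈ V (Setoid.ker f)) : ∃ v, x = X f v := by
  induction hx using Submodule.span_induction with
  | mem x hx =>
    obtain ⟨a, ha, rfl⟩ := hx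
    obtain ⟨i, rfl⟩ := (mem_classes hf _).1 ha
    exact ⟨_, ind_fib f i⟩
  | zero => exact ⟨0, by ext ω; simp [X]⟩
  | add x y _ _ hx hy =>
    obtain ⟨u, rfl⟩ := hx
    obtain ⟨v, rfl⟩ := hy
    exact ⟨u + v, (X_add f u v).symm⟩
  | smul c x _ hx =>
    obtain ⟨u, rfl⟩ := hx
    exact ⟨c • u, (X_smul f c u).symm⟩

lemma V_top_le {f : Ω → ι} (hf : Function.Surjective f) : V ⊤ ≤ V (Setoid.ker f) := by
  refine Submodule.span_le.2 ?_
  rintro _ ⟨a, ⟨y, rfl⟩, rfl⟩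
  have : ind {x | (⊤ : Setoid Ω) x y} = X f 1 := by
    ext ω; simp [ind, X, Set.indicator]
  rw [this]
  exact X_mem hf 1

omit [Fintype ι] [DecidableEq ι] in
lemma one_mem_top [Nonempty Ω] (f : Ω → ι) : X f 1 ∈ V (⊤ : Setoid Ω) := by
  obtain ⟨y⟩ := ‹Nonempty Ω›
  refine Submodule.subset_span ⟨_, ⟨y, rfl⟩, ?_⟩
  ext ω; simp [ind, X, Set.indicator]

lemma P_single (F : Setoid Ω) : P {F} = (V F).starProjection := by
  unfold P
  congr 1
  simp

lemma proj2 {f g h : Ω → ι} (hg : Function.Surjective g) (hh : Function.Surjective h)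
    {U W : Matrix ι ι ℝ} (h1 : N g f = N g g * U + N g h * W) (h2 : N h f = N h g * U + N h h * W)
    (v : ι → ℝ) : (V (Setoid.ker g) ⊔ V (Setoid.ker h)).starProjection (X f v) =
      X g (U *ᵥ v) + X h (W *ᵥ v) := by
  refine Submodule.eq_starProjection_of_mem_of_inner_eq_zero
    (Submodule.add_mem_sup (X_mem hg _) (X_mem hh _)) fun w hw => ?_
  obtain ⟨a, ha, b, hb, rfl⟩ := Submodule.mem_sup.1 hw
  obtain ⟨a, rfl⟩ := mem_V hg ha
  obtain ⟨b, rfl⟩ := mem_V hh hb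
  rw [real_inner_comm]
  simp only [inner_add_left, inner_sub_right, inner_add_right, inner_X, h1, h2, Matrix.add_mulVec,
    Matrix.mulVec_mulVec, dotProduct_add]
  ring

lemma J_form (u v : ι → ℝ) : u ⬝ᵥ (J ι *ᵥ v) = (∑ i, u i) * ∑ i, v i := by
  simp [J, dotProduct, Matrix.mulVec, Finset.sum_mul]

open Classical in
lemma cond3 [Nonempty Ω] [Nontrivial ι] {f g h : Ω → ι} (hf : Function.Surjective f)
    (hg : Function.Surjective g) (hh : Function.Surjective h) {k α β : ℝ}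
    (hk : N f f = k • (1 : Matrix ι ι ℝ)) (hα : 0 < α) (hαk : α < k)
    {U W : Matrix ι ι ℝ} (h1 : N g f = N g g * U + N g h * W) (h2 : N h f = N h g * U + N h h * W)
    (h3 : N f g * U + N f h * W = (k - α) • (1 : Matrix ι ι ℝ) - β • J ι)
    {L : Set (Setoid Ω)} (hL : ⨆ G ∈ L, V G = V (Setoid.ker g) ⊔ V (Setoid.ker h)) :
    (∃ α β : ℝ, ∀ a ∈ (Setoid.ker f).classes, ∀ b ∈ (Setoid.ker f).classes,
      info L a b = (if a = b then α else 0) + β) ∧
    (∃ a ∈ (Setoid.ker f).classes, ∃ b ∈ (Setoid.ker f).classes, info L a b ≠ 0) ∧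
    ∃ μ : ℝ, 0 < μ ∧ μ < 1 ∧
      Q {Setoid.ker f} * Q L * Q {Setoid.ker f} = μ • Q {Setoid.ker f} := by
  have hP : P L = (V (Setoid.ker g) ⊔ V (Setoid.ker h)).starProjection := by
    unfold P
    congr 1
  have hs : ∀ u v, ⟪X f u, P L (X f v)⟫_ℝ = (k - α) * (u ⬝ᵥ v) - β * ((∑ i, u i) * ∑ i, v i) := by
    intro u v
    rw [hP, proj2 hg hh h1 h2, inner_add_right, inner_X, inner_X, Matrix.mulVec_mulVec,
      Matrix.mulVec_mulVec, ← dotProduct_add, ← Matrix.add_mulVec, h3, Matrix.sub_mulVec,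
      dotProduct_sub, Matrix.smul_mulVec, Matrix.smul_mulVec, dotProduct_smul, dotProduct_smul,
      J_form, Matrix.one_mulVec]
    rfl
  have hff : ∀ u v, ⟪X f u, X f v⟫_ℝ = k * (u ⬝ᵥ v) := by
    intro u v
    rw [inner_X, hk, Matrix.smul_mulVec, dotProduct_smul, Matrix.one_mulVec]
    rfl
  have hinfo : ∀ i j, info L {ω | f ω = i} {ω | f ω = j} = (if i = j then α else 0) + β := by
    intro i j
    rw [info, ind_fib, ind_fib, ContinuousLinearMap.sub_apply, ContinuousLinearMap.one_apply,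
      inner_sub_right, hs, hff]
    by_cases hij : i = j
    · subst hij; simp; ring
    · simp [hij, Pi.single_apply, Ne.symm hij]
  have hfib : ∀ i j, ({ω | f ω = i} : Set Ω) = {ω | f ω = j} ↔ i = j := by
    intro i j
    refine ⟨fun e => ?_, fun e => by rw [e]⟩
    obtain ⟨y, rfl⟩ := hf i
    have : y ∈ ({ω | f ω = f y} : Set Ω) := rfl
    rw [e] at this
    exact this
  refine ⟨⟨α, β, fun a ha b hb => ?_⟩, ?_, (k - α) / k, div_pos (by linarith) (by linarith),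
    (div_lt_one (by linarith)).2 (by linarith), ?_⟩
  · obtain ⟨i, rfl⟩ := (mem_classes hf _).1 ha
    obtain ⟨j, rfl⟩ := (mem_classes hf _).1 hb
    rw [hinfo]
    simp only [hfib]
  · obtain ⟨i, j, hij⟩ := exists_pair_ne ι
    by_cases hb : β = 0
    · refine ⟨_, (mem_classes hf _).2 ⟨i, rfl⟩, _, (mem_classes hf _).2 ⟨i, rfl⟩, ?_⟩
      rw [hinfo]; simp [hb, hα.ne']
    · refine ⟨_, (mem_classes hf _).2 ⟨i, rfl⟩, _, (mem_classes hf _).2 ⟨j, rfl⟩, ?_⟩
      rw [hinfo]; simp [hb, hij]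
  · have hk0 : k ≠ 0 := by linarith
    have up : ∀ x, P {⊤} (P {Setoid.ker f} x) = P {⊤} x := by
      intro x
      rw [P_single, P_single]
      exact congrArg (fun T : EuclideanSpace ℝ Ω →L[ℝ] EuclideanSpace ℝ Ω => T x)
        (Submodule.starProjection_comp_starProjection_of_le (V_top_le hf))
    have us : ∀ x, P {⊤} (P L x) = P {⊤} x := by
      intro x
      rw [P_single, hP]
      exact congrArg (fun T : EuclideanSpace ℝ Ω →L[ℝ] EuclideanSpace ℝ Ω => T x)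
        (Submodule.starProjection_comp_starProjection_of_le ((V_top_le hg).trans le_sup_left))
    have uu : ∀ x, P {⊤} (P {⊤} x) = P {(⊤ : Setoid Ω)} x := by
      intro x
      rw [P_single]
      exact Submodule.starProjection_eq_self_iff.2 (Submodule.starProjection_apply_mem _ _)
    ext1 x
    have hy : Q {Setoid.ker f} x ∈ V (Setoid.ker f) := by
      rw [Q, ContinuousLinearMap.sub_apply, P_single, P_single]
      exact Submodule.sub_mem _ (Submodule.starProjection_apply_mem _ _)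
        (V_top_le hf (Submodule.starProjection_apply_mem _ _))
    have uy : P {⊤} (Q {Setoid.ker f} x) = 0 := by
      rw [Q, ContinuousLinearMap.sub_apply, map_sub, up, uu, sub_self]
    rw [ContinuousLinearMap.mul_apply, ContinuousLinearMap.mul_apply,
      ContinuousLinearMap.smul_apply]
    obtain ⟨v, hv⟩ := mem_V hf hy
    rw [hv] at uy ⊢
    have hsum : ∑ i, v i = 0 := by
      rw [P_single, Submodule.starProjection_apply_eq_zero_iff] at uy
      have := Submodule.inner_right_of_mem_orthogonal (one_mem_top f) uy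
      rw [hff] at this
      simpa [hk0, dotProduct] using this
    rw [Q, Q, ContinuousLinearMap.sub_apply, ContinuousLinearMap.sub_apply, uy, sub_zero, us, uy,
      sub_zero, P_single]
    refine Submodule.eq_starProjection_of_mem_of_inner_eq_zero
      (Submodule.smul_mem _ _ (X_mem hf _)) fun w hw => ?_
    obtain ⟨w, rfl⟩ := mem_V hf hw
    rw [real_inner_comm, inner_sub_right, hs, real_inner_smul_right, hff, hsum]
    field_simp
    ring

lemma ncard_inter (f : Ω → ι) (g : Ω → κ) (i : ι) (j : κ) :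
    ({ω | f ω = i} ∩ {ω | g ω = j} : Set Ω).ncard = cnt f g i j := by
  rw [cnt, ← Set.ncard_coe_finset]
  congr 1
  ext ω
  simp

lemma ncard_fib (f : Ω → ι) (i : ι) : ({ω | f ω = i} : Set Ω).ncard = cnt f f i i := by
  rw [← ncard_inter, Set.inter_self]

lemma classes_ncard {f : Ω → ι} (hf : Function.Surjective f) :
    (Setoid.ker f).classes.ncard = Fintype.card ι := by
  have h : (Setoid.ker f).classes = Set.range fun i => ({ω | f ω = i} : Set Ω) := by
    ext a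
    rw [mem_classes hf]
    exact ⟨fun ⟨i, h⟩ => ⟨i, h.symm⟩, fun ⟨i, h⟩ => ⟨i, h.symm⟩⟩
  rw [h, Set.ncard_range_of_injective, Nat.card_eq_fintype_card]
  intro i j e
  obtain ⟨y, rfl⟩ := hf i
  have : y ∈ ({ω | f ω = f y} : Set Ω) := rfl
  have e' : ({ω | f ω = f y} : Set Ω) = {ω | f ω = j} := e
  rw [e'] at this
  exact this

lemma cnt_comm (f : Ω → ι) (g : Ω → κ) (i : ι) (j : κ) : cnt g f j i = cnt f g i j := by
  simp only [cnt, and_comm]

lemma N_T (f : Ω → ι) (g : Ω → κ) : N g f = (N f g)ᵀ := by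
  ext j i
  simp [N, cnt_comm f g]

lemma surj_of {f : Ω → ι} {k : ℕ} (hk : k ≠ 0) (h : ∀ i, cnt f f i i = k) :
    Function.Surjective f := by
  intro i
  have : (univ.filter fun ω => f ω = i ∧ f ω = i).card ≠ 0 := by
    have := h i
    rw [cnt] at this
    omega
  obtain ⟨ω, hω⟩ := Finset.card_ne_zero.1 this
  exact ⟨ω, (Finset.mem_filter.1 hω).2.1⟩

lemma N_self {f : Ω → ι} {k : ℕ} (h : ∀ i, cnt f f i i = k) :
    N f f = (k : ℝ) • (1 : Matrix ι ι ℝ) := by
  ext i j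
  by_cases hij : i = j
  · subst hij; simp [N, h]
  · have : cnt f f i j = 0 := by
      rw [cnt, Finset.card_eq_zero, Finset.filter_eq_empty_iff]
      rintro ω - ⟨h1, h2⟩
      exact hij (h1.symm.trans h2)
    simp [N, this, hij]

open Classical in
def C3 (F : Setoid Ω) (L : Set (Setoid Ω)) : Prop :=
  (∃ α β : ℝ, ∀ a ∈ F.classes, ∀ b ∈ F.classes, info L a b = (if a = b then α else 0) + β) ∧
    (∃ a ∈ F.classes, ∃ b ∈ F.classes, info L a b ≠ 0) ∧
    ∃ μ : ℝ, 0 < μ ∧ μ < 1 ∧ Q {F} * Q L * Q {F} = μ • Q {F}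

lemma tri {F G H : Setoid Ω} (h1 : C3 F {G}) (h2 : C3 F {H}) (h3 : C3 F {G, H})
    {L : Set (Setoid Ω)} (hn : L.Nonempty) (hL : L ⊆ {G, H}) : C3 F L := by
  by_cases a : G ∈ L <;> by_cases b : H ∈ L
  · have : L = {G, H} := Set.Subset.antisymm hL (by
      rintro x (rfl | rfl) <;> assumption)
    rwa [this]
  · have : L = {G} := Set.Subset.antisymm (fun x hx => by
      rcases hL hx with rfl | rfl
      · rfl
      · exact absurd hx b) (by rintro x rfl; assumption)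
    rwa [this]
  · have : L = {H} := Set.Subset.antisymm (fun x hx => by
      rcases hL hx with rfl | rfl
      · exact absurd hx a
      · rfl) (by rintro x rfl; assumption)
    rwa [this]
  · obtain ⟨x, hx⟩ := hn
    rcases hL hx with rfl | rfl
    · exact absurd hx a
    · exact absurd hx b

lemma C3_one [Nonempty Ω] [Nontrivial ι] {f g : Ω → ι} {k : ℕ} (hk : k ≠ 0)
    (hf : ∀ i, cnt f f i i = k) (hg : ∀ i, cnt g g i i = k) {α β : ℝ} (hα : 0 < α) (hαk : α < k)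
    (h3 : N f g * N g f = (k : ℝ) • (((k : ℝ) - α) • (1 : Matrix ι ι ℝ) - β • J ι)) :
    C3 (Setoid.ker f) {Setoid.ker g} := by
  have hk' : (k : ℝ) ≠ 0 := by exact_mod_cast hk
  have h1 : N g f = N g g * ((k : ℝ)⁻¹ • N g f) + N g g * 0 := by
    rw [N_self hg]
    simp [smul_smul, hk']
  refine cond3 (surj_of hk hf) (surj_of hk hg) (surj_of hk hg) (N_self hf) hα hαk (β := β) h1 h1
    ?_ (by simp)
  rw [Matrix.mul_smul, h3]
  simp [smul_smul, hk']

lemma C3_two [Nonempty Ω] [Nontrivial ι] {f g h : Ω → ι} {k : ℕ} (hk : k ≠ 0)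
    (hf : ∀ i, cnt f f i i = k) (hg : ∀ i, cnt g g i i = k) (hh : ∀ i, cnt h h i i = k)
    {α β : ℝ} (hα : 0 < α) (hαk : α < k) {U W : Matrix ι ι ℝ}
    (h1 : N g f = (k : ℝ) • U + N g h * W) (h2 : N h f = N h g * U + (k : ℝ) • W)
    (h3 : N f g * U + N f h * W = (k - α) • (1 : Matrix ι ι ℝ) - β • J ι) :
    C3 (Setoid.ker f) {Setoid.ker g, Setoid.ker h} := by
  refine cond3 (surj_of hk hf) (surj_of hk hg) (surj_of hk hh) (N_self hf) hα hαk (β := β)
    (U := U) (W := W) ?_ ?_ h3 ?_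
  · rw [N_self hg, h1]; simp
  · rw [N_self hh, h2]; simp
  · rw [iSup_pair]

lemma UB3 {f g h : Ω → ι} {k : ℕ} (hk : k ≠ 0)
    (hf : ∀ i, cnt f f i i = k) (hg : ∀ i, cnt g g i i = k) (hh : ∀ i, cnt h h i i = k)
    {lo : ℕ} (hlo : ⌊(Fintype.card Ω : ℝ) / ((Fintype.card ι : ℝ) * (Fintype.card ι : ℝ))⌋ = lo)
    (hhi : ⌈(Fintype.card Ω : ℝ) / ((Fintype.card ι : ℝ) * (Fintype.card ι : ℝ))⌉ = lo + 1)
    (hfg : ∀ i j, cnt f g i j = lo ∨ cnt f g i j = lo + 1)
    (hgh : ∀ i j, cnt g h i j = lo ∨ cnt g h i j = lo + 1)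
    (hhf : ∀ i j, cnt h f i j = lo ∨ cnt h f i j = lo + 1)
    (c1 : ∀ L : Set (Setoid Ω), L.Nonempty → L ⊆ {Setoid.ker g, Setoid.ker h} → C3 (Setoid.ker f) L)
    (c2 : ∀ L : Set (Setoid Ω), L.Nonempty → L ⊆ {Setoid.ker h, Setoid.ker f} → C3 (Setoid.ker g) L)
    (c3 : ∀ L : Set (Setoid Ω), L.Nonempty → L ⊆ {Setoid.ker f, Setoid.ker g} → C3 (Setoid.ker h) L) :
    UB {Setoid.ker f, Setoid.ker g, Setoid.ker h} := by
  have sf := surj_of hk hf
  have sg := surj_of hk hg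
  have sh := surj_of hk hh
  have u : ∀ p : Ω → ι, (∀ i, cnt p p i i = k) → ∀ a ∈ (Setoid.ker p).classes,
      ∀ b ∈ (Setoid.ker p).classes, a.ncard = b.ncard := by
    intro p hp a ha b hb
    obtain ⟨i, rfl⟩ := (mem_classes (surj_of hk hp) _).1 ha
    obtain ⟨j, rfl⟩ := (mem_classes (surj_of hk hp) _).1 hb
    rw [ncard_fib, ncard_fib, hp, hp]
  have w : ∀ p q : Ω → ι, Function.Surjective p → Function.Surjective q →
      (∀ i j, cnt p q i j = lo ∨ cnt p q i j = lo + 1) → ∀ a ∈ (Setoid.ker p).classes,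
      ∀ b ∈ (Setoid.ker q).classes, ((a ∩ b).ncard : ℤ) = ⌊mean (Setoid.ker p) (Setoid.ker q)⌋ ∨
        ((a ∩ b).ncard : ℤ) = ⌈mean (Setoid.ker p) (Setoid.ker q)⌉ := by
    intro p q sp sq hpq a ha b hb
    obtain ⟨i, rfl⟩ := (mem_classes sp _).1 ha
    obtain ⟨j, rfl⟩ := (mem_classes sq _).1 hb
    rw [ncard_inter, mean, classes_ncard sp, classes_ncard sq, hlo, hhi]
    exact_mod_cast hpq i j
  have sw : ∀ p q : Ω → ι, (∀ i j, cnt p q i j = lo ∨ cnt p q i j = lo + 1) →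
      ∀ i j, cnt q p i j = lo ∨ cnt q p i j = lo + 1 := by
    intro p q hpq i j
    rw [cnt_comm p q]
    exact hpq j i
  refine ⟨?_, ?_, ?_⟩
  · rintro F (rfl | rfl | rfl)
    exacts [u f hf, u g hg, u h hh]
  · rintro F (rfl | rfl | rfl) G (rfl | rfl | rfl) hne
    exacts [absurd rfl hne, w f g sf sg hfg, w f h sf sh (sw _ _ hhf), w g f sg sf (sw _ _ hfg),
      absurd rfl hne, w g h sg sh hgh, w h f sh sf hhf, w h g sh sg (sw _ _ hgh), absurd rfl hne]
  · rintro F (rfl | rfl | rfl) L hn hL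
    · refine c1 L hn fun x hx => ?_
      obtain ⟨h1 | h1 | h1, h2⟩ := hL hx
      exacts [absurd h1 h2, Or.inl h1, Or.inr h1]
    · refine c2 L hn fun x hx => ?_
      obtain ⟨h1 | h1 | h1, h2⟩ := hL hx
      exacts [Or.inr h1, absurd h1 h2, Or.inl h1]
    · refine c3 L hn fun x hx => ?_
      obtain ⟨h1 | h1 | h1, h2⟩ := hL hx
      exacts [Or.inl h1, Or.inr h1, absurd h1 h2]

end Pool.Agent.H1.YdA
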