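import Pool.Agent.H1.YdB

set_option autoImplicit false

namespace Pool.Agent.H1.YdC

open Pool.Agent.H1.YdA Pool.Agent.H1.YdB
open scoped Matrix

def A : Matrix (Fin 23) (Fin 23) ℝ := fun i j => (a i j : ℝ)

lemma AT : Aᵀ = J (Fin 23) - 1 - A := by
  ext i j
  have := congrArg (Nat.cast : ℕ → ℝ) (aT i j)
  push_cast at this
  simp only [A, J, Matrix.transpose_apply, Matrix.sub_apply, Matrix.one_apply]
  linarith

lemma AA : A * A = (6 : ℝ) • J (Fin 23) - (6 : ℝ) • (1 : Matrix (Fin 23) (Fin 23) ℝ) - A := by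
  ext i j
  have := congrArg (Nat.cast : ℕ → ℝ) (aa i j)
  push_cast at this
  simp only [A, J, Matrix.mul_apply, Matrix.sub_apply, Matrix.one_apply, Matrix.smul_apply,
    smul_eq_mul]
  split_ifs at this ⊢ <;> linarith

lemma AJ : A * J (Fin 23) = (11 : ℝ) • J (Fin 23) := by
  ext i j
  have := congrArg (Nat.cast : ℕ → ℝ) (ar i)
  push_cast at this
  simp only [A, J, Matrix.mul_apply, Matrix.smul_apply, smul_eq_mul, mul_one]
  exact this

lemma JA : J (Fin 23) * A = (11 : ℝ) • J (Fin 23) := by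
  ext i j
  have := congrArg (Nat.cast : ℕ → ℝ) (ac j)
  push_cast at this
  simp only [A, J, Matrix.mul_apply, Matrix.smul_apply, smul_eq_mul, mul_one, one_mul]
  exact this

lemma JJ (n : ℕ) : J (Fin n) * J (Fin n) = (n : ℝ) • J (Fin n) := by
  ext i j
  simp [J, Matrix.mul_apply]

lemma triF {f g h : Fin 253 → Fin 23} (hf : ∀ i, cnt f f i i = 11) (hg : ∀ i, cnt g g i i = 11)
    (hh : ∀ i, cnt h h i i = 11) (e1 : ∀ i j, cnt f g i j = a i j)
    (e2 : ∀ i j, cnt g h i j = a i j) (e3 : ∀ i j, cnt h f i j = a i j) :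
    ∀ L : Set (Setoid (Fin 253)), L.Nonempty → L ⊆ {Setoid.ker g, Setoid.ker h} →
      C3 (Setoid.ker f) L := by
  have n1 : N f g = A := by ext i j; simp [N, A, e1]
  have n2 : N g h = A := by ext i j; simp [N, A, e2]
  have n3 : N h f = A := by ext i j; simp [N, A, e3]
  have m1 : N g f = J (Fin 23) - 1 - A := by rw [N_T, n1, AT]
  have m2 : N h g = J (Fin 23) - 1 - A := by rw [N_T, n2, AT]
  have m3 : N f h = J (Fin 23) - 1 - A := by rw [N_T, n3, AT]
  intro L hn hL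
  refine tri ?_ ?_ ?_ hn hL
  · refine C3_one (by norm_num) hf hg (α := 115 / 11) (β := -5 / 11) (by norm_num) (by norm_num) ?_
    rw [n1, m1]
    simp only [mul_sub, sub_mul, mul_one, one_mul, AA, AJ, JA, JJ]
    push_cast
    module
  · refine C3_one (by norm_num) hf hh (α := 115 / 11) (β := -5 / 11) (by norm_num) (by norm_num) ?_
    rw [n3, m3]
    simp only [mul_sub, sub_mul, mul_one, one_mul, AA, AJ, JA, JJ]
    push_cast
    module
  · refine C3_two (by norm_num) hf hg hh (α := 10) (β := -10 / 23) (by norm_num) (by norm_num)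
      (U := (1 / 23 : ℝ) • J (Fin 23) - (1 / 23 : ℝ) • (1 : Matrix (Fin 23) (Fin 23) ℝ) -
        (2 / 23 : ℝ) • A)
      (W := (1 / 23 : ℝ) • (1 : Matrix (Fin 23) (Fin 23) ℝ) + (2 / 23 : ℝ) • A) ?_ ?_ ?_ <;>
    · simp only [n1, n2, n3, m1, m2, m3, mul_sub, sub_mul, mul_add, add_mul, mul_one, one_mul,
        Matrix.mul_smul, Matrix.smul_mul, AA, AJ, JA, JJ]
      push_cast
      module

lemma triG {f g h : Fin 253 → Fin 11} (hf : ∀ i, cnt f f i i = 23) (hg : ∀ i, cnt g g i i = 23)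
    (hh : ∀ i, cnt h h i i = 23) (e1 : ∀ i j, cnt f g i j = if i = j then 3 else 2)
    (e2 : ∀ i j, cnt g h i j = if i = j then 3 else 2)
    (e3 : ∀ i j, cnt h f i j = if i = j then 3 else 2) :
    ∀ L : Set (Setoid (Fin 253)), L.Nonempty → L ⊆ {Setoid.ker g, Setoid.ker h} →
      C3 (Setoid.ker f) L := by
  have k : ∀ p q : Fin 253 → Fin 11, (∀ i j, cnt p q i j = if i = j then 3 else 2) →
      N p q = (2 : ℝ) • J (Fin 11) + 1 ∧ N q p = (2 : ℝ) • J (Fin 11) + 1 := by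
    intro p q e
    constructor <;> ext i j
    · by_cases hij : i = j <;> simp [N, J, e, hij, Matrix.one_apply]; norm_num
    · by_cases hij : i = j <;> simp [N, J, cnt_comm p q, e, hij, Ne.symm, eq_comm, Matrix.one_apply]
      norm_num
  obtain ⟨n1, m1⟩ := k _ _ e1
  obtain ⟨n2, m2⟩ := k _ _ e2
  obtain ⟨n3, m3⟩ := k _ _ e3
  intro L hn hL
  refine tri ?_ ?_ ?_ hn hL
  · refine C3_one (by norm_num) hf hg (α := 528 / 23) (β := -48 / 23) (by norm_num) (by norm_num) ?_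
    simp only [n1, m1, mul_add, add_mul, mul_one, one_mul, Matrix.mul_smul, Matrix.smul_mul, JJ]
    push_cast
    module
  · refine C3_one (by norm_num) hf hh (α := 528 / 23) (β := -48 / 23) (by norm_num) (by norm_num) ?_
    simp only [n3, m3, mul_add, add_mul, mul_one, one_mul, Matrix.mul_smul, Matrix.smul_mul, JJ]
    push_cast
    module
  · refine C3_two (by norm_num) hf hg hh (α := 275 / 12) (β := -25 / 12) (by norm_num) (by norm_num)
      (U := (1 / 12 : ℝ) • J (Fin 11) + (1 / 24 : ℝ) • (1 : Matrix (Fin 11) (Fin 11) ℝ))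
      (W := (1 / 24 : ℝ) • (1 : Matrix (Fin 11) (Fin 11) ℝ)) ?_ ?_ ?_ <;>
    · simp only [n1, n2, n3, m1, m2, m3, mul_add, add_mul, mul_one, one_mul,
        Matrix.mul_smul, Matrix.smul_mul, JJ]
      push_cast
      module

lemma ubF : UB {Setoid.ker f1, Setoid.ker f2, Setoid.ker f3} := by
  refine UB3 (by norm_num) fs1 fs2 fs3 (lo := 0) ?_ ?_ (fun i j => by rw [ff1]; exact a01 i j)
    (fun i j => by rw [ff2]; exact a01 i j) (fun i j => by rw [ff3]; exact a01 i j)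
    (triF fs1 fs2 fs3 ff1 ff2 ff3) (triF fs2 fs3 fs1 ff2 ff3 ff1) (triF fs3 fs1 fs2 ff3 ff1 ff2)
  · rw [Int.floor_eq_iff]; norm_num
  · rw [Int.ceil_eq_iff]; norm_num

lemma ubG : UB {Setoid.ker g1, Setoid.ker g2, Setoid.ker g3} := by
  refine UB3 (by norm_num) gs1 gs2 gs3 (lo := 2) ?_ ?_
    (fun i j => by rw [gg1]; split_ifs <;> simp) (fun i j => by rw [gg2]; split_ifs <;> simp)
    (fun i j => by rw [gg3]; split_ifs <;> simp)
    (triG gs1 gs2 gs3 gg1 gg2 gg3) (triG gs2 gs3 gs1 gg2 gg3 gg1) (triG gs3 gs1 gs2 gg3 gg1 gg2)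
  · rw [Int.floor_eq_iff]; norm_num
  · rw [Int.ceil_eq_iff]; norm_num

lemma ker_ne {ι : Type} {p q : Fin 253 → ι} (x y : Fin 253) (h1 : p x = p y) (h2 : q x ≠ q y) :
    Setoid.ker p ≠ Setoid.ker q := by
  intro e
  have : Setoid.ker p x y := h1
  rw [e] at this
  exact h2 this

lemma perp {p : Fin 253 → Fin 23} {q : Fin 253 → Fin 11} (hp : ∀ i, cnt p p i i = 11)
    (hq : ∀ i, cnt q q i i = 23) (h : ∀ i j, cnt p q i j = 1) :
    ∀ a ∈ (Setoid.ker p).classes, ∀ b ∈ (Setoid.ker q).classes, (a ∩ b).ncard = 1 := by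
  intro a ha b hb
  obtain ⟨i, rfl⟩ := (mem_classes (surj_of (by norm_num) hp) _).1 ha
  obtain ⟨j, rfl⟩ := (mem_classes (surj_of (by norm_num) hq) _).1 hb
  rw [ncard_inter, h]

lemma shape {n k : ℕ} (hk : k ≠ 0) {p : Fin 253 → Fin n} (hp : ∀ i, cnt p p i i = k) :
    (Setoid.ker p).classes.ncard = n ∧ ∀ a ∈ (Setoid.ker p).classes, a.ncard = k := by
  refine ⟨by rw [classes_ncard (surj_of hk hp), Fintype.card_fin], fun a ha => ?_⟩
  obtain ⟨i, rfl⟩ := (mem_classes (surj_of hk hp) _).1 ha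
  rw [ncard_fib, hp]

theorem youden : Youden 11 23 {Setoid.ker f1, Setoid.ker f2, Setoid.ker f3}
    {Setoid.ker g1, Setoid.ker g2, Setoid.ker g3} := by
  refine ⟨?_, ?_, ?_, ubF, ubG⟩
  · rintro F (rfl | rfl | rfl)
    exacts [shape (by norm_num) fs1, shape (by norm_num) fs2, shape (by norm_num) fs3]
  · rintro F (rfl | rfl | rfl)
    exacts [shape (by norm_num) gs1, shape (by norm_num) gs2, shape (by norm_num) gs3]
  · rintro F (rfl | rfl | rfl) G (rfl | rfl | rfl)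
    exacts [perp fs1 gs1 fg11, perp fs1 gs2 fg12, perp fs1 gs3 fg13, perp fs2 gs1 fg21,
      perp fs2 gs2 fg22, perp fs2 gs3 fg23, perp fs3 gs1 fg31, perp fs3 gs2 fg32,
      perp fs3 gs3 fg33]

end Pool.Agent.H1.YdC
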